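import Pool.Agent.P.MP_6b6f6e_co.Geo

/-! Validity of the table of box forms, lattice tests and the crude bound on lattice points. -/

set_option exponentiation.threshold 600

namespace Pool.Agent.P.MP_6b6f6e_co

open Finset

theorem ind_le (I : ℕ) (i : Fin 4) : ind I i ≤ 1 := by unfold ind; omega

theorem ind_cast (I : ℕ) (i : Fin 4) : ((1 - ind I i : ℕ) : ℤ) = 1 - ind I i := by
  have := ind_le I i; omega

theorem ind_add : ∀ I : Fin 16, ∀ i, ind (16 + I.val) i = ind I i := by decide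

theorem ind_zero (i : Fin 4) : ind 0 i = 0 := by simp [ind]

theorem ind_ex : ∀ I : Fin 16, I.val ≠ 0 → ∃ i, ind I i = 1 := by decide

section
variable {G : Type} [AddCommGroup G] {X : Fin 10 → G}

def xG (A : Fin 4 → G) (j : Fin 4) (I : ℕ) : G :=
  (ind I j : ℤ) • ∑ i, ((1 - ind I i : ℕ) : ℤ) • A i
def yG (A : Fin 4 → G) (j : Fin 4) (I : ℕ) : G :=
  ((1 - ind I j : ℕ) : ℤ) • ∑ i, (ind I i : ℤ) • A i
def rho (A : Fin 4 → G) (I : ℕ) : G := ∑ i, (ind I i : ℤ) • A i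

theorem xN_rb {a : Fin 4 → ℕ} {A : Fin 4 → G} (h : ∀ i, RB X (a i) (A i) 3) (j : Fin 4) (I : ℕ) :
    RB X (xN a j I) (xG A j I) 12 :=
  ((RB.sum4 fun i => ((h i).mul (1 - ind I i)).congr rfl (m := 3) (by omega)).mul (ind I j)).congr
    rfl (by have := ind_le I j; omega)

theorem yN_rb {a : Fin 4 → ℕ} {A : Fin 4 → G} (h : ∀ i, RB X (a i) (A i) 3) (j : Fin 4) (I : ℕ) :
    RB X (yN a j I) (yG A j I) 12 :=
  ((RB.sum4 fun i => ((h i).mul (ind I i)).congr rfl (m := 3)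
    (by have := ind_le I i; omega)).mul (1 - ind I j)).congr rfl (by omega)

variable [LinearOrder G] [IsOrderedAddMonoid G]

theorem col_le {A : Fin 4 → G} {j : Fin 4} (h1 : ∀ i, i ≠ j → A i ≤ 0) (h2 : ∑ i, A i = 0)
    (I l h : ℕ) (w : ℤ) (hl : cv l ≤ w) (hh : w ≤ cv h) :
    -(w • rho A I) ≤ (l : ℤ) • xG A j I + (h : ℤ) • yG (fun i => -A i) j I
      + ((55440 : ℕ) : ℤ) • (xG (fun i => -A i) j I + yG A j I) := by
  have e1 : xG (fun i => -A i) j I = -xG A j I := by simp [xG]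
  have e2 : yG (fun i => -A i) j I = -yG A j I := by simp [yG]
  have e3 : xG A j I - yG A j I = -rho A I := by
    have h3 : A 0 = -A 1 - A 2 - A 3 := by
      rw [Fin.sum_univ_four] at h2
      rw [← sub_eq_zero, ← h2]; abel
    have h4 : ind I j = 0 ∨ ind I j = 1 := by have := ind_le I j; omega
    simp only [xG, yG, rho, ind_cast, Fin.sum_univ_four]
    rcases h4 with h4 | h4 <;> rw [h4, h3] <;> module
  have x0 : xG A j I ≤ 0 := by
    have h4 : ind I j = 0 ∨ ind I j = 1 := by have := ind_le I j; omega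
    unfold xG
    rcases h4 with h4 | h4
    · rw [h4]; simp
    · refine smul_nonpos_of_nonneg_of_nonpos (by positivity) (Finset.sum_nonpos fun i _ => ?_)
      by_cases hi : i = j
      · rw [hi, h4]; simp
      · exact smul_nonpos_of_nonneg_of_nonpos (by positivity) (h1 i hi)
  have y0 : yG A j I ≤ 0 := by
    have h4 : ind I j = 0 ∨ ind I j = 1 := by have := ind_le I j; omega
    unfold yG
    rcases h4 with h4 | h4
    · refine smul_nonpos_of_nonneg_of_nonpos (by positivity) (Finset.sum_nonpos fun i _ => ?_)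
      by_cases hi : i = j
      · rw [hi, h4]; simp
      · exact smul_nonpos_of_nonneg_of_nonpos (by positivity) (h1 i hi)
    · rw [h4]; simp
  have p1 : 0 ≤ (w - cv l) • (-xG A j I) := smul_nonneg (by linarith) (neg_nonneg.2 x0)
  have p2 : 0 ≤ (cv h - w) • (-yG A j I) := smul_nonneg (by linarith) (neg_nonneg.2 y0)
  rw [← sub_nonneg, e1, e2, ← neg_neg (rho A I), ← e3]
  refine (add_nonneg p1 p2).trans_eq ?_
  unfold cv; push_cast; module

def Base (X : Fin 10 → G) (r : Fin 4 → G) (a I : ℕ) : Prop :=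
  ∃ β, RB X a β (2 ^ 24) ∧ (rho r I < β ∨ (I = 0 ∧ a = 0))

def tk (T lo up : ℕ) : ℕ :=
  Nat.add (Nat.add (Nat.shiftLeft T (nat_lit 16384)) cZ)
    (Nat.add lo (Nat.shiftLeft up (nat_lit 8192)))

def bf (K l1 l2 l3 h1 h2 h3 : ℕ) : ℕ :=
  Nat.add K (Nat.add (Nat.add (Nat.add (Nat.mul l1 cX1) (Nat.mul h1 cY1))
    (Nat.add (Nat.mul l2 cX2) (Nat.mul h2 cY2))) (Nat.add (Nat.mul l3 cX3) (Nat.mul h3 cY3)))

/-- the raw box contains the point -/
structure InB (x y z : ℤ) (l1 l2 l3 h1 h2 h3 : ℕ) : Prop where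
  a1 : cv l1 ≤ x
  a2 : cv l2 ≤ y
  a3 : cv l3 ≤ z
  b1 : x ≤ cv h1
  b2 : y ≤ cv h2
  b3 : z ≤ cv h3
  c1 : h1 < 2 ^ 17
  c2 : h2 < 2 ^ 17
  c3 : h3 < 2 ^ 17

omit [LinearOrder G] [IsOrderedAddMonoid G] in
theorem Rw_sum' (X : Fin 10 → G) (a b c : ℤ) : ∑ i, Rw X i a b c = 0 := by
  rw [Fin.sum_univ_four, Rw_sum]

theorem shl_eq (T n m : ℕ) (h : m = 512 * n) : Nat.shiftLeft T m = T * 2 ^ (512 * n) := by
  rw [Nat.shiftLeft_eq', Nat.shiftLeft_eq, h]

theorem bf_tab (hX : ∀ i, 0 < X i) {T : ℕ} (hT : Tab (Gd X) T) {lo up : ℕ → ℕ} {x y z : ℤ}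
    (hlo : ∀ I, I < 16 → Base X (fun i => Rw X i x y z) (lo I) I)
    (hup : ∀ I, I < 16 → Base X (fun i => Rw X i x y z) (up I) I)
    {l1 l2 l3 h1 h2 h3 : ℕ} (hB : InB x y z l1 l2 l3 h1 h2 h3) :
    Tab (Gd X) (bf (tk T (pk 16 lo) (pk 16 up)) l1 l2 l3 h1 h2 h3) := by
  have e : bf (tk T (pk 16 lo) (pk 16 up)) l1 l2 l3 h1 h2 h3 = T * 2 ^ (512 * 32) + pk 32 fun I =>
      (if I < 16 then lo I else up (I - 16)) + (l1 * xN aP1 1 I + h1 * yN aM1 1 I
        + (l2 * xN aP2 2 I + h2 * yN aM2 2 I) + (l3 * xN aP3 3 I + h3 * yN aM3 3 I) + zN I) := by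
    have e1 : Nat.add (pk 16 lo) (Nat.shiftLeft (pk 16 up) (nat_lit 8192))
        = pk 32 fun I => if I < 16 then lo I else up (I - 16) :=
      (congrArg (Nat.add (pk 16 lo)) (shl_eq _ 16 _ (by decide))).trans (pk_app 16 16 lo up)
    delta bf tk
    rw [e1, shl_eq T 32 _ (by decide)]
    generalize T * 2 ^ (512 * 32) = t
    rw [cX1_eq, cX2_eq, cX3_eq, cY1_eq, cY2_eq, cY3_eq, cZ_eq]
    simp only [Nat.add_eq, Nat.mul_eq, ← pk_add, ← pk_mul]
    omega
  rw [e]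
  refine hT.pk fun k hk => ?_
  obtain ⟨a1, a2, a3, b1, b2, b3, c1, c2, c3⟩ := hB
  have d1 : l1 < 2 ^ 17 := by unfold cv at *; omega
  have d2 : l2 < 2 ^ 17 := by unfold cv at *; omega
  have d3 : l3 < 2 ^ 17 := by unfold cv at *; omega
  have hb : ∃ I, (∀ i, ind k i = ind I i) ∧
      Base X (fun i => Rw X i x y z) (if k < 16 then lo k else up (k - 16)) I := by
    split_ifs with h
    · exact ⟨k, fun _ => rfl, hlo k h⟩
    · refine ⟨k - 16, fun i => ?_, hup _ (by omega)⟩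
      have := ind_add ⟨k - 16, by omega⟩ i
      simp only at this
      rw [← this]; congr 1; omega
  obtain ⟨I, hI, β, hβ, hβ'⟩ := hb
  have hr := hβ.add ((((((xN_rb aP1_rb 1 k).mul l1).add ((yN_rb aM1_rb 1 k).mul h1)).add
    (((xN_rb aP2_rb 2 k).mul l2).add ((yN_rb aM2_rb 2 k).mul h2))).add
    (((xN_rb aP3_rb 3 k).mul l3).add ((yN_rb aM3_rb 3 k).mul h3))).add
    (((((xN_rb aM1_rb 1 k).add (yN_rb aP1_rb 1 k)).add
      ((xN_rb aM2_rb 2 k).add (yN_rb aP2_rb 2 k))).add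
      ((xN_rb aM3_rb 3 k).add (yN_rb aP3_rb 3 k))).mul 55440))
  refine ⟨⟨_, hr.1, ?_⟩, hr.2.trans_lt (by omega)⟩
  rcases hβ' with hβ' | ⟨rfl, hβ'⟩
  · left
    have n1 : ∀ i, i ≠ 1 → Rw X i 1 0 0 ≤ 0 := by
      intro i hi; fin_cases i <;> simp [Rw, (hX _).le] at hi ⊢
    have n2 : ∀ i, i ≠ 2 → Rw X i 0 1 0 ≤ 0 := by
      intro i hi; fin_cases i <;> simp [Rw, (hX _).le] at hi ⊢
    have n3 : ∀ i, i ≠ 3 → Rw X i 0 0 1 ≤ 0 := by
      intro i hi; fin_cases i <;> simp [Rw, (hX _).le] at hi ⊢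
    have q1 := sub_nonneg.2 (col_le n1 (Rw_sum' X _ _ _) k l1 h1 x a1 b1)
    have q2 := sub_nonneg.2 (col_le n2 (Rw_sum' X _ _ _) k l2 h2 y a2 b2)
    have q3 := sub_nonneg.2 (col_le n3 (Rw_sum' X _ _ _) k l3 h3 z a3 b3)
    have q4 : rho (fun i => Rw X i x y z) I = x • rho (fun i => Rw X i 1 0 0) k
        + y • rho (fun i => Rw X i 0 1 0) k + z • rho (fun i => Rw X i 0 0 1) k := by
      simp only [rho, hI, Fin.sum_univ_four]
      rw [Rw_lin X 0 x, Rw_lin X 1 x, Rw_lin X 2 x, Rw_lin X 3 x]; module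
    refine (add_pos_of_pos_of_nonneg (sub_pos.2 hβ') (add_nonneg (add_nonneg q1 q2) q3)).trans_eq ?_
    rw [q4]; module
  · right
    simp only [ind_zero] at hI
    rw [hβ']
    simp [xN, yN, zN, hI]

def kU (p : Fin 4 → ℕ) : ℕ :=
  Nat.add (Nat.add (Nat.mul (p 0) (cS 0)) (Nat.mul (p 1) (cS 1)))
    (Nat.add (Nat.mul (p 2) (cS 2)) (Nat.mul (p 3) (cS 3)))

def kL1 (i j : Fin 4) (p m : Fin 4 → ℕ) : ℕ :=
  Nat.add (Nat.mul (p j) (cSa i j)) (Nat.mul (m j) (cSa j i))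

def kL (i : Fin 4) (D : ℕ) (p m : Fin 4 → ℕ) : ℕ :=
  Nat.add (Nat.add (kL1 i (i.succAbove 0) p m) (kL1 i (i.succAbove 1) p m))
    (Nat.add (kL1 i (i.succAbove 2) p m) (Nat.mul (Nat.mul D (uP 9)) (cS i)))

theorem kU_base {p : Fin 4 → ℕ} {U r : Fin 4 → G} (hp : ∀ i, RB X (p i) (U i) (2 ^ 21))
    (h : ∀ i, r i < U i) : ∃ f, kU p = pk 16 f ∧ ∀ I, I < 16 → Base X r (f I) I := by
  refine ⟨fun I => ∑ i, ind I i * p i, ?_, fun I hI => ?_⟩
  · simp only [kU, Nat.add_eq, Nat.mul_eq, cS_eq, pk_mul, pk_add, Fin.sum_univ_four]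
    exact pk_congr _ fun i _ => by ring
  · refine ⟨_, (RB.sum4 fun i => ((hp i).mul (ind I i)).congr rfl (m := 2 ^ 21)
      (by have := ind_le I i; omega)).congr rfl (by norm_num), ?_⟩
    by_cases h0 : I = 0
    · right; simp [h0, ind_zero]
    · left
      obtain ⟨i, hi⟩ := ind_ex ⟨I, hI⟩ h0
      refine Finset.sum_lt_sum (fun j _ => smul_le_smul_of_nonneg_left (h j).le (by positivity))
        ⟨i, Finset.mem_univ _, ?_⟩
      simp only at hi
      rw [hi]; simpa using h i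

theorem kL_base (i : Fin 4) {D : ℕ} (hD : D ≤ 11) {p m : Fin 4 → ℕ} {U r : Fin 4 → G}
    (hp : ∀ i, RB X (p i) (U i) (2 ^ 21)) (hm : ∀ i, RB X (m i) (-U i) (2 ^ 21))
    (hr : ∑ j, r j = 0) (h : ∀ j, j ≠ i → r j < U j)
    (hM : ∑ k : Fin 3, (U (i.succAbove k) - r (i.succAbove k)) < (D : ℤ) • X 9) :
    ∃ f, kL i D p m = pk 16 f ∧ ∀ I, I < 16 → Base X r (f I) I := by
  let t : ℕ → Fin 4 → ℕ := fun I j =>
    ind I j * (1 - ind I i) * p j + ind I i * (1 - ind I j) * m j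
  refine ⟨fun I => t I (i.succAbove 0) + t I (i.succAbove 1) + t I (i.succAbove 2)
    + ind I i * (D * uP 9), ?_, fun I hI => ?_⟩
  · simp only [kL, kL1, Nat.add_eq, Nat.mul_eq, cS_eq, cSa_eq, pk_mul, pk_add]
    exact pk_congr _ fun i _ => by simp only [t]; ring
  · have ht : ∀ j, RB X (t I j) (((ind I j * (1 - ind I i) : ℕ) : ℤ) • U j
        + ((ind I i * (1 - ind I j) : ℕ) : ℤ) • -U j) (2 ^ 22) := by
      intro j
      refine (((hp j).mul _).add ((hm j).mul _)).congr rfl ?_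
      have h1 : ind I j * (1 - ind I i) ≤ 1 * 1 := Nat.mul_le_mul (ind_le _ _) (by omega)
      have h2 : ind I i * (1 - ind I j) ≤ 1 * 1 := Nat.mul_le_mul (ind_le _ _) (by omega)
      omega
    refine ⟨_, ((((ht _).add (ht _)).add (ht _)).add (((uP_rb 9).mul D).mul (ind I i))).congr rfl
      ?_, ?_⟩
    · have : ind I i * (D * 1) ≤ 1 * (11 * 1) := Nat.mul_le_mul (ind_le _ _) (by omega)
      omega
    by_cases h0 : I = 0
    · right; simp [h0, ind_zero, t]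
    left
    have hg : ∀ k : Fin 3, 0 < U (i.succAbove k) - r (i.succAbove k) :=
      fun k => sub_pos.2 (h _ (Fin.succAbove_ne i k))
    have hg' : ∀ k : Fin 3,
        0 ≤ (ind I (i.succAbove k) : ℤ) • (U (i.succAbove k) - r (i.succAbove k)) :=
      fun k => smul_nonneg (by positivity) (hg k).le
    rw [Fin.sum_univ_succAbove _ i, Fin.sum_univ_three] at hr
    have hri : r i = -r (i.succAbove 0) - r (i.succAbove 1) - r (i.succAbove 2) := by
      rw [← sub_eq_zero, ← hr]; abel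
    rw [← sub_pos, rho, Fin.sum_univ_succAbove _ i, Fin.sum_univ_three]
    simp only [Nat.cast_mul, ind_cast]
    have h4 : ind I i = 0 ∨ ind I i = 1 := by have := ind_le I i; omega
    rcases h4 with h4 | h4
    · obtain ⟨j, hj⟩ := ind_ex ⟨I, hI⟩ h0
      simp only at hj
      obtain ⟨k, rfl⟩ := Fin.exists_succAbove_eq (x := j) (y := i) (by rintro rfl; omega)
      have : 0 < ∑ k : Fin 3,
          (ind I (i.succAbove k) : ℤ) • (U (i.succAbove k) - r (i.succAbove k)) :=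
        Finset.sum_pos' (fun k _ => hg' k) ⟨k, Finset.mem_univ _, by rw [hj]; simpa using hg k⟩
      refine this.trans_eq ?_
      rw [Fin.sum_univ_three, h4]; module
    · refine (add_pos_of_pos_of_nonneg (sub_pos.2 hM)
        (add_nonneg (add_nonneg (hg' 0) (hg' 1)) (hg' 2))).trans_eq ?_
      rw [Fin.sum_univ_three, h4, hri]; module

end

end Pool.Agent.P.MP_6b6f6e_co
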