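import Pool.Agent.P.MP_6b6f6e_co.Pre

/-!
From sorted minimal vectors to the model used by the checker.
-/

namespace Pool.Agent.P.MP_6b6f6e_co

open Finset Matrix

variable {G : Type} [AddCommGroup G] [LinearOrder G] [IsOrderedAddMonoid G]

namespace Pre

/-- The ten coordinates of the model. -/
def XX (P : Pre G) (p : Fin 4 → V) : Fin 10 → G :=
  ![-P.Y 0 (p 1), -P.Y 2 (p 1), -P.Y 3 (p 1), -P.Y 0 (p 2), -P.Y 1 (p 2), -P.Y 3 (p 2),
    -P.Y 0 (p 3), -P.Y 1 (p 3), -P.Y 2 (p 3), P.mu]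

theorem XX_vals (P : Pre G) (p : Fin 4 → V) :
    P.XX p 0 = -P.Y 0 (p 1) ∧ P.XX p 1 = -P.Y 2 (p 1) ∧ P.XX p 2 = -P.Y 3 (p 1) ∧
    P.XX p 3 = -P.Y 0 (p 2) ∧ P.XX p 4 = -P.Y 1 (p 2) ∧ P.XX p 5 = -P.Y 3 (p 2) ∧
    P.XX p 6 = -P.Y 0 (p 3) ∧ P.XX p 7 = -P.Y 1 (p 3) ∧ P.XX p 8 = -P.Y 2 (p 3) ∧
    P.XX p 9 = P.mu := ⟨rfl, rfl, rfl, rfl, rfl, rfl, rfl, rfl, rfl, rfl⟩

theorem diag (P : Pre G) (p : Fin 4 → V) :
    P.XX p 0 + P.XX p 1 + P.XX p 2 = P.Y 1 (p 1) ∧ P.XX p 3 + P.XX p 4 + P.XX p 5 = P.Y 2 (p 2) ∧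
    P.XX p 6 + P.XX p 7 + P.XX p 8 = P.Y 3 (p 3) := by
  obtain ⟨x0, x1, x2, x3, x4, x5, x6, x7, x8, x9⟩ := P.XX_vals p
  have h1 := P.sum0 (p 1); have h2 := P.sum0 (p 2); have h3 := P.sum0 (p 3)
  rw [Fin.sum_univ_four] at h1 h2 h3
  rw [x0, x1, x2, x3, x4, x5, x6, x7, x8]
  refine ⟨?_, ?_, ?_⟩
  · rw [← sub_eq_zero, ← neg_eq_zero, ← h1]; abel
  · rw [← sub_eq_zero, ← neg_eq_zero, ← h2]; abel
  · rw [← sub_eq_zero, ← neg_eq_zero, ← h3]; abel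

theorem Rw_XX (P : Pre G) (p : Fin 4 → V) (i : Fin 4) (x y z : ℤ) :
    Rw (P.XX p) i x y z = P.Y i (x • p 1 + y • p 2 + z • p 3) := by
  obtain ⟨x0, x1, x2, x3, x4, x5, x6, x7, x8, x9⟩ := P.XX_vals p
  obtain ⟨d1, d2, d3⟩ := P.diag p
  simp only [map_add, map_zsmul]
  fin_cases i
  · change -(x • P.XX p 0) - y • P.XX p 3 - z • P.XX p 6 = x • P.Y 0 _ + y • P.Y 0 _ + z • P.Y 0 _
    rw [x0, x3, x6]; module
  · change x • (P.XX p 0 + P.XX p 1 + P.XX p 2) - y • P.XX p 4 - z • P.XX p 7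
      = x • P.Y 1 _ + y • P.Y 1 _ + z • P.Y 1 _
    rw [d1, x4, x7]; module
  · change -(x • P.XX p 1) + y • (P.XX p 3 + P.XX p 4 + P.XX p 5) - z • P.XX p 8
      = x • P.Y 2 _ + y • P.Y 2 _ + z • P.Y 2 _
    rw [d2, x1, x8]; module
  · change -(x • P.XX p 2) - y • P.XX p 5 + z • (P.XX p 6 + P.XX p 7 + P.XX p 8)
      = x • P.Y 3 _ + y • P.Y 3 _ + z • P.Y 3 _
    rw [d3, x2, x5]; module

theorem IsMin.Xpos {P : Pre G} {p : Fin 4 → V} (h : P.IsMin p) (i : Fin 10) : 0 < P.XX p i := by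
  fin_cases i
  · exact neg_pos.2 ((h 1).1 0 (by decide))
  · exact neg_pos.2 ((h 1).1 2 (by decide))
  · exact neg_pos.2 ((h 1).1 3 (by decide))
  · exact neg_pos.2 ((h 2).1 0 (by decide))
  · exact neg_pos.2 ((h 2).1 1 (by decide))
  · exact neg_pos.2 ((h 2).1 3 (by decide))
  · exact neg_pos.2 ((h 3).1 0 (by decide))
  · exact neg_pos.2 ((h 3).1 1 (by decide))
  · exact neg_pos.2 ((h 3).1 2 (by decide))
  · exact (h.pos 0).trans (h.lt_mu 0)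

theorem IsMin.Xindep {P : Pre G} {p : Fin 4 → V} (h : P.IsMin p) (c : Fin 10 → ℤ)
    (hc : ∑ i, c i • P.XX p i = 0) (i : Fin 10) : c i = 0 := by
  obtain ⟨x0, x1, x2, x3, x4, x5, x6, x7, x8, x9⟩ := P.XX_vals p
  have e : ∑ i, c i • P.XX p i = c 0 • P.XX p 0 + c 1 • P.XX p 1 + c 2 • P.XX p 2
      + c 3 • P.XX p 3 + c 4 • P.XX p 4 + c 5 • P.XX p 5 + c 6 • P.XX p 6 + c 7 • P.XX p 7
      + c 8 • P.XX p 8 + c 9 • P.XX p 9 := by
    simp only [Fin.sum_univ_succ, Fin.sum_univ_zero, add_zero, ← add_assoc]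
    rfl
  rw [e, x0, x1, x2, x3, x4, x5, x6, x7, x8, x9] at hc
  obtain ⟨h9, hu⟩ := P.indep ![c 0 • p 1 + c 3 • p 2 + c 6 • p 3, c 4 • p 2 + c 7 • p 3,
    c 1 • p 1 + c 8 • p 3, c 2 • p 1 + c 5 • p 2] (-c 9) (by
      rw [Fin.sum_univ_four]
      change P.Y 0 (c 0 • p 1 + c 3 • p 2 + c 6 • p 3) + P.Y 1 (c 4 • p 2 + c 7 • p 3)
        + P.Y 2 (c 1 • p 1 + c 8 • p 3) + P.Y 3 (c 2 • p 1 + c 5 • p 2) + _ = 0
      simp only [map_add, map_zsmul]
      rw [← neg_eq_zero, ← hc]; module)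
  have u1 : c 0 • p 1 + c 3 • p 2 + c 6 • p 3 = c 4 • p 2 + c 7 • p 3 := hu 0 1
  have u2 : c 0 • p 1 + c 3 • p 2 + c 6 • p 3 = c 1 • p 1 + c 8 • p 3 := hu 0 2
  have u3 : c 0 • p 1 + c 3 • p 2 + c 6 • p 3 = c 2 • p 1 + c 5 • p 2 := hu 0 3
  have v1 := h.lin (x := c 0) (y := c 3 - c 4) (z := c 6 - c 7)
    (by rw [← sub_eq_zero] at u1; rw [← u1]; module)
  have v2 := h.lin (x := c 0 - c 1) (y := c 3) (z := c 6 - c 8)
    (by rw [← sub_eq_zero] at u2; rw [← u2]; module)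
  have v3 := h.lin (x := c 0 - c 2) (y := c 3 - c 5) (z := c 6)
    (by rw [← sub_eq_zero] at u3; rw [← u3]; module)
  have a0 : c 0 = 0 := by omega
  have a1 : c 1 = 0 := by omega
  have a2 : c 2 = 0 := by omega
  have a3 : c 3 = 0 := by omega
  have a4 : c 4 = 0 := by omega
  have a5 : c 5 = 0 := by omega
  have a6 : c 6 = 0 := by omega
  have a7 : c 7 = 0 := by omega
  have a8 : c 8 = 0 := by omega
  have a9 : c 9 = 0 := by omega
  fin_cases i <;> assumption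

theorem st_Y (P : Pre G) (i : Fin 4) (w : V) :
    P.st (P.Y i w) = ∑ r, P.st (P.Y i (Pi.single r 1)) * w r := by
  conv_lhs => rw [pi_eq_sum_univ' w]
  simp only [map_sum, map_zsmul, smul_eq_mul, mul_comm]

theorem Del_eq (P : Pre G) (p : Fin 4 → V) :
    Del (fun i => P.st (P.XX p i)) =
      (Matrix.of fun i j => P.st (P.Y (Fin.succ i) (Pi.single j 1))).det *
        (Matrix.of fun r j => p (Fin.succ j) r).det := by
  rw [← Matrix.det_mul]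
  have e : (Matrix.of fun i j => P.st (P.Y (Fin.succ i) (Pi.single j 1))) *
      (Matrix.of fun r j => p (Fin.succ j) r) =
      Matrix.of fun i j : Fin 3 => P.st (P.Y (Fin.succ i) (p (Fin.succ j))) := by
    ext i j
    rw [Matrix.mul_apply, Matrix.of_apply, P.st_Y]
    rfl
  rw [e, Matrix.det_fin_three]
  obtain ⟨x0, x1, x2, x3, x4, x5, x6, x7, x8, x9⟩ := P.XX_vals p
  obtain ⟨d1, d2, d3⟩ := P.diag p
  change _ = P.st (P.Y 1 (p 1)) * P.st (P.Y 2 (p 2)) * P.st (P.Y 3 (p 3))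
    - P.st (P.Y 1 (p 1)) * P.st (P.Y 2 (p 3)) * P.st (P.Y 3 (p 2))
    - P.st (P.Y 1 (p 2)) * P.st (P.Y 2 (p 1)) * P.st (P.Y 3 (p 3))
    + P.st (P.Y 1 (p 2)) * P.st (P.Y 2 (p 3)) * P.st (P.Y 3 (p 1))
    + P.st (P.Y 1 (p 3)) * P.st (P.Y 2 (p 1)) * P.st (P.Y 3 (p 2))
    - P.st (P.Y 1 (p 3)) * P.st (P.Y 2 (p 2)) * P.st (P.Y 3 (p 1))
  rw [← d1, ← d2, ← d3]
  have y1 : P.Y 2 (p 1) = -P.XX p 1 := by rw [x1, neg_neg]
  have y2 : P.Y 3 (p 1) = -P.XX p 2 := by rw [x2, neg_neg]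
  have y4 : P.Y 1 (p 2) = -P.XX p 4 := by rw [x4, neg_neg]
  have y5 : P.Y 3 (p 2) = -P.XX p 5 := by rw [x5, neg_neg]
  have y7 : P.Y 1 (p 3) = -P.XX p 7 := by rw [x7, neg_neg]
  have y8 : P.Y 2 (p 3) = -P.XX p 8 := by rw [x8, neg_neg]
  rw [y1, y2, y4, y5, y7, y8]
  simp only [map_add, map_neg, Del]
  ring

theorem Del_bounds {x : Fin 10 → ℤ} (h : ∀ i, 0 ≤ x i) :
    0 ≤ Del x ∧ Del x ≤ (x 0 + x 1 + x 2) * (x 3 + x 4 + x 5) * (x 6 + x 7 + x 8) := by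
  have h0 := h 0; have h1 := h 1; have h2 := h 2; have h3 := h 3; have h4 := h 4
  have h5 := h 5; have h6 := h 6; have h7 := h 7; have h8 := h 8
  refine ⟨by unfold Del; positivity, ?_⟩
  have e : (x 0 + x 1 + x 2) * (x 3 + x 4 + x 5) * (x 6 + x 7 + x 8) = Del x +
      (x 0 * x 5 * x 8 + x 1 * x 4 * x 6 + x 1 * x 4 * x 7 + x 1 * x 4 * x 8 + x 1 * x 5 * x 7
        + x 1 * x 5 * x 8 + x 2 * x 3 * x 7 + x 2 * x 4 * x 7 + x 2 * x 4 * x 8
        + x 2 * x 5 * x 7 + x 2 * x 5 * x 8) := by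
    unfold Del; ring
  rw [e]
  exact le_add_of_nonneg_right (by positivity)

theorem IsMin.bigD {P : Pre G} {p : Fin 4 → V} (h : P.IsMin p) :
    21 * (((Matrix.of fun r j => p (Fin.succ j) r).det.natAbs : ℕ) : ℤ) * P.st P.mu ^ 3
      < 250 * Del (fun i => P.st (P.XX p i)) ∧
    (Matrix.of fun r j => p (Fin.succ j) r).det.natAbs ≤ 11 := by
  have hx : ∀ i, 0 ≤ P.st (P.XX p i) := fun i => P.st_nonneg _ (h.Xpos i).le
  obtain ⟨b1, b2⟩ := Del_bounds hx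
  have hb := P.big Fin.succ (Fin.succ_injective _)
  have e := congrArg abs (P.Del_eq p)
  rw [abs_of_nonneg b1, abs_mul, ← Int.natCast_natAbs (Matrix.of fun r j => p (Fin.succ j) r).det]
    at e
  have hD := h.cramer.1
  generalize (Matrix.of fun r j => p (Fin.succ j) r).det.natAbs = D at *
  have hD' : (1 : ℤ) ≤ D := by exact_mod_cast hD
  have k : 21 * (D : ℤ) * P.st P.mu ^ 3 < 250 * Del (fun i => P.st (P.XX p i)) := by
    rw [e]; nlinarith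
  refine ⟨k, ?_⟩
  obtain ⟨d1, d2, d3⟩ := P.diag p
  simp only [← map_add, d1, d2, d3] at b2
  have m1 := P.st_mono (h.lt_mu 1).le
  have m2 := P.st_mono (h.lt_mu 2).le
  have m3 := P.st_mono (h.lt_mu 3).le
  have n1 := P.st_nonneg _ (h.pos 1).le
  have n2 := P.st_nonneg _ (h.pos 2).le
  have n3 := P.st_nonneg _ (h.pos 3).le
  have b3 : P.st (P.Y 1 (p 1)) * P.st (P.Y 2 (p 2)) * P.st (P.Y 3 (p 3)) ≤ P.st P.mu ^ 3 := by
    rw [pow_succ, sq]
    have n0 := n1.trans m1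
    gcongr
  have b4 : 0 ≤ P.st P.mu ^ 3 := pow_nonneg (n1.trans m1) 3
  by_contra c
  have c' : (12 : ℤ) ≤ D := by omega
  nlinarith

theorem IsMin.model {P : Pre G} {p : Fin 4 → V} (h : P.IsMin p) {c : Fin 4 → ℤ}
    (hc : ∑ j, c j • p j = 0) (c0 : 0 < c 0)
    (hs : ∀ i j, i < j → c j ≤ c i ∧ (c j = c i → P.Y i (p i) < P.Y j (p j))) :
    Nonempty (PM G) := by
  obtain ⟨hD1, hcr⟩ := h.cramer
  obtain ⟨hbig, hD2⟩ := h.bigD
  have hdet := Matrix.det_fin_three (Matrix.of fun r j => p (Fin.succ j) r)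
  generalize hDD : (Matrix.of fun r j => p (Fin.succ j) r).det.natAbs = D at *
  have hD : (0 : ℤ) < D := by omega
  obtain ⟨d1, d2, d3⟩ := P.diag p
  let Lam : ℤ → ℤ → ℤ → Prop := fun x y z => ∃ w : V, x • p 1 + y • p 2 + z • p 3 = (D : ℤ) • w
  have fr : ∀ (j : Fin 4) (b : Fin 4 → G),
      (∀ i, b i = if i = j then (D : ℤ) • P.Y j (p j) else 0) → FreeB (P.XX p) Lam b := by
    rintro j b hb x y z ⟨w, hw⟩
    obtain ⟨i, hi⟩ := h.free hD.le j w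
    exact ⟨i, by rw [hb, P.Rw_XX, hw, map_zsmul]; exact hi⟩
  have r1 : Rw (P.XX p) 1 D 0 0 = (D : ℤ) • P.Y 1 (p 1) := by
    rw [P.Rw_XX]; simp only [zero_smul, add_zero, map_zsmul]
  have r2 : Rw (P.XX p) 2 0 D 0 = (D : ℤ) • P.Y 2 (p 2) := by
    rw [P.Rw_XX]; simp only [zero_smul, add_zero, zero_add, map_zsmul]
  have r3 : Rw (P.XX p) 3 0 0 D = (D : ℤ) • P.Y 3 (p 3) := by
    rw [P.Rw_XX]; simp only [zero_smul, add_zero, zero_add, map_zsmul]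
  refine ⟨{
    D := D, X := P.XX p, st := P.st, Lam := Lam, hD1 := hD1, hD2 := hD2,
    st_nonneg := P.st_nonneg, Xpos := h.Xpos, indep := h.Xindep, big := hbig,
    amu1 := by rw [d1]; exact h.lt_mu 1
    amu2 := by rw [d2]; exact h.lt_mu 2
    amu3 := by rw [d3]; exact h.lt_mu 3
    free1 := fr 1 _ fun i => by rw [r1]; fin_cases i <;> rfl
    free2 := fr 2 _ fun i => by rw [r2]; fin_cases i <;> rfl
    free3 := fr 3 _ fun i => by rw [r3]; fin_cases i <;> rfl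
    exmin := ?_, cover := ?_, hnf := ?_, kfact := ?_ }⟩
  · intro i0 b
    obtain ⟨w, h1, h2⟩ := P.exmin hD i0 b
    obtain ⟨x, y, z, e⟩ := hcr w
    refine ⟨x, y, z, ⟨w, e⟩, fun j hj => ?_, ?_⟩
    · rw [P.Rw_XX, e, map_zsmul]; exact h1 j hj
    · rintro x' y' z' ⟨w', e'⟩ hw'
      rw [P.Rw_XX, P.Rw_XX, e, e', map_zsmul, map_zsmul]
      refine zsmul_le_zsmul_right hD.le (h2 w' fun j hj => ?_)
      have := hw' j hj
      rwa [P.Rw_XX, e', map_zsmul] at this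
  · intro u hu
    simp only [P.Rw_XX] at hu ⊢
    refine P.cover hD _ fun w => ?_
    obtain ⟨x, y, z, e⟩ := hcr w
    obtain ⟨i, hi⟩ := hu x y z ⟨w, e⟩
    exact ⟨i, by rwa [P.Rw_XX, e, map_zsmul] at hi⟩
  · refine (hn_all D (p 1 0) (p 2 0) (p 3 0) (p 1 1) (p 2 1) (p 3 1) (p 1 2) (p 2 2) (p 3 2) hD1
      ?_).congr fun x y z => ?_
    · rw [← hDD, hdet]; congr 1
      change _ = p 1 0 * p 2 1 * p 3 2 - p 1 0 * p 3 1 * p 2 2 - p 2 0 * p 1 1 * p 3 2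
        + p 2 0 * p 3 1 * p 1 2 + p 3 0 * p 1 1 * p 2 2 - p 3 0 * p 2 1 * p 1 2
      ring
    · constructor
      · rintro ⟨w, e⟩
        have e0 := congrFun e 0; have e1 := congrFun e 1; have e2 := congrFun e 2
        simp only [Pi.add_apply, Pi.smul_apply, smul_eq_mul] at e0 e1 e2
        exact ⟨⟨w 0, by linear_combination e0⟩, ⟨w 1, by linear_combination e1⟩,
          ⟨w 2, by linear_combination e2⟩⟩
      · rintro ⟨⟨a, e0⟩, ⟨b, e1⟩, ⟨c, e2⟩⟩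
        refine ⟨![a, b, c], ?_⟩
        ext r
        simp only [Pi.add_apply, Pi.smul_apply, smul_eq_mul]
        fin_cases r
        · change x * p 1 0 + y * p 2 0 + z * p 3 0 = D * a
          linear_combination e0
        · change x * p 1 1 + y * p 2 1 + z * p 3 1 = D * b
          linear_combination e1
        · change x * p 1 2 + y * p 2 2 + z * p 3 2 = D * c
          linear_combination e2
  · obtain ⟨x, y, z, e⟩ := hcr (-p 0)
    rw [Fin.sum_univ_four] at hc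
    obtain ⟨q1, q2, q3⟩ := h.lin (x := c 0 * x - D * c 1) (y := c 0 * y - D * c 2)
      (z := c 0 * z - D * c 3) (by
        have : (c 0 * x - D * c 1) • p 1 + (c 0 * y - D * c 2) • p 2 + (c 0 * z - D * c 3) • p 3
          = c 0 • (x • p 1 + y • p 2 + z • p 3 - (D : ℤ) • (-p 0))
            - (D : ℤ) • (c 0 • p 0 + c 1 • p 1 + c 2 • p 2 + c 3 • p 3) := by module
        rw [this, e, hc]; simp)
    have c3 : 0 < c 3 := h.rel (c := c) (by rwa [Fin.sum_univ_four]) c0 3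
    obtain ⟨s1, t1⟩ := hs 0 1 (by decide)
    obtain ⟨s2, t2⟩ := hs 1 2 (by decide)
    obtain ⟨s3, t3⟩ := hs 2 3 (by decide)
    have z1 : 0 < z := by
      by_contra k; nlinarith
    have z2 : z ≤ y := by
      by_contra k; nlinarith
    have z3 : y ≤ x := by
      by_contra k; nlinarith
    have z4 : x ≤ D := by
      by_contra k; nlinarith
    lift x to ℕ using by omega with k1
    lift y to ℕ using by omega with k2
    lift z to ℕ using by omega with k3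
    have rk : ∀ i, Rw (P.XX p) i k1 k2 k3 = -((D : ℤ) • P.Y i (p 0)) := fun i => by
      rw [P.Rw_XX, e, map_zsmul, map_neg, smul_neg]
    have ps : ∀ i, i ≠ 0 → 0 < Rw (P.XX p) i k1 k2 k3 := fun i hi => by
      rw [rk, ← smul_neg]; exact zsmul_pos (neg_pos.2 ((h 0).1 i hi)) hD
    refine ⟨k1, k2, k3, by omega, by omega, by omega, by omega, ⟨_, e⟩, ps 1 (by decide),
      ps 2 (by decide), ps 3 (by decide), fr 0 _ fun i => ?_, fun k => ?_, fun k => ?_,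
      fun k => ?_⟩
    · rw [rk, neg_neg]; fin_cases i <;> rfl
    · rw [rk, neg_neg, r1]
      refine zsmul_lt_zsmul_right hD (t1 ?_)
      subst k
      apply mul_left_cancel₀ hD.ne'
      linear_combination -q1
    · rw [r1, r2]
      refine zsmul_lt_zsmul_right hD (t2 ?_)
      subst k
      apply mul_left_cancel₀ hD.ne'
      linear_combination q1 - q2
    · rw [r2, r3]
      refine zsmul_lt_zsmul_right hD (t3 ?_)
      subst k
      apply mul_left_cancel₀ hD.ne'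
      linear_combination q2 - q3

theorem model (P : Pre G) : Nonempty (PM G) := by
  obtain ⟨p, h⟩ := P.ex_isMin
  obtain ⟨σ, c, h1, h2, h3⟩ := h.sorted
  exact (h.perm σ).model h1 h2 h3

end Pre

end Pool.Agent.P.MP_6b6f6e_co
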