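import Pool.Agent.P.MP_6b6f6e_co.Build

/-!
From a finite abelian group with three generators of small diameter to a covering lattice with
generic coordinates.
-/

namespace Pool.Agent.P.MP_6b6f6e_co

open Finset Matrix

/-- The ordered group in which ties are broken. -/
abbrev Gam : Type := ℤ ×ₗ (ℤ ×ₗ Lex (Fin 3 → Lex (Fin 3 → ℤ)))

/-- Identification of the plain product with the ordered group. -/
def emb : ℤ × ℤ × (Fin 3 → V) →+ Gam where
  toFun x := toLex (x.1, toLex (x.2.1, toLex fun i => toLex (x.2.2 i)))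
  map_zero' := rfl
  map_add' _ _ := rfl

/-- The leading coordinate. -/
def stG : Gam →+ ℤ where
  toFun g := (ofLex g).1
  map_zero' := rfl
  map_add' _ _ := rfl

theorem emb_inj : Function.Injective emb := fun _ _ h => h

theorem stG_emb (x : ℤ × ℤ × (Fin 3 → V)) : stG (emb x) = x.1 := rfl

theorem stG_nonneg (g : Gam) (h : 0 ≤ g) : 0 ≤ stG g := by
  rcases Prod.Lex.le_iff.1 h with h | h
  · exact le_of_lt h
  · exact le_of_eq h.1

theorem emb_lt {x y : ℤ × ℤ × (Fin 3 → V)} (h1 : x.1 ≤ y.1) (h2 : x.2.1 < y.2.1) :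
    emb x < emb y := by
  rcases lt_or_eq_of_le h1 with h | h
  · exact Prod.Lex.lt_iff.2 (Or.inl h)
  · exact Prod.Lex.lt_iff.2 (Or.inr ⟨h, Prod.Lex.lt_iff.2 (Or.inl h2)⟩)

/-- The perturbed coordinates. -/
def yy (B : V →+ V) (i : Fin 4) : V →+ ℤ × ℤ × (Fin 3 → V) where
  toFun w := (![-(B w 0 + B w 1 + B w 2), B w 0, B w 1, B w 2] i, 0,
    ![![-w, -w, -w], ![w, 0, 0], ![0, w, 0], ![0, 0, w]] i)
  map_zero' := by
    fin_cases i <;> simp
  map_add' a b := by
    fin_cases i <;> refine Prod.ext ?_ (Prod.ext rfl ?_) <;> simp <;> ring_nf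

theorem yy_sum (B : V →+ V) (u : Fin 4 → V) : ∑ i, yy B i (u i) =
    (-(B (u 0) 0 + B (u 0) 1 + B (u 0) 2) + B (u 1) 0 + B (u 2) 1 + B (u 3) 2, 0,
      ![u 1 - u 0, u 2 - u 0, u 3 - u 0]) := by
  rw [Fin.sum_univ_four]
  refine Prod.ext rfl (Prod.ext rfl ?_)
  ext r : 1
  fin_cases r <;> simp [yy] <;> ring

theorem det_rows (M : Matrix (Fin 3) (Fin 3) ℤ) (e : Fin 3 → Fin 4) (he : Function.Injective e) :
    |(Matrix.of fun i j => ![-(M 0 j + M 1 j + M 2 j), M 0 j, M 1 j, M 2 j] (e i)).det|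
      = |M.det| := by
  have h01 : e 0 ≠ e 1 := he.ne (by decide)
  have h02 : e 0 ≠ e 2 := he.ne (by decide)
  have h12 : e 1 ≠ e 2 := he.ne (by decide)
  rw [Matrix.det_fin_three, Matrix.det_fin_three]
  simp only [Matrix.of_apply]
  generalize e 0 = a at *
  generalize e 1 = b at *
  generalize e 2 = c at *
  fin_cases a <;> fin_cases b <;> fin_cases c <;>
    first
    | exact absurd rfl h01
    | exact absurd rfl h02
    | exact absurd rfl h12
    | (rw [abs_eq_abs]; left; simp; ring1)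
    | (rw [abs_eq_abs]; right; simp; ring1)
    | simp

/-- The covering lattice attached to an injective map with a covering property. -/
def preOf (B : V →+ V) (s : ℤ) (hB : Function.Injective B)
    (hcov : ∀ z : V, ∃ w, (∀ r, B w r ≤ z r) ∧ z 0 + z 1 + z 2 ≤ s + (B w 0 + B w 1 + B w 2))
    (hbig : 21 * (s + 3) ^ 3 < 250 * |(Matrix.of fun i j => B (Pi.single j 1) i).det|) :
    Pre Gam where
  Y i := emb.comp (yy B i)
  st := stG
  mu := emb (s + 3, 1, 0)
  sum0 w := by
    simp only [AddMonoidHom.comp_apply]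
    rw [← map_sum, yy_sum B fun _ => w, ← map_zero emb]
    congr 1
    refine Prod.ext (by simp; ring) (Prod.ext rfl ?_)
    ext r : 1
    fin_cases r <;> simp
  st_nonneg := stG_nonneg
  inj w h := by
    apply hB
    rw [map_zero]
    ext r
    fin_cases r
    · exact h 1
    · exact h 2
    · exact h 3
  cov x h := by
    obtain ⟨w, h1, h2⟩ := hcov ![x 1, x 2, x 3]
    rw [Fin.sum_univ_four] at h
    change s + 3 ≤ _ at h
    change x 1 + x 2 + x 3 ≤ _ at h2
    refine ⟨w, fun i => ?_⟩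
    fin_cases i
    · change -(B w 0 + B w 1 + B w 2) ≤ x 0
      omega
    · exact h1 0
    · exact h1 1
    · exact h1 2
  top u D hD h := by
    simp only [AddMonoidHom.comp_apply] at h ⊢
    rw [← map_sum, ← map_zsmul] at *
    rw [stG_emb, stG_emb] at h
    refine emb_lt h ?_
    rw [yy_sum]
    simpa using hD
  indep u m h := by
    simp only [AddMonoidHom.comp_apply] at h
    rw [← map_sum, ← map_zsmul, ← map_add, ← map_zero emb, yy_sum] at h
    have h' := emb_inj h
    have h1 : m = 0 := by simpa using congrArg (fun x => x.2.1) h'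
    have h2 : ![u 1 - u 0, u 2 - u 0, u 3 - u 0] = 0 := by
      simpa using congrArg (fun x => x.2.2) h'
    have a1 : u 1 = u 0 := sub_eq_zero.1 (congrFun h2 0)
    have a2 : u 2 = u 0 := sub_eq_zero.1 (congrFun h2 1)
    have a3 : u 3 = u 0 := sub_eq_zero.1 (congrFun h2 2)
    have a : ∀ i, u i = u 0 := fun i => by
      fin_cases i
      exacts [rfl, a1, a2, a3]
    exact ⟨h1, fun i j => (a i).trans (a j).symm⟩
  big e he := by
    rw [← det_rows _ e he] at hbig
    exact hbig

theorem model_of_group {H : Type} [AddCommGroup H] [Finite H] (f : Fin 3 → H) (s : ℕ)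
    (hf : ∀ g, ∃ l : Fin 3 → ℕ, ∑ i, l i ≤ s ∧ ∑ i, l i • f i = g)
    (hn : 21 * (s + 3) ^ 3 < 250 * Nat.card H) : Nonempty (PM Gam) := by
  let φ : V →ₗ[ℤ] H := Fintype.linearCombination ℤ f
  have hφ : ∀ l : Fin 3 → ℕ, φ (fun i => (l i : ℤ)) = ∑ i, l i • f i := fun l => by
    simp [φ, Fintype.linearCombination_apply]
  have hs : Function.Surjective φ := fun g => by
    obtain ⟨l, -, e⟩ := hf g
    exact ⟨_, (hφ l).trans e⟩
  let N : Submodule ℤ V := LinearMap.ker φ
  have q : (V ⧸ N) ≃ₗ[ℤ] H := φ.quotKerEquivOfSurjective hs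
  have hfin : Finite (V ⧸ N) := Finite.of_equiv H q.toEquiv.symm
  have hr := (Submodule.finiteQuotient_iff N).1 hfin
  let e : V ≃ₗ[ℤ] N := LinearEquiv.ofFinrankEq V N hr.symm
  have hd := Submodule.natAbs_det_equiv N e
  rw [Nat.card_congr q.toEquiv] at hd
  let B : V →ₗ[ℤ] V := N.subtype ∘ₗ AddMonoidHom.toIntLinearMap (e : V →+ N)
  have hB : ∀ w, B w = (e w : V) := fun _ => rfl
  refine (preOf B.toAddMonoidHom s ?_ ?_ ?_).model
  · intro a b h
    exact e.injective (Subtype.ext h)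
  · intro z
    obtain ⟨l, h1, h2⟩ := hf (φ z)
    have hm : z - (fun i => (l i : ℤ)) ∈ N := by
      rw [LinearMap.mem_ker, map_sub, hφ, h2, sub_self]
    obtain ⟨w, hw⟩ := e.surjective ⟨_, hm⟩
    have hw' : ∀ r, B.toAddMonoidHom w r = z r - l r := fun r => by
      change (e w : V) r = _
      rw [hw]; rfl
    rw [Fin.sum_univ_three] at h1
    refine ⟨w, fun r => by rw [hw']; omega, ?_⟩
    rw [hw', hw', hw']; omega
  · have : (Matrix.of fun i j => B.toAddMonoidHom (Pi.single j 1) i) = LinearMap.toMatrix' B := by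
      ext i j
      rw [LinearMap.toMatrix'_apply]
      rfl
    rw [this, LinearMap.det_toMatrix', ← Int.natCast_natAbs, hd]
    exact_mod_cast hn

end Pool.Agent.P.MP_6b6f6e_co
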