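import Pool.Agent.P.MP_6b6f6e_co.Data0
import Pool.Agent.P.MP_6b6f6e_co.Data1
import Pool.Agent.P.MP_6b6f6e_co.Data2
import Pool.Agent.P.MP_6b6f6e_co.Data3
import Pool.Agent.P.MP_6b6f6e_co.Data4
import Pool.Agent.P.MP_6b6f6e_co.Data5
import Pool.Agent.P.MP_6b6f6e_co.Data6
import Pool.Agent.P.MP_6b6f6e_co.Data7
import Pool.Agent.P.MP_6b6f6e_co.Data8
import Pool.Agent.P.MP_6b6f6e_co.Data9
import Pool.Agent.P.MP_6b6f6e_co.Data10
import Pool.Agent.P.MP_6b6f6e_co.Data11
import Pool.Agent.P.MP_6b6f6e_co.Data12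
import Pool.Agent.P.MP_6b6f6e_co.Data13

namespace Pool.Agent.P.MP_6b6f6e_co

theorem fa_nil : List.Forall Unsat [] := trivial

theorem fa_cons {a : St} {l : List St} (h : Unsat a) (t : l.Forall Unsat) :
    (a :: l).Forall Unsat := (List.forall_cons _ _ _).2 ⟨h, t⟩

theorem uv0 : Unsat sv0 := okb_sound ev0 fa_nil
theorem uv1 : UnsatD 1 := okt_sound ew1 (fa_cons uv0 fa_nil)
theorem uv2 : Unsat sv2 := okb_sound ew2 fa_nil
theorem uv3 : Unsat sv3 := okb_sound ew3 (fa_cons uv2 fa_nil)
theorem uv4 : Unsat sv4 := okb_sound ev4 fa_nil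
theorem uv5 : Unsat sv5 := okb_sound ev5 (fa_cons uv4 fa_nil)
theorem uv6 : Unsat sv6 := okb_sound ev6 fa_nil
theorem uv7 : Unsat sv7 := okb_sound ev7 fa_nil
theorem uv8 : Unsat sv8 := okb_sound ev8 (fa_cons uv6 (fa_cons uv7 fa_nil))
theorem uv9 : UnsatD 2 := okt_sound ev9 (fa_cons uv3 (fa_cons uv5 (fa_cons uv8 fa_nil)))
theorem uv10 : Unsat sv10 := okb_sound ev10 fa_nil
theorem uv11 : Unsat sv11 := okb_sound ev11 (fa_cons uv10 fa_nil)
theorem uv12 : Unsat sv12 := okb_sound ev12 (fa_cons uv11 fa_nil)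
theorem uv13 : Unsat sv13 := okb_sound ev13 fa_nil
theorem uv14 : Unsat sv14 := okb_sound ev14 fa_nil
theorem uv15 : Unsat sv15 := okb_sound ev15 (fa_cons uv14 fa_nil)
theorem uv16 : Unsat sv16 := okb_sound ev16 (fa_cons uv15 fa_nil)
theorem uv17 : Unsat sv17 := okb_sound ev17 (fa_cons uv13 (fa_cons uv16 fa_nil))
theorem uv18 : Unsat sv18 := okb_sound ev18 fa_nil
theorem uv19 : Unsat sv19 := okb_sound ev19 (fa_cons uv18 fa_nil)
theorem uv20 : Unsat sv20 := okb_sound ev20 fa_nil
theorem uv21 : Unsat sv21 := okb_sound ev21 fa_nil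
theorem uv22 : Unsat sv22 := okb_sound ev22 fa_nil
theorem uv23 : Unsat sv23 := okb_sound ev23 (fa_cons uv21 (fa_cons uv22 fa_nil))
theorem uv24 : Unsat sv24 := okb_sound ev24 fa_nil
theorem uv25 : Unsat sv25 := okb_sound ev25 fa_nil
theorem uv26 : Unsat sv26 := okb_sound ev26 (fa_cons uv25 fa_nil)
theorem uv27 : Unsat sv27 := okb_sound ev27 fa_nil
theorem uv28 : Unsat sv28 := okb_sound ev28 (fa_cons uv26 (fa_cons uv27 fa_nil))
theorem uv29 : Unsat sv29 := okb_sound ev29 fa_nil
theorem uv30 : Unsat sv30 := okb_sound ev30 fa_nil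
theorem uv31 : Unsat sv31 := okb_sound ev31 (fa_cons uv29 (fa_cons uv30 fa_nil))
theorem uv32 : Unsat sv32 := okb_sound ev32 fa_nil
theorem uv33 : Unsat sv33 := okb_sound ev33 fa_nil
theorem uv34 : Unsat sv34 := okb_sound ev34 fa_nil
theorem uv35 : Unsat sv35 := okb_sound ev35 (fa_cons uv32 (fa_cons uv33 (fa_cons uv34 fa_nil)))
theorem uv36 : Unsat sv36 := okb_sound ev36 fa_nil
theorem uv37 : Unsat sv37 := okb_sound ev37 fa_nil
theorem uv38 : Unsat sv38 := okb_sound ev38 (fa_cons uv36 (fa_cons uv37 fa_nil))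
theorem uv39 : Unsat sv39 := okb_sound ev39 fa_nil
theorem uv40 : Unsat sv40 := okb_sound ev40 (fa_cons uv39 fa_nil)
theorem uv41 : UnsatD 3 := okt_sound ev41 (fa_cons uv12 (fa_cons uv17 (fa_cons uv19 (fa_cons uv20 (fa_cons uv23 (fa_cons uv24 (fa_cons uv28 (fa_cons uv31 (fa_cons uv35 (fa_cons uv38 (fa_cons uv40 fa_nil)))))))))))
theorem uv42 : Unsat sv42 := okb_sound ev42 fa_nil
theorem uv43 : Unsat sv43 := okb_sound ev43 fa_nil
theorem uv44 : Unsat sv44 := okb_sound ev44 (fa_cons uv42 (fa_cons uv43 fa_nil))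
theorem uv45 : Unsat sv45 := okb_sound ev45 fa_nil
theorem uv46 : Unsat sv46 := okb_sound ev46 fa_nil
theorem uv47 : Unsat sv47 := okb_sound ev47 fa_nil
theorem uv48 : Unsat sv48 := okb_sound ev48 (fa_cons uv46 (fa_cons uv47 fa_nil))
theorem uv49 : Unsat sv49 := okb_sound ev49 fa_nil
theorem uv50 : Unsat sv50 := okb_sound ev50 fa_nil
theorem uv51 : Unsat sv51 := okb_sound ev51 (fa_cons uv49 (fa_cons uv50 fa_nil))
theorem uv52 : Unsat sv52 := okb_sound ev52 (fa_cons uv45 (fa_cons uv48 (fa_cons uv51 fa_nil)))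
theorem uv53 : Unsat sv53 := okb_sound ev53 fa_nil
theorem uv54 : Unsat sv54 := okb_sound ev54 (fa_cons uv53 fa_nil)
theorem uv55 : Unsat sv55 := okb_sound ev55 fa_nil
theorem uv56 : Unsat sv56 := okb_sound ev56 fa_nil
theorem uv57 : Unsat sv57 := okb_sound ev57 (fa_cons uv55 (fa_cons uv56 fa_nil))
theorem uv58 : Unsat sv58 := okb_sound ev58 fa_nil
theorem uv59 : Unsat sv59 := okb_sound ev59 fa_nil
theorem uv60 : Unsat sv60 := okb_sound ev60 (fa_cons uv59 fa_nil)
theorem uv61 : Unsat sv61 := okb_sound ev61 fa_nil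
theorem uv62 : Unsat sv62 := okb_sound ev62 (fa_cons uv61 fa_nil)
theorem uv63 : Unsat sv63 := okb_sound ev63 (fa_cons uv58 (fa_cons uv60 (fa_cons uv62 fa_nil)))
theorem uv64 : Unsat sv64 := okb_sound ev64 fa_nil
theorem uv65 : Unsat sv65 := okb_sound ev65 fa_nil
theorem uv66 : Unsat sv66 := okb_sound ev66 fa_nil
theorem uv67 : Unsat sv67 := okb_sound ev67 fa_nil
theorem uv68 : Unsat sv68 := okb_sound ev68 (fa_cons uv67 fa_nil)
theorem uv69 : Unsat sv69 := okb_sound ev69 (fa_cons uv66 (fa_cons uv68 fa_nil))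
theorem uv70 : Unsat sv70 := okb_sound ev70 (fa_cons uv65 (fa_cons uv69 fa_nil))
theorem uv71 : Unsat sv71 := okb_sound ev71 fa_nil
theorem uv72 : Unsat sv72 := okb_sound ev72 (fa_cons uv71 fa_nil)
theorem uv73 : Unsat sv73 := okb_sound ev73 fa_nil
theorem uv74 : Unsat sv74 := okb_sound ev74 fa_nil
theorem uv75 : Unsat sv75 := okb_sound ev75 fa_nil
theorem uv76 : Unsat sv76 := okb_sound ev76 (fa_cons uv73 (fa_cons uv74 (fa_cons uv75 fa_nil)))
theorem uv77 : Unsat sv77 := okb_sound ev77 fa_nil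
theorem uv78 : Unsat sv78 := okb_sound ev78 (fa_cons uv77 fa_nil)
theorem uv79 : Unsat sv79 := okb_sound ev79 (fa_cons uv78 fa_nil)
theorem uv80 : Unsat sv80 := okb_sound ev80 fa_nil
theorem uv81 : Unsat sv81 := okb_sound ev81 (fa_cons uv79 (fa_cons uv80 fa_nil))
theorem uv82 : Unsat sv82 := okb_sound ev82 fa_nil
theorem uv83 : Unsat sv83 := okb_sound ev83 (fa_cons uv82 fa_nil)
theorem uv84 : Unsat sv84 := okb_sound ev84 fa_nil
theorem uv85 : Unsat sv85 := okb_sound ev85 (fa_cons uv83 (fa_cons uv84 fa_nil))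
theorem uv86 : Unsat sv86 := okb_sound ev86 fa_nil
theorem uv87 : Unsat sv87 := okb_sound ev87 (fa_cons uv86 fa_nil)
theorem uv88 : Unsat sv88 := okb_sound ev88 fa_nil
theorem uv89 : Unsat sv89 := okb_sound ev89 (fa_cons uv88 fa_nil)
theorem uv90 : Unsat sv90 := okb_sound ev90 fa_nil
theorem uv91 : Unsat sv91 := okb_sound ev91 (fa_cons uv87 (fa_cons uv89 (fa_cons uv90 fa_nil)))
theorem uv92 : Unsat sv92 := okb_sound ev92 fa_nil
theorem uv93 : Unsat sv93 := okb_sound ev93 (fa_cons uv92 fa_nil)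
theorem uv94 : Unsat sv94 := okb_sound ev94 (fa_cons uv93 fa_nil)
theorem uv95 : Unsat sv95 := okb_sound ev95 fa_nil
theorem uv96 : Unsat sv96 := okb_sound ev96 fa_nil
theorem uv97 : Unsat sv97 := okb_sound ev97 (fa_cons uv94 (fa_cons uv95 (fa_cons uv96 fa_nil)))
theorem uv98 : Unsat sv98 := okb_sound ev98 fa_nil
theorem uv99 : Unsat sv99 := okb_sound ev99 (fa_cons uv98 fa_nil)
theorem uv100 : Unsat sv100 := okb_sound ev100 fa_nil
theorem uv101 : Unsat sv101 := okb_sound ev101 fa_nil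
theorem uv102 : Unsat sv102 := okb_sound ev102 (fa_cons uv100 (fa_cons uv101 fa_nil))
theorem uv103 : Unsat sv103 := okb_sound ev103 fa_nil
theorem uv104 : Unsat sv104 := okb_sound ev104 (fa_cons uv102 (fa_cons uv103 fa_nil))
theorem uv105 : UnsatD 4 := okt_sound ev105 (fa_cons uv44 (fa_cons uv52 (fa_cons uv54 (fa_cons uv57 (fa_cons uv63 (fa_cons uv64 (fa_cons uv70 (fa_cons uv72 (fa_cons uv76 (fa_cons uv81 (fa_cons uv85 (fa_cons uv91 (fa_cons uv97 (fa_cons uv99 (fa_cons uv104 fa_nil)))))))))))))))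
theorem uv106 : Unsat sv106 := okb_sound ev106 fa_nil
theorem uv107 : Unsat sv107 := okb_sound ev107 fa_nil
theorem uv108 : Unsat sv108 := okb_sound ev108 fa_nil
theorem uv109 : Unsat sv109 := okb_sound ev109 (fa_cons uv108 fa_nil)
theorem uv110 : Unsat sv110 := okb_sound ev110 (fa_cons uv109 fa_nil)
theorem uv111 : Unsat sv111 := okb_sound ev111 (fa_cons uv106 (fa_cons uv107 (fa_cons uv110 fa_nil)))
theorem uv112 : Unsat sv112 := okb_sound ev112 fa_nil
theorem uv113 : Unsat sv113 := okb_sound ev113 (fa_cons uv112 fa_nil)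
theorem uv114 : Unsat sv114 := okb_sound ev114 fa_nil
theorem uv115 : Unsat sv115 := okb_sound ev115 fa_nil
theorem uv116 : Unsat sv116 := okb_sound ev116 fa_nil
theorem uv117 : Unsat sv117 := okb_sound ev117 fa_nil
theorem uv118 : Unsat sv118 := okb_sound ev118 fa_nil
theorem uv119 : Unsat sv119 := okb_sound ev119 fa_nil
theorem uv120 : Unsat sv120 := okb_sound ev120 (fa_cons uv117 (fa_cons uv118 (fa_cons uv119 fa_nil)))
theorem uv121 : Unsat sv121 := okb_sound ev121 fa_nil
theorem uv122 : Unsat sv122 := okb_sound ev122 (fa_cons uv121 fa_nil)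
theorem uv123 : Unsat sv123 := okb_sound ev123 (fa_cons uv115 (fa_cons uv116 (fa_cons uv120 (fa_cons uv122 fa_nil))))
theorem uv124 : Unsat sv124 := okb_sound ev124 fa_nil
theorem uv125 : Unsat sv125 := okb_sound ev125 (fa_cons uv124 fa_nil)
theorem uv126 : Unsat sv126 := okb_sound ev126 (fa_cons uv125 fa_nil)
theorem uv127 : Unsat sv127 := okb_sound ev127 fa_nil
theorem uv128 : Unsat sv128 := okb_sound ev128 (fa_cons uv126 (fa_cons uv127 fa_nil))
theorem uv129 : Unsat sv129 := okb_sound ev129 fa_nil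
theorem uv130 : Unsat sv130 := okb_sound ev130 (fa_cons uv129 fa_nil)
theorem uv131 : Unsat sv131 := okb_sound ev131 fa_nil
theorem uv132 : Unsat sv132 := okb_sound ev132 (fa_cons uv130 (fa_cons uv131 fa_nil))
theorem uv133 : Unsat sv133 := okb_sound ev133 fa_nil
theorem uv134 : Unsat sv134 := okb_sound ev134 fa_nil
theorem uv135 : Unsat sv135 := okb_sound ev135 fa_nil
theorem uv136 : Unsat sv136 := okb_sound ev136 (fa_cons uv133 (fa_cons uv134 (fa_cons uv135 fa_nil)))
theorem uv137 : Unsat sv137 := okb_sound ev137 (fa_cons uv136 fa_nil)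
theorem uv138 : Unsat sv138 := okb_sound ev138 fa_nil
theorem uv139 : Unsat sv139 := okb_sound ev139 (fa_cons uv138 fa_nil)
theorem uv140 : Unsat sv140 := okb_sound ev140 (fa_cons uv139 fa_nil)
theorem uv141 : Unsat sv141 := okb_sound ev141 fa_nil
theorem uv142 : Unsat sv142 := okb_sound ev142 fa_nil
theorem uv143 : Unsat sv143 := okb_sound ev143 fa_nil
theorem uv144 : Unsat sv144 := okb_sound ev144 (fa_cons uv143 fa_nil)
theorem uv145 : Unsat sv145 := okb_sound ev145 (fa_cons uv142 (fa_cons uv144 fa_nil))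
theorem uv146 : Unsat sv146 := okb_sound ev146 fa_nil
theorem uv147 : Unsat sv147 := okb_sound ev147 fa_nil
theorem uv148 : Unsat sv148 := okb_sound ev148 fa_nil
theorem uv149 : Unsat sv149 := okb_sound ev149 (fa_cons uv148 fa_nil)
theorem uv150 : Unsat sv150 := okb_sound ev150 (fa_cons uv146 (fa_cons uv147 (fa_cons uv149 fa_nil)))
theorem uv151 : Unsat sv151 := okb_sound ev151 fa_nil
theorem uv152 : Unsat sv152 := okb_sound ev152 fa_nil
theorem uv153 : Unsat sv153 := okb_sound ev153 (fa_cons uv151 (fa_cons uv152 fa_nil))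
theorem uv154 : Unsat sv154 := okb_sound ev154 fa_nil
theorem uv155 : Unsat sv155 := okb_sound ev155 fa_nil
theorem uv156 : Unsat sv156 := okb_sound ev156 (fa_cons uv155 fa_nil)
theorem uv157 : Unsat sv157 := okb_sound ev157 (fa_cons uv153 (fa_cons uv154 (fa_cons uv156 fa_nil)))
theorem uv158 : Unsat sv158 := okb_sound ev158 fa_nil
theorem uv159 : Unsat sv159 := okb_sound ev159 fa_nil
theorem uv160 : Unsat sv160 := okb_sound ev160 fa_nil
theorem uv161 : Unsat sv161 := okb_sound ev161 (fa_cons uv160 fa_nil)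
theorem uv162 : Unsat sv162 := okb_sound ev162 (fa_cons uv159 (fa_cons uv161 fa_nil))
theorem uv163 : Unsat sv163 := okb_sound ev163 fa_nil
theorem uv164 : Unsat sv164 := okb_sound ev164 (fa_cons uv163 fa_nil)
theorem uv165 : Unsat sv165 := okb_sound ev165 (fa_cons uv164 fa_nil)
theorem uv166 : Unsat sv166 := okb_sound ev166 fa_nil
theorem uv167 : Unsat sv167 := okb_sound ev167 fa_nil
theorem uv168 : Unsat sv168 := okb_sound ev168 (fa_cons uv167 fa_nil)
theorem uv169 : Unsat sv169 := okb_sound ev169 fa_nil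
theorem uv170 : Unsat sv170 := okb_sound ev170 fa_nil
theorem uv171 : Unsat sv171 := okb_sound ev171 (fa_cons uv169 (fa_cons uv170 fa_nil))
theorem uv172 : Unsat sv172 := okb_sound ev172 (fa_cons uv171 fa_nil)
theorem uv173 : Unsat sv173 := okb_sound ev173 fa_nil
theorem uv174 : Unsat sv174 := okb_sound ev174 fa_nil
theorem uv175 : Unsat sv175 := okb_sound ev175 fa_nil
theorem uv176 : Unsat sv176 := okb_sound ev176 (fa_cons uv175 fa_nil)
theorem uv177 : Unsat sv177 := okb_sound ev177 fa_nil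
theorem uv178 : Unsat sv178 := okb_sound ev178 (fa_cons uv177 fa_nil)
theorem uv179 : Unsat sv179 := okb_sound ev179 fa_nil
theorem uv180 : Unsat sv180 := okb_sound ev180 fa_nil
theorem uv181 : Unsat sv181 := okb_sound ev181 fa_nil
theorem uv182 : UnsatD 5 := okt_sound ev182 (fa_cons uv111 (fa_cons uv113 (fa_cons uv114 (fa_cons uv123 (fa_cons uv128 (fa_cons uv132 (fa_cons uv137 (fa_cons uv140 (fa_cons uv141 (fa_cons uv145 (fa_cons uv150 (fa_cons uv157 (fa_cons uv158 (fa_cons uv162 (fa_cons uv165 (fa_cons uv166 (fa_cons uv168 (fa_cons uv172 (fa_cons uv173 (fa_cons uv174 (fa_cons uv176 (fa_cons uv178 (fa_cons uv179 (fa_cons uv180 (fa_cons uv181 fa_nil)))))))))))))))))))))))))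
theorem uv183 : Unsat sv183 := okb_sound ev183 fa_nil
theorem uv184 : Unsat sv184 := okb_sound ev184 fa_nil
theorem uv185 : Unsat sv185 := okb_sound ev185 (fa_cons uv183 (fa_cons uv184 fa_nil))
theorem uv186 : Unsat sv186 := okb_sound ev186 fa_nil
theorem uv187 : Unsat sv187 := okb_sound ev187 fa_nil
theorem uv188 : Unsat sv188 := okb_sound ev188 (fa_cons uv187 fa_nil)
theorem uv189 : Unsat sv189 := okb_sound ev189 fa_nil
theorem uv190 : Unsat sv190 := okb_sound ev190 (fa_cons uv189 fa_nil)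
theorem uv191 : Unsat sv191 := okb_sound ev191 fa_nil
theorem uv192 : Unsat sv192 := okb_sound ev192 fa_nil
theorem uv193 : Unsat sv193 := okb_sound ev193 (fa_cons uv190 (fa_cons uv191 (fa_cons uv192 fa_nil)))
theorem uv194 : Unsat sv194 := okb_sound ev194 fa_nil
theorem uv195 : Unsat sv195 := okb_sound ev195 fa_nil
theorem uv196 : Unsat sv196 := okb_sound ev196 (fa_cons uv194 (fa_cons uv195 fa_nil))
theorem uv197 : Unsat sv197 := okb_sound ev197 (fa_cons uv186 (fa_cons uv188 (fa_cons uv193 (fa_cons uv196 fa_nil))))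
theorem uv198 : Unsat sv198 := okb_sound ev198 fa_nil
theorem uv199 : Unsat sv199 := okb_sound ev199 fa_nil
theorem uv200 : Unsat sv200 := okb_sound ev200 fa_nil
theorem uv201 : Unsat sv201 := okb_sound ev201 (fa_cons uv199 (fa_cons uv200 fa_nil))
theorem uv202 : Unsat sv202 := okb_sound ev202 fa_nil
theorem uv203 : Unsat sv203 := okb_sound ev203 (fa_cons uv202 fa_nil)
theorem uv204 : Unsat sv204 := okb_sound ev204 (fa_cons uv203 fa_nil)
theorem uv205 : Unsat sv205 := okb_sound ev205 fa_nil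
theorem uv206 : Unsat sv206 := okb_sound ev206 fa_nil
theorem uv207 : Unsat sv207 := okb_sound ev207 fa_nil
theorem uv208 : Unsat sv208 := okb_sound ev208 (fa_cons uv206 (fa_cons uv207 fa_nil))
theorem uv209 : Unsat sv209 := okb_sound ev209 fa_nil
theorem uv210 : Unsat sv210 := okb_sound ev210 fa_nil
theorem uv211 : Unsat sv211 := okb_sound ev211 fa_nil
theorem uv212 : Unsat sv212 := okb_sound ev212 (fa_cons uv211 fa_nil)
theorem uv213 : Unsat sv213 := okb_sound ev213 (fa_cons uv210 (fa_cons uv212 fa_nil))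
theorem uv214 : Unsat sv214 := okb_sound ev214 fa_nil
theorem uv215 : Unsat sv215 := okb_sound ev215 fa_nil
theorem uv216 : Unsat sv216 := okb_sound ev216 (fa_cons uv215 fa_nil)
theorem uv217 : Unsat sv217 := okb_sound ev217 (fa_cons uv214 (fa_cons uv216 fa_nil))
theorem uv218 : Unsat sv218 := okb_sound ev218 fa_nil
theorem uv219 : Unsat sv219 := okb_sound ev219 fa_nil
theorem uv220 : Unsat sv220 := okb_sound ev220 fa_nil
theorem uv221 : Unsat sv221 := okb_sound ev221 (fa_cons uv220 fa_nil)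
theorem uv222 : Unsat sv222 := okb_sound ev222 (fa_cons uv221 fa_nil)
theorem uv223 : Unsat sv223 := okb_sound ev223 fa_nil
theorem uv224 : Unsat sv224 := okb_sound ev224 (fa_cons uv219 (fa_cons uv222 (fa_cons uv223 fa_nil)))
theorem uv225 : Unsat sv225 := okb_sound ev225 fa_nil
theorem uv226 : Unsat sv226 := okb_sound ev226 fa_nil
theorem uv227 : Unsat sv227 := okb_sound ev227 fa_nil
theorem uv228 : Unsat sv228 := okb_sound ev228 fa_nil
theorem uv229 : Unsat sv229 := okb_sound ev229 (fa_cons uv228 fa_nil)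
theorem uv230 : Unsat sv230 := okb_sound ev230 (fa_cons uv229 fa_nil)
theorem uv231 : Unsat sv231 := okb_sound ev231 (fa_cons uv226 (fa_cons uv227 (fa_cons uv230 fa_nil)))
theorem uv232 : Unsat sv232 := okb_sound ev232 fa_nil
theorem uv233 : Unsat sv233 := okb_sound ev233 fa_nil
theorem uv234 : Unsat sv234 := okb_sound ev234 (fa_cons uv233 fa_nil)
theorem uv235 : Unsat sv235 := okb_sound ev235 (fa_cons uv232 (fa_cons uv234 fa_nil))
theorem uv236 : Unsat sv236 := okb_sound ev236 fa_nil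
theorem uv237 : Unsat sv237 := okb_sound ev237 (fa_cons uv236 fa_nil)
theorem uv238 : Unsat sv238 := okb_sound ev238 fa_nil
theorem uv239 : Unsat sv239 := okb_sound ev239 fa_nil
theorem uv240 : Unsat sv240 := okb_sound ev240 (fa_cons uv238 (fa_cons uv239 fa_nil))
theorem uv241 : Unsat sv241 := okb_sound ev241 fa_nil
theorem uv242 : Unsat sv242 := okb_sound ev242 fa_nil
theorem uv243 : Unsat sv243 := okb_sound ev243 (fa_cons uv242 fa_nil)
theorem uv244 : Unsat sv244 := okb_sound ev244 (fa_cons uv243 fa_nil)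
theorem uv245 : Unsat sv245 := okb_sound ev245 fa_nil
theorem uv246 : Unsat sv246 := okb_sound ev246 (fa_cons uv245 fa_nil)
theorem uv247 : Unsat sv247 := okb_sound ev247 fa_nil
theorem uv248 : Unsat sv248 := okb_sound ev248 (fa_cons uv247 fa_nil)
theorem uv249 : Unsat sv249 := okb_sound ev249 fa_nil
theorem uv250 : Unsat sv250 := okb_sound ev250 fa_nil
theorem uv251 : Unsat sv251 := okb_sound ev251 (fa_cons uv250 fa_nil)
theorem uv252 : Unsat sv252 := okb_sound ev252 (fa_cons uv251 fa_nil)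
theorem uv253 : Unsat sv253 := okb_sound ev253 fa_nil
theorem uv254 : Unsat sv254 := okb_sound ev254 fa_nil
theorem uv255 : Unsat sv255 := okb_sound ev255 fa_nil
theorem uv256 : Unsat sv256 := okb_sound ev256 (fa_cons uv253 (fa_cons uv254 (fa_cons uv255 fa_nil)))
theorem uv257 : Unsat sv257 := okb_sound ev257 fa_nil
theorem uv258 : Unsat sv258 := okb_sound ev258 fa_nil
theorem uv259 : Unsat sv259 := okb_sound ev259 fa_nil
theorem uv260 : Unsat sv260 := okb_sound ev260 (fa_cons uv258 (fa_cons uv259 fa_nil))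
theorem uv261 : Unsat sv261 := okb_sound ev261 fa_nil
theorem uv262 : Unsat sv262 := okb_sound ev262 fa_nil
theorem uv263 : Unsat sv263 := okb_sound ev263 (fa_cons uv257 (fa_cons uv260 (fa_cons uv261 (fa_cons uv262 fa_nil))))
theorem uv264 : Unsat sv264 := okb_sound ev264 fa_nil
theorem uv265 : Unsat sv265 := okb_sound ev265 fa_nil
theorem uv266 : Unsat sv266 := okb_sound ev266 fa_nil
theorem uv267 : Unsat sv267 := okb_sound ev267 (fa_cons uv264 (fa_cons uv265 (fa_cons uv266 fa_nil)))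
theorem uv268 : Unsat sv268 := okb_sound ev268 fa_nil
theorem uv269 : Unsat sv269 := okb_sound ev269 fa_nil
theorem uv270 : Unsat sv270 := okb_sound ev270 (fa_cons uv269 fa_nil)
theorem uv271 : Unsat sv271 := okb_sound ev271 fa_nil
theorem uv272 : Unsat sv272 := okb_sound ev272 (fa_cons uv270 (fa_cons uv271 fa_nil))
theorem uv273 : Unsat sv273 := okb_sound ev273 fa_nil
theorem uv274 : Unsat sv274 := okb_sound ev274 fa_nil
theorem uv275 : Unsat sv275 := okb_sound ev275 (fa_cons uv274 fa_nil)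
theorem uv276 : Unsat sv276 := okb_sound ev276 (fa_cons uv273 (fa_cons uv275 fa_nil))
theorem uv277 : Unsat sv277 := okb_sound ev277 fa_nil
theorem uv278 : Unsat sv278 := okb_sound ev278 fa_nil
theorem uv279 : Unsat sv279 := okb_sound ev279 (fa_cons uv278 fa_nil)
theorem uv280 : Unsat sv280 := okb_sound ev280 fa_nil
theorem uv281 : Unsat sv281 := okb_sound ev281 fa_nil
theorem uv282 : Unsat sv282 := okb_sound ev282 (fa_cons uv280 (fa_cons uv281 fa_nil))
theorem uv283 : Unsat sv283 := okb_sound ev283 fa_nil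
theorem uv284 : Unsat sv284 := okb_sound ev284 fa_nil
theorem uv285 : Unsat sv285 := okb_sound ev285 fa_nil
theorem uv286 : Unsat sv286 := okb_sound ev286 (fa_cons uv284 (fa_cons uv285 fa_nil))
theorem uv287 : UnsatD 6 := okt_sound ev287 (fa_cons uv185 (fa_cons uv197 (fa_cons uv198 (fa_cons uv201 (fa_cons uv204 (fa_cons uv205 (fa_cons uv208 (fa_cons uv209 (fa_cons uv213 (fa_cons uv217 (fa_cons uv218 (fa_cons uv224 (fa_cons uv225 (fa_cons uv231 (fa_cons uv235 (fa_cons uv237 (fa_cons uv240 (fa_cons uv241 (fa_cons uv244 (fa_cons uv246 (fa_cons uv248 (fa_cons uv249 (fa_cons uv252 (fa_cons uv256 (fa_cons uv263 (fa_cons uv267 (fa_cons uv268 (fa_cons uv272 (fa_cons uv276 (fa_cons uv277 (fa_cons uv279 (fa_cons uv282 (fa_cons uv283 (fa_cons uv286 fa_nil))))))))))))))))))))))))))))))))))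
theorem uv288 : Unsat sv288 := okb_sound ev288 fa_nil
theorem uv289 : Unsat sv289 := okb_sound ev289 (fa_cons uv288 fa_nil)
theorem uv290 : Unsat sv290 := okb_sound ev290 fa_nil
theorem uv291 : Unsat sv291 := okb_sound ev291 fa_nil
theorem uv292 : Unsat sv292 := okb_sound ev292 fa_nil
theorem uv293 : Unsat sv293 := okb_sound ev293 fa_nil
theorem uv294 : Unsat sv294 := okb_sound ev294 fa_nil
theorem uv295 : Unsat sv295 := okb_sound ev295 fa_nil
theorem uv296 : Unsat sv296 := okb_sound ev296 fa_nil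
theorem uv297 : Unsat sv297 := okb_sound ev297 fa_nil
theorem uv298 : Unsat sv298 := okb_sound ev298 (fa_cons uv297 fa_nil)
theorem uv299 : Unsat sv299 := okb_sound ev299 fa_nil
theorem uv300 : Unsat sv300 := okb_sound ev300 fa_nil
theorem uv301 : Unsat sv301 := okb_sound ev301 (fa_cons uv294 (fa_cons uv295 (fa_cons uv296 (fa_cons uv298 (fa_cons uv299 (fa_cons uv300 fa_nil))))))
theorem uv302 : Unsat sv302 := okb_sound ev302 fa_nil
theorem uv303 : Unsat sv303 := okb_sound ev303 fa_nil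
theorem uv304 : Unsat sv304 := okb_sound ev304 (fa_cons uv303 fa_nil)
theorem uv305 : Unsat sv305 := okb_sound ev305 fa_nil
theorem uv306 : Unsat sv306 := okb_sound ev306 (fa_cons uv305 fa_nil)
theorem uv307 : Unsat sv307 := okb_sound ev307 fa_nil
theorem uv308 : Unsat sv308 := okb_sound ev308 fa_nil
theorem uv309 : Unsat sv309 := okb_sound ev309 (fa_cons uv308 fa_nil)
theorem uv310 : Unsat sv310 := okb_sound ev310 fa_nil
theorem uv311 : Unsat sv311 := okb_sound ev311 (fa_cons uv310 fa_nil)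
theorem uv312 : Unsat sv312 := okb_sound ev312 fa_nil
theorem uv313 : Unsat sv313 := okb_sound ev313 fa_nil
theorem uv314 : Unsat sv314 := okb_sound ev314 fa_nil
theorem uv315 : Unsat sv315 := okb_sound ev315 fa_nil
theorem uv316 : Unsat sv316 := okb_sound ev316 fa_nil
theorem uv317 : Unsat sv317 := okb_sound ev317 fa_nil
theorem uv318 : Unsat sv318 := okb_sound ev318 (fa_cons uv316 (fa_cons uv317 fa_nil))
theorem uv319 : Unsat sv319 := okb_sound ev319 fa_nil
theorem uv320 : Unsat sv320 := okb_sound ev320 fa_nil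
theorem uv321 : Unsat sv321 := okb_sound ev321 (fa_cons uv320 fa_nil)
theorem uv322 : Unsat sv322 := okb_sound ev322 (fa_cons uv321 fa_nil)
theorem uv323 : Unsat sv323 := okb_sound ev323 (fa_cons uv322 fa_nil)
theorem uv324 : Unsat sv324 := okb_sound ev324 fa_nil
theorem uv325 : Unsat sv325 := okb_sound ev325 fa_nil
theorem uv326 : Unsat sv326 := okb_sound ev326 fa_nil
theorem uv327 : Unsat sv327 := okb_sound ev327 (fa_cons uv326 fa_nil)
theorem uv328 : Unsat sv328 := okb_sound ev328 (fa_cons uv325 (fa_cons uv327 fa_nil))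
theorem uv329 : Unsat sv329 := okb_sound ev329 fa_nil
theorem uv330 : Unsat sv330 := okb_sound ev330 fa_nil
theorem uv331 : Unsat sv331 := okb_sound ev331 fa_nil
theorem uv332 : Unsat sv332 := okb_sound ev332 fa_nil
theorem uv333 : Unsat sv333 := okb_sound ev333 (fa_cons uv332 fa_nil)
theorem uv334 : Unsat sv334 := okb_sound ev334 fa_nil
theorem uv335 : Unsat sv335 := okb_sound ev335 fa_nil
theorem uv336 : Unsat sv336 := okb_sound ev336 fa_nil
theorem uv337 : Unsat sv337 := okb_sound ev337 fa_nil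
theorem uv338 : Unsat sv338 := okb_sound ev338 fa_nil
theorem uv339 : Unsat sv339 := okb_sound ev339 (fa_cons uv338 fa_nil)
theorem uv340 : Unsat sv340 := okb_sound ev340 fa_nil
theorem uv341 : Unsat sv341 := okb_sound ev341 fa_nil
theorem uv342 : Unsat sv342 := okb_sound ev342 fa_nil
theorem uv343 : Unsat sv343 := okb_sound ev343 fa_nil
theorem uv344 : Unsat sv344 := okb_sound ev344 fa_nil
theorem uv345 : Unsat sv345 := okb_sound ev345 (fa_cons uv344 fa_nil)
theorem uv346 : Unsat sv346 := okb_sound ev346 fa_nil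
theorem uv347 : Unsat sv347 := okb_sound ev347 fa_nil
theorem uv348 : Unsat sv348 := okb_sound ev348 fa_nil
theorem uv349 : Unsat sv349 := okb_sound ev349 fa_nil
theorem uv350 : Unsat sv350 := okb_sound ev350 fa_nil
theorem uv351 : Unsat sv351 := okb_sound ev351 fa_nil
theorem uv352 : Unsat sv352 := okb_sound ev352 fa_nil
theorem uv353 : Unsat sv353 := okb_sound ev353 fa_nil
theorem uv354 : UnsatD 7 := okt_sound ev354 (fa_cons uv289 (fa_cons uv290 (fa_cons uv291 (fa_cons uv292 (fa_cons uv293 (fa_cons uv301 (fa_cons uv302 (fa_cons uv304 (fa_cons uv306 (fa_cons uv307 (fa_cons uv309 (fa_cons uv311 (fa_cons uv312 (fa_cons uv313 (fa_cons uv314 (fa_cons uv315 (fa_cons uv318 (fa_cons uv319 (fa_cons uv323 (fa_cons uv324 (fa_cons uv328 (fa_cons uv329 (fa_cons uv330 (fa_cons uv331 (fa_cons uv333 (fa_cons uv334 (fa_cons uv335 (fa_cons uv336 (fa_cons uv337 (fa_cons uv339 (fa_cons uv340 (fa_cons uv341 (fa_cons uv342 (fa_cons uv343 (fa_cons uv345 (fa_cons uv346 (fa_cons uv347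 (fa_cons uv348 (fa_cons uv349 (fa_cons uv350 (fa_cons uv351 (fa_cons uv352 (fa_cons uv353 fa_nil)))))))))))))))))))))))))))))))))))))))))))
theorem uv355 : Unsat sv355 := okb_sound ev355 fa_nil
theorem uv356 : Unsat sv356 := okb_sound ev356 fa_nil
theorem uv357 : Unsat sv357 := okb_sound ev357 fa_nil
theorem uv358 : Unsat sv358 := okb_sound ev358 fa_nil
theorem uv359 : Unsat sv359 := okb_sound ev359 fa_nil
theorem uv360 : Unsat sv360 := okb_sound ev360 fa_nil
theorem uv361 : Unsat sv361 := okb_sound ev361 fa_nil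
theorem uv362 : Unsat sv362 := okb_sound ev362 fa_nil
theorem uv363 : Unsat sv363 := okb_sound ev363 fa_nil
theorem uv364 : Unsat sv364 := okb_sound ev364 (fa_cons uv358 (fa_cons uv359 (fa_cons uv360 (fa_cons uv361 (fa_cons uv362 (fa_cons uv363 fa_nil))))))
theorem uv365 : Unsat sv365 := okb_sound ev365 fa_nil
theorem uv366 : Unsat sv366 := okb_sound ev366 fa_nil
theorem uv367 : Unsat sv367 := okb_sound ev367 (fa_cons uv366 fa_nil)
theorem uv368 : Unsat sv368 := okb_sound ev368 fa_nil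
theorem uv369 : Unsat sv369 := okb_sound ev369 fa_nil
theorem uv370 : Unsat sv370 := okb_sound ev370 fa_nil
theorem uv371 : Unsat sv371 := okb_sound ev371 (fa_cons uv370 fa_nil)
theorem uv372 : Unsat sv372 := okb_sound ev372 fa_nil
theorem uv373 : Unsat sv373 := okb_sound ev373 fa_nil
theorem uv374 : Unsat sv374 := okb_sound ev374 (fa_cons uv373 fa_nil)
theorem uv375 : Unsat sv375 := okb_sound ev375 fa_nil
theorem uv376 : Unsat sv376 := okb_sound ev376 fa_nil
theorem uv377 : Unsat sv377 := okb_sound ev377 (fa_cons uv376 fa_nil)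
theorem uv378 : Unsat sv378 := okb_sound ev378 fa_nil
theorem uv379 : Unsat sv379 := okb_sound ev379 fa_nil
theorem uv380 : Unsat sv380 := okb_sound ev380 fa_nil
theorem uv381 : Unsat sv381 := okb_sound ev381 fa_nil
theorem uv382 : Unsat sv382 := okb_sound ev382 fa_nil
theorem uv383 : Unsat sv383 := okb_sound ev383 fa_nil
theorem uv384 : Unsat sv384 := okb_sound ev384 (fa_cons uv383 fa_nil)
theorem uv385 : Unsat sv385 := okb_sound ev385 fa_nil
theorem uv386 : Unsat sv386 := okb_sound ev386 fa_nil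
theorem uv387 : Unsat sv387 := okb_sound ev387 fa_nil
theorem uv388 : Unsat sv388 := okb_sound ev388 fa_nil
theorem uv389 : Unsat sv389 := okb_sound ev389 (fa_cons uv388 fa_nil)
theorem uv390 : Unsat sv390 := okb_sound ev390 fa_nil
theorem uv391 : Unsat sv391 := okb_sound ev391 (fa_cons uv387 (fa_cons uv389 (fa_cons uv390 fa_nil)))
theorem uv392 : Unsat sv392 := okb_sound ev392 fa_nil
theorem uv393 : Unsat sv393 := okb_sound ev393 fa_nil
theorem uv394 : Unsat sv394 := okb_sound ev394 fa_nil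
theorem uv395 : Unsat sv395 := okb_sound ev395 (fa_cons uv394 fa_nil)
theorem uv396 : Unsat sv396 := okb_sound ev396 fa_nil
theorem uv397 : Unsat sv397 := okb_sound ev397 fa_nil
theorem uv398 : Unsat sv398 := okb_sound ev398 fa_nil
theorem uv399 : Unsat sv399 := okb_sound ev399 fa_nil
theorem uv400 : Unsat sv400 := okb_sound ev400 fa_nil
theorem uv401 : Unsat sv401 := okb_sound ev401 (fa_cons uv400 fa_nil)
theorem uv402 : Unsat sv402 := okb_sound ev402 fa_nil
theorem uv403 : Unsat sv403 := okb_sound ev403 fa_nil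
theorem uv404 : Unsat sv404 := okb_sound ev404 fa_nil
theorem uv405 : Unsat sv405 := okb_sound ev405 fa_nil
theorem uv406 : Unsat sv406 := okb_sound ev406 fa_nil
theorem uv407 : Unsat sv407 := okb_sound ev407 fa_nil
theorem uv408 : Unsat sv408 := okb_sound ev408 fa_nil
theorem uv409 : Unsat sv409 := okb_sound ev409 fa_nil
theorem uv410 : Unsat sv410 := okb_sound ev410 fa_nil
theorem uv411 : Unsat sv411 := okb_sound ev411 fa_nil
theorem uv412 : Unsat sv412 := okb_sound ev412 fa_nil
theorem uv413 : Unsat sv413 := okb_sound ev413 fa_nil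
theorem uv414 : Unsat sv414 := okb_sound ev414 fa_nil
theorem uv415 : Unsat sv415 := okb_sound ev415 fa_nil
theorem uv416 : Unsat sv416 := okb_sound ev416 fa_nil
theorem uv417 : Unsat sv417 := okb_sound ev417 (fa_cons uv415 (fa_cons uv416 fa_nil))
theorem uv418 : Unsat sv418 := okb_sound ev418 fa_nil
theorem uv419 : Unsat sv419 := okb_sound ev419 (fa_cons uv418 fa_nil)
theorem uv420 : Unsat sv420 := okb_sound ev420 fa_nil
theorem uv421 : Unsat sv421 := okb_sound ev421 fa_nil
theorem uv422 : Unsat sv422 := okb_sound ev422 fa_nil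
theorem uv423 : Unsat sv423 := okb_sound ev423 (fa_cons uv420 (fa_cons uv421 (fa_cons uv422 fa_nil)))
theorem uv424 : Unsat sv424 := okb_sound ev424 fa_nil
theorem uv425 : Unsat sv425 := okb_sound ev425 (fa_cons uv424 fa_nil)
theorem uv426 : Unsat sv426 := okb_sound ev426 fa_nil
theorem uv427 : Unsat sv427 := okb_sound ev427 (fa_cons uv426 fa_nil)
theorem uv428 : Unsat sv428 := okb_sound ev428 fa_nil
theorem uv429 : Unsat sv429 := okb_sound ev429 (fa_cons uv428 fa_nil)
theorem uv430 : Unsat sv430 := okb_sound ev430 fa_nil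
theorem uv431 : Unsat sv431 := okb_sound ev431 fa_nil
theorem uv432 : Unsat sv432 := okb_sound ev432 fa_nil
theorem uv433 : Unsat sv433 := okb_sound ev433 (fa_cons uv431 (fa_cons uv432 fa_nil))
theorem uv434 : Unsat sv434 := okb_sound ev434 fa_nil
theorem uv435 : Unsat sv435 := okb_sound ev435 fa_nil
theorem uv436 : Unsat sv436 := okb_sound ev436 fa_nil
theorem uv437 : UnsatD 8 := okt_sound ev437 (fa_cons uv355 (fa_cons uv356 (fa_cons uv357 (fa_cons uv364 (fa_cons uv365 (fa_cons uv367 (fa_cons uv368 (fa_cons uv369 (fa_cons uv371 (fa_cons uv372 (fa_cons uv374 (fa_cons uv375 (fa_cons uv377 (fa_cons uv378 (fa_cons uv379 (fa_cons uv380 (fa_cons uv381 (fa_cons uv382 (fa_cons uv384 (fa_cons uv385 (fa_cons uv386 (fa_cons uv391 (fa_cons uv392 (fa_cons uv393 (fa_cons uv395 (fa_cons uv396 (fa_cons uv397 (fa_cons uv398 (fa_cons uv399 (fa_cons uv401 (fa_cons uv402 (fa_cons uv403 (fa_cons uv404 (fa_cons uv405 (fa_cons uv406 (fa_cons uv407 (fa_cons uv408 (fa_cons uv409 (fa_cons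 uv410 (fa_cons uv411 (fa_cons uv412 (fa_cons uv413 (fa_cons uv414 (fa_cons uv417 (fa_cons uv419 (fa_cons uv423 (fa_cons uv425 (fa_cons uv427 (fa_cons uv429 (fa_cons uv430 (fa_cons uv433 (fa_cons uv434 (fa_cons uv435 (fa_cons uv436 fa_nil))))))))))))))))))))))))))))))))))))))))))))))))))))))
theorem uv438 : Unsat sv438 := okb_sound ev438 fa_nil
theorem uv439 : Unsat sv439 := okb_sound ev439 fa_nil
theorem uv440 : Unsat sv440 := okb_sound ev440 fa_nil
theorem uv441 : Unsat sv441 := okb_sound ev441 fa_nil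
theorem uv442 : Unsat sv442 := okb_sound ev442 fa_nil
theorem uv443 : Unsat sv443 := okb_sound ev443 fa_nil
theorem uv444 : Unsat sv444 := okb_sound ev444 fa_nil
theorem uv445 : Unsat sv445 := okb_sound ev445 fa_nil
theorem uv446 : Unsat sv446 := okb_sound ev446 fa_nil
theorem uv447 : Unsat sv447 := okb_sound ev447 fa_nil
theorem uv448 : Unsat sv448 := okb_sound ev448 (fa_cons uv443 (fa_cons uv444 (fa_cons uv445 (fa_cons uv446 (fa_cons uv447 fa_nil)))))
theorem uv449 : Unsat sv449 := okb_sound ev449 fa_nil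
theorem uv450 : Unsat sv450 := okb_sound ev450 fa_nil
theorem uv451 : Unsat sv451 := okb_sound ev451 fa_nil
theorem uv452 : Unsat sv452 := okb_sound ev452 fa_nil
theorem uv453 : Unsat sv453 := okb_sound ev453 fa_nil
theorem uv454 : Unsat sv454 := okb_sound ev454 fa_nil
theorem uv455 : Unsat sv455 := okb_sound ev455 fa_nil
theorem uv456 : Unsat sv456 := okb_sound ev456 fa_nil
theorem uv457 : Unsat sv457 := okb_sound ev457 (fa_cons uv456 fa_nil)
theorem uv458 : Unsat sv458 := okb_sound ev458 fa_nil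
theorem uv459 : Unsat sv459 := okb_sound ev459 fa_nil
theorem uv460 : Unsat sv460 := okb_sound ev460 fa_nil
theorem uv461 : Unsat sv461 := okb_sound ev461 fa_nil
theorem uv462 : Unsat sv462 := okb_sound ev462 fa_nil
theorem uv463 : Unsat sv463 := okb_sound ev463 fa_nil
theorem uv464 : Unsat sv464 := okb_sound ev464 fa_nil
theorem uv465 : Unsat sv465 := okb_sound ev465 fa_nil
theorem uv466 : Unsat sv466 := okb_sound ev466 fa_nil
theorem uv467 : Unsat sv467 := okb_sound ev467 fa_nil
theorem uv468 : Unsat sv468 := okb_sound ev468 (fa_cons uv467 fa_nil)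
theorem uv469 : Unsat sv469 := okb_sound ev469 fa_nil
theorem uv470 : Unsat sv470 := okb_sound ev470 fa_nil
theorem uv471 : Unsat sv471 := okb_sound ev471 fa_nil
theorem uv472 : Unsat sv472 := okb_sound ev472 (fa_cons uv471 fa_nil)
theorem uv473 : Unsat sv473 := okb_sound ev473 fa_nil
theorem uv474 : Unsat sv474 := okb_sound ev474 fa_nil
theorem uv475 : Unsat sv475 := okb_sound ev475 fa_nil
theorem uv476 : Unsat sv476 := okb_sound ev476 fa_nil
theorem uv477 : Unsat sv477 := okb_sound ev477 fa_nil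
theorem uv478 : Unsat sv478 := okb_sound ev478 fa_nil
theorem uv479 : Unsat sv479 := okb_sound ev479 fa_nil
theorem uv480 : Unsat sv480 := okb_sound ev480 fa_nil
theorem uv481 : Unsat sv481 := okb_sound ev481 (fa_cons uv480 fa_nil)
theorem uv482 : Unsat sv482 := okb_sound ev482 fa_nil
theorem uv483 : Unsat sv483 := okb_sound ev483 (fa_cons uv482 fa_nil)
theorem uv484 : Unsat sv484 := okb_sound ev484 fa_nil
theorem uv485 : Unsat sv485 := okb_sound ev485 fa_nil
theorem uv486 : Unsat sv486 := okb_sound ev486 fa_nil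
theorem uv487 : Unsat sv487 := okb_sound ev487 (fa_cons uv486 fa_nil)
theorem uv488 : Unsat sv488 := okb_sound ev488 fa_nil
theorem uv489 : Unsat sv489 := okb_sound ev489 fa_nil
theorem uv490 : Unsat sv490 := okb_sound ev490 fa_nil
theorem uv491 : Unsat sv491 := okb_sound ev491 fa_nil
theorem uv492 : Unsat sv492 := okb_sound ev492 fa_nil
theorem uv493 : Unsat sv493 := okb_sound ev493 fa_nil
theorem uv494 : Unsat sv494 := okb_sound ev494 fa_nil
theorem uv495 : Unsat sv495 := okb_sound ev495 fa_nil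
theorem uv496 : Unsat sv496 := okb_sound ev496 fa_nil
theorem uv497 : Unsat sv497 := okb_sound ev497 fa_nil
theorem uv498 : Unsat sv498 := okb_sound ev498 fa_nil
theorem uv499 : Unsat sv499 := okb_sound ev499 fa_nil
theorem uv500 : Unsat sv500 := okb_sound ev500 (fa_cons uv499 fa_nil)
theorem uv501 : Unsat sv501 := okb_sound ev501 fa_nil
theorem uv502 : Unsat sv502 := okb_sound ev502 fa_nil
theorem uv503 : Unsat sv503 := okb_sound ev503 fa_nil
theorem uv504 : Unsat sv504 := okb_sound ev504 fa_nil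
theorem uv505 : Unsat sv505 := okb_sound ev505 fa_nil
theorem uv506 : Unsat sv506 := okb_sound ev506 (fa_cons uv505 fa_nil)
theorem uv507 : Unsat sv507 := okb_sound ev507 fa_nil
theorem uv508 : Unsat sv508 := okb_sound ev508 fa_nil
theorem uv509 : Unsat sv509 := okb_sound ev509 fa_nil
theorem uv510 : Unsat sv510 := okb_sound ev510 fa_nil
theorem uv511 : Unsat sv511 := okb_sound ev511 fa_nil
theorem uv512 : Unsat sv512 := okb_sound ev512 fa_nil
theorem uv513 : Unsat sv513 := okb_sound ev513 fa_nil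
theorem uv514 : UnsatD 9 := okt_sound ev514 (fa_cons uv438 (fa_cons uv439 (fa_cons uv440 (fa_cons uv441 (fa_cons uv442 (fa_cons uv448 (fa_cons uv449 (fa_cons uv450 (fa_cons uv451 (fa_cons uv452 (fa_cons uv453 (fa_cons uv454 (fa_cons uv455 (fa_cons uv457 (fa_cons uv458 (fa_cons uv459 (fa_cons uv460 (fa_cons uv461 (fa_cons uv462 (fa_cons uv463 (fa_cons uv464 (fa_cons uv465 (fa_cons uv466 (fa_cons uv468 (fa_cons uv469 (fa_cons uv470 (fa_cons uv472 (fa_cons uv473 (fa_cons uv474 (fa_cons uv475 (fa_cons uv476 (fa_cons uv477 (fa_cons uv478 (fa_cons uv479 (fa_cons uv481 (fa_cons uv483 (fa_cons uv484 (fa_cons uv485 (fa_cons uv487 (fa_cons uv488 (fa_cons uv489 (fa_cons uv490 (fa_cons uv491 (fa_cons uv492 (fa_cons uv493 (fa_cons uv494 (fa_cons uv495 (fa_cons uv496 (fa_cons uv497 (fa_cons uv498 (fa_cons uv500 (fa_cons uv501 (fa_cons uv502 (fa_cons uv503 (fa_cons uv504 (fa_cons uv506 (fa_cons uv507 (fa_cons uv508 (fa_cons uv509 (fa_cons uv510 (fa_cons uv511 (fa_cons uv512 (fa_cons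 uv513 fa_nil)))))))))))))))))))))))))))))))))))))))))))))))))))))))))))))))
theorem uv515 : Unsat sv515 := okb_sound ev515 fa_nil
theorem uv516 : Unsat sv516 := okb_sound ev516 fa_nil
theorem uv517 : Unsat sv517 := okb_sound ev517 fa_nil
theorem uv518 : Unsat sv518 := okb_sound ev518 fa_nil
theorem uv519 : Unsat sv519 := okb_sound ev519 fa_nil
theorem uv520 : Unsat sv520 := okb_sound ev520 fa_nil
theorem uv521 : Unsat sv521 := okb_sound ev521 (fa_cons uv518 (fa_cons uv519 (fa_cons uv520 fa_nil)))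
theorem uv522 : Unsat sv522 := okb_sound ev522 fa_nil
theorem uv523 : Unsat sv523 := okb_sound ev523 fa_nil
theorem uv524 : Unsat sv524 := okb_sound ev524 fa_nil
theorem uv525 : Unsat sv525 := okb_sound ev525 fa_nil
theorem uv526 : Unsat sv526 := okb_sound ev526 fa_nil
theorem uv527 : Unsat sv527 := okb_sound ev527 fa_nil
theorem uv528 : Unsat sv528 := okb_sound ev528 fa_nil
theorem uv529 : Unsat sv529 := okb_sound ev529 fa_nil
theorem uv530 : Unsat sv530 := okb_sound ev530 fa_nil
theorem uv531 : Unsat sv531 := okb_sound ev531 fa_nil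
theorem uv532 : Unsat sv532 := okb_sound ev532 fa_nil
theorem uv533 : Unsat sv533 := okb_sound ev533 fa_nil
theorem uv534 : Unsat sv534 := okb_sound ev534 fa_nil
theorem uv535 : Unsat sv535 := okb_sound ev535 fa_nil
theorem uv536 : Unsat sv536 := okb_sound ev536 fa_nil
theorem uv537 : Unsat sv537 := okb_sound ev537 fa_nil
theorem uv538 : Unsat sv538 := okb_sound ev538 fa_nil
theorem uv539 : Unsat sv539 := okb_sound ev539 fa_nil
theorem uv540 : Unsat sv540 := okb_sound ev540 fa_nil
theorem uv541 : Unsat sv541 := okb_sound ev541 fa_nil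
theorem uv542 : Unsat sv542 := okb_sound ev542 fa_nil
theorem uv543 : Unsat sv543 := okb_sound ev543 fa_nil
theorem uv544 : Unsat sv544 := okb_sound ev544 fa_nil
theorem uv545 : Unsat sv545 := okb_sound ev545 fa_nil
theorem uv546 : Unsat sv546 := okb_sound ev546 fa_nil
theorem uv547 : Unsat sv547 := okb_sound ev547 (fa_cons uv546 fa_nil)
theorem uv548 : Unsat sv548 := okb_sound ev548 fa_nil
theorem uv549 : Unsat sv549 := okb_sound ev549 fa_nil
theorem uv550 : Unsat sv550 := okb_sound ev550 fa_nil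
theorem uv551 : Unsat sv551 := okb_sound ev551 fa_nil
theorem uv552 : Unsat sv552 := okb_sound ev552 fa_nil
theorem uv553 : Unsat sv553 := okb_sound ev553 fa_nil
theorem uv554 : Unsat sv554 := okb_sound ev554 fa_nil
theorem uv555 : Unsat sv555 := okb_sound ev555 fa_nil
theorem uv556 : Unsat sv556 := okb_sound ev556 fa_nil
theorem uv557 : Unsat sv557 := okb_sound ev557 fa_nil
theorem uv558 : Unsat sv558 := okb_sound ev558 fa_nil
theorem uv559 : Unsat sv559 := okb_sound ev559 fa_nil
theorem uv560 : Unsat sv560 := okb_sound ev560 fa_nil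
theorem uv561 : Unsat sv561 := okb_sound ev561 fa_nil
theorem uv562 : Unsat sv562 := okb_sound ev562 fa_nil
theorem uv563 : Unsat sv563 := okb_sound ev563 fa_nil
theorem uv564 : Unsat sv564 := okb_sound ev564 fa_nil
theorem uv565 : Unsat sv565 := okb_sound ev565 fa_nil
theorem uv566 : Unsat sv566 := okb_sound ev566 fa_nil
theorem uv567 : Unsat sv567 := okb_sound ev567 fa_nil
theorem uv568 : Unsat sv568 := okb_sound ev568 fa_nil
theorem uv569 : Unsat sv569 := okb_sound ev569 fa_nil
theorem uv570 : Unsat sv570 := okb_sound ev570 fa_nil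
theorem uv571 : Unsat sv571 := okb_sound ev571 fa_nil
theorem uv572 : Unsat sv572 := okb_sound ev572 fa_nil
theorem uv573 : Unsat sv573 := okb_sound ev573 fa_nil
theorem uv574 : Unsat sv574 := okb_sound ev574 fa_nil
theorem uv575 : Unsat sv575 := okb_sound ev575 fa_nil
theorem uv576 : Unsat sv576 := okb_sound ev576 fa_nil
theorem uv577 : Unsat sv577 := okb_sound ev577 fa_nil
theorem uv578 : Unsat sv578 := okb_sound ev578 (fa_cons uv577 fa_nil)
theorem uv579 : Unsat sv579 := okb_sound ev579 fa_nil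
theorem uv580 : Unsat sv580 := okb_sound ev580 fa_nil
theorem uv581 : Unsat sv581 := okb_sound ev581 fa_nil
theorem uv582 : Unsat sv582 := okb_sound ev582 fa_nil
theorem uv583 : Unsat sv583 := okb_sound ev583 (fa_cons uv581 (fa_cons uv582 fa_nil))
theorem uv584 : Unsat sv584 := okb_sound ev584 fa_nil
theorem uv585 : Unsat sv585 := okb_sound ev585 fa_nil
theorem uv586 : Unsat sv586 := okb_sound ev586 fa_nil
theorem uv587 : Unsat sv587 := okb_sound ev587 fa_nil
theorem uv588 : Unsat sv588 := okb_sound ev588 fa_nil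
theorem uv589 : Unsat sv589 := okb_sound ev589 fa_nil
theorem uv590 : Unsat sv590 := okb_sound ev590 fa_nil
theorem uv591 : Unsat sv591 := okb_sound ev591 fa_nil
theorem uv592 : Unsat sv592 := okb_sound ev592 fa_nil
theorem uv593 : UnsatD 10 := okt_sound ev593 (fa_cons uv515 (fa_cons uv516 (fa_cons uv517 (fa_cons uv521 (fa_cons uv522 (fa_cons uv523 (fa_cons uv524 (fa_cons uv525 (fa_cons uv526 (fa_cons uv527 (fa_cons uv528 (fa_cons uv529 (fa_cons uv530 (fa_cons uv531 (fa_cons uv532 (fa_cons uv533 (fa_cons uv534 (fa_cons uv535 (fa_cons uv536 (fa_cons uv537 (fa_cons uv538 (fa_cons uv539 (fa_cons uv540 (fa_cons uv541 (fa_cons uv542 (fa_cons uv543 (fa_cons uv544 (fa_cons uv545 (fa_cons uv547 (fa_cons uv548 (fa_cons uv549 (fa_cons uv550 (fa_cons uv551 (fa_cons uv552 (fa_cons uv553 (fa_cons uv554 (fa_cons uv555 (fa_cons uv556 (fa_cons uv557 (fa_cons uv558 (fa_cons uv559 (fa_cons uv560 (fa_cons uv561 (fa_cons uv562 (fa_cons uv563 (fa_cons uv564 (fa_cons uv565 (fa_cons uv566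 (fa_cons uv567 (fa_cons uv568 (fa_cons uv569 (fa_cons uv570 (fa_cons uv571 (fa_cons uv572 (fa_cons uv573 (fa_cons uv574 (fa_cons uv575 (fa_cons uv576 (fa_cons uv578 (fa_cons uv579 (fa_cons uv580 (fa_cons uv583 (fa_cons uv584 (fa_cons uv585 (fa_cons uv586 (fa_cons uv587 (fa_cons uv588 (fa_cons uv589 (fa_cons uv590 (fa_cons uv591 (fa_cons uv592 fa_nil)))))))))))))))))))))))))))))))))))))))))))))))))))))))))))))))))))))))
theorem uv594 : Unsat sv594 := okb_sound ev594 fa_nil
theorem uv595 : Unsat sv595 := okb_sound ev595 fa_nil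
theorem uv596 : Unsat sv596 := okb_sound ev596 fa_nil
theorem uv597 : Unsat sv597 := okb_sound ev597 fa_nil
theorem uv598 : Unsat sv598 := okb_sound ev598 fa_nil
theorem uv599 : Unsat sv599 := okb_sound ev599 fa_nil
theorem uv600 : Unsat sv600 := okb_sound ev600 fa_nil
theorem uv601 : Unsat sv601 := okb_sound ev601 fa_nil
theorem uv602 : Unsat sv602 := okb_sound ev602 fa_nil
theorem uv603 : Unsat sv603 := okb_sound ev603 fa_nil
theorem uv604 : Unsat sv604 := okb_sound ev604 fa_nil
theorem uv605 : Unsat sv605 := okb_sound ev605 fa_nil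
theorem uv606 : Unsat sv606 := okb_sound ev606 fa_nil
theorem uv607 : Unsat sv607 := okb_sound ev607 fa_nil
theorem uv608 : Unsat sv608 := okb_sound ev608 fa_nil
theorem uv609 : Unsat sv609 := okb_sound ev609 fa_nil
theorem uv610 : Unsat sv610 := okb_sound ev610 fa_nil
theorem uv611 : Unsat sv611 := okb_sound ev611 fa_nil
theorem uv612 : Unsat sv612 := okb_sound ev612 fa_nil
theorem uv613 : Unsat sv613 := okb_sound ev613 fa_nil
theorem uv614 : Unsat sv614 := okb_sound ev614 fa_nil
theorem uv615 : Unsat sv615 := okb_sound ev615 fa_nil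
theorem uv616 : Unsat sv616 := okb_sound ev616 fa_nil
theorem uv617 : Unsat sv617 := okb_sound ev617 fa_nil
theorem uv618 : Unsat sv618 := okb_sound ev618 fa_nil
theorem uv619 : Unsat sv619 := okb_sound ev619 fa_nil
theorem uv620 : Unsat sv620 := okb_sound ev620 fa_nil
theorem uv621 : Unsat sv621 := okb_sound ev621 fa_nil
theorem uv622 : Unsat sv622 := okb_sound ev622 fa_nil
theorem uv623 : Unsat sv623 := okb_sound ev623 fa_nil
theorem uv624 : Unsat sv624 := okb_sound ev624 fa_nil
theorem uv625 : Unsat sv625 := okb_sound ev625 fa_nil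
theorem uv626 : Unsat sv626 := okb_sound ev626 fa_nil
theorem uv627 : Unsat sv627 := okb_sound ev627 fa_nil
theorem uv628 : Unsat sv628 := okb_sound ev628 fa_nil
theorem uv629 : Unsat sv629 := okb_sound ev629 fa_nil
theorem uv630 : Unsat sv630 := okb_sound ev630 fa_nil
theorem uv631 : Unsat sv631 := okb_sound ev631 fa_nil
theorem uv632 : Unsat sv632 := okb_sound ev632 fa_nil
theorem uv633 : Unsat sv633 := okb_sound ev633 fa_nil
theorem uv634 : Unsat sv634 := okb_sound ev634 fa_nil
theorem uv635 : Unsat sv635 := okb_sound ev635 fa_nil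
theorem uv636 : Unsat sv636 := okb_sound ev636 fa_nil
theorem uv637 : Unsat sv637 := okb_sound ev637 fa_nil
theorem uv638 : Unsat sv638 := okb_sound ev638 fa_nil
theorem uv639 : Unsat sv639 := okb_sound ev639 fa_nil
theorem uv640 : Unsat sv640 := okb_sound ev640 fa_nil
theorem uv641 : Unsat sv641 := okb_sound ev641 fa_nil
theorem uv642 : Unsat sv642 := okb_sound ev642 fa_nil
theorem uv643 : Unsat sv643 := okb_sound ev643 fa_nil
theorem uv644 : Unsat sv644 := okb_sound ev644 fa_nil
theorem uv645 : Unsat sv645 := okb_sound ev645 fa_nil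
theorem uv646 : Unsat sv646 := okb_sound ev646 fa_nil
theorem uv647 : Unsat sv647 := okb_sound ev647 fa_nil
theorem uv648 : Unsat sv648 := okb_sound ev648 fa_nil
theorem uv649 : Unsat sv649 := okb_sound ev649 fa_nil
theorem uv650 : Unsat sv650 := okb_sound ev650 fa_nil
theorem uv651 : Unsat sv651 := okb_sound ev651 fa_nil
theorem uv652 : Unsat sv652 := okb_sound ev652 fa_nil
theorem uv653 : Unsat sv653 := okb_sound ev653 fa_nil
theorem uv654 : Unsat sv654 := okb_sound ev654 fa_nil
theorem uv655 : Unsat sv655 := okb_sound ev655 fa_nil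
theorem uv656 : Unsat sv656 := okb_sound ev656 fa_nil
theorem uv657 : Unsat sv657 := okb_sound ev657 fa_nil
theorem uv658 : Unsat sv658 := okb_sound ev658 fa_nil
theorem uv659 : Unsat sv659 := okb_sound ev659 fa_nil
theorem uv660 : Unsat sv660 := okb_sound ev660 fa_nil
theorem uv661 : Unsat sv661 := okb_sound ev661 fa_nil
theorem uv662 : Unsat sv662 := okb_sound ev662 fa_nil
theorem uv663 : Unsat sv663 := okb_sound ev663 fa_nil
theorem uv664 : Unsat sv664 := okb_sound ev664 fa_nil
theorem uv665 : Unsat sv665 := okb_sound ev665 fa_nil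
theorem uv666 : Unsat sv666 := okb_sound ev666 fa_nil
theorem uv667 : Unsat sv667 := okb_sound ev667 fa_nil
theorem uv668 : Unsat sv668 := okb_sound ev668 fa_nil
theorem uv669 : Unsat sv669 := okb_sound ev669 fa_nil
theorem uv670 : Unsat sv670 := okb_sound ev670 fa_nil
theorem uv671 : Unsat sv671 := okb_sound ev671 fa_nil
theorem uv672 : Unsat sv672 := okb_sound ev672 fa_nil
theorem uv673 : Unsat sv673 := okb_sound ev673 fa_nil
theorem uv674 : Unsat sv674 := okb_sound ev674 fa_nil
theorem uv675 : Unsat sv675 := okb_sound ev675 fa_nil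
theorem uv676 : Unsat sv676 := okb_sound ev676 fa_nil
theorem uv677 : Unsat sv677 := okb_sound ev677 fa_nil
theorem uv678 : Unsat sv678 := okb_sound ev678 fa_nil
theorem uv679 : Unsat sv679 := okb_sound ev679 fa_nil
theorem uv680 : UnsatD 11 := okt_sound ev680 (fa_cons uv594 (fa_cons uv595 (fa_cons uv596 (fa_cons uv597 (fa_cons uv598 (fa_cons uv599 (fa_cons uv600 (fa_cons uv601 (fa_cons uv602 (fa_cons uv603 (fa_cons uv604 (fa_cons uv605 (fa_cons uv606 (fa_cons uv607 (fa_cons uv608 (fa_cons uv609 (fa_cons uv610 (fa_cons uv611 (fa_cons uv612 (fa_cons uv613 (fa_cons uv614 (fa_cons uv615 (fa_cons uv616 (fa_cons uv617 (fa_cons uv618 (fa_cons uv619 (fa_cons uv620 (fa_cons uv621 (fa_cons uv622 (fa_cons uv623 (fa_cons uv624 (fa_cons uv625 (fa_cons uv626 (fa_cons uv627 (fa_cons uv628 (fa_cons uv629 (fa_cons uv630 (fa_cons uv631 (fa_cons uv632 (fa_cons uv633 (fa_cons uv634 (fa_cons uv635 (fa_cons uv636 (fa_cons uv637 (fa_cons uv638 (fa_cons uv639 (fa_cons uv640 (fa_cons uv641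 (fa_cons uv642 (fa_cons uv643 (fa_cons uv644 (fa_cons uv645 (fa_cons uv646 (fa_cons uv647 (fa_cons uv648 (fa_cons uv649 (fa_cons uv650 (fa_cons uv651 (fa_cons uv652 (fa_cons uv653 (fa_cons uv654 (fa_cons uv655 (fa_cons uv656 (fa_cons uv657 (fa_cons uv658 (fa_cons uv659 (fa_cons uv660 (fa_cons uv661 (fa_cons uv662 (fa_cons uv663 (fa_cons uv664 (fa_cons uv665 (fa_cons uv666 (fa_cons uv667 (fa_cons uv668 (fa_cons uv669 (fa_cons uv670 (fa_cons uv671 (fa_cons uv672 (fa_cons uv673 (fa_cons uv674 (fa_cons uv675 (fa_cons uv676 (fa_cons uv677 (fa_cons uv678 (fa_cons uv679 fa_nil))))))))))))))))))))))))))))))))))))))))))))))))))))))))))))))))))))))))))))))))))))))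

theorem unsat_all (D : ℕ) (h1 : 1 ≤ D) (h2 : D ≤ 11) : UnsatD D := by
  interval_cases D
  exacts [uv1, uv9, uv41, uv105, uv182, uv287, uv354, uv437, uv514, uv593, uv680]

end Pool.Agent.P.MP_6b6f6e_co
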