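import Pool.Agent.P.MP_6b6f6e_co.Model

/-!
Hermite normal form of a three by three integer matrix, as a system of congruences.
-/

namespace Pool.Agent.P.MP_6b6f6e_co

theorem step_ex (α β : ℤ) : ∃ p q u v : ℤ, p * v - q * u = 1 ∧ u * α + v * β = 0 := by
  by_cases h : Int.gcd α β = 0
  · rw [Int.gcd_eq_zero_iff] at h
    exact ⟨1, 0, 0, 1, by ring, by simp [h.1, h.2]⟩
  · obtain ⟨a, ha⟩ := Int.gcd_dvd_left (a := α) (b := β)
    obtain ⟨b, hb⟩ := Int.gcd_dvd_right (a := α) (b := β)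
    have hg := Int.gcd_eq_gcd_ab α β
    have h' : ((Int.gcd α β : ℕ) : ℤ) ≠ 0 := by exact_mod_cast h
    generalize ((Int.gcd α β : ℕ) : ℤ) = g at *
    refine ⟨α.gcdA β, α.gcdB β, -b, a, ?_, ?_⟩
    · apply mul_left_cancel₀ h'
      linear_combination (-α.gcdA β) * ha - (α.gcdB β) * hb - hg
    · linear_combination (-b) * ha + a * hb

theorem dvd_step {D A B p q u v : ℤ} (h : p * v - q * u = 1) :
    (D ∣ A ∧ D ∣ B) ↔ (D ∣ p * A + q * B ∧ D ∣ u * A + v * B) := by
  constructor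
  · rintro ⟨h1, h2⟩
    exact ⟨(h1.mul_left _).add (h2.mul_left _), (h1.mul_left _).add (h2.mul_left _)⟩
  · rintro ⟨h1, h2⟩
    constructor
    · have : A = v * (p * A + q * B) - q * (u * A + v * B) := by linear_combination (-A) * h
      rw [this]; exact (h1.mul_left _).sub (h2.mul_left _)
    · have : B = p * (u * A + v * B) - u * (p * A + q * B) := by linear_combination (-B) * h
      rw [this]; exact (h2.mul_left _).sub (h1.mul_left _)

/-- The conclusion: the given predicate has a normal form. -/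
def HN (D : ℕ) (P : ℤ → ℤ → ℤ → Prop) : Prop :=
  ∃ d1 d2 d3 a b c : ℕ, d1 * d2 * d3 = D ∧ a < d2 ∧ b < d3 ∧ c < d3 ∧
    ∀ x y z, P x y z ↔ Cong D d1 d2 d3 a b c x y z

theorem HN.congr {D : ℕ} {P Q : ℤ → ℤ → ℤ → Prop} (h : HN D Q) (e : ∀ x y z, P x y z ↔ Q x y z) :
    HN D P := by
  obtain ⟨d1, d2, d3, a, b, c, h1, h2, h3, h4, h5⟩ := h
  exact ⟨d1, d2, d3, a, b, c, h1, h2, h3, h4, fun x y z => (e x y z).trans (h5 x y z)⟩

theorem hn_pos (D d1 d2 d3 : ℕ) (a b c : ℤ) (hD : 1 ≤ D) (h : d1 * d2 * d3 = D) :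
    HN D fun x y z => (D : ℤ) ∣ d1 * x + a * y + b * z ∧ (D : ℤ) ∣ d2 * y + c * z ∧
      (D : ℤ) ∣ d3 * z := by
  have h2 : 0 < d2 := Nat.pos_of_ne_zero fun e => by subst e; simp at h; omega
  have h3 : 0 < d3 := Nat.pos_of_ne_zero fun e => by subst e; simp at h; omega
  have h2' : (0 : ℤ) < d2 := by exact_mod_cast h2
  have h3' : (0 : ℤ) < d3 := by exact_mod_cast h3
  have a1 := Int.emod_nonneg a h2'.ne'
  have a2 := Int.emod_lt_of_pos a h2'
  have a3 := Int.emod_add_mul_ediv a d2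
  set q1 := a / d2
  set a' := a % d2
  have b1 := Int.emod_nonneg (b - q1 * c) h3'.ne'
  have b2 := Int.emod_lt_of_pos (b - q1 * c) h3'
  have b3 := Int.emod_add_mul_ediv (b - q1 * c) d3
  set q2 := (b - q1 * c) / d3
  set b' := (b - q1 * c) % d3
  have c1 := Int.emod_nonneg c h3'.ne'
  have c2 := Int.emod_lt_of_pos c h3'
  have c3 := Int.emod_add_mul_ediv c d3
  set q3 := c / d3
  set c' := c % d3
  lift a' to ℕ using a1 with a''
  lift b' to ℕ using b1 with b''
  lift c' to ℕ using c1 with c''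
  refine ⟨d1, d2, d3, a'', b'', c'', h, by exact_mod_cast a2, by exact_mod_cast b2,
    by exact_mod_cast c2, fun x y z => ?_⟩
  unfold Cong
  have e1 : (d1 : ℤ) * x + a'' * y + b'' * z
      = (d1 * x + a * y + b * z) - q1 * (d2 * y + c * z) - q2 * (d3 * z) := by
    linear_combination y * a3 + z * b3
  have e2 : (d2 : ℤ) * y + c'' * z = (d2 * y + c * z) - q3 * (d3 * z) := by
    linear_combination z * c3
  constructor
  · rintro ⟨u1, u2, u3⟩
    rw [e1, e2]
    exact ⟨(u1.sub (u2.mul_left _)).sub (u3.mul_left _), u2.sub (u3.mul_left _), u3⟩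
  · rintro ⟨u1, u2, u3⟩
    have v2 : (D : ℤ) ∣ d2 * y + c * z := by
      have : (d2 : ℤ) * y + c * z = (d2 * y + c'' * z) + q3 * (d3 * z) := by
        linear_combination -e2
      rw [this]; exact u2.add (u3.mul_left _)
    refine ⟨?_, v2, u3⟩
    have : (d1 : ℤ) * x + a * y + b * z
        = (d1 * x + a'' * y + b'' * z) + q1 * (d2 * y + c * z) + q2 * (d3 * z) := by
      linear_combination -e1
    rw [this]; exact (u1.add (v2.mul_left _)).add (u3.mul_left _)

theorem sgn_ex (d : ℤ) : ∃ e : ℤ, e * d = d.natAbs ∧ ∀ D A : ℤ, D ∣ A ↔ D ∣ e * A := by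
  rcases le_total 0 d with h | h
  · exact ⟨1, by omega, by simp⟩
  · exact ⟨-1, by omega, by simp⟩

theorem hn_tri (D : ℕ) (d1 d2 d3 a b c : ℤ) (hD : 1 ≤ D) (h : (d1 * d2 * d3).natAbs = D) :
    HN D fun x y z => (D : ℤ) ∣ d1 * x + a * y + b * z ∧ (D : ℤ) ∣ d2 * y + c * z ∧
      (D : ℤ) ∣ d3 * z := by
  obtain ⟨e1, k1, l1⟩ := sgn_ex d1
  obtain ⟨e2, k2, l2⟩ := sgn_ex d2
  obtain ⟨e3, k3, l3⟩ := sgn_ex d3
  refine (hn_pos D d1.natAbs d2.natAbs d3.natAbs (e1 * a) (e1 * b) (e2 * c) hD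
    (by rw [← h]; simp [Int.natAbs_mul])).congr fun x y z => ?_
  rw [l1, l2 _ (d2 * y + c * z), l3 _ (d3 * z), ← k1, ← k2, ← k3]
  refine and_congr ?_ (and_congr ?_ ?_) <;> ring_nf

theorem hn_two (D : ℕ) (c11 c12 c13 c22 c23 c32 c33 : ℤ) (hD : 1 ≤ D)
    (h : (c11 * (c22 * c33 - c23 * c32)).natAbs = D) :
    HN D fun x y z => (D : ℤ) ∣ c11 * x + c12 * y + c13 * z ∧ (D : ℤ) ∣ c22 * y + c23 * z ∧
      (D : ℤ) ∣ c32 * y + c33 * z := by
  obtain ⟨p, q, u, v, h1, h2⟩ := step_ex c22 c32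
  refine (hn_tri D c11 (p * c22 + q * c32) (u * c23 + v * c33) c12 c13 (p * c23 + q * c33) hD
    ?_).congr fun x y z => ?_
  · rw [← h]; congr 1
    linear_combination (c11 * (c22 * c33 - c23 * c32)) * h1 + (c11 * (p * c23 + q * c33)) * h2
  · refine and_congr Iff.rfl ((dvd_step h1).trans ?_)
    have e : u * (c22 * y + c23 * z) + v * (c32 * y + c33 * z) = (u * c23 + v * c33) * z := by
      linear_combination y * h2
    rw [e]
    refine and_congr ?_ Iff.rfl
    ring_nf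

theorem hn_three (D : ℕ) (c11 c12 c13 c22 c23 c31 c32 c33 : ℤ) (hD : 1 ≤ D)
    (h : (c11 * (c22 * c33 - c23 * c32) + c31 * (c12 * c23 - c13 * c22)).natAbs = D) :
    HN D fun x y z => (D : ℤ) ∣ c11 * x + c12 * y + c13 * z ∧ (D : ℤ) ∣ c22 * y + c23 * z ∧
      (D : ℤ) ∣ c31 * x + c32 * y + c33 * z := by
  obtain ⟨p, q, u, v, h1, h2⟩ := step_ex c11 c31
  refine (hn_two D (p * c11 + q * c31) (p * c12 + q * c32) (p * c13 + q * c33) c22 c23
    (u * c12 + v * c32) (u * c13 + v * c33) hD ?_).congr fun x y z => ?_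
  · rw [← h]; congr 1
    linear_combination (c11 * (c22 * c33 - c23 * c32) + c31 * (c12 * c23 - c13 * c22)) * h1
      + (c22 * (p * c13 + q * c33) - c23 * (p * c12 + q * c32)) * h2
  · have e : u * (c11 * x + c12 * y + c13 * z) + v * (c31 * x + c32 * y + c33 * z)
        = (u * c12 + v * c32) * y + (u * c13 + v * c33) * z := by
      linear_combination x * h2
    have e' : p * (c11 * x + c12 * y + c13 * z) + q * (c31 * x + c32 * y + c33 * z)
        = (p * c11 + q * c31) * x + (p * c12 + q * c32) * y + (p * c13 + q * c33) * z := by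
      ring
    have := dvd_step (D := D) (A := c11 * x + c12 * y + c13 * z)
      (B := c31 * x + c32 * y + c33 * z) h1
    rw [e, e'] at this
    tauto

theorem hn_all (D : ℕ) (c11 c12 c13 c21 c22 c23 c31 c32 c33 : ℤ) (hD : 1 ≤ D)
    (h : (c11 * (c22 * c33 - c23 * c32) - c21 * (c12 * c33 - c13 * c32)
      + c31 * (c12 * c23 - c13 * c22)).natAbs = D) :
    HN D fun x y z => (D : ℤ) ∣ c11 * x + c12 * y + c13 * z ∧
      (D : ℤ) ∣ c21 * x + c22 * y + c23 * z ∧ (D : ℤ) ∣ c31 * x + c32 * y + c33 * z := by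
  obtain ⟨p, q, u, v, h1, h2⟩ := step_ex c11 c21
  refine (hn_three D (p * c11 + q * c21) (p * c12 + q * c22) (p * c13 + q * c23)
    (u * c12 + v * c22) (u * c13 + v * c23) c31 c32 c33 hD ?_).congr fun x y z => ?_
  · rw [← h]; congr 1
    linear_combination (c11 * (c22 * c33 - c23 * c32) - c21 * (c12 * c33 - c13 * c32)
      + c31 * (c12 * c23 - c13 * c22)) * h1
      + (c33 * (p * c12 + q * c22) - c32 * (p * c13 + q * c23)) * h2
  · have e : u * (c11 * x + c12 * y + c13 * z) + v * (c21 * x + c22 * y + c23 * z)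
        = (u * c12 + v * c22) * y + (u * c13 + v * c23) * z := by
      linear_combination x * h2
    have e' : p * (c11 * x + c12 * y + c13 * z) + q * (c21 * x + c22 * y + c23 * z)
        = (p * c11 + q * c21) * x + (p * c12 + q * c22) * y + (p * c13 + q * c23) * z := by
      ring
    have := dvd_step (D := D) (A := c11 * x + c12 * y + c13 * z)
      (B := c21 * x + c22 * y + c23 * z) h1
    rw [e, e'] at this
    tauto

end Pool.Agent.P.MP_6b6f6e_co
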