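import Pool.Agent.P.MP_6b6f6e_co.Lat

/-! The box subdivision checker. -/

set_option exponentiation.threshold 600

namespace Pool.Agent.P.MP_6b6f6e_co

open Finset

theorem cnd_zero {b : Bool} {x y : ℕ} (hx : b = true → x = 0) (hy : b = false → y = 0) :
    cnd b x y = 0 := by
  cases b
  · exact hy rfl
  · exact hx rfl

noncomputable def nth (l : List ℕ) : ℕ → ℕ :=
  List.rec (motive := fun _ => ℕ → ℕ) (fun _ => nat_lit 0)
    (fun a _ ih k => cnd (Nat.beq k (nat_lit 0)) a (ih (Nat.sub k (nat_lit 1)))) l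

def cR : ℕ := 55312

def raw (N k : ℕ) : ℕ := Nat.add (Nat.land (Nat.shiftRight N k) (nat_lit 255)) cR

theorem raw_bd (N k : ℕ) : 55312 ≤ raw N k ∧ raw N k ≤ 55567 := by
  have : Nat.land (Nat.shiftRight N k) (nat_lit 255) ≤ 255 := land_le _ _
  unfold raw cR
  rw [Nat.add_eq]; omega

theorem raw_lt (N k : ℕ) : raw N k < 2 ^ 17 := by have := raw_bd N k; omega

theorem raw_abs (N k : ℕ) : |cv (raw N k)| ≤ 128 := by
  have := raw_bd N k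
  unfold cv; rw [abs_le]; omega

attribute [irreducible] raw

abbrev KT := ℕ → ℕ → ℕ → ℕ → ℕ → ℕ → ℕ → ℕ

def sp1 (ih : KT) (N l1 l2 l3 h1 h2 h3 : ℕ) : ℕ :=
  ih (ih (Nat.shiftRight N (nat_lit 11)) l1 l2 l3 (raw N (nat_lit 3)) h2 h3)
    (Nat.add (raw N (nat_lit 3)) (nat_lit 1)) l2 l3 h1 h2 h3

def sp2 (ih : KT) (N l1 l2 l3 h1 h2 h3 : ℕ) : ℕ :=
  ih (ih (Nat.shiftRight N (nat_lit 11)) l1 l2 l3 h1 (raw N (nat_lit 3)) h3)
    l1 (Nat.add (raw N (nat_lit 3)) (nat_lit 1)) l3 h1 h2 h3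

def sp3 (ih : KT) (N l1 l2 l3 h1 h2 h3 : ℕ) : ℕ :=
  ih (ih (Nat.shiftRight N (nat_lit 11)) l1 l2 l3 h1 h2 (raw N (nat_lit 3)))
    l1 l2 (Nat.add (raw N (nat_lit 3)) (nat_lit 1)) h1 h2 h3

def mm (N d D : ℕ) : ℕ :=
  Nat.mod (Nat.mul (Nat.land (Nat.shiftRight N (nat_lit 3)) (nat_lit 15)) d) D

theorem mm_dvd (N d D : ℕ) (x : ℤ) : (D : ℤ) ∣
    (Nat.land (Nat.shiftRight N (nat_lit 3)) (nat_lit 15) : ℕ) * (d * x) - (mm N d D : ℕ) * x :=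
  dvd_mod_mul _ d x

noncomputable def no1 (L : Lat) (N l1 l2 l3 h1 h2 h3 : ℕ) : ℕ :=
  cnd (hasM L.D
    (Nat.add (Nat.add (Nat.mul (mm N L.d1 L.D) l1) (Nat.mul (mm N L.a L.D) l2))
      (Nat.mul (mm N L.b L.D) l3))
    (Nat.add (Nat.add (Nat.mul (mm N L.d1 L.D) h1) (Nat.mul (mm N L.a L.D) h2))
      (Nat.mul (mm N L.b L.D) h3))) (nat_lit 0) (Nat.shiftRight N (nat_lit 7))

noncomputable def no2 (L : Lat) (N l2 l3 h2 h3 : ℕ) : ℕ :=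
  cnd (hasM L.D (Nat.add (Nat.mul (mm N L.d2 L.D) l2) (Nat.mul (mm N L.c L.D) l3))
    (Nat.add (Nat.mul (mm N L.d2 L.D) h2) (Nat.mul (mm N L.c L.D) h3))) (nat_lit 0)
    (Nat.shiftRight N (nat_lit 7))

noncomputable def no3 (L : Lat) (N l3 h3 : ℕ) : ℕ :=
  cnd (hasM L.D (Nat.mul (mm N L.d3 L.D) l3) (Nat.mul (mm N L.d3 L.D) h3)) (nat_lit 0)
    (Nat.shiftRight N (nat_lit 7))

noncomputable def nr (D d v l h r : ℕ) : ℕ :=
  cnd (Nat.ble h (Nat.add v (Nat.div (Nat.sub D (nat_lit 1)) d)))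
    (cnd (Nat.ble v (Nat.add l (Nat.div (Nat.sub D (nat_lit 1)) d))) r (nat_lit 0)) (nat_lit 0)

noncomputable def pt1 (L : Lat) (ih : KT) (N x y z l1 l2 l3 h1 h2 h3 : ℕ) : ℕ :=
  cnd (mem L x y z) (nr L.D L.d1 x l1 h1 (nr L.D L.d2 y l2 h2 (nr L.D L.d3 z l3 h3
    (ih N x y z x y z)))) (nat_lit 0)

noncomputable def kdX (ch : List ℕ) (L : Lat) (en : ℕ → ℕ → ℕ → ℕ → ℕ) (ih : KT)
    (N l1 l2 l3 h1 h2 h3 : ℕ) : ℕ :=
  cnd (Nat.beq (Nat.land N (nat_lit 8)) (nat_lit 0))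
    (pt1 L ih (Nat.shiftRight N (nat_lit 28)) (raw N (nat_lit 4)) (raw N (nat_lit 12))
      (raw N (nat_lit 20)) l1 l2 l3 h1 h2 h3)
    (cnd (Nat.beq (Nat.land N (nat_lit 16)) (nat_lit 0))
      (cnd (Nat.ble h1 l1) (cnd (Nat.ble h2 l2) (cnd (Nat.ble h3 l3)
        (en (Nat.shiftRight N (nat_lit 5)) h1 h2 h3) (nat_lit 0)) (nat_lit 0)) (nat_lit 0))
      (cnd (Nat.beq (ih (nth ch (Nat.land (Nat.shiftRight N (nat_lit 5)) (nat_lit 4095)))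
        l1 l2 l3 h1 h2 h3) (nat_lit 0)) (nat_lit 0) (Nat.shiftRight N (nat_lit 17))))

noncomputable def kdS (ch : List ℕ) (L : Lat) (K : ℕ) (en : ℕ → ℕ → ℕ → ℕ → ℕ) (ih : KT)
    (N l1 l2 l3 h1 h2 h3 : ℕ) : ℕ :=
  cnd (Nat.ble (Nat.land N (nat_lit 7)) (nat_lit 3))
    (cnd (Nat.ble (Nat.land N (nat_lit 7)) (nat_lit 1))
      (cnd (Nat.beq (Nat.land N (nat_lit 7)) (nat_lit 0))
        (far (bf K l1 l2 l3 h1 h2 h3) (Nat.shiftRight N (nat_lit 3)))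
        (sp1 ih N l1 l2 l3 h1 h2 h3))
      (cnd (Nat.beq (Nat.land N (nat_lit 7)) (nat_lit 2))
        (sp2 ih N l1 l2 l3 h1 h2 h3) (sp3 ih N l1 l2 l3 h1 h2 h3)))
    (cnd (Nat.ble (Nat.land N (nat_lit 7)) (nat_lit 5))
      (cnd (Nat.beq (Nat.land N (nat_lit 7)) (nat_lit 4))
        (no1 L N l1 l2 l3 h1 h2 h3) (no2 L N l2 l3 h2 h3))
      (cnd (Nat.beq (Nat.land N (nat_lit 7)) (nat_lit 6))
        (no3 L N l3 h3) (kdX ch L en ih N l1 l2 l3 h1 h2 h3)))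

noncomputable def kd (ch : List ℕ) (L : Lat) (K : ℕ) (en : ℕ → ℕ → ℕ → ℕ → ℕ) (fuel : ℕ) : KT :=
  Nat.rec (motive := fun _ => KT) (fun _ _ _ _ _ _ _ => nat_lit 0)
    (fun _ ih => kdS ch L K en ih) fuel

theorem kdS_zero (ch : List ℕ) (L : Lat) (K : ℕ) (en : ℕ → ℕ → ℕ → ℕ → ℕ) (ih : KT)
    (l1 l2 l3 h1 h2 h3 : ℕ) : kdS ch L K en ih 0 l1 l2 l3 h1 h2 h3 = 0 := by
  delta kdS
  refine cnd_zero (fun _ => cnd_zero (fun _ => cnd_zero (fun _ => far_zero _) fun h => ?_)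
    fun h => ?_) fun h => ?_ <;> exact absurd h (by decide)

theorem kd_zero (ch : List ℕ) (L : Lat) (K : ℕ) (en : ℕ → ℕ → ℕ → ℕ → ℕ) (fuel : ℕ)
    (l1 l2 l3 h1 h2 h3 : ℕ) : kd ch L K en fuel 0 l1 l2 l3 h1 h2 h3 = 0 := by
  cases fuel
  · rfl
  · exact kdS_zero _ _ _ _ _ _ _ _ _ _ _

section
variable {G : Type} [AddCommGroup G] [LinearOrder G] [IsOrderedAddMonoid G]

theorem far_eq {X : Fin 10 → G} (hX : ∀ i, 0 < X i) {T : ℕ} (hT : Tab (Gd X) T) (N : ℕ) :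
    far T N = 0 := by
  by_contra h
  exact far_sound hX hT h

theorem cv_succ (s : ℕ) : cv (Nat.add s (nat_lit 1)) = cv s + 1 := by
  have : Nat.add s (nat_lit 1) = s + 1 := rfl
  rw [this]; unfold cv; push_cast; ring

theorem nr_zero {D d v l h r : ℕ} {x : ℤ} (h1 : cv l ≤ x) (h2 : x ≤ cv h)
    (hr : x - cv v ≤ ((D - 1) / d : ℕ) → cv v - x ≤ ((D - 1) / d : ℕ) → r = 0) :
    nr D d v l h r = 0 := by
  delta nr
  refine cnd_zero (fun a => cnd_zero (fun b => ?_) fun _ => rfl) fun _ => rfl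
  have a' : h ≤ v + (D - 1) / d := Nat.le_of_ble_eq_true a
  have b' : v ≤ l + (D - 1) / d := Nat.le_of_ble_eq_true b
  unfold cv at *
  generalize (D - 1) / d = q at *
  exact hr (by omega) (by omega)

theorem kdS_sound {M : PM G} {L : Lat} (hL : OKL M L) {x y z : ℤ} (hw : M.Lam x y z)
    (ch : List ℕ) {K : ℕ}
    (hK : ∀ l1 l2 l3 h1 h2 h3, InB x y z l1 l2 l3 h1 h2 h3 → Tab (Gd M.X) (bf K l1 l2 l3 h1 h2 h3))
    {en : ℕ → ℕ → ℕ → ℕ → ℕ}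
    (hen : ∀ N a b c, x = cv a → y = cv b → z = cv c → a < 2 ^ 17 → b < 2 ^ 17 → c < 2 ^ 17 →
      en N a b c = 0) {ih : KT} (h0 : ∀ l1 l2 l3 h1 h2 h3, ih 0 l1 l2 l3 h1 h2 h3 = 0)
    (hih : ∀ N l1 l2 l3 h1 h2 h3, InB x y z l1 l2 l3 h1 h2 h3 → ih N l1 l2 l3 h1 h2 h3 = 0)
    (N l1 l2 l3 h1 h2 h3 : ℕ) (hB : InB x y z l1 l2 l3 h1 h2 h3) :
    kdS ch L K en ih N l1 l2 l3 h1 h2 h3 = 0 := by
  have hD1 : 1 ≤ L.D := hL.1 ▸ M.hD1
  have hD2 : L.D ≤ 11 := hL.1 ▸ M.hD2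
  obtain ⟨u1, u2, u3⟩ := (hL.2.2 _ _ _).1 hw
  delta kdS
  refine cnd_zero (fun _ => cnd_zero (fun _ => cnd_zero (fun _ => ?_) fun _ => ?_)
    fun _ => cnd_zero (fun _ => ?_) fun _ => ?_) fun _ => cnd_zero
    (fun _ => cnd_zero (fun _ => ?_) fun _ => ?_) fun _ => cnd_zero (fun _ => ?_) fun _ => ?_
  · exact far_eq M.Xpos (hK _ _ _ _ _ _ hB) _
  · delta sp1
    rcases le_or_gt x (cv (raw N (nat_lit 3))) with h | h
    · rw [hih _ _ _ _ _ _ _ { hB with b1 := h, c1 := raw_lt _ _ }, h0]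
    · exact hih _ _ _ _ _ _ _ { hB with a1 := by rw [cv_succ]; omega }
  · delta sp2
    rcases le_or_gt y (cv (raw N (nat_lit 3))) with h | h
    · rw [hih _ _ _ _ _ _ _ { hB with b2 := h, c2 := raw_lt _ _ }, h0]
    · exact hih _ _ _ _ _ _ _ { hB with a2 := by rw [cv_succ]; omega }
  · delta sp3
    rcases le_or_gt z (cv (raw N (nat_lit 3))) with h | h
    · rw [hih _ _ _ _ _ _ _ { hB with b3 := h, c3 := raw_lt _ _ }, h0]
    · exact hih _ _ _ _ _ _ _ { hB with a3 := by rw [cv_succ]; omega }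
  · delta no1
    refine cnd_zero (fun _ => rfl) fun h => ?_
    have := hasM_gen hD1 hD2 hB (mm N L.d1 L.D) (mm N L.a L.D) (mm N L.b L.D)
      (dvd_eq ((((u1.mul_left (Nat.land (Nat.shiftRight N (nat_lit 3)) (nat_lit 15) : ℕ)).sub
        (mm_dvd N L.d1 L.D x)).sub (mm_dvd N L.a L.D y)).sub
        (mm_dvd N L.b L.D z)) (by ring))
    exact absurd (this.symm.trans h) (by decide)
  · delta no2
    refine cnd_zero (fun _ => rfl) fun h => ?_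
    have := hasM_gen hD1 hD2 hB 0 (mm N L.d2 L.D) (mm N L.c L.D)
      (dvd_eq (((u2.mul_left (Nat.land (Nat.shiftRight N (nat_lit 3)) (nat_lit 15) : ℕ)).sub
        (mm_dvd N L.d2 L.D y)).sub
        (mm_dvd N L.c L.D z)) (by rw [Nat.cast_zero]; ring))
    rw [zero_mul, zero_mul, zero_add, zero_add] at this
    exact absurd (this.symm.trans h) (by decide)
  · delta no3
    refine cnd_zero (fun _ => rfl) fun h => ?_
    have := hasM_gen hD1 hD2 hB 0 0 (mm N L.d3 L.D)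
      (dvd_eq ((u3.mul_left (Nat.land (Nat.shiftRight N (nat_lit 3)) (nat_lit 15) : ℕ)).sub
        (mm_dvd N L.d3 L.D z))
        (by rw [Nat.cast_zero]; ring))
    simp only [zero_mul, zero_add] at this
    exact absurd (this.symm.trans h) (by decide)
  · delta kdX
    refine cnd_zero (fun _ => ?_) fun _ => cnd_zero (fun _ => ?_) fun _ => ?_
    · delta pt1
      refine cnd_zero (fun hm => ?_) fun _ => rfl
      refine nr_zero hB.a1 hB.b1 fun a1 a2 => nr_zero hB.a2 hB.b2 fun b1 b2 =>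
        nr_zero hB.a3 hB.b3 fun c1 c2 => ?_
      obtain ⟨e1, e2, e3⟩ := hL.pt hw ((hL.mem _ _ _).1 hm) a1 a2 b1 b2 c1 c2
      exact hih _ _ _ _ _ _ _ ⟨e1.ge, e2.ge, e3.ge, e1.le, e2.le, e3.le, raw_lt _ _, raw_lt _ _,
        raw_lt _ _⟩
    · refine cnd_zero (fun a => cnd_zero (fun b => cnd_zero (fun c => ?_) fun _ => rfl)
        fun _ => rfl) fun _ => rfl
      have a' := Nat.le_of_ble_eq_true a
      have b' := Nat.le_of_ble_eq_true b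
      have c' := Nat.le_of_ble_eq_true c
      obtain ⟨a1, a2, a3, b1, b2, b3, c1, c2, c3⟩ := hB
      refine hen _ _ _ _ ?_ ?_ ?_ c1 c2 c3 <;> unfold cv at * <;> omega
    · refine cnd_zero (fun _ => rfl) fun h => ?_
      rw [hih _ _ _ _ _ _ _ hB] at h
      exact absurd h (by decide)

theorem kd_sound {M : PM G} {L : Lat} (hL : OKL M L) {x y z : ℤ} (hw : M.Lam x y z)
    (ch : List ℕ) {K : ℕ}
    (hK : ∀ l1 l2 l3 h1 h2 h3, InB x y z l1 l2 l3 h1 h2 h3 → Tab (Gd M.X) (bf K l1 l2 l3 h1 h2 h3))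
    {en : ℕ → ℕ → ℕ → ℕ → ℕ}
    (hen : ∀ N a b c, x = cv a → y = cv b → z = cv c → a < 2 ^ 17 → b < 2 ^ 17 → c < 2 ^ 17 →
      en N a b c = 0) : ∀ fuel N l1 l2 l3 h1 h2 h3, InB x y z l1 l2 l3 h1 h2 h3 →
    kd ch L K en fuel N l1 l2 l3 h1 h2 h3 = 0 := by
  intro fuel
  induction fuel with
  | zero => intros; rfl
  | succ n ih => exact kdS_sound hL hw ch hK hen (kd_zero ch L K en n) ih

end

end Pool.Agent.P.MP_6b6f6e_co
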