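import Pool.Agent.P.MP_6b6f6e_co.Box

/-! Lattice tests and the crude bound on lattice points. -/

set_option exponentiation.threshold 600

namespace Pool.Agent.P.MP_6b6f6e_co

open Finset

structure Lat where
  D : ℕ
  d1 : ℕ
  d2 : ℕ
  d3 : ℕ
  a : ℕ
  b : ℕ
  c : ℕ

def mem (L : Lat) (x y z : ℕ) : Bool :=
  Nat.beq (Nat.add (Nat.add
    (Nat.mod (Nat.add (Nat.add (Nat.mul L.d1 x) (Nat.mul L.a y)) (Nat.mul L.b z)) L.D)
    (Nat.mod (Nat.add (Nat.mul L.d2 y) (Nat.mul L.c z)) L.D)) (Nat.mod (Nat.mul L.d3 z) L.D))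
    (nat_lit 0)

theorem dvd_off {D : ℕ} (h1 : 1 ≤ D) (h2 : D ≤ 11) : (D : ℤ) ∣ 55440 := by
  interval_cases D <;> decide

theorem dvd_eq {a b c : ℤ} (h : a ∣ b) (e : b = c) : a ∣ c := e ▸ h

theorem mem_iff (L : Lat) (h1 : 1 ≤ L.D) (h2 : L.D ≤ 11) (x y z : ℕ) : mem L x y z = true ↔
    Cong L.D L.d1 L.d2 L.d3 L.a L.b L.c (cv x) (cv y) (cv z) := by
  have hO := dvd_off h1 h2
  have k1 : (L.D : ℤ) ∣ L.d1 * cv x + L.a * cv y + L.b * cv z ↔
      (L.d1 * x + L.a * y + L.b * z) % L.D = 0 := by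
    rw [← Nat.dvd_iff_mod_eq_zero, ← Int.natCast_dvd_natCast]
    rw [← dvd_add_left (hO.mul_left (L.d1 + L.a + L.b : ℤ))]
    unfold cv; push_cast; ring_nf
  have k2 : (L.D : ℤ) ∣ L.d2 * cv y + L.c * cv z ↔ (L.d2 * y + L.c * z) % L.D = 0 := by
    rw [← Nat.dvd_iff_mod_eq_zero, ← Int.natCast_dvd_natCast]
    rw [← dvd_add_left (hO.mul_left (L.d2 + L.c : ℤ))]
    unfold cv; push_cast; ring_nf
  have k3 : (L.D : ℤ) ∣ L.d3 * cv z ↔ (L.d3 * z) % L.D = 0 := by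
    rw [← Nat.dvd_iff_mod_eq_zero, ← Int.natCast_dvd_natCast]
    rw [← dvd_add_left (hO.mul_left (L.d3 : ℤ))]
    unfold cv; push_cast; ring_nf
  rw [Cong, k1, k2, k3, mem, Nat.beq_eq]
  change (L.d1 * x + L.a * y + L.b * z) % L.D + (L.d2 * y + L.c * z) % L.D + (L.d3 * z) % L.D = 0
    ↔ _
  omega

/-- there is a multiple of `D` between `mn` and `mx` -/
def hasM (D mn mx : ℕ) : Bool := Nat.ble mn (Nat.sub mx (Nat.mod mx D))

theorem hasM_gen {D : ℕ} (h1 : 1 ≤ D) (h2 : D ≤ 11) {x y z : ℤ} {l1 l2 l3 g1 g2 g3 : ℕ}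
    (hB : InB x y z l1 l2 l3 g1 g2 g3) (a b c : ℕ) (h : (D : ℤ) ∣ a * x + b * y + c * z) :
    hasM D (a * l1 + b * l2 + c * l3) (a * g1 + b * g2 + c * g3) = true := by
  obtain ⟨a1, a2, a3, b1, b2, b3, -, -, -⟩ := hB
  unfold cv at *
  obtain ⟨x', rfl⟩ : ∃ x' : ℕ, x = x' - 55440 := ⟨(x + 55440).toNat, by omega⟩
  obtain ⟨y', rfl⟩ : ∃ y' : ℕ, y = y' - 55440 := ⟨(y + 55440).toNat, by omega⟩
  obtain ⟨z', rfl⟩ : ∃ z' : ℕ, z = z' - 55440 := ⟨(z + 55440).toNat, by omega⟩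
  have hd : D ∣ a * x' + b * y' + c * z' := by
    rw [← Int.natCast_dvd_natCast]
    exact dvd_eq (h.add ((dvd_off h1 h2).mul_left (a + b + c : ℤ))) (by push_cast; ring)
  have e1 : a * l1 + b * l2 + c * l3 ≤ a * x' + b * y' + c * z' := by gcongr <;> omega
  have e2 : a * x' + b * y' + c * z' ≤ a * g1 + b * g2 + c * g3 := by gcongr <;> omega
  obtain ⟨q, hq⟩ := hd
  rw [hasM, Nat.ble_eq]
  generalize a * g1 + b * g2 + c * g3 = mx at *
  change _ ≤ mx - mx % D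
  have e3 : q ≤ mx / D := (Nat.le_div_iff_mul_le h1).2 (by rw [mul_comm]; omega)
  have e4 := Nat.div_add_mod mx D
  have e5 := Nat.mul_le_mul_left D e3
  omega

theorem dvd_mod_mul {D : ℕ} (m a : ℕ) (x : ℤ) :
    (D : ℤ) ∣ (m : ℤ) * (a * x) - ((m * a % D : ℕ) : ℤ) * x := by
  refine ⟨(m * a / D : ℕ) * x, ?_⟩
  have : ((m * a : ℕ) : ℤ) = D * (m * a / D : ℕ) + (m * a % D : ℕ) := by
    exact_mod_cast (Nat.div_add_mod (m * a) D).symm
  rw [← mul_assoc, ← mul_assoc, ← Nat.cast_mul m a, this]; ring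

theorem small_zero {D d : ℕ} (hd : 1 ≤ d) (hD : 1 ≤ D) {t : ℤ} (h : (D : ℤ) ∣ d * t)
    (h1 : t ≤ ((D - 1) / d : ℕ)) (h2 : -t ≤ ((D - 1) / d : ℕ)) : t = 0 := by
  have e : d * ((D - 1) / d) ≤ D - 1 := Nat.mul_div_le _ _
  have e' : (d : ℤ) * ((D - 1) / d : ℕ) < D := by
    have : d * ((D - 1) / d) < D := by omega
    exact_mod_cast this
  have h0 : (0 : ℤ) < d := by exact_mod_cast hd
  have := Int.eq_zero_of_abs_lt_dvd h (by
    rw [abs_mul, abs_of_pos h0]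
    exact (mul_le_mul_of_nonneg_left (abs_le.2 ⟨by linarith, h1⟩) h0.le).trans_lt e')
  exact (mul_eq_zero.1 this).resolve_left h0.ne'

theorem cramer1 {v Δ μ r1 r2 r3 c1 c2 c3 : ℤ} (h : v * Δ = r1 * c1 + r2 * c2 + r3 * c3)
    (hμ : 0 ≤ μ) (a1 : |r1| ≤ 1163 * μ) (a2 : |r2| ≤ 1163 * μ) (a3 : |r3| ≤ 1163 * μ)
    (b1 : 0 ≤ c1) (b2 : 0 ≤ c2) (b3 : 0 ≤ c3) (d1 : c1 ≤ μ * μ) (d2 : c2 ≤ μ * μ)
    (d3 : c3 ≤ μ * μ) (hb : 21 * μ ^ 3 < 250 * Δ) : |v| < 55440 := by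
  have m3 : 0 ≤ μ ^ 3 := by positivity
  have hΔ : 0 < Δ := by linarith
  have k : ∀ r c, |r| ≤ 1163 * μ → 0 ≤ c → c ≤ μ * μ → |r * c| ≤ 1163 * μ ^ 3 := by
    intro r c h1 h2 h3
    rw [abs_mul, abs_of_nonneg h2]
    calc |r| * c ≤ 1163 * μ * (μ * μ) := mul_le_mul h1 h3 h2 (by linarith)
      _ = _ := by ring
  have e : |v| * Δ ≤ 3489 * μ ^ 3 := by
    rw [← abs_of_pos hΔ, ← abs_mul, h]
    have := abs_add_three (r1 * c1) (r2 * c2) (r3 * c3)
    linarith [k _ _ a1 b1 d1, k _ _ a2 b2 d2, k _ _ a3 b3 d3]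
  by_contra hc
  have := mul_le_mul_of_nonneg_right (not_lt.1 hc) hΔ.le
  linarith

section
variable {G : Type} [AddCommGroup G] [LinearOrder G] [IsOrderedAddMonoid G]

def OKL (M : PM G) (L : Lat) : Prop :=
  L.D = M.D ∧ L.d1 * L.d2 * L.d3 = L.D ∧
    ∀ x y z, M.Lam x y z ↔ Cong L.D L.d1 L.d2 L.d3 L.a L.b L.c x y z

theorem OKL.mem {M : PM G} {L : Lat} (h : OKL M L) (x y z : ℕ) :
    mem L x y z = true ↔ M.Lam (cv x) (cv y) (cv z) := by
  rw [h.2.2, mem_iff L (h.1 ▸ M.hD1) (h.1 ▸ M.hD2)]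

theorem OKL.pt {M : PM G} {L : Lat} (h : OKL M L) {x y z x' y' z' : ℤ} (h1 : M.Lam x y z)
    (h2 : M.Lam x' y' z') (a1 : x - x' ≤ ((L.D - 1) / L.d1 : ℕ))
    (a2 : x' - x ≤ ((L.D - 1) / L.d1 : ℕ)) (b1 : y - y' ≤ ((L.D - 1) / L.d2 : ℕ))
    (b2 : y' - y ≤ ((L.D - 1) / L.d2 : ℕ)) (c1 : z - z' ≤ ((L.D - 1) / L.d3 : ℕ))
    (c2 : z' - z ≤ ((L.D - 1) / L.d3 : ℕ)) : x = x' ∧ y = y' ∧ z = z' := by
  obtain ⟨hD, hp, hL⟩ := h
  have hD1 : 1 ≤ L.D := hD ▸ M.hD1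
  have p1 : 1 ≤ L.d1 := Nat.pos_of_ne_zero fun h => by rw [h] at hp; omega
  have p2 : 1 ≤ L.d2 := Nat.pos_of_ne_zero fun h => by rw [h] at hp; omega
  have p3 : 1 ≤ L.d3 := Nat.pos_of_ne_zero fun h => by rw [h] at hp; omega
  obtain ⟨u1, u2, u3⟩ := (hL _ _ _).1 h1
  obtain ⟨v1, v2, v3⟩ := (hL _ _ _).1 h2
  have e3 : z - z' = 0 := small_zero p3 hD1 (dvd_eq (u3.sub v3) (by ring)) c1 (by linarith)
  obtain rfl : z = z' := by linarith
  have e2 : y - y' = 0 := small_zero p2 hD1 (dvd_eq (u2.sub v2) (by ring)) b1 (by linarith)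
  obtain rfl : y = y' := by linarith
  have e1 : x - x' = 0 := small_zero p1 hD1 (dvd_eq (u1.sub v1) (by ring)) a1 (by linarith)
  exact ⟨by linarith, rfl, rfl⟩

theorem PM.mono (M : PM G) {g h : G} (e : g ≤ h) : M.st g ≤ M.st h := by
  have := M.st_nonneg _ (sub_nonneg.2 e)
  rw [map_sub] at this; linarith

theorem PM.facts (M : PM G) : (∀ i, 0 ≤ M.st (M.X i)) ∧
    M.st (M.X 0) + M.st (M.X 1) + M.st (M.X 2) ≤ M.st (M.X 9) ∧
    M.st (M.X 3) + M.st (M.X 4) + M.st (M.X 5) ≤ M.st (M.X 9) ∧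
    M.st (M.X 6) + M.st (M.X 7) + M.st (M.X 8) ≤ M.st (M.X 9) := by
  refine ⟨fun i => M.st_nonneg _ (M.Xpos i).le, ?_, ?_, ?_⟩
  · simpa using M.mono M.amu1.le
  · simpa using M.mono M.amu2.le
  · simpa using M.mono M.amu3.le

theorem PM.st_abs (M : PM G) (j : Fin 4) {a b c : ℤ} (ha : |a| ≤ 128) (hb : |b| ≤ 128)
    (hc : |c| ≤ 128) : |M.st (Rw M.X j a b c)| ≤ 384 * M.st (M.X 9) := by
  obtain ⟨h0, h1, h2, h3⟩ := M.facts
  have := h0 0; have := h0 1; have := h0 2; have := h0 3; have := h0 4; have := h0 5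
  have := h0 6; have := h0 7; have := h0 8
  have e1 : |M.st (Rw M.X j 1 0 0)| ≤ M.st (M.X 9) := by
    rw [abs_le]; fin_cases j <;> simp [Rw] <;> constructor <;> linarith
  have e2 : |M.st (Rw M.X j 0 1 0)| ≤ M.st (M.X 9) := by
    rw [abs_le]; fin_cases j <;> simp [Rw] <;> constructor <;> linarith
  have e3 : |M.st (Rw M.X j 0 0 1)| ≤ M.st (M.X 9) := by
    rw [abs_le]; fin_cases j <;> simp [Rw] <;> constructor <;> linarith
  rw [Rw_lin, map_add, map_add, map_zsmul, map_zsmul, map_zsmul]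
  refine (abs_add_three _ _ _).trans ?_
  simp only [smul_eq_mul, abs_mul]
  have f1 := mul_le_mul ha e1 (abs_nonneg _) (by norm_num)
  have f2 := mul_le_mul hb e2 (abs_nonneg _) (by norm_num)
  have f3 := mul_le_mul hc e3 (abs_nonneg _) (by norm_num)
  linarith

theorem PM.crude (M : PM G) {x y z : ℤ}
    (h : ∀ j, |M.st (Rw M.X j x y z)| ≤ 1163 * M.st (M.X 9)) :
    InB x y z (nat_lit 0) (nat_lit 0) (nat_lit 0) (nat_lit 131071) (nat_lit 131071)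
      (nat_lit 131071) := by
  obtain ⟨h0, h1, h2, h3⟩ := M.facts
  have hb : 21 * M.st (M.X 9) ^ 3 < 250 * Del fun i => M.st (M.X i) := by
    have := M.big
    have hD : (1 : ℤ) ≤ M.D := by exact_mod_cast M.hD1
    have : 0 ≤ M.st (M.X 9) ^ 3 := pow_nonneg (h0 9) 3
    nlinarith
  have r1 := h 1
  have r2 := h 2
  have r3 := h 3
  simp only [Rw, map_add, map_sub, map_neg, map_zsmul, smul_eq_mul] at r1 r2 r3
  unfold Del at hb
  beta_reduce at hb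
  have p0 := h0 0; have p1 := h0 1; have p2 := h0 2; have p3 := h0 3; have p4 := h0 4
  have p5 := h0 5; have p6 := h0 6; have p7 := h0 7; have p8 := h0 8; have p9 := h0 9
  generalize M.st (M.X 0) = e0 at *
  generalize M.st (M.X 1) = e1 at *
  generalize M.st (M.X 2) = e2 at *
  generalize M.st (M.X 3) = e3 at *
  generalize M.st (M.X 4) = e4 at *
  generalize M.st (M.X 5) = e5 at *
  generalize M.st (M.X 6) = e6 at *
  generalize M.st (M.X 7) = e7 at *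
  generalize M.st (M.X 8) = e8 at *
  generalize M.st (M.X 9) = m at *
  have q12 : (e0 + e1 + e2) * (e3 + e4 + e5) ≤ m * m := mul_le_mul h1 h2 (by positivity) p9
  have q13 : (e0 + e1 + e2) * (e6 + e7 + e8) ≤ m * m := mul_le_mul h1 h3 (by positivity) p9
  have q23 : (e3 + e4 + e5) * (e6 + e7 + e8) ≤ m * m := mul_le_mul h2 h3 (by positivity) p9
  have k : ∀ {a b : ℤ}, 0 ≤ a → 0 ≤ b → 0 ≤ a * b := mul_nonneg
  have := k p0 p3; have := k p0 p4; have := k p0 p5; have := k p0 p6; have := k p0 p7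
  have := k p0 p8; have := k p1 p3; have := k p1 p4; have := k p1 p5; have := k p1 p6
  have := k p1 p7; have := k p1 p8; have := k p2 p3; have := k p2 p4; have := k p2 p5
  have := k p2 p6; have := k p2 p7; have := k p2 p8; have := k p3 p6; have := k p3 p7
  have := k p3 p8; have := k p4 p6; have := k p4 p7; have := k p4 p8; have := k p5 p6
  have := k p5 p7; have := k p5 p8
  have hx := abs_lt.1 (cramer1 (v := x) (c1 := (e3 + e4 + e5) * (e6 + e7 + e8) - e8 * e5)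
    (c2 := e4 * (e6 + e7 + e8) + e7 * e5) (c3 := e4 * e8 + e7 * (e3 + e4 + e5)) (by ring) p9
    r1 r2 r3 (by linarith) (by linarith) (by linarith) (by linarith) (by linarith) (by linarith) hb)
  have hy := abs_lt.1 (cramer1 (v := y) (c1 := e1 * (e6 + e7 + e8) + e8 * e2)
    (c2 := (e0 + e1 + e2) * (e6 + e7 + e8) - e7 * e2) (c3 := (e0 + e1 + e2) * e8 + e7 * e1)
    (by ring) p9
    r1 r2 r3 (by linarith) (by linarith) (by linarith) (by linarith) (by linarith) (by linarith) hb)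
  have hz := abs_lt.1 (cramer1 (v := z) (c1 := e1 * e5 + e2 * (e3 + e4 + e5))
    (c2 := (e0 + e1 + e2) * e5 + e4 * e2) (c3 := (e0 + e1 + e2) * (e3 + e4 + e5) - e4 * e1)
    (by ring) p9
    r1 r2 r3 (by linarith) (by linarith) (by linarith) (by linarith) (by linarith) (by linarith) hb)
  have c0 : cv (nat_lit 0) = -55440 := by decide
  have c1 : cv (nat_lit 131071) = 75631 := by decide
  constructor <;> first | (rw [c0]; linarith) | (rw [c1]; linarith) | decide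

/-- the minimal point of a corner satisfies the crude bound -/
theorem PM.crude' (M : PM G) (i : Fin 4) {x y z : ℤ} {U : Fin 4 → G}
    (hU : ∀ j, |M.st (U j)| ≤ 384 * M.st (M.X 9)) (h : ∀ j, j ≠ i → Rw M.X j x y z < U j)
    (hM : ∑ k : Fin 3, (U (i.succAbove k) - Rw M.X (i.succAbove k) x y z)
      < (M.D : ℤ) • M.X 9) :
    InB x y z (nat_lit 0) (nat_lit 0) (nat_lit 0) (nat_lit 131071) (nat_lit 131071)
      (nat_lit 131071) := by
  refine M.crude fun j => ?_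
  have h1 := M.mono hM.le
  have h2 := congrArg M.st (Rw_sum' M.X x y z)
  rw [Fin.sum_univ_succAbove _ i, Fin.sum_univ_three] at h2
  rw [Fin.sum_univ_three] at h1
  simp only [map_add, map_sub, map_zsmul, map_zero, smul_eq_mul] at h1 h2
  have a0 := M.mono (h _ (Fin.succAbove_ne i 0)).le
  have a1 := M.mono (h _ (Fin.succAbove_ne i 1)).le
  have a2 := M.mono (h _ (Fin.succAbove_ne i 2)).le
  have b0 := abs_le.1 (hU (i.succAbove 0))
  have b1 := abs_le.1 (hU (i.succAbove 1))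
  have b2 := abs_le.1 (hU (i.succAbove 2))
  have hD : (M.D : ℤ) ≤ 11 := by exact_mod_cast M.hD2
  have p9 := M.facts.1 9
  have := mul_le_mul_of_nonneg_right hD p9
  rw [abs_le]
  by_cases hj : j = i
  · subst hj; constructor <;> linarith
  · obtain ⟨k, rfl⟩ := Fin.exists_succAbove_eq hj
    fin_cases k <;> simp only [Fin.zero_eta, Fin.mk_one, Fin.reduceFinMk] <;> constructor <;> linarith

end

end Pool.Agent.P.MP_6b6f6e_co
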