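import Mathlib

/-!
The extremal groups, and the passage between finite sets and triples of generators.
-/

namespace Pool.Agent.P.MP_6b6f6e_co

open Finset

theorem base84 : ∀ t : Fin 84, ∃ a b c : Fin 8,
    a.1 + b.1 + c.1 ≤ 7 ∧ (2 * a.1 + 9 * b.1 + 35 * c.1) % 84 = t.1 := by
  decide +kernel

theorem lower (k : ℕ) (hk : 1 ≤ k) (g : ZMod k × ZMod k × ZMod (84 * k)) :
    ∃ l : Fin 3 → ℕ, ∑ i, l i + 3 ≤ 10 * k ∧
      ∑ i, l i • (![(0, 1, 2), (0, 4, 9), (1, 0, 35)] : Fin 3 → ZMod k × ZMod k × ZMod (84 * k)) i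
        = g := by
  obtain ⟨a, b, c⟩ := g
  obtain ⟨a, rfl⟩ := ZMod.intCast_surjective a
  obtain ⟨b, rfl⟩ := ZMod.intCast_surjective b
  obtain ⟨c, rfl⟩ := ZMod.intCast_surjective c
  have hk' : (0 : ℤ) < k := by omega
  have dv : ∀ x : ℤ, ∃ (u : ℤ) (r : ℕ), r < k ∧ x = k * u + r := fun x => by
    have h1 := Int.emod_nonneg x hk'.ne'
    have h2 := Int.emod_lt_of_pos x hk'
    have h3 := Int.emod_add_mul_ediv x k
    exact ⟨x / k, (x % k).toNat, by omega, by rw [Int.toNat_of_nonneg h1]; linear_combination -h3⟩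
  obtain ⟨u1, r1, h1, e1⟩ := dv (b - 4 * (c - 35 * a - 2 * b))
  obtain ⟨u2, r2, h2, e2⟩ := dv (c - 35 * a - 2 * b)
  obtain ⟨u3, r3, h3, e3⟩ := dv a
  obtain ⟨x, y, z, s1, s2⟩ := base84 ⟨((2 * u1 + 9 * u2 + 35 * u3) % 84).toNat, by omega⟩
  obtain ⟨m, hm⟩ : ∃ m : ℤ, 2 * u1 + 9 * u2 + 35 * u3 = 2 * x.1 + 9 * y.1 + 35 * z.1 + 84 * m :=
    ⟨(2 * u1 + 9 * u2 + 35 * u3 - (2 * x.1 + 9 * y.1 + 35 * z.1)) / 84, by
      simp only at s2; omega⟩
  refine ⟨![k * x.1 + r1, k * y.1 + r2, k * z.1 + r3], ?_, ?_⟩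
  · rw [Fin.sum_univ_three]
    change k * x.1 + r1 + (k * y.1 + r2) + (k * z.1 + r3) + 3 ≤ _
    have := Nat.mul_le_mul_left k s1
    rw [mul_add, mul_add] at this
    omega
  · rw [Fin.sum_univ_three]
    refine Prod.ext ?_ (Prod.ext ?_ ?_)
    · have : ((k * z.1 + r3 : ℤ) : ZMod k) = (a : ZMod k) :=
        (ZMod.intCast_eq_intCast_iff_dvd_sub _ _ _).2 ⟨u3 - z.1, by linear_combination e3⟩
      simpa using this
    · have : ((k * x.1 + r1 + (k * y.1 + r2) * 4 : ℤ) : ZMod k) = (b : ZMod k) :=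
        (ZMod.intCast_eq_intCast_iff_dvd_sub _ _ _).2
          ⟨u1 - x.1 + 4 * (u2 - y.1), by linear_combination e1 + 4 * e2⟩
      simpa using this
    · have : (((k * x.1 + r1) * 2 + (k * y.1 + r2) * 9 + (k * z.1 + r3) * 35 : ℤ) : ZMod (84 * k))
          = (c : ZMod (84 * k)) :=
        (ZMod.intCast_eq_intCast_iff_dvd_sub _ _ _).2
          ⟨m, by push_cast; linear_combination 2 * e1 + 9 * e2 + 35 * e3 + k * hm⟩
      simpa using this

theorem card_lower (k : ℕ) : Nat.card (ZMod k × ZMod k × ZMod (84 * k)) = 84 * k ^ 3 := by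
  simp only [Nat.card_prod, Nat.card_zmod]; ring

theorem set_of_triple {G : Type} [AddCommGroup G] (f : Fin 3 → G) :
    ∃ A : Finset G, A.card ≤ 3 ∧ ∀ l : Fin 3 → ℕ, ∃ l' : G → ℕ,
      ∑ a ∈ A, l' a = ∑ i, l i ∧ ∑ a ∈ A, l' a • a = ∑ i, l i • f i := by
  classical
  refine ⟨univ.image f, Finset.card_image_le.trans (by simp), fun l =>
    ⟨fun a => ∑ i with f i = a, l i, ?_, ?_⟩⟩
  · exact Finset.sum_fiberwise_of_maps_to (fun i _ => mem_image_of_mem f (mem_univ i)) l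
  · rw [← Finset.sum_fiberwise_of_maps_to (g := f) (t := univ.image f)
      (fun i _ => mem_image_of_mem f (mem_univ i)) fun i => l i • f i]
    refine Finset.sum_congr rfl fun a _ => ?_
    rw [Finset.sum_smul]
    exact Finset.sum_congr rfl fun i hi => by rw [(mem_filter.1 hi).2]

theorem triple_of_set {G : Type} [AddCommGroup G] (A : Finset G) (hA : A.card ≤ 3) :
    ∃ f : Fin 3 → G, ∀ l : G → ℕ, ∃ l' : Fin 3 → ℕ,
      ∑ i, l' i = ∑ a ∈ A, l a ∧ ∑ i, l' i • f i = ∑ a ∈ A, l a • a := by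
  classical
  obtain h | h | h | h : A.card = 0 ∨ A.card = 1 ∨ A.card = 2 ∨ A.card = 3 := by omega
  · rw [Finset.card_eq_zero] at h
    subst h
    exact ⟨0, fun l => ⟨0, by simp, by simp⟩⟩
  · obtain ⟨a, rfl⟩ := Finset.card_eq_one.1 h
    exact ⟨![a, 0, 0], fun l => ⟨![l a, 0, 0], by simp [Fin.sum_univ_three],
      by simp [Fin.sum_univ_three]⟩⟩
  · obtain ⟨a, b, h1, rfl⟩ := Finset.card_eq_two.1 h
    exact ⟨![a, b, 0], fun l => ⟨![l a, l b, 0], by simp [Fin.sum_univ_three, h1],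
      by simp [Fin.sum_univ_three, h1]⟩⟩
  · obtain ⟨a, b, c, h1, h2, h3, rfl⟩ := Finset.card_eq_three.1 h
    exact ⟨![a, b, c], fun l => ⟨![l a, l b, l c],
      by simp [Fin.sum_univ_three, h1, h2, h3, add_assoc],
      by simp [Fin.sum_univ_three, h1, h2, h3, add_assoc]⟩⟩

end Pool.Agent.P.MP_6b6f6e_co
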