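import Mathlib

/-!
Abstract model used by the certificate checker: a generic lattice in the hyperplane of sum zero
of four-space, written in the coordinates of three minimal vectors.
-/

namespace Pool.Agent.P.MP_6b6f6e_co

/-- The four coordinates of the vector `a p1 + b p2 + c p3`. -/
def Rw {G : Type} [AddCommGroup G] (X : Fin 10 → G) (i : Fin 4) (a b c : ℤ) : G :=
  match i with
  | 0 => -(a • X 0) - b • X 3 - c • X 6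
  | 1 => a • (X 0 + X 1 + X 2) - b • X 4 - c • X 7
  | 2 => -(a • X 1) + b • (X 3 + X 4 + X 5) - c • X 8
  | 3 => -(a • X 2) - b • X 5 + c • (X 6 + X 7 + X 8)

/-- The determinant, as a sum over arborescences. -/
def Del (x : Fin 10 → ℤ) : ℤ :=
  x 0 * x 3 * x 6 + x 0 * x 3 * x 7 + x 0 * x 3 * x 8 + x 0 * x 4 * x 6 + x 0 * x 4 * x 7
  + x 0 * x 4 * x 8 + x 0 * x 5 * x 6 + x 0 * x 5 * x 7 + x 1 * x 3 * x 6 + x 1 * x 3 * x 7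
  + x 1 * x 3 * x 8 + x 1 * x 5 * x 6 + x 2 * x 3 * x 6 + x 2 * x 3 * x 8 + x 2 * x 4 * x 6
  + x 2 * x 5 * x 6

/-- Congruence description of the lattice. -/
def Cong (D d1 d2 d3 a b c : ℕ) (x y z : ℤ) : Prop :=
  (D : ℤ) ∣ d1 * x + a * y + b * z ∧ (D : ℤ) ∣ d2 * y + c * z ∧ (D : ℤ) ∣ d3 * z

/-- No lattice point lies strictly below `b`. -/
def FreeB {G : Type} [AddCommGroup G] [LinearOrder G] (X : Fin 10 → G)
    (Lam : ℤ → ℤ → ℤ → Prop) (b : Fin 4 → G) : Prop :=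
  ∀ x y z, Lam x y z → ∃ i, b i ≤ Rw X i x y z

structure PM (G : Type) [AddCommGroup G] [LinearOrder G] [IsOrderedAddMonoid G] where
  D : ℕ
  X : Fin 10 → G
  st : G →+ ℤ
  Lam : ℤ → ℤ → ℤ → Prop
  hD1 : 1 ≤ D
  hD2 : D ≤ 11
  st_nonneg : ∀ g, 0 ≤ g → 0 ≤ st g
  Xpos : ∀ i, 0 < X i
  indep : ∀ c : Fin 10 → ℤ, ∑ i, c i • X i = 0 → ∀ i, c i = 0
  big : 21 * (D : ℤ) * st (X 9) ^ 3 < 250 * Del (fun i => st (X i))
  amu1 : X 0 + X 1 + X 2 < X 9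
  amu2 : X 3 + X 4 + X 5 < X 9
  amu3 : X 6 + X 7 + X 8 < X 9
  free1 : FreeB X Lam ![0, Rw X 1 D 0 0, 0, 0]
  free2 : FreeB X Lam ![0, 0, Rw X 2 0 D 0, 0]
  free3 : FreeB X Lam ![0, 0, 0, Rw X 3 0 0 D]
  exmin : ∀ (i0 : Fin 4) (b : Fin 4 → G), ∃ x y z, Lam x y z ∧
    (∀ j, j ≠ i0 → Rw X j x y z < b j) ∧
    ∀ x' y' z', Lam x' y' z' → (∀ j, j ≠ i0 → Rw X j x' y' z' < b j) →
      Rw X i0 x y z ≤ Rw X i0 x' y' z'
  cover : ∀ u : Fin 4 → ℤ × ℤ × ℤ, FreeB X Lam (fun i => Rw X i (u i).1 (u i).2.1 (u i).2.2) →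
    ∑ i, Rw X i (u i).1 (u i).2.1 (u i).2.2 < (D : ℤ) • X 9
  hnf : ∃ d1 d2 d3 a b c : ℕ, d1 * d2 * d3 = D ∧ a < d2 ∧ b < d3 ∧ c < d3 ∧
    ∀ x y z, Lam x y z ↔ Cong D d1 d2 d3 a b c x y z
  kfact : ∃ k1 k2 k3 : ℕ, 1 ≤ k3 ∧ k3 ≤ k2 ∧ k2 ≤ k1 ∧ k1 ≤ D ∧ Lam k1 k2 k3 ∧
    0 < Rw X 1 k1 k2 k3 ∧ 0 < Rw X 2 k1 k2 k3 ∧ 0 < Rw X 3 k1 k2 k3 ∧
    FreeB X Lam ![-Rw X 0 k1 k2 k3, 0, 0, 0] ∧
    (k1 = D → -Rw X 0 k1 k2 k3 < Rw X 1 D 0 0) ∧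
    (k2 = k1 → Rw X 1 D 0 0 < Rw X 2 0 D 0) ∧
    (k3 = k2 → Rw X 2 0 D 0 < Rw X 3 0 0 D)

theorem Rw_add {G : Type} [AddCommGroup G] (X : Fin 10 → G) (i : Fin 4) (a b c a' b' c' : ℤ) :
    Rw X i (a + a') (b + b') (c + c') = Rw X i a b c + Rw X i a' b' c' := by
  fin_cases i <;> simp only [Rw] <;> module

theorem Rw_sub {G : Type} [AddCommGroup G] (X : Fin 10 → G) (i : Fin 4) (a b c a' b' c' : ℤ) :
    Rw X i (a - a') (b - b') (c - c') = Rw X i a b c - Rw X i a' b' c' := by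
  fin_cases i <;> simp only [Rw] <;> module

theorem Rw_sum {G : Type} [AddCommGroup G] (X : Fin 10 → G) (a b c : ℤ) :
    Rw X 0 a b c + Rw X 1 a b c + Rw X 2 a b c + Rw X 3 a b c = 0 := by
  simp only [Rw]; module

theorem Rw_lin {G : Type} [AddCommGroup G] (X : Fin 10 → G) (i : Fin 4) (a b c : ℤ) :
    Rw X i a b c = a • Rw X i 1 0 0 + b • Rw X i 0 1 0 + c • Rw X i 0 0 1 := by
  fin_cases i <;> simp only [Rw] <;> module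

theorem Rw_zero {G : Type} [AddCommGroup G] (X : Fin 10 → G) (i : Fin 4) :
    Rw X i 0 0 0 = 0 := by
  fin_cases i <;> simp [Rw]

end Pool.Agent.P.MP_6b6f6e_co
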