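import Pool.Agent.P.MP_6b6f6e_co.Hnf

/-!
A symmetric description of a covering lattice with generic coordinates, its minimal vectors,
and the passage to the model used by the checker.
-/

namespace Pool.Agent.P.MP_6b6f6e_co

open Finset Matrix

abbrev V := Fin 3 → ℤ

structure Pre (G : Type) [AddCommGroup G] [LinearOrder G] [IsOrderedAddMonoid G] where
  Y : Fin 4 → (V →+ G)
  st : G →+ ℤ
  mu : G
  sum0 : ∀ w, ∑ i, Y i w = 0
  st_nonneg : ∀ g, 0 ≤ g → 0 ≤ st g
  inj : ∀ w, (∀ i, st (Y i w) = 0) → w = 0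
  cov : ∀ x : Fin 4 → ℤ, st mu ≤ ∑ i, x i + 3 → ∃ w, ∀ i, st (Y i w) ≤ x i
  top : ∀ (u : Fin 4 → V) (D : ℤ), 0 < D → st (∑ i, Y i (u i)) ≤ D * st mu →
    ∑ i, Y i (u i) < D • mu
  indep : ∀ (u : Fin 4 → V) (m : ℤ), ∑ i, Y i (u i) + m • mu = 0 → m = 0 ∧ ∀ i j, u i = u j
  big : ∀ e : Fin 3 → Fin 4, Function.Injective e →
    21 * st mu ^ 3 < 250 * |(Matrix.of fun i j => st (Y (e i) (Pi.single j 1))).det|

variable {G : Type} [AddCommGroup G] [LinearOrder G] [IsOrderedAddMonoid G]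

namespace Pre

theorem st_mono (P : Pre G) {g h : G} (e : g ≤ h) : P.st g ≤ P.st h := by
  have := P.st_nonneg (h - g) (sub_nonneg.2 e)
  rw [map_sub] at this; omega

theorem lt_of_st (P : Pre G) {g h : G} (e : P.st g < P.st h) : g < h := by
  by_contra c
  exact absurd (P.st_mono (not_lt.1 c)) (not_le.2 e)

theorem fin_below (P : Pre G) (β : Fin 4 → ℤ) : {w | ∀ i, P.st (P.Y i w) ≤ β i}.Finite := by
  let f : V → (Fin 4 → ℤ) := fun w i => P.st (P.Y i w)
  have hf : Function.Injective f := by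
    intro w w' h
    rw [← sub_eq_zero]
    apply P.inj
    intro i
    rw [map_sub, map_sub]
    exact sub_eq_zero.2 (congrFun h i)
  refine Set.Finite.subset
    ((Set.finite_Icc (fun i => β i - ∑ j, β j) β).preimage (f := f) hf.injOn) ?_
  intro w hw
  refine ⟨fun i => ?_, fun i => hw i⟩
  have h0 : ∑ j, P.st (P.Y j w) = 0 := by rw [← map_sum, P.sum0, map_zero]
  have h1 := hw 0; have h2 := hw 1; have h3 := hw 2; have h4 := hw 3
  simp only [Fin.sum_univ_four] at h0 ⊢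
  change β i - _ ≤ P.st (P.Y i w)
  fin_cases i <;> simp only [Fin.zero_eta, Fin.mk_one, Fin.reduceFinMk] <;> omega

theorem exmin (P : Pre G) {D : ℤ} (hD : 0 < D) (i0 : Fin 4) (b : Fin 4 → G) :
    ∃ w, (∀ j, j ≠ i0 → D • P.Y j w < b j) ∧
      ∀ w', (∀ j, j ≠ i0 → D • P.Y j w' < b j) → P.Y i0 w ≤ P.Y i0 w' := by
  classical
  let x : Fin 4 → ℤ := fun j => -|P.st (b j)| - 1
  obtain ⟨w0, hw0⟩ := P.cov (fun j => x j + if j = i0 then P.st P.mu - ∑ k, x k else 0) (by
    rw [Finset.sum_add_distrib, Finset.sum_ite_eq']; simp)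
  have hw0' : ∀ j, j ≠ i0 → D • P.Y j w0 < b j := by
    intro j hj
    apply P.lt_of_st
    have h1 := hw0 j
    simp only [hj, if_false, add_zero, x] at h1
    rw [map_zsmul, smul_eq_mul]
    have h2 := neg_abs_le (P.st (b j))
    have h3 := abs_nonneg (P.st (b j))
    nlinarith
  let S : Set V := {w | (∀ j, j ≠ i0 → D • P.Y j w < b j) ∧ P.Y i0 w ≤ P.Y i0 w0}
  have hS : S.Finite := by
    refine (P.fin_below fun j => if j = i0 then P.st (P.Y i0 w0) else |P.st (b j)|).subset ?_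
    rintro w ⟨h1, h2⟩ j
    by_cases hj : j = i0
    · subst hj; simpa using P.st_mono h2
    · have h3 := P.st_mono (h1 j hj).le
      rw [map_zsmul, smul_eq_mul] at h3
      simp only [hj, if_false]
      have h4 := le_abs_self (P.st (b j))
      have h5 := abs_nonneg (P.st (b j))
      by_contra c
      nlinarith
  obtain ⟨w, hw, hmin⟩ := Set.exists_min_image S (fun w => P.Y i0 w) hS ⟨w0, hw0', le_rfl⟩
  refine ⟨w, hw.1, fun w' h' => ?_⟩
  rcases le_total (P.Y i0 w') (P.Y i0 w0) with c | c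
  · exact hmin w' ⟨h', c⟩
  · exact hw.2.trans c

theorem cover (P : Pre G) {D : ℤ} (hD : 0 < D) (u : Fin 4 → V)
    (h : ∀ w, ∃ i, P.Y i (u i) ≤ D • P.Y i w) : ∑ i, P.Y i (u i) < D • P.mu := by
  apply P.top u D hD
  by_contra c
  have hx : ∀ i, D * ((P.st (P.Y i (u i)) - 1) / D) < P.st (P.Y i (u i)) ∧
      P.st (P.Y i (u i)) ≤ D * ((P.st (P.Y i (u i)) - 1) / D + 1) := by
    intro i
    have h1 := Int.emod_add_mul_ediv (P.st (P.Y i (u i)) - 1) D
    have h2 := Int.emod_nonneg (P.st (P.Y i (u i)) - 1) hD.ne'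
    have h3 := Int.emod_lt_of_pos (P.st (P.Y i (u i)) - 1) hD
    constructor <;> nlinarith
  obtain ⟨w, hw⟩ := P.cov (fun i => (P.st (P.Y i (u i)) - 1) / D) (by
    rw [map_sum] at c
    simp only [Fin.sum_univ_four] at c ⊢
    have h0 := (hx 0).2; have h1 := (hx 1).2; have h2 := (hx 2).2; have h3 := (hx 3).2
    by_contra c'
    nlinarith)
  obtain ⟨i, hi⟩ := h w
  have h1 := P.st_mono hi
  rw [map_zsmul, smul_eq_mul] at h1
  have h2 := (hx i).1
  have h3 := hw i
  nlinarith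

/-- Permuting the four coordinates. -/
def perm (P : Pre G) (σ : Equiv.Perm (Fin 4)) : Pre G where
  Y i := P.Y (σ i)
  st := P.st
  mu := P.mu
  sum0 w := by rw [Equiv.sum_comp σ fun i => P.Y i w]; exact P.sum0 w
  st_nonneg := P.st_nonneg
  inj w h := P.inj w fun i => by simpa using h (σ.symm i)
  cov x h := by
    obtain ⟨w, hw⟩ := P.cov (fun i => x (σ.symm i)) (by rwa [Equiv.sum_comp σ.symm x])
    exact ⟨w, fun i => by simpa using hw (σ i)⟩
  top u D hD h := by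
    have e : ∑ i, P.Y (σ i) (u i) = ∑ i, P.Y i (u (σ.symm i)) := by
      rw [← Equiv.sum_comp σ fun i => P.Y i (u (σ.symm i))]; simp
    rw [e] at h ⊢
    exact P.top _ D hD h
  indep u m h := by
    have e : ∑ i, P.Y (σ i) (u i) = ∑ i, P.Y i (u (σ.symm i)) := by
      rw [← Equiv.sum_comp σ fun i => P.Y i (u (σ.symm i))]; simp
    rw [e] at h
    obtain ⟨h1, h2⟩ := P.indep _ m h
    exact ⟨h1, fun i j => by simpa using h2 (σ i) (σ j)⟩
  big e he := P.big (fun i => σ (e i)) (σ.injective.comp he)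

/-- The four minimal vectors. -/
def IsMin (P : Pre G) (p : Fin 4 → V) : Prop :=
  ∀ j, (∀ i, i ≠ j → P.Y i (p j) < 0) ∧
    ∀ w, (∀ i, i ≠ j → P.Y i w < 0) → P.Y j (p j) ≤ P.Y j w

theorem ex_isMin (P : Pre G) : ∃ p, P.IsMin p := by
  have h := fun j => P.exmin one_pos j 0
  choose p h1 h2 using h
  exact ⟨p, fun j => ⟨by simpa using h1 j, fun w hw => h2 j w (by simpa using hw)⟩⟩

theorem IsMin.perm {P : Pre G} {p : Fin 4 → V} (h : P.IsMin p) (σ : Equiv.Perm (Fin 4)) :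
    (P.perm σ).IsMin fun j => p (σ j) := by
  intro j
  refine ⟨fun i hi => (h (σ j)).1 (σ i) (σ.injective.ne hi), fun w hw => (h (σ j)).2 w ?_⟩
  intro i hi
  have := hw (σ.symm i) (fun e => hi (by rw [← e]; simp))
  simpa [Pre.perm] using this

theorem IsMin.rel {P : Pre G} {p : Fin 4 → V} (h : P.IsMin p) {c : Fin 4 → ℤ}
    (hc : ∑ j, c j • p j = 0) {j0 : Fin 4} (h0 : 0 < c j0) (j1 : Fin 4) : 0 < c j1 := by
  classical
  by_contra h1
  let S : Finset (Fin 4) := univ.filter fun j => 0 < c j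
  have m0 : j0 ∈ S := by simp [S, h0]
  have m1 : j1 ∈ Sᶜ := by simp only [S, mem_compl, mem_filter, mem_univ, true_and]; exact h1
  have hin : ∀ j ∈ S, 0 < ∑ i ∈ S, P.Y i (p j) := by
    intro j hj
    have e := Finset.sum_add_sum_compl S fun i => P.Y i (p j)
    rw [P.sum0] at e
    have : ∑ i ∈ Sᶜ, P.Y i (p j) < 0 :=
      Finset.sum_neg (fun i hi => (h j).1 i fun e => (mem_compl.1 hi) (e ▸ hj)) ⟨j1, m1⟩
    rw [eq_neg_of_add_eq_zero_left e]
    exact neg_pos.2 this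
  have hout : ∀ j, j ∉ S → ∑ i ∈ S, P.Y i (p j) < 0 := fun j hj =>
    Finset.sum_neg (fun i hi => (h j).1 i fun e => hj (e ▸ hi)) ⟨j0, m0⟩
  have e : ∑ j, c j • ∑ i ∈ S, P.Y i (p j) = 0 := by
    have : ∀ i, ∑ j, c j • P.Y i (p j) = 0 := fun i => by
      have := congrArg (P.Y i) hc
      simpa only [map_sum, map_zsmul, map_zero] using this
    simp only [Finset.smul_sum]
    rw [Finset.sum_comm]
    simp [this]
  refine absurd e (ne_of_gt ?_)
  refine Finset.sum_pos' (fun j _ => ?_) ⟨j0, mem_univ _, zsmul_pos (hin j0 m0) h0⟩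
  by_cases hj : j ∈ S
  · exact (zsmul_pos (hin j hj) (by simpa [S] using hj)).le
  · have h2 : 0 ≤ -c j := by simpa [S] using hj
    have h3 := zsmul_nonneg (neg_nonneg.2 (hout j hj).le) h2
    simpa using h3

theorem IsMin.rel0 {P : Pre G} {p : Fin 4 → V} (h : P.IsMin p) {c : Fin 4 → ℤ}
    (hc : ∑ j, c j • p j = 0) {j0 : Fin 4} (h0 : c j0 = 0) (j : Fin 4) : c j = 0 := by
  rcases lt_trichotomy (c j) 0 with e | e | e
  · have := h.rel (c := fun j => -c j) (by simpa [neg_smul] using hc) (j0 := j)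
      (by simpa using e) j0
    simp [h0] at this
  · exact e
  · have := h.rel hc e j0
    omega

theorem IsMin.lin {P : Pre G} {p : Fin 4 → V} (h : P.IsMin p) {x y z : ℤ}
    (e : x • p 1 + y • p 2 + z • p 3 = 0) : x = 0 ∧ y = 0 ∧ z = 0 := by
  have := h.rel0 (c := ![0, x, y, z]) (by simpa [Fin.sum_univ_four] using e) (j0 := 0) rfl
  exact ⟨this 1, this 2, this 3⟩

theorem IsMin.cramer {P : Pre G} {p : Fin 4 → V} (h : P.IsMin p) :
    1 ≤ (Matrix.of fun r j => p (Fin.succ j) r).det.natAbs ∧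
    ∀ w : V, ∃ x y z : ℤ, x • p 1 + y • p 2 + z • p 3 =
      ((Matrix.of fun r j => p (Fin.succ j) r).det.natAbs : ℤ) • w := by
  set C : Matrix (Fin 3) (Fin 3) ℤ := Matrix.of fun r j => p (Fin.succ j) r with hC
  have mv : ∀ v : V, C *ᵥ v = v 0 • p 1 + v 1 • p 2 + v 2 • p 3 := by
    intro v; ext r
    simp [hC, Matrix.mulVec, dotProduct, Fin.sum_univ_three]
    ring
  constructor
  · rw [Nat.one_le_iff_ne_zero, Ne, Int.natAbs_eq_zero, ← Matrix.exists_mulVec_eq_zero_iff]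
    rintro ⟨v, hv, e⟩
    rw [mv] at e
    obtain ⟨a, b, c⟩ := h.lin e
    apply hv
    ext r; fin_cases r <;> simpa
  · intro w
    obtain ⟨s, hs, -⟩ := sgn_ex C.det
    have e := Matrix.mulVec_cramer C w
    rw [mv] at e
    refine ⟨s * C.cramer w 0, s * C.cramer w 1, s * C.cramer w 2, ?_⟩
    rw [← hs, mul_smul, mul_smul, mul_smul, mul_smul, ← e, smul_add, smul_add]

theorem IsMin.pos {P : Pre G} {p : Fin 4 → V} (h : P.IsMin p) (j : Fin 4) : 0 < P.Y j (p j) := by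
  have e := Finset.add_sum_erase univ (fun i => P.Y i (p j)) (mem_univ j)
  rw [P.sum0] at e
  have : ∑ i ∈ univ.erase j, P.Y i (p j) < 0 :=
    Finset.sum_neg (fun i hi => (h j).1 i (ne_of_mem_erase hi))
      (by rw [← Finset.card_pos]; simp)
  rw [eq_neg_of_add_eq_zero_left e]
  exact neg_pos.2 this

theorem IsMin.ne {P : Pre G} {p : Fin 4 → V} (h : P.IsMin p) {i j : Fin 4} (hij : i ≠ j) :
    P.Y i (p i) ≠ P.Y j (p j) := by
  classical
  intro e
  obtain ⟨k, hk1, hk2⟩ : ∃ k, k ≠ i ∧ k ≠ j := by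
    clear e; revert i j; decide
  have := (P.indep (fun l => (if l = i then p i else 0) - if l = j then p j else 0) 0 (by
    simp only [map_sub, Finset.sum_sub_distrib, apply_ite (P.Y _), map_zero, zero_smul, add_zero]
    rw [Finset.sum_ite_eq', Finset.sum_ite_eq']
    simp [e])).2 i k
  simp only [if_true, hij, hk1, hk2, if_false, sub_zero] at this
  have h2 := h.pos i
  rw [this, map_zero] at h2
  exact lt_irrefl _ h2

theorem IsMin.free {P : Pre G} {p : Fin 4 → V} (h : P.IsMin p) {D : ℤ} (hD : 0 ≤ D) (j : Fin 4)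
    (w : V) : ∃ i, (if i = j then D • P.Y j (p j) else 0) ≤ D • P.Y i w := by
  by_cases c : ∀ i, i ≠ j → P.Y i w < 0
  · exact ⟨j, by simpa using zsmul_le_zsmul_right hD ((h j).2 w c)⟩
  · push Not at c
    obtain ⟨i, hi, c⟩ := c
    exact ⟨i, by simpa [hi] using zsmul_nonneg c hD⟩

theorem IsMin.lt_mu {P : Pre G} {p : Fin 4 → V} (h : P.IsMin p) (j : Fin 4) :
    P.Y j (p j) < P.mu := by
  have := P.cover one_pos (fun i => if i = j then p j else 0) fun w => by
    obtain ⟨i, hi⟩ := h.free zero_le_one j w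
    refine ⟨i, ?_⟩
    by_cases c : i = j
    · subst c; simpa using hi
    · simpa [c] using hi
  simp only [apply_ite (P.Y _), map_zero, one_smul] at this
  rw [Finset.sum_ite_eq'] at this
  simpa using this

theorem IsMin.sorted {P : Pre G} {p : Fin 4 → V} (h : P.IsMin p) :
    ∃ (σ : Equiv.Perm (Fin 4)) (c : Fin 4 → ℤ), ∑ j, c j • p (σ j) = 0 ∧ 0 < c 0 ∧
      ∀ i j, i < j → c j ≤ c i ∧ (c j = c i → P.Y (σ i) (p (σ i)) < P.Y (σ j) (p (σ j))) := by
  obtain ⟨h1, h2⟩ := h.cramer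
  obtain ⟨x, y, z, e⟩ := h2 (-p 0)
  set D : ℤ := ((Matrix.of fun r j => p (Fin.succ j) r).det.natAbs : ℤ)
  have hD : 0 < D := by omega
  let c : Fin 4 → ℤ := ![D, x, y, z]
  have hc : ∑ j, c j • p j = 0 := by
    rw [Fin.sum_univ_four]
    change D • p 0 + x • p 1 + y • p 2 + z • p 3 = 0
    rw [add_assoc, add_assoc, ← add_assoc (x • p 1), e, smul_neg, add_neg_cancel]
  let f : Fin 4 → ℤᵒᵈ ×ₗ G := fun j => toLex (OrderDual.toDual (c j), P.Y j (p j))
  refine ⟨Tuple.sort f, fun j => c (Tuple.sort f j), ?_, h.rel hc (j0 := 0) hD _, ?_⟩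
  · rw [Equiv.sum_comp (Tuple.sort f) fun j => c j • p j]; exact hc
  · intro i j hij
    have m := Tuple.monotone_sort f hij.le
    simp only [Function.comp, f, Prod.Lex.toLex_le_toLex, OrderDual.toDual_lt_toDual,
      EmbeddingLike.apply_eq_iff_eq] at m
    rcases m with m | ⟨m, m'⟩
    · exact ⟨m.le, fun e => absurd e m.ne⟩
    · exact ⟨m.ge, fun _ => lt_of_le_of_ne m' (h.ne ((Tuple.sort f).injective.ne hij.ne))⟩

end Pre

end Pool.Agent.P.MP_6b6f6e_co
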