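import Pool.Agent.P.MP_6b6f6e_co.Model

/-! Packed linear forms, tables of forms and the Farkas test. -/

set_option exponentiation.threshold 600

namespace Pool.Agent.P.MP_6b6f6e_co

open Finset

theorem digit_sum (w : ℕ) : ∀ (n : ℕ) (d : ℕ → ℕ), (∀ e, e < n → d e < 2 ^ w) → ∀ e, e < n →
    (∑ i ∈ range n, d i * 2 ^ (w * i)) / 2 ^ (w * e) % 2 ^ w = d e := by
  intro n
  induction n with
  | zero => intro d _ e he; omega
  | succ n ih =>
    intro d hd e he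
    have key : ∑ i ∈ range (n + 1), d i * 2 ^ (w * i)
        = d 0 + 2 ^ w * ∑ i ∈ range n, d (i + 1) * 2 ^ (w * i) := by
      rw [Finset.sum_range_succ', Finset.mul_sum, add_comm]
      congr 1
      · simp
      · refine Finset.sum_congr rfl fun i _ => ?_
        rw [Nat.mul_succ, pow_add]; ring
    rw [key]
    have h0 := hd 0 (by omega)
    cases e with
    | zero => simp [Nat.mod_eq_of_lt h0]
    | succ e =>
      have : 2 ^ (w * (e + 1)) = 2 ^ w * 2 ^ (w * e) := by rw [Nat.mul_succ, pow_add]; ring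
      rw [this, ← Nat.div_div_eq_div_mul, Nat.add_mul_div_left _ _ (by positivity),
        Nat.div_eq_of_lt h0, zero_add]
      exact ih (fun i => d (i + 1)) (fun i hi => hd _ (by omega)) e (by omega)

theorem sum_lt_pow (w : ℕ) : ∀ (n : ℕ) (d : ℕ → ℕ), (∀ e, e < n → d e < 2 ^ w) →
    ∑ i ∈ range n, d i * 2 ^ (w * i) < 2 ^ (w * n) := by
  intro n
  induction n with
  | zero => intro d _; simp
  | succ n ih =>
    intro d hd
    rw [Finset.sum_range_succ, Nat.mul_succ, pow_add]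
    have h1 := ih d (fun e he => hd e (by omega))
    have h2 : d n + 1 ≤ 2 ^ w := hd n (by omega)
    nlinarith [Nat.mul_le_mul_left (2 ^ (w * n)) h2]

theorem top_bit (w x e : ℕ) (hw : 0 < w) (h : x.testBit (w * e + (w - 1)) = true) :
    2 ^ (w - 1) ≤ x / 2 ^ (w * e) % 2 ^ w := by
  apply Nat.ge_two_pow_of_testBit
  rw [Nat.testBit_mod_two_pow, Nat.testBit_div_two_pow]
  simp only [Bool.and_eq_true, decide_eq_true_eq]
  refine ⟨by omega, ?_⟩
  rwa [add_comm]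

theorem testBit_of_land {x m i : ℕ} (h : Nat.land x m = m) (hm : m.testBit i = true) :
    x.testBit i = true := by
  have h1 : (x &&& m).testBit i = true := by
    have : x &&& m = m := h
    rw [this, hm]
  rw [Nat.testBit_and] at h1
  simp only [Bool.and_eq_true] at h1
  exact h1.1

section
variable {G : Type} [AddCommGroup G]

/-- `a` is the packed form of a linear form whose value is `x`. -/
def Rep (X : Fin 10 → G) (a : ℕ) (x : G) : Prop :=
  ∃ (c : Fin 10 → ℤ) (n : ℕ), (a : ℤ) = n * 2 ^ 460 + ∑ i, c i * 2 ^ (46 * i.val) ∧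
    ∑ i, |c i| ≤ n ∧ x = ∑ i, c i • X i

variable {X : Fin 10 → G}

theorem Rep.zero : Rep X 0 0 := ⟨fun _ => 0, 0, by simp, by simp, by simp⟩

theorem Rep.add {a b : ℕ} {x y : G} (h1 : Rep X a x) (h2 : Rep X b y) :
    Rep X (a + b) (x + y) := by
  obtain ⟨c, n, e1, e2, e3⟩ := h1
  obtain ⟨c', n', f1, f2, f3⟩ := h2
  refine ⟨fun i => c i + c' i, n + n', ?_, ?_, ?_⟩
  · push_cast; rw [e1, f1]; simp only [add_mul, Finset.sum_add_distrib]; ring
  · push_cast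
    calc ∑ i, |c i + c' i| ≤ ∑ i, (|c i| + |c' i|) :=
          Finset.sum_le_sum fun i _ => abs_add_le _ _
      _ ≤ n + n' := by rw [Finset.sum_add_distrib]; linarith
  · rw [e3, f3]; simp only [add_smul, Finset.sum_add_distrib]

theorem Rep.mul {a : ℕ} {x : G} (k : ℕ) (h1 : Rep X a x) : Rep X (k * a) ((k : ℤ) • x) := by
  obtain ⟨c, n, e1, e2, e3⟩ := h1
  refine ⟨fun i => k * c i, k * n, ?_, ?_, ?_⟩
  · rw [Nat.cast_mul, Nat.cast_mul, e1, mul_add, Finset.mul_sum]; simp only [mul_assoc]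
  · push_cast
    simp only [abs_mul, Nat.abs_cast]
    rw [← Finset.mul_sum]
    exact mul_le_mul_of_nonneg_left e2 (by positivity)
  · rw [e3, Finset.smul_sum]; simp only [mul_smul]

theorem Rep.congr {a : ℕ} {x y : G} (h : Rep X a x) (e : x = y) : Rep X a y := e ▸ h

theorem low_bound (c : Fin 10 → ℤ) (n : ℕ) (h : ∑ i, |c i| ≤ n) :
    |∑ i, c i * 2 ^ (46 * i.val)| ≤ n * 2 ^ 414 := by
  calc |∑ i, c i * 2 ^ (46 * i.val)| ≤ ∑ i, |c i * 2 ^ (46 * i.val)| :=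
        Finset.abs_sum_le_sum_abs _ _
    _ ≤ ∑ i, |c i| * 2 ^ 414 := by
        refine Finset.sum_le_sum fun i _ => ?_
        rw [abs_mul, abs_of_pos (by positivity : (0 : ℤ) < 2 ^ (46 * i.val))]
        refine mul_le_mul_of_nonneg_left ?_ (abs_nonneg _)
        exact pow_le_pow_right₀ (by norm_num) (by have := i.2; omega)
    _ ≤ n * 2 ^ 414 := by
        rw [← Finset.sum_mul]; exact mul_le_mul_of_nonneg_right h (by positivity)

/-- negation of a packed form -/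
def ng (a : ℕ) : ℕ :=
  Nat.sub (Nat.shiftLeft (Nat.shiftRight (Nat.add a (Nat.pow 2 459)) (nat_lit 460)) (nat_lit 461)) a

theorem Rep.neg {a : ℕ} {x : G} (h : Rep X a x) (ha : a < 2 ^ 486) :
    Rep X (ng a) (-x) ∧ ng a < 2 ^ 487 := by
  obtain ⟨c, n, e1, e2, e3⟩ := h
  have hl := abs_le.1 (low_bound c n e2)
  set L := ∑ i, c i * 2 ^ (46 * i.val) with hL
  have ha' : (a : ℤ) < 2 ^ 486 := by exact_mod_cast ha
  have hn : (n : ℤ) ≤ 2 ^ 26 := by omega
  have hq : (a + 2 ^ 459) / 2 ^ 460 = n := by omega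
  have e : ng a = n * 2 ^ 461 - a := by
    unfold ng
    rw [Nat.shiftLeft_eq', Nat.shiftRight_eq, Nat.shiftLeft_eq, Nat.shiftRight_eq_div_pow]
    simp only [Nat.add_eq, Nat.sub_eq, Nat.pow_eq]
    rw [← hq]
  have ez : (ng a : ℤ) = n * 2 ^ 461 - a := by omega
  refine ⟨⟨fun i => -c i, n, ?_, by simpa using e2, ?_⟩, ?_⟩
  · simp only [neg_mul, Finset.sum_neg_distrib]; rw [← hL]; omega
  · rw [e3]; simp only [neg_smul, Finset.sum_neg_distrib]
  · omega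

theorem Rep.ne_zero (hi : ∀ c : Fin 10 → ℤ, ∑ i, c i • X i = 0 → ∀ i, c i = 0)
    {a : ℕ} {x : G} (h : Rep X a x) (ha : a % 2 ^ 460 ≠ 0) : x ≠ 0 := by
  obtain ⟨c, n, e1, e2, e3⟩ := h
  intro hx
  have hc := hi c (by rw [← e3, hx])
  apply ha
  have : a = n * 2 ^ 460 := by
    zify; rw [e1]; simp [hc]
  rw [this]; simp

theorem Rep.unitP (i : Fin 10) : Rep X (2 ^ 460 + 2 ^ (46 * i.val)) (X i) := by
  refine ⟨Pi.single i 1, 1, ?_, ?_, ?_⟩
  · simp [Pi.single_apply]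
  · simp [Pi.single_apply, apply_ite]
  · simp [Pi.single_apply]

theorem Rep.unitM (i : Fin 10) : Rep X (2 ^ 460 - 2 ^ (46 * i.val)) (-X i) := by
  have : 2 ^ (46 * i.val) ≤ 2 ^ 460 := Nat.pow_le_pow_right (by norm_num) (by have := i.2; omega)
  refine ⟨Pi.single i (-1), 1, ?_, ?_, ?_⟩
  · rw [Nat.cast_sub this]; simp [Pi.single_apply]; ring
  · simp [Pi.single_apply, apply_ite]
  · simp [Pi.single_apply]

/-- digits of a packed form after adding the offset -/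
theorem Rep.digits {a : ℕ} (c : Fin 10 → ℤ) (n : ℕ) (s : ℤ) (W t : ℕ) (hs : |s| = 1)
    (e2 : ∑ i, |c i| ≤ n) (hn : n < 2 ^ 45) (ht : t < 2 ^ 46)
    (hW : (W : ℤ) = t * 2 ^ 460 + ∑ i : Fin 10, (2 ^ 45 + s * c i) * 2 ^ (46 * i.val))
    (_ : a = a) (i : Fin 10) :
    ((W / 2 ^ (46 * i.val) % 2 ^ 46 : ℕ) : ℤ) = 2 ^ 45 + s * c i := by
  have hb : ∀ j : Fin 10, |s * c j| < 2 ^ 45 := by
    intro j
    have h1 : |c j| ≤ ∑ i, |c i| :=
      Finset.single_le_sum (f := fun i => |c i|) (fun _ _ => abs_nonneg _) (Finset.mem_univ j)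
    have h2 : (n : ℤ) < 2 ^ 45 := by exact_mod_cast hn
    rw [abs_mul, hs]; linarith
  let d : ℕ → ℕ := fun e => if h : e < 10 then (2 ^ 45 + s * c ⟨e, h⟩).toNat else t
  have hd : ∀ j : Fin 10, (d j : ℤ) = 2 ^ 45 + s * c j := by
    intro j
    have := abs_lt.1 (hb j)
    simp only [d, j.2, dif_pos]
    rw [Int.toNat_of_nonneg (by linarith)]
  have hW' : W = ∑ e ∈ range 11, d e * 2 ^ (46 * e) := by
    zify
    rw [hW, Finset.sum_range_succ, Finset.sum_range, add_comm]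
    congr 1
    refine Finset.sum_congr rfl fun j _ => ?_
    rw [hd]
  have hlt : ∀ e, e < 11 → d e < 2 ^ 46 := by
    intro e he
    by_cases h : e < 10
    · have := abs_lt.1 (hb ⟨e, h⟩)
      have h2 := hd ⟨e, h⟩
      zify; simp only at h2; rw [h2]; norm_num; linarith
    · simp only [d, h, dif_neg, not_false_eq_true]; exact ht
  rw [hW', digit_sum 46 11 d hlt i (by have := i.2; omega), hd]

end

/-- entry number `k` of a table -/
def ent (T k : ℕ) : ℕ := T / 2 ^ (512 * k) % 2 ^ 512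

def Tab (Q : ℕ → Prop) (T : ℕ) : Prop := ∀ k, Q (ent T k) ∧ ent T k < 2 ^ 487

def push (T a : ℕ) : ℕ := Nat.add (Nat.shiftLeft T (nat_lit 512)) a

theorem ent_shift (T a n : ℕ) (ha : a < 2 ^ (512 * n)) (k : ℕ) :
    ent (T * 2 ^ (512 * n) + a) k = if k < n then ent a k else ent T (k - n) := by
  unfold ent
  split_ifs with h
  · obtain ⟨m, rfl⟩ : ∃ m, n = k + 1 + m := ⟨n - (k + 1), by omega⟩
    have : T * 2 ^ (512 * (k + 1 + m)) + a
        = a + 2 ^ (512 * k) * (2 ^ 512 * (T * 2 ^ (512 * m))) := by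
      rw [mul_add, mul_add, pow_add, pow_add, mul_one]; ring
    rw [this, Nat.add_mul_div_left _ _ (by positivity), Nat.add_mul_mod_self_left]
  · obtain ⟨m, rfl⟩ : ∃ m, k = n + m := ⟨k - n, by omega⟩
    rw [mul_add, pow_add, ← Nat.div_div_eq_div_mul, add_comm (T * _), mul_comm T,
      Nat.add_mul_div_left _ _ (by positivity), Nat.div_eq_of_lt ha, zero_add,
      Nat.add_sub_cancel_left]

theorem Tab.shift {Q : ℕ → Prop} {T a : ℕ} (n : ℕ) (hT : Tab Q T) (ha : a < 2 ^ (512 * n))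
    (h : ∀ k, k < n → Q (ent a k) ∧ ent a k < 2 ^ 487) : Tab Q (T * 2 ^ (512 * n) + a) := by
  intro k
  rw [ent_shift T a n ha]
  split_ifs with hk
  · exact h k hk
  · exact hT _

theorem Tab.push {Q : ℕ → Prop} {T a : ℕ} (hT : Tab Q T) (ha : Q a) (hb : a < 2 ^ 487) :
    Tab Q (push T a) := by
  have e : MP_6b6f6e_co.push T a = T * 2 ^ (512 * 1) + a := by
    unfold MP_6b6f6e_co.push
    rw [Nat.shiftLeft_eq', Nat.shiftLeft_eq]; rfl
  rw [e]
  have h0 : ent a 0 = a := by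
    unfold ent; simp only [mul_zero, pow_zero, Nat.div_one]; omega
  refine hT.shift 1 (by omega) fun k hk => ?_
  obtain rfl : k = 0 := by omega
  rw [h0]; exact ⟨ha, hb⟩

structure Clo (Q : ℕ → Prop) : Prop where
  zero : Q 0
  add : ∀ a b, Q a → Q b → Q (a + b)
  mul : ∀ k a, Q a → Q (k * a)

theorem Tab.zero {Q : ℕ → Prop} (hQ : Clo Q) : Tab Q 0 := by
  intro k
  have : ent 0 k = 0 := by simp [ent]
  rw [this]; exact ⟨hQ.zero, by positivity⟩

def Lin (Q : ℕ → Prop) (cnt S : ℕ) : Prop :=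
  ∃ a, Q a ∧ a ≤ cnt * 2 ^ 507 ∧ S % 2 ^ 512 = a % 2 ^ 512

theorem Lin.add {Q : ℕ → Prop} (hQ : Clo Q) {c c' S S' : ℕ} (h : Lin Q c S) (h' : Lin Q c' S') :
    Lin Q (c + c') (Nat.add S S') := by
  obtain ⟨a, h1, h2, h3⟩ := h
  obtain ⟨a', h1', h2', h3'⟩ := h'
  refine ⟨a + a', hQ.add _ _ h1 h1', by rw [add_mul]; omega, ?_⟩
  rw [Nat.add_eq, Nat.add_mod, h3, h3', ← Nat.add_mod]

theorem Lin.mono {Q : ℕ → Prop} {c c' S : ℕ} (h : Lin Q c S) (hc : c ≤ c') : Lin Q c' S := by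
  obtain ⟨a, h1, h2, h3⟩ := h
  exact ⟨a, h1, h2.trans (Nat.mul_le_mul_right _ hc), h3⟩

theorem term_lin {Q : ℕ → Prop} (hQ : Clo Q) {T : ℕ} (hT : Tab Q T) (l N : ℕ) (hl : l ≤ 2 ^ 20) :
    Lin Q 1 (Nat.mul l (Nat.shiftRight T (Nat.land N (nat_lit 65024)))) := by
  have h1 : (N &&& 65024) % 2 ^ 9 = 0 := by
    rw [Nat.and_mod_two_pow]; simp
  obtain ⟨k, hk⟩ : ∃ k, N &&& 65024 = 512 * k := ⟨(N &&& 65024) / 512, by omega⟩
  obtain ⟨q1, q2⟩ := hT k
  refine ⟨l * ent T k, hQ.mul _ _ q1, ?_, ?_⟩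
  · calc l * ent T k ≤ 2 ^ 20 * 2 ^ 487 := Nat.mul_le_mul hl q2.le
      _ = 1 * 2 ^ 507 := by norm_num
  · have : Nat.land N (nat_lit 65024) = 512 * k := hk
    rw [this, Nat.shiftRight_eq, Nat.shiftRight_eq_div_pow, Nat.mul_eq, ent, Nat.mul_mod_mod]

theorem land_le (N m : ℕ) : Nat.land N m ≤ m := Nat.and_le_right

theorem tm_lin {Q : ℕ → Prop} (hQ : Clo Q) {T : ℕ} (hT : Tab Q T) (N : ℕ) :
    Lin Q 1 (Nat.mul (Nat.land N (nat_lit 511)) (Nat.shiftRight T (Nat.land N (nat_lit 65024)))) :=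
  term_lin hQ hT _ _ ((land_le _ _).trans (by decide))

theorem land_65024 (N : ℕ) : Nat.land N (nat_lit 65024) % 512 = 0 := by
  have h1 : (N &&& 65024) % 2 ^ 9 = 0 := by rw [Nat.and_mod_two_pow]; simp
  exact h1

theorem land_2032 (N : ℕ) :
    Nat.shiftLeft (Nat.land N (nat_lit 2032)) (nat_lit 5) % 512 = 0 := by
  rw [Nat.shiftLeft_eq', Nat.shiftLeft_eq]
  have h1 : (N &&& 2032) % 2 ^ 4 = 0 := by rw [Nat.and_mod_two_pow]; simp
  have h2 : Nat.land N (nat_lit 2032) = N &&& 2032 := rfl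
  have h3 : 2 ^ (nat_lit 5) = 32 := rfl
  rw [h2, h3]; omega

theorem gen_lin {Q : ℕ → Prop} (hQ : Clo Q) {T : ℕ} (hT : Tab Q T) (l s : ℕ) (hl : l ≤ 2 ^ 20)
    (hs : s % 512 = 0) : Lin Q 1 (Nat.mul l (Nat.shiftRight T s)) := by
  obtain ⟨k, rfl⟩ : ∃ k, s = 512 * k := ⟨s / 512, by omega⟩
  obtain ⟨q1, q2⟩ := hT k
  refine ⟨l * ent T k, hQ.mul _ _ q1, ?_, ?_⟩
  · calc l * ent T k ≤ 2 ^ 20 * 2 ^ 487 := Nat.mul_le_mul hl q2.le
      _ = 1 * 2 ^ 507 := by norm_num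
  · rw [Nat.shiftRight_eq, Nat.shiftRight_eq_div_pow, Nat.mul_eq, ent, Nat.mul_mod_mod]

theorem one_lin {Q : ℕ → Prop} (hQ : Clo Q) {T : ℕ} (hT : Tab Q T) (s : ℕ)
    (hs : s % 512 = 0) : Lin Q 1 (Nat.shiftRight T s) := by
  have := gen_lin hQ hT 1 s (by norm_num) hs
  rwa [Nat.mul_eq, one_mul] at this

theorem tw_lin {Q : ℕ → Prop} (hQ : Clo Q) {T : ℕ} (hT : Tab Q T) (N s : ℕ) (hs : s % 512 = 0) :
    Lin Q 1 (Nat.mul (Nat.land N (nat_lit 1048575)) (Nat.shiftRight T s)) :=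
  gen_lin hQ hT _ _ ((land_le _ _).trans (by decide)) hs

def lu1 (T N : ℕ) : ℕ :=
  (Nat.shiftRight T (Nat.shiftLeft (Nat.land N (nat_lit 2032)) (nat_lit 5)))

theorem lu1_lin {Q : ℕ → Prop} (hQ : Clo Q) {T : ℕ} (hT : Tab Q T) (N : ℕ) :
    Lin Q 15 (lu1 T N) :=
  Lin.mono (one_lin hQ hT _ (land_2032 _)) (by norm_num)

def lu2 (T N : ℕ) : ℕ :=
  (Nat.add (Nat.shiftRight T (Nat.shiftLeft (Nat.land N (nat_lit 2032)) (nat_lit 5)))
    (Nat.shiftRight T (Nat.land (Nat.shiftRight N (nat_lit 2)) (nat_lit 65024))))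

theorem lu2_lin {Q : ℕ → Prop} (hQ : Clo Q) {T : ℕ} (hT : Tab Q T) (N : ℕ) :
    Lin Q 15 (lu2 T N) :=
  Lin.mono (Lin.add hQ (one_lin hQ hT _ (land_2032 _)) (one_lin hQ hT _ (land_65024 _))) (by norm_num)

def lz2 (T N : ℕ) : ℕ :=
  (Nat.add (Nat.shiftRight T (Nat.shiftLeft (Nat.land N (nat_lit 2032)) (nat_lit 5)))
    (Nat.mul (Nat.land (Nat.shiftRight N (nat_lit 11)) (nat_lit 511)) (Nat.shiftRight T (Nat.land (Nat.shiftRight N (nat_lit 11)) (nat_lit 65024)))))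

theorem lz2_lin {Q : ℕ → Prop} (hQ : Clo Q) {T : ℕ} (hT : Tab Q T) (N : ℕ) :
    Lin Q 15 (lz2 T N) :=
  Lin.mono (Lin.add hQ (one_lin hQ hT _ (land_2032 _)) (tm_lin hQ hT _)) (by norm_num)

def lin2 (T N : ℕ) : ℕ :=
  (Nat.add (Nat.mul (Nat.land (Nat.shiftRight N (nat_lit 4)) (nat_lit 511)) (Nat.shiftRight T (Nat.land (Nat.shiftRight N (nat_lit 4)) (nat_lit 65024))))
    (Nat.mul (Nat.land (Nat.shiftRight N (nat_lit 20)) (nat_lit 511)) (Nat.shiftRight T (Nat.land (Nat.shiftRight N (nat_lit 20)) (nat_lit 65024)))))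

theorem lin2_lin {Q : ℕ → Prop} (hQ : Clo Q) {T : ℕ} (hT : Tab Q T) (N : ℕ) :
    Lin Q 15 (lin2 T N) :=
  Lin.mono (Lin.add hQ (tm_lin hQ hT _) (tm_lin hQ hT _)) (by norm_num)

def lin3 (T N : ℕ) : ℕ :=
  (Nat.add (Nat.mul (Nat.land (Nat.shiftRight N (nat_lit 4)) (nat_lit 511)) (Nat.shiftRight T (Nat.land (Nat.shiftRight N (nat_lit 4)) (nat_lit 65024))))
    (Nat.add (Nat.mul (Nat.land (Nat.shiftRight N (nat_lit 20)) (nat_lit 511)) (Nat.shiftRight T (Nat.land (Nat.shiftRight N (nat_lit 20)) (nat_lit 65024))))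
    (Nat.mul (Nat.land (Nat.shiftRight N (nat_lit 36)) (nat_lit 511)) (Nat.shiftRight T (Nat.land (Nat.shiftRight N (nat_lit 36)) (nat_lit 65024))))))

theorem lin3_lin {Q : ℕ → Prop} (hQ : Clo Q) {T : ℕ} (hT : Tab Q T) (N : ℕ) :
    Lin Q 15 (lin3 T N) :=
  Lin.mono (Lin.add hQ (tm_lin hQ hT _) (Lin.add hQ (tm_lin hQ hT _) (tm_lin hQ hT _))) (by norm_num)

def lin4 (T N : ℕ) : ℕ :=
  (Nat.add (Nat.mul (Nat.land (Nat.shiftRight N (nat_lit 4)) (nat_lit 511)) (Nat.shiftRight T (Nat.land (Nat.shiftRight N (nat_lit 4)) (nat_lit 65024))))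
    (Nat.add (Nat.mul (Nat.land (Nat.shiftRight N (nat_lit 20)) (nat_lit 511)) (Nat.shiftRight T (Nat.land (Nat.shiftRight N (nat_lit 20)) (nat_lit 65024))))
    (Nat.add (Nat.mul (Nat.land (Nat.shiftRight N (nat_lit 36)) (nat_lit 511)) (Nat.shiftRight T (Nat.land (Nat.shiftRight N (nat_lit 36)) (nat_lit 65024))))
    (Nat.mul (Nat.land (Nat.shiftRight N (nat_lit 52)) (nat_lit 511)) (Nat.shiftRight T (Nat.land (Nat.shiftRight N (nat_lit 52)) (nat_lit 65024)))))))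

theorem lin4_lin {Q : ℕ → Prop} (hQ : Clo Q) {T : ℕ} (hT : Tab Q T) (N : ℕ) :
    Lin Q 15 (lin4 T N) :=
  Lin.mono (Lin.add hQ (tm_lin hQ hT _) (Lin.add hQ (tm_lin hQ hT _) (Lin.add hQ (tm_lin hQ hT _) (tm_lin hQ hT _)))) (by norm_num)

def lin5 (T N : ℕ) : ℕ :=
  (Nat.add (Nat.mul (Nat.land (Nat.shiftRight N (nat_lit 4)) (nat_lit 511)) (Nat.shiftRight T (Nat.land (Nat.shiftRight N (nat_lit 4)) (nat_lit 65024))))
    (Nat.add (Nat.mul (Nat.land (Nat.shiftRight N (nat_lit 20)) (nat_lit 511)) (Nat.shiftRight T (Nat.land (Nat.shiftRight N (nat_lit 20)) (nat_lit 65024))))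
    (Nat.add (Nat.mul (Nat.land (Nat.shiftRight N (nat_lit 36)) (nat_lit 511)) (Nat.shiftRight T (Nat.land (Nat.shiftRight N (nat_lit 36)) (nat_lit 65024))))
    (Nat.add (Nat.mul (Nat.land (Nat.shiftRight N (nat_lit 52)) (nat_lit 511)) (Nat.shiftRight T (Nat.land (Nat.shiftRight N (nat_lit 52)) (nat_lit 65024))))
    (Nat.mul (Nat.land (Nat.shiftRight N (nat_lit 68)) (nat_lit 511)) (Nat.shiftRight T (Nat.land (Nat.shiftRight N (nat_lit 68)) (nat_lit 65024))))))))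

theorem lin5_lin {Q : ℕ → Prop} (hQ : Clo Q) {T : ℕ} (hT : Tab Q T) (N : ℕ) :
    Lin Q 15 (lin5 T N) :=
  Lin.mono (Lin.add hQ (tm_lin hQ hT _) (Lin.add hQ (tm_lin hQ hT _) (Lin.add hQ (tm_lin hQ hT _) (Lin.add hQ (tm_lin hQ hT _) (tm_lin hQ hT _))))) (by norm_num)

def lin6 (T N : ℕ) : ℕ :=
  (Nat.add (Nat.mul (Nat.land (Nat.shiftRight N (nat_lit 4)) (nat_lit 511)) (Nat.shiftRight T (Nat.land (Nat.shiftRight N (nat_lit 4)) (nat_lit 65024))))
    (Nat.add (Nat.mul (Nat.land (Nat.shiftRight N (nat_lit 20)) (nat_lit 511)) (Nat.shiftRight T (Nat.land (Nat.shiftRight N (nat_lit 20)) (nat_lit 65024))))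
    (Nat.add (Nat.mul (Nat.land (Nat.shiftRight N (nat_lit 36)) (nat_lit 511)) (Nat.shiftRight T (Nat.land (Nat.shiftRight N (nat_lit 36)) (nat_lit 65024))))
    (Nat.add (Nat.mul (Nat.land (Nat.shiftRight N (nat_lit 52)) (nat_lit 511)) (Nat.shiftRight T (Nat.land (Nat.shiftRight N (nat_lit 52)) (nat_lit 65024))))
    (Nat.add (Nat.mul (Nat.land (Nat.shiftRight N (nat_lit 68)) (nat_lit 511)) (Nat.shiftRight T (Nat.land (Nat.shiftRight N (nat_lit 68)) (nat_lit 65024))))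
    (Nat.mul (Nat.land (Nat.shiftRight N (nat_lit 84)) (nat_lit 511)) (Nat.shiftRight T (Nat.land (Nat.shiftRight N (nat_lit 84)) (nat_lit 65024)))))))))

theorem lin6_lin {Q : ℕ → Prop} (hQ : Clo Q) {T : ℕ} (hT : Tab Q T) (N : ℕ) :
    Lin Q 15 (lin6 T N) :=
  Lin.mono (Lin.add hQ (tm_lin hQ hT _) (Lin.add hQ (tm_lin hQ hT _) (Lin.add hQ (tm_lin hQ hT _) (Lin.add hQ (tm_lin hQ hT _) (Lin.add hQ (tm_lin hQ hT _) (tm_lin hQ hT _)))))) (by norm_num)

def lin7 (T N : ℕ) : ℕ :=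
  (Nat.add (Nat.mul (Nat.land (Nat.shiftRight N (nat_lit 4)) (nat_lit 511)) (Nat.shiftRight T (Nat.land (Nat.shiftRight N (nat_lit 4)) (nat_lit 65024))))
    (Nat.add (Nat.mul (Nat.land (Nat.shiftRight N (nat_lit 20)) (nat_lit 511)) (Nat.shiftRight T (Nat.land (Nat.shiftRight N (nat_lit 20)) (nat_lit 65024))))
    (Nat.add (Nat.mul (Nat.land (Nat.shiftRight N (nat_lit 36)) (nat_lit 511)) (Nat.shiftRight T (Nat.land (Nat.shiftRight N (nat_lit 36)) (nat_lit 65024))))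
    (Nat.add (Nat.mul (Nat.land (Nat.shiftRight N (nat_lit 52)) (nat_lit 511)) (Nat.shiftRight T (Nat.land (Nat.shiftRight N (nat_lit 52)) (nat_lit 65024))))
    (Nat.add (Nat.mul (Nat.land (Nat.shiftRight N (nat_lit 68)) (nat_lit 511)) (Nat.shiftRight T (Nat.land (Nat.shiftRight N (nat_lit 68)) (nat_lit 65024))))
    (Nat.add (Nat.mul (Nat.land (Nat.shiftRight N (nat_lit 84)) (nat_lit 511)) (Nat.shiftRight T (Nat.land (Nat.shiftRight N (nat_lit 84)) (nat_lit 65024))))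
    (Nat.mul (Nat.land (Nat.shiftRight N (nat_lit 100)) (nat_lit 511)) (Nat.shiftRight T (Nat.land (Nat.shiftRight N (nat_lit 100)) (nat_lit 65024))))))))))

theorem lin7_lin {Q : ℕ → Prop} (hQ : Clo Q) {T : ℕ} (hT : Tab Q T) (N : ℕ) :
    Lin Q 15 (lin7 T N) :=
  Lin.mono (Lin.add hQ (tm_lin hQ hT _) (Lin.add hQ (tm_lin hQ hT _) (Lin.add hQ (tm_lin hQ hT _) (Lin.add hQ (tm_lin hQ hT _) (Lin.add hQ (tm_lin hQ hT _) (Lin.add hQ (tm_lin hQ hT _) (tm_lin hQ hT _))))))) (by norm_num)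

def lin8 (T N : ℕ) : ℕ :=
  (Nat.add (Nat.mul (Nat.land (Nat.shiftRight N (nat_lit 4)) (nat_lit 511)) (Nat.shiftRight T (Nat.land (Nat.shiftRight N (nat_lit 4)) (nat_lit 65024))))
    (Nat.add (Nat.mul (Nat.land (Nat.shiftRight N (nat_lit 20)) (nat_lit 511)) (Nat.shiftRight T (Nat.land (Nat.shiftRight N (nat_lit 20)) (nat_lit 65024))))
    (Nat.add (Nat.mul (Nat.land (Nat.shiftRight N (nat_lit 36)) (nat_lit 511)) (Nat.shiftRight T (Nat.land (Nat.shiftRight N (nat_lit 36)) (nat_lit 65024))))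
    (Nat.add (Nat.mul (Nat.land (Nat.shiftRight N (nat_lit 52)) (nat_lit 511)) (Nat.shiftRight T (Nat.land (Nat.shiftRight N (nat_lit 52)) (nat_lit 65024))))
    (Nat.add (Nat.mul (Nat.land (Nat.shiftRight N (nat_lit 68)) (nat_lit 511)) (Nat.shiftRight T (Nat.land (Nat.shiftRight N (nat_lit 68)) (nat_lit 65024))))
    (Nat.add (Nat.mul (Nat.land (Nat.shiftRight N (nat_lit 84)) (nat_lit 511)) (Nat.shiftRight T (Nat.land (Nat.shiftRight N (nat_lit 84)) (nat_lit 65024))))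
    (Nat.add (Nat.mul (Nat.land (Nat.shiftRight N (nat_lit 100)) (nat_lit 511)) (Nat.shiftRight T (Nat.land (Nat.shiftRight N (nat_lit 100)) (nat_lit 65024))))
    (Nat.mul (Nat.land (Nat.shiftRight N (nat_lit 116)) (nat_lit 511)) (Nat.shiftRight T (Nat.land (Nat.shiftRight N (nat_lit 116)) (nat_lit 65024)))))))))))

theorem lin8_lin {Q : ℕ → Prop} (hQ : Clo Q) {T : ℕ} (hT : Tab Q T) (N : ℕ) :
    Lin Q 15 (lin8 T N) :=
  Lin.mono (Lin.add hQ (tm_lin hQ hT _) (Lin.add hQ (tm_lin hQ hT _) (Lin.add hQ (tm_lin hQ hT _) (Lin.add hQ (tm_lin hQ hT _) (Lin.add hQ (tm_lin hQ hT _) (Lin.add hQ (tm_lin hQ hT _) (Lin.add hQ (tm_lin hQ hT _) (tm_lin hQ hT _)))))))) (by norm_num)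

def lin9 (T N : ℕ) : ℕ :=
  (Nat.add (Nat.mul (Nat.land (Nat.shiftRight N (nat_lit 4)) (nat_lit 511)) (Nat.shiftRight T (Nat.land (Nat.shiftRight N (nat_lit 4)) (nat_lit 65024))))
    (Nat.add (Nat.mul (Nat.land (Nat.shiftRight N (nat_lit 20)) (nat_lit 511)) (Nat.shiftRight T (Nat.land (Nat.shiftRight N (nat_lit 20)) (nat_lit 65024))))
    (Nat.add (Nat.mul (Nat.land (Nat.shiftRight N (nat_lit 36)) (nat_lit 511)) (Nat.shiftRight T (Nat.land (Nat.shiftRight N (nat_lit 36)) (nat_lit 65024))))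
    (Nat.add (Nat.mul (Nat.land (Nat.shiftRight N (nat_lit 52)) (nat_lit 511)) (Nat.shiftRight T (Nat.land (Nat.shiftRight N (nat_lit 52)) (nat_lit 65024))))
    (Nat.add (Nat.mul (Nat.land (Nat.shiftRight N (nat_lit 68)) (nat_lit 511)) (Nat.shiftRight T (Nat.land (Nat.shiftRight N (nat_lit 68)) (nat_lit 65024))))
    (Nat.add (Nat.mul (Nat.land (Nat.shiftRight N (nat_lit 84)) (nat_lit 511)) (Nat.shiftRight T (Nat.land (Nat.shiftRight N (nat_lit 84)) (nat_lit 65024))))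
    (Nat.add (Nat.mul (Nat.land (Nat.shiftRight N (nat_lit 100)) (nat_lit 511)) (Nat.shiftRight T (Nat.land (Nat.shiftRight N (nat_lit 100)) (nat_lit 65024))))
    (Nat.add (Nat.mul (Nat.land (Nat.shiftRight N (nat_lit 116)) (nat_lit 511)) (Nat.shiftRight T (Nat.land (Nat.shiftRight N (nat_lit 116)) (nat_lit 65024))))
    (Nat.mul (Nat.land (Nat.shiftRight N (nat_lit 132)) (nat_lit 511)) (Nat.shiftRight T (Nat.land (Nat.shiftRight N (nat_lit 132)) (nat_lit 65024))))))))))))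

theorem lin9_lin {Q : ℕ → Prop} (hQ : Clo Q) {T : ℕ} (hT : Tab Q T) (N : ℕ) :
    Lin Q 15 (lin9 T N) :=
  Lin.mono (Lin.add hQ (tm_lin hQ hT _) (Lin.add hQ (tm_lin hQ hT _) (Lin.add hQ (tm_lin hQ hT _) (Lin.add hQ (tm_lin hQ hT _) (Lin.add hQ (tm_lin hQ hT _) (Lin.add hQ (tm_lin hQ hT _) (Lin.add hQ (tm_lin hQ hT _) (Lin.add hQ (tm_lin hQ hT _) (tm_lin hQ hT _))))))))) (by norm_num)

def lin10 (T N : ℕ) : ℕ :=
  (Nat.add (Nat.mul (Nat.land (Nat.shiftRight N (nat_lit 4)) (nat_lit 511)) (Nat.shiftRight T (Nat.land (Nat.shiftRight N (nat_lit 4)) (nat_lit 65024))))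
    (Nat.add (Nat.mul (Nat.land (Nat.shiftRight N (nat_lit 20)) (nat_lit 511)) (Nat.shiftRight T (Nat.land (Nat.shiftRight N (nat_lit 20)) (nat_lit 65024))))
    (Nat.add (Nat.mul (Nat.land (Nat.shiftRight N (nat_lit 36)) (nat_lit 511)) (Nat.shiftRight T (Nat.land (Nat.shiftRight N (nat_lit 36)) (nat_lit 65024))))
    (Nat.add (Nat.mul (Nat.land (Nat.shiftRight N (nat_lit 52)) (nat_lit 511)) (Nat.shiftRight T (Nat.land (Nat.shiftRight N (nat_lit 52)) (nat_lit 65024))))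
    (Nat.add (Nat.mul (Nat.land (Nat.shiftRight N (nat_lit 68)) (nat_lit 511)) (Nat.shiftRight T (Nat.land (Nat.shiftRight N (nat_lit 68)) (nat_lit 65024))))
    (Nat.add (Nat.mul (Nat.land (Nat.shiftRight N (nat_lit 84)) (nat_lit 511)) (Nat.shiftRight T (Nat.land (Nat.shiftRight N (nat_lit 84)) (nat_lit 65024))))
    (Nat.add (Nat.mul (Nat.land (Nat.shiftRight N (nat_lit 100)) (nat_lit 511)) (Nat.shiftRight T (Nat.land (Nat.shiftRight N (nat_lit 100)) (nat_lit 65024))))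
    (Nat.add (Nat.mul (Nat.land (Nat.shiftRight N (nat_lit 116)) (nat_lit 511)) (Nat.shiftRight T (Nat.land (Nat.shiftRight N (nat_lit 116)) (nat_lit 65024))))
    (Nat.add (Nat.mul (Nat.land (Nat.shiftRight N (nat_lit 132)) (nat_lit 511)) (Nat.shiftRight T (Nat.land (Nat.shiftRight N (nat_lit 132)) (nat_lit 65024))))
    (Nat.mul (Nat.land (Nat.shiftRight N (nat_lit 148)) (nat_lit 511)) (Nat.shiftRight T (Nat.land (Nat.shiftRight N (nat_lit 148)) (nat_lit 65024)))))))))))))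

theorem lin10_lin {Q : ℕ → Prop} (hQ : Clo Q) {T : ℕ} (hT : Tab Q T) (N : ℕ) :
    Lin Q 15 (lin10 T N) :=
  Lin.mono (Lin.add hQ (tm_lin hQ hT _) (Lin.add hQ (tm_lin hQ hT _) (Lin.add hQ (tm_lin hQ hT _) (Lin.add hQ (tm_lin hQ hT _) (Lin.add hQ (tm_lin hQ hT _) (Lin.add hQ (tm_lin hQ hT _) (Lin.add hQ (tm_lin hQ hT _) (Lin.add hQ (tm_lin hQ hT _) (Lin.add hQ (tm_lin hQ hT _) (tm_lin hQ hT _)))))))))) (by norm_num)

def lw4 (T N : ℕ) : ℕ :=
  (Nat.add (Nat.mul (Nat.land (Nat.shiftRight N (nat_lit 11)) (nat_lit 1048575)) (Nat.shiftRight T (Nat.shiftLeft (Nat.land N (nat_lit 2032)) (nat_lit 5))))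
    (Nat.add (Nat.mul (Nat.land (Nat.shiftRight N (nat_lit 38)) (nat_lit 1048575)) (Nat.shiftRight T (Nat.land (Nat.shiftRight N (nat_lit 22)) (nat_lit 65024))))
    (Nat.add (Nat.mul (Nat.land (Nat.shiftRight N (nat_lit 65)) (nat_lit 1048575)) (Nat.shiftRight T (Nat.land (Nat.shiftRight N (nat_lit 49)) (nat_lit 65024))))
    (Nat.mul (Nat.land (Nat.shiftRight N (nat_lit 92)) (nat_lit 1048575)) (Nat.shiftRight T (Nat.land (Nat.shiftRight N (nat_lit 76)) (nat_lit 65024)))))))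

theorem lw4_lin {Q : ℕ → Prop} (hQ : Clo Q) {T : ℕ} (hT : Tab Q T) (N : ℕ) :
    Lin Q 15 (lw4 T N) :=
  Lin.mono (Lin.add hQ (tw_lin hQ hT _ _ (land_2032 _)) (Lin.add hQ (tw_lin hQ hT _ _ (land_65024 _)) (Lin.add hQ (tw_lin hQ hT _ _ (land_65024 _)) (tw_lin hQ hT _ _ (land_65024 _))))) (by norm_num)

def lw8 (T N : ℕ) : ℕ :=
  (Nat.add (Nat.mul (Nat.land (Nat.shiftRight N (nat_lit 11)) (nat_lit 1048575)) (Nat.shiftRight T (Nat.shiftLeft (Nat.land N (nat_lit 2032)) (nat_lit 5))))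
    (Nat.add (Nat.mul (Nat.land (Nat.shiftRight N (nat_lit 38)) (nat_lit 1048575)) (Nat.shiftRight T (Nat.land (Nat.shiftRight N (nat_lit 22)) (nat_lit 65024))))
    (Nat.add (Nat.mul (Nat.land (Nat.shiftRight N (nat_lit 65)) (nat_lit 1048575)) (Nat.shiftRight T (Nat.land (Nat.shiftRight N (nat_lit 49)) (nat_lit 65024))))
    (Nat.add (Nat.mul (Nat.land (Nat.shiftRight N (nat_lit 92)) (nat_lit 1048575)) (Nat.shiftRight T (Nat.land (Nat.shiftRight N (nat_lit 76)) (nat_lit 65024))))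
    (Nat.add (Nat.mul (Nat.land (Nat.shiftRight N (nat_lit 119)) (nat_lit 1048575)) (Nat.shiftRight T (Nat.land (Nat.shiftRight N (nat_lit 103)) (nat_lit 65024))))
    (Nat.add (Nat.mul (Nat.land (Nat.shiftRight N (nat_lit 146)) (nat_lit 1048575)) (Nat.shiftRight T (Nat.land (Nat.shiftRight N (nat_lit 130)) (nat_lit 65024))))
    (Nat.add (Nat.mul (Nat.land (Nat.shiftRight N (nat_lit 173)) (nat_lit 1048575)) (Nat.shiftRight T (Nat.land (Nat.shiftRight N (nat_lit 157)) (nat_lit 65024))))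
    (Nat.mul (Nat.land (Nat.shiftRight N (nat_lit 200)) (nat_lit 1048575)) (Nat.shiftRight T (Nat.land (Nat.shiftRight N (nat_lit 184)) (nat_lit 65024)))))))))))

theorem lw8_lin {Q : ℕ → Prop} (hQ : Clo Q) {T : ℕ} (hT : Tab Q T) (N : ℕ) :
    Lin Q 15 (lw8 T N) :=
  Lin.mono (Lin.add hQ (tw_lin hQ hT _ _ (land_2032 _)) (Lin.add hQ (tw_lin hQ hT _ _ (land_65024 _)) (Lin.add hQ (tw_lin hQ hT _ _ (land_65024 _)) (Lin.add hQ (tw_lin hQ hT _ _ (land_65024 _)) (Lin.add hQ (tw_lin hQ hT _ _ (land_65024 _)) (Lin.add hQ (tw_lin hQ hT _ _ (land_65024 _)) (Lin.add hQ (tw_lin hQ hT _ _ (land_65024 _)) (tw_lin hQ hT _ _ (land_65024 _))))))))) (by norm_num)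

def lw10 (T N : ℕ) : ℕ :=
  (Nat.add (Nat.mul (Nat.land (Nat.shiftRight N (nat_lit 11)) (nat_lit 1048575)) (Nat.shiftRight T (Nat.shiftLeft (Nat.land N (nat_lit 2032)) (nat_lit 5))))
    (Nat.add (Nat.mul (Nat.land (Nat.shiftRight N (nat_lit 38)) (nat_lit 1048575)) (Nat.shiftRight T (Nat.land (Nat.shiftRight N (nat_lit 22)) (nat_lit 65024))))
    (Nat.add (Nat.mul (Nat.land (Nat.shiftRight N (nat_lit 65)) (nat_lit 1048575)) (Nat.shiftRight T (Nat.land (Nat.shiftRight N (nat_lit 49)) (nat_lit 65024))))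
    (Nat.add (Nat.mul (Nat.land (Nat.shiftRight N (nat_lit 92)) (nat_lit 1048575)) (Nat.shiftRight T (Nat.land (Nat.shiftRight N (nat_lit 76)) (nat_lit 65024))))
    (Nat.add (Nat.mul (Nat.land (Nat.shiftRight N (nat_lit 119)) (nat_lit 1048575)) (Nat.shiftRight T (Nat.land (Nat.shiftRight N (nat_lit 103)) (nat_lit 65024))))
    (Nat.add (Nat.mul (Nat.land (Nat.shiftRight N (nat_lit 146)) (nat_lit 1048575)) (Nat.shiftRight T (Nat.land (Nat.shiftRight N (nat_lit 130)) (nat_lit 65024))))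
    (Nat.add (Nat.mul (Nat.land (Nat.shiftRight N (nat_lit 173)) (nat_lit 1048575)) (Nat.shiftRight T (Nat.land (Nat.shiftRight N (nat_lit 157)) (nat_lit 65024))))
    (Nat.add (Nat.mul (Nat.land (Nat.shiftRight N (nat_lit 200)) (nat_lit 1048575)) (Nat.shiftRight T (Nat.land (Nat.shiftRight N (nat_lit 184)) (nat_lit 65024))))
    (Nat.add (Nat.mul (Nat.land (Nat.shiftRight N (nat_lit 227)) (nat_lit 1048575)) (Nat.shiftRight T (Nat.land (Nat.shiftRight N (nat_lit 211)) (nat_lit 65024))))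
    (Nat.mul (Nat.land (Nat.shiftRight N (nat_lit 254)) (nat_lit 1048575)) (Nat.shiftRight T (Nat.land (Nat.shiftRight N (nat_lit 238)) (nat_lit 65024)))))))))))))

theorem lw10_lin {Q : ℕ → Prop} (hQ : Clo Q) {T : ℕ} (hT : Tab Q T) (N : ℕ) :
    Lin Q 15 (lw10 T N) :=
  Lin.mono (Lin.add hQ (tw_lin hQ hT _ _ (land_2032 _)) (Lin.add hQ (tw_lin hQ hT _ _ (land_65024 _)) (Lin.add hQ (tw_lin hQ hT _ _ (land_65024 _)) (Lin.add hQ (tw_lin hQ hT _ _ (land_65024 _)) (Lin.add hQ (tw_lin hQ hT _ _ (land_65024 _)) (Lin.add hQ (tw_lin hQ hT _ _ (land_65024 _)) (Lin.add hQ (tw_lin hQ hT _ _ (land_65024 _)) (Lin.add hQ (tw_lin hQ hT _ _ (land_65024 _)) (Lin.add hQ (tw_lin hQ hT _ _ (land_65024 _)) (tw_lin hQ hT _ _ (land_65024 _))))))))))) (by norm_num)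

noncomputable def linW (T cnt : ℕ) : ℕ → ℕ :=
  Nat.rec (motive := fun _ => ℕ → ℕ) (fun _ => nat_lit 0)
    (fun _ ih N => Nat.add
      (Nat.mul (Nat.land (Nat.shiftRight N (nat_lit 16)) (nat_lit 1048575))
        (Nat.shiftRight T (Nat.land N (nat_lit 65024))))
      (ih (Nat.shiftRight N (nat_lit 36)))) cnt

theorem linW_lin {Q : ℕ → Prop} (hQ : Clo Q) {T : ℕ} (hT : Tab Q T) :
    ∀ cnt N, Lin Q cnt (linW T cnt N) := by
  intro cnt
  induction cnt with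
  | zero => intro N; exact ⟨0, hQ.zero, by simp, rfl⟩
  | succ c ih =>
    intro N
    have := Lin.add hQ (term_lin hQ hT (Nat.land (Nat.shiftRight N (nat_lit 16)) (nat_lit 1048575)) N
      ((land_le _ _).trans (by decide))) (ih (Nat.shiftRight N (nat_lit 36)))
    rw [add_comm] at this
    exact this

/-- read a nonnegative combination of table entries and pass it on -/
noncomputable def linK (T N : ℕ) (k : ℕ → ℕ → ℕ) : ℕ :=
  (Bool.rec (motive := fun _ => ℕ)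
    (Bool.rec (motive := fun _ => ℕ)
     (Bool.rec (motive := fun _ => ℕ)
      (Bool.rec (motive := fun _ => ℕ)
       (Bool.rec (motive := fun _ => ℕ)
        (Bool.rec (motive := fun _ => ℕ)
         (k (lw10 T N) (Nat.shiftRight N (nat_lit 274)))
         (k (lw8 T N) (Nat.shiftRight N (nat_lit 220)))
         (Nat.ble (Nat.land N (nat_lit 15)) (nat_lit 14)))
        (k (lw4 T N) (Nat.shiftRight N (nat_lit 112)))
        (Nat.ble (Nat.land N (nat_lit 15)) (nat_lit 13)))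
       (Bool.rec (motive := fun _ => ℕ)
        (k (lin10 T N) (Nat.shiftRight N (nat_lit 164)))
        (k (lin9 T N) (Nat.shiftRight N (nat_lit 148)))
        (Nat.ble (Nat.land N (nat_lit 15)) (nat_lit 11)))
       (Nat.ble (Nat.land N (nat_lit 15)) (nat_lit 12)))
      (Bool.rec (motive := fun _ => ℕ)
       (Bool.rec (motive := fun _ => ℕ)
        (k (lin8 T N) (Nat.shiftRight N (nat_lit 132)))
        (k (lin7 T N) (Nat.shiftRight N (nat_lit 116)))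
        (Nat.ble (Nat.land N (nat_lit 15)) (nat_lit 9)))
       (Bool.rec (motive := fun _ => ℕ)
        (k (lin6 T N) (Nat.shiftRight N (nat_lit 100)))
        (k (lin5 T N) (Nat.shiftRight N (nat_lit 84)))
        (Nat.ble (Nat.land N (nat_lit 15)) (nat_lit 7)))
       (Nat.ble (Nat.land N (nat_lit 15)) (nat_lit 8)))
      (Nat.ble (Nat.land N (nat_lit 15)) (nat_lit 10)))
     (Bool.rec (motive := fun _ => ℕ)
      (Bool.rec (motive := fun _ => ℕ)
       (k (lin4 T N) (Nat.shiftRight N (nat_lit 68)))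
       (k (lin3 T N) (Nat.shiftRight N (nat_lit 52)))
       (Nat.ble (Nat.land N (nat_lit 15)) (nat_lit 5)))
      (k (lin2 T N) (Nat.shiftRight N (nat_lit 36)))
      (Nat.ble (Nat.land N (nat_lit 15)) (nat_lit 4)))
     (Nat.ble (Nat.land N (nat_lit 15)) (nat_lit 6)))
    (Bool.rec (motive := fun _ => ℕ)
     (Bool.rec (motive := fun _ => ℕ)
      (k (lz2 T N) (Nat.shiftRight N (nat_lit 27)))
      (k (lu2 T N) (Nat.shiftRight N (nat_lit 18)))
      (Nat.ble (Nat.land N (nat_lit 15)) (nat_lit 2)))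
     (Bool.rec (motive := fun _ => ℕ)
      (k (lu1 T N) (Nat.shiftRight N (nat_lit 11)))
      (k (linW T (Nat.land (Nat.shiftRight N (nat_lit 4)) (nat_lit 15)) (Nat.shiftRight N (nat_lit 8)))
      (Nat.shiftRight N (Nat.add (nat_lit 8) (Nat.mul (nat_lit 36) (Nat.land (Nat.shiftRight N (nat_lit 4)) (nat_lit 15))))))
      (Nat.ble (Nat.land N (nat_lit 15)) (nat_lit 0)))
     (Nat.ble (Nat.land N (nat_lit 15)) (nat_lit 1)))
    (Nat.ble (Nat.land N (nat_lit 15)) (nat_lit 3)))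

theorem brec_ne {x y : ℕ} {b : Bool} (h : Bool.rec (motive := fun _ => ℕ) x y b ≠ 0) :
    (b = false ∧ x ≠ 0) ∨ (b = true ∧ y ≠ 0) := by
  cases b
  · exact Or.inl ⟨rfl, h⟩
  · exact Or.inr ⟨rfl, h⟩

theorem linK_sound {Q : ℕ → Prop} (hQ : Clo Q) {T : ℕ} (hT : Tab Q T) (N : ℕ) (k : ℕ → ℕ → ℕ)
    (h : linK T N k ≠ 0) : ∃ S r, Lin Q 15 S ∧ k S r ≠ 0 := by
  unfold linK at h
  have hw := Lin.mono (linW_lin hQ hT (Nat.land (Nat.shiftRight N (nat_lit 4)) (nat_lit 15))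
    (Nat.shiftRight N (nat_lit 8))) (land_le _ _)
  rcases brec_ne h with ⟨-, h⟩ | ⟨-, h⟩
  · rcases brec_ne h with ⟨-, h⟩ | ⟨-, h⟩
    · rcases brec_ne h with ⟨-, h⟩ | ⟨-, h⟩
      · rcases brec_ne h with ⟨-, h⟩ | ⟨-, h⟩
        · rcases brec_ne h with ⟨-, h⟩ | ⟨-, h⟩
          · rcases brec_ne h with ⟨-, h⟩ | ⟨-, h⟩
            · exact ⟨_, _, lw10_lin hQ hT N, h⟩
            · exact ⟨_, _, lw8_lin hQ hT N, h⟩
          · exact ⟨_, _, lw4_lin hQ hT N, h⟩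
        · rcases brec_ne h with ⟨-, h⟩ | ⟨-, h⟩
          · exact ⟨_, _, lin10_lin hQ hT N, h⟩
          · exact ⟨_, _, lin9_lin hQ hT N, h⟩
      · rcases brec_ne h with ⟨-, h⟩ | ⟨-, h⟩
        · rcases brec_ne h with ⟨-, h⟩ | ⟨-, h⟩
          · exact ⟨_, _, lin8_lin hQ hT N, h⟩
          · exact ⟨_, _, lin7_lin hQ hT N, h⟩
        · rcases brec_ne h with ⟨-, h⟩ | ⟨-, h⟩
          · exact ⟨_, _, lin6_lin hQ hT N, h⟩
          · exact ⟨_, _, lin5_lin hQ hT N, h⟩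
    · rcases brec_ne h with ⟨-, h⟩ | ⟨-, h⟩
      · rcases brec_ne h with ⟨-, h⟩ | ⟨-, h⟩
        · exact ⟨_, _, lin4_lin hQ hT N, h⟩
        · exact ⟨_, _, lin3_lin hQ hT N, h⟩
      · exact ⟨_, _, lin2_lin hQ hT N, h⟩
  · rcases brec_ne h with ⟨-, h⟩ | ⟨-, h⟩
    · rcases brec_ne h with ⟨-, h⟩ | ⟨-, h⟩
      · exact ⟨_, _, lz2_lin hQ hT N, h⟩
      · exact ⟨_, _, lu2_lin hQ hT N, h⟩
    · rcases brec_ne h with ⟨-, h⟩ | ⟨-, h⟩
      · exact ⟨_, _, lu1_lin hQ hT N, h⟩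
      · exact ⟨_, _, hw, h⟩

def m512 : ℕ := Nat.sub (Nat.pow 2 512) 1

theorem land_m512 (S : ℕ) : Nat.land S m512 = S % 2 ^ 512 :=
  Nat.and_two_pow_sub_one_eq_mod S 512

theorem Lin.out {Q : ℕ → Prop} {S : ℕ} (h : Lin Q 15 S) : Q (Nat.land S m512) := by
  obtain ⟨a, h1, h2, h3⟩ := h
  rw [land_m512, h3, Nat.mod_eq_of_lt (by omega)]; exact h1

def cH : ℕ := nat_lit 0x3000000000008000000000020000000000080000000000200000000000800000000002000000000008000000000020000000000080000000000200000000000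

def cM : ℕ := nat_lit 0x2000000000008000000000020000000000080000000000200000000000800000000002000000000008000000000020000000000080000000000200000000000

/-- the Farkas test -/
noncomputable def fin (S r : ℕ) : ℕ :=
  Bool.rec (motive := fun _ => ℕ) (nat_lit 0) r
    (Nat.beq (Nat.land (Nat.sub cH (Nat.land S m512)) cH) cM)

theorem testBit_of_land' {x m m' i : ℕ} (h : Nat.land x m = m') (hm : m'.testBit i = true) :
    x.testBit i = true := by
  have h1 : (x &&& m).testBit i = true := by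
    have : x &&& m = m' := h
    rw [this, hm]
  rw [Nat.testBit_and] at h1
  simp only [Bool.and_eq_true] at h1
  exact h1.1

section
variable {G : Type} [AddCommGroup G] [LinearOrder G] [IsOrderedAddMonoid G] {X : Fin 10 → G}

/-- a packed form with a positive value (or the empty entry) -/
def Gd (X : Fin 10 → G) (a : ℕ) : Prop := ∃ x, Rep X a x ∧ (0 < x ∨ a = 0)

omit [LinearOrder G] [IsOrderedAddMonoid G] in
theorem Rep.eq_zero {x : G} (h : Rep X 0 x) : x = 0 := by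
  obtain ⟨c, n, e1, e2, e3⟩ := h
  have hl := abs_le.1 (low_bound c n e2)
  have hn : (n : ℤ) = 0 := by
    generalize (∑ i, c i * 2 ^ (46 * i.val)) = L at *
    omega
  have hc : ∀ i, c i = 0 := by
    intro i
    have h1 : |c i| ≤ ∑ i, |c i| :=
      Finset.single_le_sum (f := fun i => |c i|) (fun _ _ => abs_nonneg _) (Finset.mem_univ i)
    exact abs_nonpos_iff.1 (by linarith)
  rw [e3]; simp [hc]

theorem Gd.clo : Clo (Gd X) where
  zero := ⟨0, Rep.zero, Or.inr rfl⟩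
  add := by
    rintro a b ⟨x, h1, h2⟩ ⟨y, h3, h4⟩
    refine ⟨x + y, h1.add h3, ?_⟩
    rcases h2 with h2 | rfl <;> rcases h4 with h4 | rfl
    · exact Or.inl (add_pos h2 h4)
    · rw [h3.eq_zero, add_zero]; exact Or.inl h2
    · rw [h1.eq_zero, zero_add]; exact Or.inl h4
    · exact Or.inr rfl
  mul := by
    rintro k a ⟨x, h1, h2⟩
    refine ⟨_, h1.mul k, ?_⟩
    rcases Nat.eq_zero_or_pos k with rfl | hk
    · exact Or.inr (by simp)
    · rcases h2 with h2 | rfl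
      · exact Or.inl (zsmul_pos h2 (by exact_mod_cast hk))
      · exact Or.inr (by simp)

omit [LinearOrder G] [IsOrderedAddMonoid G] in
theorem Rep.clo : Clo (fun a => ∃ x, Rep X a x) where
  zero := ⟨0, Rep.zero⟩
  add := fun _ _ ⟨_, h1⟩ ⟨_, h2⟩ => ⟨_, h1.add h2⟩
  mul := fun k _ ⟨_, h1⟩ => ⟨_, h1.mul k⟩

theorem cH_eq : (cH : ℤ) = (2 ^ 45 + 2 ^ 44) * 2 ^ 460 + ∑ i : Fin 10, 2 ^ 45 * 2 ^ (46 * i.val) := by
  decide +kernel

theorem cM_bit : ∀ i : Fin 10, cM.testBit (46 * i.val + (46 - 1)) = true := by decide +kernel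

theorem fin_sound (hX : ∀ i, 0 < X i) {S r : ℕ} (hS : Lin (Gd X) 15 S) (h : fin S r ≠ 0) :
    False := by
  obtain ⟨x, ⟨c, n, e1, e2, e3⟩, hx⟩ := hS.out
  unfold fin at h
  generalize Nat.land S m512 = a at *
  rcases brec_ne h with ⟨-, h⟩ | ⟨hm, h⟩
  · exact h rfl
  have hm' := Nat.eq_of_beq_eq_true hm
  have ha : a ≠ 0 := by
    rintro rfl
    revert hm'
    decide +kernel
  have hx' : 0 < x := hx.resolve_right ha
  have h505 : 2 ^ 505 ≤ Nat.sub cH a :=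
    Nat.ge_two_pow_of_testBit (testBit_of_land' hm' (by decide +kernel))
  have hl := abs_le.1 (low_bound c n e2)
  have hH : cH < 2 ^ 505 + 2 ^ 504 + 2 ^ 460 := by decide +kernel
  rw [Nat.sub_eq] at h505 hm'
  have hn : n ≤ 2 ^ 44 + 1 := by
    generalize (∑ i, c i * 2 ^ (46 * i.val)) = L at *
    omega
  have hc : ∀ i, c i ≤ 0 := by
    intro i
    have hd := Rep.digits (a := 0) c n (-1) (cH - a) (2 ^ 45 + 2 ^ 44 - n) (by simp) e2 (by omega)
      (by omega) (by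
        rw [Nat.cast_sub (by omega), Nat.cast_sub (by omega), cH_eq, e1]
        simp only [add_mul, Finset.sum_add_distrib, neg_mul, one_mul, Finset.sum_neg_distrib]
        push_cast; ring) rfl i
    have ht := top_bit 46 (cH - a) i (by norm_num)
      (testBit_of_land' hm' (cM_bit i))
    have : (2 : ℤ) ^ 45 ≤ 2 ^ 45 + -1 * c i := by rw [← hd]; exact_mod_cast ht
    linarith
  have : x ≤ 0 := by
    rw [e3]
    exact Finset.sum_nonpos fun i _ => smul_nonpos_of_nonpos_of_nonneg (hc i) (hX i).le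
  exact absurd hx' (not_lt.2 this)

/-- Farkas leaf -/
noncomputable def far (T N : ℕ) : ℕ := linK T N fin

omit [AddCommGroup G] [LinearOrder G] [IsOrderedAddMonoid G] in
theorem far_zero (T : ℕ) : far T 0 = 0 := by
  have h : far T 0 = fin (nat_lit 0) (nat_lit 0) := rfl
  rw [h]; decide +kernel

theorem far_sound (hX : ∀ i, 0 < X i) {T N : ℕ} (hT : Tab (Gd X) T) (h : far T N ≠ 0) : False := by
  obtain ⟨S, r, h1, h2⟩ := linK_sound Gd.clo hT N fin h
  exact fin_sound hX h1 h2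

end

end Pool.Agent.P.MP_6b6f6e_co
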