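import Pool.Agent.P.MP_6b6f6e_co.Rep

/-! Degree three positivity certificates, checked on Kronecker packed numbers. -/

set_option exponentiation.threshold 600

namespace Pool.Agent.P.MP_6b6f6e_co

open Finset

/-- exponents with distinct triple sums; the last one is a dummy variable of value zero -/
def ex : Fin 11 → ℕ := ![0, 8, 54, 102, 161, 295, 350, 427, 471, 508, 520]

def Ez (i : Fin 11) : ℤ := 2 ^ (80 * ex i)

def ev1 (f c : Fin 11 → ℤ) : ℤ := ∑ i, c i * f i
def ev2 (f : Fin 11 → ℤ) (q : Fin 11 × Fin 11 → ℤ) : ℤ := ∑ p, q p * (f p.1 * f p.2)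
def ev3 (f : Fin 11 → ℤ) (q : Fin 11 × Fin 11 × Fin 11 → ℤ) : ℤ :=
  ∑ p, q p * (f p.1 * (f p.2.1 * f p.2.2))

def Tn1 (val : Fin 11 → ℤ) (v y n t : ℤ) : Prop :=
  ∃ c, v = ev1 Ez c ∧ y = ev1 val c ∧ ∑ i, |c i| ≤ n ∧ t = c 10
def Tn2 (val : Fin 11 → ℤ) (v y n t : ℤ) : Prop :=
  ∃ q, v = ev2 Ez q ∧ y = ev2 val q ∧ ∑ p, |q p| ≤ n ∧ t = q (10, 10)
def Tn3 (val : Fin 11 → ℤ) (v y n t : ℤ) : Prop :=
  ∃ q, v = ev3 Ez q ∧ y = ev3 val q ∧ ∑ p, |q p| ≤ n ∧ t = q (10, 10, 10)

theorem abs_sum_add {ι : Type} [Fintype ι] (c c' : ι → ℤ) {n n' : ℤ} (h : ∑ i, |c i| ≤ n)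
    (h' : ∑ i, |c' i| ≤ n') : ∑ i, |c i + c' i| ≤ n + n' :=
  calc ∑ i, |c i + c' i| ≤ ∑ i, (|c i| + |c' i|) := Finset.sum_le_sum fun _ _ => abs_add_le _ _
    _ ≤ n + n' := by rw [Finset.sum_add_distrib]; linarith

theorem abs_sum_mul {ι : Type} [Fintype ι] (c : ι → ℤ) (k : ℤ) {n : ℤ} (h : ∑ i, |c i| ≤ n) :
    ∑ i, |k * c i| ≤ |k| * n := by
  simp only [abs_mul]; rw [← Finset.mul_sum]
  exact mul_le_mul_of_nonneg_left h (abs_nonneg _)

theorem abs_sum_prod {ι κ : Type} [Fintype ι] [Fintype κ] (c : ι → ℤ) (q : κ → ℤ) {n n' : ℤ}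
    (h : ∑ i, |c i| ≤ n) (h' : ∑ i, |q i| ≤ n') : ∑ p : ι × κ, |c p.1 * q p.2| ≤ n * n' := by
  have : ∑ p : ι × κ, |c p.1 * q p.2| = (∑ i, |c i|) * ∑ i, |q i| := by
    rw [Finset.sum_mul_sum, Fintype.sum_prod_type]; simp only [abs_mul]
  rw [this]
  have h1 : 0 ≤ ∑ i, |c i| := Finset.sum_nonneg fun _ _ => abs_nonneg _
  have h2 : 0 ≤ ∑ i, |q i| := Finset.sum_nonneg fun _ _ => abs_nonneg _
  exact mul_le_mul h h' h2 (h1.trans h)

section
variable {val : Fin 11 → ℤ}

theorem Tn1.add {v y n t v' y' n' t' : ℤ} (h : Tn1 val v y n t) (h' : Tn1 val v' y' n' t') :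
    Tn1 val (v + v') (y + y') (n + n') (t + t') := by
  obtain ⟨c, rfl, rfl, h3, rfl⟩ := h
  obtain ⟨c', rfl, rfl, h3', rfl⟩ := h'
  refine ⟨fun i => c i + c' i, ?_, ?_, abs_sum_add c c' h3 h3', rfl⟩ <;>
    simp only [ev1, add_mul, Finset.sum_add_distrib]

theorem Tn2.add {v y n t v' y' n' t' : ℤ} (h : Tn2 val v y n t) (h' : Tn2 val v' y' n' t') :
    Tn2 val (v + v') (y + y') (n + n') (t + t') := by
  obtain ⟨c, rfl, rfl, h3, rfl⟩ := h
  obtain ⟨c', rfl, rfl, h3', rfl⟩ := h'
  refine ⟨fun i => c i + c' i, ?_, ?_, abs_sum_add c c' h3 h3', rfl⟩ <;>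
    simp only [ev2, add_mul, Finset.sum_add_distrib]

theorem Tn3.add {v y n t v' y' n' t' : ℤ} (h : Tn3 val v y n t) (h' : Tn3 val v' y' n' t') :
    Tn3 val (v + v') (y + y') (n + n') (t + t') := by
  obtain ⟨c, rfl, rfl, h3, rfl⟩ := h
  obtain ⟨c', rfl, rfl, h3', rfl⟩ := h'
  refine ⟨fun i => c i + c' i, ?_, ?_, abs_sum_add c c' h3 h3', rfl⟩ <;>
    simp only [ev3, add_mul, Finset.sum_add_distrib]

theorem Tn1.smul {v y n t : ℤ} (k : ℤ) (h : Tn1 val v y n t) :
    Tn1 val (k * v) (k * y) (|k| * n) (k * t) := by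
  obtain ⟨c, rfl, rfl, h3, rfl⟩ := h
  refine ⟨fun i => k * c i, ?_, ?_, abs_sum_mul c k h3, rfl⟩ <;>
    simp only [ev1, Finset.mul_sum, mul_assoc]

theorem Tn3.smul {v y n t : ℤ} (k : ℤ) (h : Tn3 val v y n t) :
    Tn3 val (k * v) (k * y) (|k| * n) (k * t) := by
  obtain ⟨c, rfl, rfl, h3, rfl⟩ := h
  refine ⟨fun i => k * c i, ?_, ?_, abs_sum_mul c k h3, rfl⟩ <;>
    simp only [ev3, Finset.mul_sum, mul_assoc]

theorem Tn1.mul1 {v y n t v' y' n' t' : ℤ} (h : Tn1 val v y n t) (h' : Tn1 val v' y' n' t') :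
    Tn2 val (v * v') (y * y') (n * n') (t * t') := by
  obtain ⟨c, rfl, rfl, h3, rfl⟩ := h
  obtain ⟨c', rfl, rfl, h3', rfl⟩ := h'
  refine ⟨fun p => c p.1 * c' p.2, ?_, ?_, abs_sum_prod c c' h3 h3', rfl⟩ <;>
  · simp only [ev1, ev2]
    rw [Finset.sum_mul_sum, Fintype.sum_prod_type]
    exact Finset.sum_congr rfl fun _ _ => Finset.sum_congr rfl fun _ _ => by ring

theorem Tn1.mul2 {v y n t v' y' n' t' : ℤ} (h : Tn1 val v y n t) (h' : Tn2 val v' y' n' t') :
    Tn3 val (v * v') (y * y') (n * n') (t * t') := by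
  obtain ⟨c, rfl, rfl, h3, rfl⟩ := h
  obtain ⟨c', rfl, rfl, h3', rfl⟩ := h'
  refine ⟨fun p => c p.1 * c' p.2, ?_, ?_, abs_sum_prod c c' h3 h3', rfl⟩ <;>
  · simp only [ev1, ev3, ev2]
    rw [Finset.sum_mul_sum, Fintype.sum_prod_type]
    exact Finset.sum_congr rfl fun _ _ => Finset.sum_congr rfl fun _ _ => by ring

theorem Tn1.unit (i : Fin 11) (hi : i ≠ 10) : Tn1 val (Ez i) (val i) 1 0 := by
  refine ⟨Pi.single i 1, ?_, ?_, ?_, ?_⟩
  · simp [ev1, Pi.single_apply]
  · simp [ev1, Pi.single_apply]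
  · simp [Pi.single_apply, apply_ite]
  · simp [hi]

theorem Tn1.top (h : val 10 = 0) : Tn1 val (Ez 10) 0 1 1 := by
  refine ⟨Pi.single 10 1, ?_, ?_, ?_, ?_⟩
  · simp [ev1, Pi.single_apply]
  · simp [ev1, Pi.single_apply, h]
  · simp [Pi.single_apply, apply_ite]
  · simp

theorem Tn1.congr {v y n t v' y' n' t' : ℤ} (h : Tn1 val v y n t) (e1 : v = v') (e2 : y = y')
    (e3 : n ≤ n') (e4 : t = t') : Tn1 val v' y' n' t' := by
  obtain ⟨c, h1, h2, h3, h4⟩ := h
  exact ⟨c, e1 ▸ h1, e2 ▸ h2, h3.trans e3, e4 ▸ h4⟩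

theorem Tn2.congr {v y n t v' y' n' t' : ℤ} (h : Tn2 val v y n t) (e1 : v = v') (e2 : y = y')
    (e3 : n ≤ n') (e4 : t = t') : Tn2 val v' y' n' t' := by
  obtain ⟨c, h1, h2, h3, h4⟩ := h
  exact ⟨c, e1 ▸ h1, e2 ▸ h2, h3.trans e3, e4 ▸ h4⟩

theorem Tn3.congr {v y n t v' y' n' t' : ℤ} (h : Tn3 val v y n t) (e1 : v = v') (e2 : y = y')
    (e3 : n ≤ n') (e4 : t = t') : Tn3 val v' y' n' t' := by
  obtain ⟨c, h1, h2, h3, h4⟩ := h
  exact ⟨c, e1 ▸ h1, e2 ▸ h2, h3.trans e3, e4 ▸ h4⟩

def slot (p : Fin 11 × Fin 11 × Fin 11) : ℕ := ex p.1 + (ex p.2.1 + ex p.2.2)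

theorem Ez_mul (p : Fin 11 × Fin 11 × Fin 11) :
    Ez p.1 * (Ez p.2.1 * Ez p.2.2) = 2 ^ (80 * slot p) := by
  simp only [Ez, slot, mul_add, pow_add]

theorem slot_le : ∀ p : Fin 11 × Fin 11 × Fin 11, slot p ≤ 1560 ∧
    (p ≠ (10, 10, 10) → slot p ≤ 1559) := by decide +kernel

/-- the top coefficient is controlled by the size of the packed number -/
theorem Tn3.top_le {v y t : ℤ} (h : Tn3 val v y (8 * t) t) (A : ℤ) (k : ℕ) (hk : k = 80 * 1559)
    (hA : A = 2 ^ k) (hv : v < A * 2 ^ 154) : t ≤ 2 ^ 75 := by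
  obtain ⟨q, rfl, -, h3, rfl⟩ := h
  have hApos : 0 < A := by rw [hA]; positivity
  have h1 : ∀ p, q p * (Ez p.1 * (Ez p.2.1 * Ez p.2.2)) ≥
      -(|q p| * A) + (if p = (10, 10, 10) then q p * (A * 2 ^ 80) else 0) := by
    intro p
    rw [Ez_mul]
    split_ifs with hp
    · subst hp
      have : (2 : ℤ) ^ (80 * slot (10, 10, 10)) = A * 2 ^ 80 := by
        rw [hA, ← pow_add, hk]; rfl
      rw [this]
      have := mul_nonneg (abs_nonneg (q (10, 10, 10))) hApos.le
      linarith
    · have h2 : (2 : ℤ) ^ (80 * slot p) ≤ A := by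
        rw [hA]
        exact pow_le_pow_right₀ (by norm_num) (by have := (slot_le p).2 hp; omega)
      have h3 : (0 : ℤ) < 2 ^ (80 * slot p) := by positivity
      have h4 := neg_abs_le (q p)
      have h5 := abs_nonneg (q p)
      nlinarith
  have h2 : ev3 Ez q ≥ -((∑ p, |q p|) * A) + q (10, 10, 10) * (A * 2 ^ 80) := by
    have := Finset.sum_le_sum (s := Finset.univ) fun p _ => h1 p
    rw [Finset.sum_add_distrib, Finset.sum_neg_distrib, ← Finset.sum_mul] at this
    simpa [ev3] using this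
  by_contra hc
  have hc' : 2 ^ 75 < q (10, 10, 10) := not_le.1 hc
  have h4 : (∑ p, |q p|) * A ≤ 8 * q (10, 10, 10) * A := mul_le_mul_of_nonneg_right h3 hApos.le
  have h5 : 2 ^ 75 * A < q (10, 10, 10) * A := mul_lt_mul_of_pos_right hc' hApos
  nlinarith

end

theorem land_split (g a b x y : ℕ) (ha : a < 2 ^ g) (hb : b < 2 ^ g) :
    (a + 2 ^ g * x) &&& (b + 2 ^ g * y) = (a &&& b) + 2 ^ g * (x &&& y) := by
  have hp : 0 < 2 ^ g := by positivity
  rw [← Nat.mod_add_div ((a + 2 ^ g * x) &&& (b + 2 ^ g * y)) (2 ^ g), Nat.and_mod_two_pow,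
    Nat.and_div_two_pow, Nat.add_mul_mod_self_left, Nat.add_mul_mod_self_left,
    Nat.mod_eq_of_lt ha, Nat.mod_eq_of_lt hb, Nat.add_mul_div_left _ _ hp,
    Nat.add_mul_div_left _ _ hp, Nat.div_eq_of_lt ha, Nat.div_eq_of_lt hb, zero_add, zero_add]

theorem land_digit (W k : ℕ) : W &&& ((2 ^ 46 - 1) * 2 ^ k) = W / 2 ^ k % 2 ^ 46 * 2 ^ k := by
  have h := land_split k (W % 2 ^ k) 0 (W / 2 ^ k) (2 ^ 46 - 1) (Nat.mod_lt _ (by positivity))
    (by positivity)
  rw [Nat.mod_add_div, zero_add, Nat.and_zero, zero_add, Nat.and_two_pow_sub_one_eq_mod] at h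
  rw [mul_comm, h, mul_comm]

def nest (f : ℕ → ℕ) : List ℕ → ℕ → ℕ
  | [], i => f i
  | g :: l, i => f i + 2 ^ g * nest f l (i + 1)

theorem nest_mul (W : ℕ) : ∀ l i, W * nest (fun _ => 1) l i = nest (fun _ => W) l i := by
  intro l
  induction l with
  | nil => intro i; simp [nest]
  | cons g l ih => intro i; simp only [nest]; rw [← ih]; ring

theorem nest_land (f h : ℕ → ℕ) (m : ℕ) : ∀ (l : List ℕ) i, (∀ g ∈ l, m ≤ g) →
    (∀ j, j < i + l.length → f j < 2 ^ m ∧ h j < 2 ^ m) →
    nest f l i &&& nest h l i = nest (fun j => f j &&& h j) l i := by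
  intro l
  induction l with
  | nil => intro i _ _; rfl
  | cons g l ih =>
    intro i hg hf
    simp only [nest]
    have h1 := hf i (by simp)
    have h2 : 2 ^ m ≤ 2 ^ g := Nat.pow_le_pow_right (by norm_num) (hg g (by simp))
    rw [land_split g _ _ _ _ (by omega) (by omega), ih (i + 1) (fun g' h' => hg g' (by simp [h']))
      (fun j hj => hf j (by simp only [List.length_cons]; omega))]

theorem nest_sum (f : ℕ → ℕ) : ∀ (l : List ℕ) i,
    nest f l i = ∑ j ∈ range (l.length + 1), f (i + j) * 2 ^ (l.take j).sum := by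
  intro l
  induction l with
  | nil => intro i; simp [nest]
  | cons g l ih =>
    intro i
    rw [nest, ih, List.length_cons, Finset.sum_range_succ' _ (l.length + 1), add_comm, Finset.mul_sum]
    simp only [List.take_succ_cons, List.sum_cons, List.take_zero, List.sum_nil, pow_zero, mul_one,
      add_zero, pow_add]
    congr 1
    refine Finset.sum_congr rfl fun j _ => ?_
    rw [add_assoc, add_comm 1 j]; ring

def gaps : List ℕ := [594, 3634, 3794, 4674, 10674, 4354, 6114, 3474, 2914, 914]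
def cSP : ℕ := nest (fun _ => 1) gaps 0
def cMK : ℕ := nest (fun i => (2 ^ 46 - 1) * 2 ^ (46 * i)) gaps 0
def En (i : Fin 11) : ℕ := 2 ^ (80 * ex i)

theorem En_cast (i : Fin 11) : (En i : ℤ) = Ez i := by simp [En, Ez]

theorem gaps_pos : ∀ j : Fin 11, 46 * j.val + (gaps.take j).sum = 80 * ex j := by decide +kernel

theorem spread (W : ℕ) (hW : W < 2 ^ 506) :
    Nat.land (Nat.mul W cSP) cMK = ∑ i : Fin 11, W / 2 ^ (46 * i.val) % 2 ^ 46 * En i := by
  have e : Nat.land (Nat.mul W cSP) cMK = (W * cSP) &&& cMK := rfl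
  rw [e, cSP, cMK, nest_mul, nest_land _ _ 506 gaps 0 (by decide) ?_, nest_sum]
  · have : gaps.length + 1 = 11 := rfl
    rw [this, Finset.sum_range]
    refine Finset.sum_congr rfl fun j _ => ?_
    rw [zero_add, land_digit, En, ← gaps_pos, pow_add, mul_assoc]
  · intro j hj
    have hj' : j < 10 := hj
    refine ⟨hW, ?_⟩
    calc (2 ^ 46 - 1) * 2 ^ (46 * j) < 2 ^ 46 * 2 ^ (46 * j) :=
          Nat.mul_lt_mul_of_pos_right (by norm_num) (by positivity)
      _ = 2 ^ (46 + 46 * j) := (pow_add _ _ _).symm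
      _ ≤ 2 ^ 506 := Nat.pow_le_pow_right (by norm_num) (by omega)

def cOff : ℕ := nat_lit 0x8000000000020000000000080000000000200000000000800000000002000000000008000000000020000000000080000000000200000000000
def eSig : ℕ := En 0 + En 1 + En 2 + En 3 + En 4 + En 5 + En 6 + En 7 + En 8 + En 9
def cC : ℕ := 2 ^ 45 * eSig

theorem cOff_eq : (cOff : ℤ) = ∑ i : Fin 10, 2 ^ 45 * 2 ^ (46 * i.val) := by decide +kernel

theorem eSig_cast : (eSig : ℤ) = ∑ i : Fin 10, Ez i.castSucc := by
  simp only [eSig, Nat.cast_add, En_cast, Fin.sum_univ_succ, Fin.sum_univ_zero, add_zero, add_assoc]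
  rfl

/-- Kronecker form of a packed linear form -/
def conv (a : ℕ) : ℕ := Nat.sub (Nat.land (Nat.mul (Nat.add a cOff) cSP) cMK) cC

theorem Ez_pos (i : Fin 11) : 0 < Ez i := by unfold Ez; positivity

theorem Ez_le : ∀ i : Fin 11, Ez i ≤ Ez 10 := by
  intro i
  unfold Ez
  refine pow_le_pow_right₀ (by norm_num) ?_
  revert i; decide

section
variable {G : Type} [AddCommGroup G]

def vl (X : Fin 10 → G) (st : G →+ ℤ) : Fin 11 → ℤ :=
  fun i => if h : i.val < 10 then st (X ⟨i.val, h⟩) else 0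

theorem vl_cast (X : Fin 10 → G) (st : G →+ ℤ) (i : Fin 10) : vl X st i.castSucc = st (X i) := by
  simp [vl]

theorem vl_last (X : Fin 10 → G) (st : G →+ ℤ) : vl X st 10 = 0 := by
  simp [vl]

theorem conv_sound {X : Fin 10 → G} (st : G →+ ℤ) {a : ℕ} {x : G} (h : Rep X a x)
    (ha : a < 2 ^ 487) : ∃ t, Tn1 (vl X st) (conv a) (st x) (2 * t) t := by
  obtain ⟨c, n, e1, e2, e3⟩ := h
  have hl := abs_le.1 (low_bound c n e2)
  have ha' : (a : ℤ) < 2 ^ 487 := by exact_mod_cast ha
  have hn : n ≤ 2 ^ 27 := by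
    generalize (∑ i, c i * 2 ^ (46 * i.val)) = L at *
    omega
  have hW : ((a + cOff : ℕ) : ℤ)
      = n * 2 ^ 460 + ∑ i : Fin 10, (2 ^ 45 + 1 * c i) * 2 ^ (46 * i.val) := by
    rw [Nat.cast_add, e1, cOff_eq]
    simp only [add_mul, Finset.sum_add_distrib, one_mul]; ring
  have hd := fun i => Rep.digits (a := 0) c n 1 (a + cOff) n (by simp) e2 (by omega) (by omega) hW rfl i
  have hO : 2 ^ 459 ≤ cOff ∧ cOff < 2 ^ 459 + 2 ^ 458 := by decide +kernel
  have htop : (a + cOff) / 2 ^ 460 % 2 ^ 46 = n := by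
    have : (a + cOff) / 2 ^ 460 = n := by
      clear hW hd
      generalize (∑ i, c i * 2 ^ (46 * i.val)) = L at *
      omega
    rw [this]; omega
  have hs := spread (a + cOff) (by omega)
  have hz : ((Nat.land (Nat.mul (Nat.add a cOff) cSP) cMK : ℕ) : ℤ)
      = (∑ i : Fin 10, c i * Ez i.castSucc + n * Ez 10) + cC := by
    rw [Nat.add_eq, hs, Nat.cast_sum, Fin.sum_univ_castSucc, cC, Nat.cast_mul (2 ^ 45), eSig_cast,
      Finset.mul_sum]
    have : ∀ i : Fin 10, (((a + cOff) / 2 ^ (46 * i.castSucc.val) % 2 ^ 46 * En i.castSucc : ℕ) : ℤ)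
        = c i * Ez i.castSucc + (2 ^ 45 : ℕ) * Ez i.castSucc := by
      intro i
      rw [Nat.cast_mul, En_cast, Fin.val_castSucc, hd i]; push_cast; ring
    rw [Finset.sum_congr rfl fun i _ => this i, Finset.sum_add_distrib]
    have h2 : 46 * (Fin.last 10).val = 460 := rfl
    rw [h2, htop, Nat.cast_mul, En_cast]
    have : (Fin.last 10) = (10 : Fin 11) := rfl
    rw [this]; ring
  have hnn : 0 ≤ ∑ i : Fin 10, c i * Ez i.castSucc + n * Ez 10 := by
    have h1 : ∀ i : Fin 10, -(|c i| * Ez 10) ≤ c i * Ez i.castSucc := by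
      intro i
      have := Ez_le i.castSucc
      have := Ez_pos i.castSucc
      have := neg_abs_le (c i)
      have := abs_nonneg (c i)
      nlinarith
    have h2 := Finset.sum_le_sum (s := Finset.univ) fun i _ => h1 i
    rw [Finset.sum_neg_distrib, ← Finset.sum_mul] at h2
    have h3 := mul_le_mul_of_nonneg_right e2 (Ez_pos 10).le
    linarith
  have hc : (conv a : ℤ) = ∑ i : Fin 10, c i * Ez i.castSucc + n * Ez 10 := by
    unfold conv
    rw [Nat.sub_eq, Nat.cast_sub (by zify; rw [hz]; linarith), hz]; ring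
  refine ⟨n, Fin.snoc (α := fun _ => ℤ) c n, ?_, ?_, ?_, ?_⟩
  · rw [hc, ev1, Fin.sum_univ_castSucc (n := 10)]; simp only [Fin.snoc_castSucc, Fin.snoc_last]; rfl
  · rw [ev1, Fin.sum_univ_castSucc]
    simp only [Fin.snoc_castSucc, Fin.snoc_last, vl_cast]
    have : vl X st (Fin.last 10) = 0 := vl_last X st
    rw [this, e3, map_sum]; simp
  · rw [Fin.sum_univ_castSucc]
    simp only [Fin.snoc_castSucc, Fin.snoc_last]
    rw [Nat.abs_cast]; linarith
  · exact (Fin.snoc_last (α := fun _ => ℤ) (n : ℤ) c).symm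

end

def N1 (val : Fin 11 → ℤ) (v : ℕ) : Prop := ∃ y t, Tn1 val v y (2 * t) t ∧ 0 ≤ y
def N2 (val : Fin 11 → ℤ) (v : ℕ) : Prop := ∃ y t, Tn2 val v y (4 * t) t ∧ 0 ≤ y
def N3 (val : Fin 11 → ℤ) (v : ℕ) : Prop := ∃ y t, Tn3 val v y (8 * t) t ∧ 0 ≤ y

section
variable {val : Fin 11 → ℤ}

theorem N1.add {a b : ℕ} (h : N1 val a) (h' : N1 val b) : N1 val (Nat.add a b) := by
  obtain ⟨y, t, h1, h2⟩ := h
  obtain ⟨y', t', h1', h2'⟩ := h'
  exact ⟨y + y', t + t', (h1.add h1').congr (by simp) rfl (by linarith) rfl, by linarith⟩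

theorem N2.add {a b : ℕ} (h : N2 val a) (h' : N2 val b) : N2 val (Nat.add a b) := by
  obtain ⟨y, t, h1, h2⟩ := h
  obtain ⟨y', t', h1', h2'⟩ := h'
  exact ⟨y + y', t + t', (h1.add h1').congr (by simp) rfl (by linarith) rfl, by linarith⟩

theorem N3.add {a b : ℕ} (h : N3 val a) (h' : N3 val b) : N3 val (Nat.add a b) := by
  obtain ⟨y, t, h1, h2⟩ := h
  obtain ⟨y', t', h1', h2'⟩ := h'
  exact ⟨y + y', t + t', (h1.add h1').congr (by simp) rfl (by linarith) rfl, by linarith⟩

theorem N1.smul (k : ℕ) {a : ℕ} (h : N1 val a) : N1 val (Nat.mul k a) := by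
  obtain ⟨y, t, h1, h2⟩ := h
  exact ⟨k * y, k * t, (h1.smul k).congr (by simp) rfl (by rw [Nat.abs_cast]; linarith) rfl,
    by positivity⟩

theorem N1.mul1 {a b : ℕ} (h : N1 val a) (h' : N1 val b) : N2 val (Nat.mul a b) := by
  obtain ⟨y, t, h1, h2⟩ := h
  obtain ⟨y', t', h1', h2'⟩ := h'
  exact ⟨y * y', t * t', (h1.mul1 h1').congr (by simp) rfl (by linarith) rfl, by positivity⟩

theorem N1.mul2 {a b : ℕ} (h : N1 val a) (h' : N2 val b) : N3 val (Nat.mul a b) := by
  obtain ⟨y, t, h1, h2⟩ := h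
  obtain ⟨y', t', h1', h2'⟩ := h'
  exact ⟨y * y', t * t', (h1.mul2 h1').congr (by simp) rfl (by linarith) rfl, by positivity⟩

theorem N2.zero : N2 val (nat_lit 0) :=
  ⟨0, 0, ⟨fun _ => 0, by simp [ev2], by simp [ev2], by simp, rfl⟩, le_rfl⟩

theorem N3.zero : N3 val (nat_lit 0) :=
  ⟨0, 0, ⟨fun _ => 0, by simp [ev3], by simp [ev3], by simp, rfl⟩, le_rfl⟩

def cDec : ℕ := nat_lit 0xaaa000000000000000000000000000000000aa9000000000000000000000000000000000a99000000000000000000000000000000000999000000000000000000000000000000000000aa8000000000000000000000000000000000a98000000000000000000000000000000000998000000000000000000000000000000000000000000000000000000000aa7000000000000a88000000000000000000a97000000000000988000000000000000000997000000000000000000000000000000000000000000000000000000000000000000000000a87000000000000888000000000000000000987000000000000000000000000000000000000000000000aa6000000000000000000000000000000000a96000000000a770000000000008870000009960000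00000977000000000000000000000000000000000000000000000000000000000000a86000000000000000aa5000000000000000986000000000877000a95000000000000000000000000000000000995000000000000000000000000000000000000000a76000000000000886000000000000000a85976000000000777000000000000000000985000000000000000000000000000000000000000000000000000000000000000000000000000876000000000000000a75000000000000885000000000000000000975000000000000000000000000000a66000000000000000000000000000000000966000000000776000000aa4000000000000000000000875000000000a94000000000000000000000000000000000994000000000000000866000000000000000a65000000000000000000000000000000000965a84000000775000000000000000000aa3000984000000000000000000000000000a93000000766000000000000000000000000993000865000000000000000a55000a74000000000000884000000000000955000974000aa2a83000000000000000000000000000000a92983000000000000000000000000765000992000000000000000000000000855000874000000000000000000000000666a73aa1000000a82883000000000aa000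0000973a91000000982000a64000000a90000000000991000000000000964000755990774000000000000000000000000000000000000000a72873a81000000882665000000000a80000972000981000000000000864000000980000000a54000000000a63000000000000000000000954000000000963000000000773a71000000872000881000000a70000000000971880000655000764000000970000000000000000000000854000000a62863000000000000000a53000000000000962000000000772000871953000000000000000000870000000000000000000000000000000000000555000754000000000763a61000000862000000000000a60a52853000961000000000771664000000960952000000770000000000000000000000000000000000a44000000000000000000000000000000762944861000000000000753a51000860852000000000000a50000000000951000000000000654000000950663000000000000000000000000844000000000000000000000761000a43000000000000000760752000851000000943000000000000850000000000000000000000000000000000662000000554000744000653000000000000000000000000000000000a42843000000000751000000000000000a33942750000000000000000000000000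000933000000000661000000000000000000000660652000000000000000000553000743a41000000842000000000000a40000000000941a32833000000644000000940000000000000932000000000000000000000000000000651000000000000000000000650552000742000841000000000000000000000840733a31000a22832000000000000a30000000000931544922000000643000000930000000000000000000000000000000000551000741000000000000000550000740000000000000732a21831000822000000000000a20830000000921000000000000642000000920000000000543000000000633000000000000000000000000000000000000000000000000731a11722000821000000000730a10000000820911000000000a006410000009100000000000006405420009000006320000000000000000005330000000000000000000000000007210008110000000004440007200008100000000000000000000008000000000000000000005410000000006310006220005400000000006305320000000000000000000007110000000000000000000007100000000000000000000007000000004430000000000000000000000000000000006210000000000000000005316205220000000000000005300000000000000000000000000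00000000000000000000000000000000000442000000000000000000000000000611433000000000000000000610521000000000000000000600520000000000000000000000000000000000000000000000000000000441000000000000000000000440000000000000432000000000000000511000000000000333000000510000000000000000000000500000000000000000000000000000000000000000000000000000000000000000000000431000422000000000000000430000000000000332000000000000000000000000000000000000000000000000000000000000000000000000000000000000000000000000000000421000000000000000000000420000000331000322000000000000000330000000000000000000000000000000000000000000000000000000000000000000000000000000411000000000000000000000410000000000000321000222400000000000000320000000000000000000000000000000000000000000000000000000000000000000000000000000000000000000000000000000000000000311000221000000000000000310000220000000000000000300000000000000000000000000000000000000000000000000000000000000000000000000000000000000000000000211000000000000000000000210000000000000000000000200000000000000000000000000000000000000000000000000000000000000000000000000000000000000000111000000000000000000000110000000000000000000000100000000000000000000000000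

def vn (val : Fin 11 → ℤ) (n : ℕ) : ℤ := if h : n < 11 then val ⟨n, h⟩ else 0

def monv (val : Fin 11 → ℤ) (e : ℕ) : ℤ :=
  vn val (cDec / 2 ^ (12 * e) % 16) * (vn val (cDec / 2 ^ (12 * e + 4) % 16)
    * vn val (cDec / 2 ^ (12 * e + 8) % 16))

def prm (a b c x y z : ℕ) : Bool :=
  (a == x && b == y && c == z) || (a == x && b == z && c == y) || (a == y && b == x && c == z) ||
  (a == y && b == z && c == x) || (a == z && b == x && c == y) || (a == z && b == y && c == x)

theorem dec_ok : ∀ x y z : Fin 11, prm (cDec / 2 ^ (12 * slot (x, y, z)) % 16)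
    (cDec / 2 ^ (12 * slot (x, y, z) + 4) % 16) (cDec / 2 ^ (12 * slot (x, y, z) + 8) % 16)
    x y z = true := by decide +kernel

theorem vn_fin (x : Fin 11) : vn val x = val x := by simp [vn]

theorem monv_slot (p : Fin 11 × Fin 11 × Fin 11) :
    monv val (slot p) = val p.1 * (val p.2.1 * val p.2.2) := by
  obtain ⟨x, y, z⟩ := p
  have := dec_ok x y z
  unfold monv
  simp only [prm, Bool.or_eq_true, Bool.and_eq_true, beq_iff_eq] at this
  rcases this with ((((h | h) | h) | h) | h) | h <;> rw [h.1.1, h.1.2, h.2, vn_fin, vn_fin, vn_fin] <;>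
    ring

def cOne : ℕ := (2 ^ (80 * 1561) - 1) / (2 ^ 80 - 1)
def cH3 : ℕ := 2 ^ 79 * cOne
def eSig3 : ℕ := eSig * (eSig * eSig)
def cM3 : ℕ := Nat.land (eSig3 + cH3 - cOne) cH3

theorem cOne_eq : cOne = ∑ e ∈ range 1561, 2 ^ (80 * e) := by
  have h := Nat.geomSum_eq (m := 2 ^ 80) (by norm_num) 1561
  simp only [← pow_mul] at h
  rw [h, cOne]

theorem cM3_bit : ∀ x y z : Fin 10,
    cM3.testBit (80 * slot (x.castSucc, y.castSucc, z.castSucc) + (80 - 1)) = true := by
  decide +kernel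

theorem swar3 (h0 : ∀ i, 0 ≤ val i) (h10 : val 10 = 0) {z y n t : ℤ} (h : Tn3 val z y n t)
    (hn : n < 2 ^ 79) {V : ℕ} (hV : (V : ℤ) = cH3 + z) (hM : Nat.land V cM3 = cM3) : 0 ≤ y := by
  obtain ⟨q, rfl, rfl, h3, -⟩ := h
  let r : ℕ → ℤ := fun e => ∑ p ∈ Finset.univ.filter (fun p => slot p = e), q p
  have hmap : ∀ p ∈ (Finset.univ : Finset (Fin 11 × Fin 11 × Fin 11)), slot p ∈ range 1561 :=
    fun p _ => Finset.mem_range.2 (by have := (slot_le p).1; omega)
  have key : ∀ F : ℕ → ℤ, ∑ p, q p * F (slot p) = ∑ e ∈ range 1561, r e * F e := by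
    intro F
    rw [← Finset.sum_fiberwise_of_maps_to hmap]
    refine Finset.sum_congr rfl fun e _ => ?_
    rw [Finset.sum_mul]
    exact Finset.sum_congr rfl fun p hp => by rw [(Finset.mem_filter.1 hp).2]
  have hr : ∀ e, |r e| < 2 ^ 79 := by
    intro e
    calc |r e| ≤ ∑ p ∈ Finset.univ.filter (fun p => slot p = e), |q p| :=
          Finset.abs_sum_le_sum_abs _ _
      _ ≤ ∑ p, |q p| := Finset.sum_le_sum_of_subset_of_nonneg (Finset.filter_subset _ _)
          fun _ _ _ => abs_nonneg _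
      _ < 2 ^ 79 := by linarith
  let d : ℕ → ℕ := fun e => (2 ^ 79 + r e).toNat
  have hd : ∀ e, (d e : ℤ) = 2 ^ 79 + r e := fun e =>
    Int.toNat_of_nonneg (by have := abs_lt.1 (hr e); linarith)
  have hz : ev3 Ez q = ∑ e ∈ range 1561, r e * 2 ^ (80 * e) := by
    rw [← key (fun e => 2 ^ (80 * e))]
    exact Finset.sum_congr rfl fun p _ => by rw [Ez_mul]
  have hV' : V = ∑ e ∈ range 1561, d e * 2 ^ (80 * e) := by
    zify
    rw [hV, hz, cH3, cOne_eq]
    push_cast
    rw [Finset.mul_sum, ← Finset.sum_add_distrib]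
    exact Finset.sum_congr rfl fun e _ => by rw [hd]; ring
  have hlt : ∀ e, e < 1561 → d e < 2 ^ 80 := by
    intro e _
    have := abs_lt.1 (hr e)
    zify; rw [hd]; norm_num at this ⊢; linarith
  have hy : ev3 val q = ∑ e ∈ range 1561, r e * monv val e := by
    rw [← key (monv val)]
    exact Finset.sum_congr rfl fun p _ => by rw [monv_slot]
  rw [hy]
  refine Finset.sum_nonneg fun e he => ?_
  by_cases hp : ∃ p, slot p = e
  swap
  · have : r e = 0 := Finset.sum_eq_zero fun p hp' => absurd ⟨p, (Finset.mem_filter.1 hp').2⟩ hp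
    rw [this, zero_mul]
  obtain ⟨⟨x, y, z⟩, rfl⟩ := hp
  rw [monv_slot]
  induction x using Fin.lastCases with
  | last => simp [h10]
  | cast x =>
  induction y using Fin.lastCases with
  | last => simp [h10]
  | cast y =>
  induction z using Fin.lastCases with
  | last => simp [h10]
  | cast z =>
  have hb := top_bit 80 V _ (by norm_num) (testBit_of_land hM (cM3_bit x y z))
  rw [hV', digit_sum 80 1561 d hlt _ (Finset.mem_range.1 he)] at hb
  have h2 : (2 : ℤ) ^ 79 ≤ 2 ^ 79 + r (slot (x.castSucc, y.castSucc, z.castSucc)) := by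
    rw [← hd]; exact_mod_cast hb
  exact mul_nonneg (by linarith) (mul_nonneg (h0 _) (mul_nonneg (h0 _) (h0 _)))

def eMu3 : ℕ := En 9 * (En 9 * En 9)

def eDel : ℕ :=
  En 0 * (En 3 * En 6) + En 0 * (En 3 * En 7) + En 0 * (En 3 * En 8) + En 0 * (En 4 * En 6)
  + En 0 * (En 4 * En 7) + En 0 * (En 4 * En 8) + En 0 * (En 5 * En 6) + En 0 * (En 5 * En 7)
  + En 1 * (En 3 * En 6) + En 1 * (En 3 * En 7) + En 1 * (En 3 * En 8) + En 1 * (En 5 * En 6)
  + En 2 * (En 3 * En 6) + En 2 * (En 3 * En 8) + En 2 * (En 4 * En 6) + En 2 * (En 5 * En 6)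

theorem unit3 (i j k : Fin 11) (hi : i ≠ 10) (hj : j ≠ 10) (hk : k ≠ 10) :
    Tn3 val ((En i * (En j * En k) : ℕ) : ℤ) (val i * (val j * val k)) 1 0 :=
  ((Tn1.unit i hi).mul2 ((Tn1.unit j hj).mul1 (Tn1.unit k hk))).congr
    (by simp only [Nat.cast_mul, En_cast]) rfl (by norm_num) (by norm_num)

theorem eDel_tn : Tn3 val eDel (Del fun i => val i.castSucc) 16 0 := by
  have h := (((((((((((((((unit3 (val := val) 0 3 6 (by decide) (by decide) (by decide)).add
    (unit3 0 3 7 (by decide) (by decide) (by decide))).add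
    (unit3 0 3 8 (by decide) (by decide) (by decide))).add
    (unit3 0 4 6 (by decide) (by decide) (by decide))).add
    (unit3 0 4 7 (by decide) (by decide) (by decide))).add
    (unit3 0 4 8 (by decide) (by decide) (by decide))).add
    (unit3 0 5 6 (by decide) (by decide) (by decide))).add
    (unit3 0 5 7 (by decide) (by decide) (by decide))).add
    (unit3 1 3 6 (by decide) (by decide) (by decide))).add
    (unit3 1 3 7 (by decide) (by decide) (by decide))).add
    (unit3 1 3 8 (by decide) (by decide) (by decide))).add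
    (unit3 1 5 6 (by decide) (by decide) (by decide))).add
    (unit3 2 3 6 (by decide) (by decide) (by decide))).add
    (unit3 2 3 8 (by decide) (by decide) (by decide))).add
    (unit3 2 4 6 (by decide) (by decide) (by decide))).add
    (unit3 2 5 6 (by decide) (by decide) (by decide))
  refine h.congr ?_ ?_ (by norm_num) (by norm_num)
  · simp only [eDel, Nat.cast_add]
  · simp only [Del, mul_assoc]; rfl

theorem eSig_tn : Tn1 val eSig
    (val 0 + val 1 + val 2 + val 3 + val 4 + val 5 + val 6 + val 7 + val 8 + val 9) 10 0 := by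
  have h := (((((((((Tn1.unit (val := val) 0 (by decide)).add (Tn1.unit 1 (by decide))).add
    (Tn1.unit 2 (by decide))).add (Tn1.unit 3 (by decide))).add (Tn1.unit 4 (by decide))).add
    (Tn1.unit 5 (by decide))).add (Tn1.unit 6 (by decide))).add (Tn1.unit 7 (by decide))).add
    (Tn1.unit 8 (by decide))).add (Tn1.unit 9 (by decide))
  refine h.congr ?_ rfl (by norm_num) (by norm_num)
  simp only [eSig, Nat.cast_add, En_cast]

theorem Tn3.top_le' {T : ℕ} {y t : ℤ} (h : Tn3 val T y (8 * t) t) (k m : ℕ) (hk : k = 80 * 1559)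
    (hm : m = k + 154) (hT : Nat.shiftRight T m = 0) : t ≤ 2 ^ 75 := by
  refine h.top_le (2 ^ k) k hk rfl ?_
  rw [Nat.shiftRight_eq, Nat.shiftRight_eq_div_pow, Nat.div_eq_zero_iff_lt (by positivity)] at hT
  rw [← pow_add, ← hm]
  exact_mod_cast hT

theorem eMu3_tn : Tn3 val eMu3 (val 9 * (val 9 * val 9)) 1 0 :=
  (unit3 9 9 9 (by decide) (by decide) (by decide)).congr (by rw [eMu3]) rfl le_rfl rfl

theorem eSig3_cast : (eSig3 : ℤ) = eSig * (eSig * eSig) := by simp only [eSig3, Nat.cast_mul]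

theorem cM3_ne : cM3 ≠ 0 := by
  intro h
  have := cM3_bit 0 0 0
  rw [h] at this
  simp at this

attribute [irreducible] eMu3 eDel eSig3 cM3 cH3 cOne eSig cC cSP cMK En

/-- conditional, kept behind a constant -/
noncomputable def cnd (b : Bool) (x y : ℕ) : ℕ := Bool.rec (motive := fun _ => ℕ) y x b

theorem cnd_ne {b : Bool} {x y : ℕ} (h : cnd b x y ≠ 0) :
    (b = true ∧ x ≠ 0) ∨ (b = false ∧ y ≠ 0) := by
  cases b
  · exact Or.inr ⟨rfl, h⟩
  · exact Or.inl ⟨rfl, h⟩

theorem cnd_and {b : Bool} {x : ℕ} (h : cnd b x (nat_lit 0) ≠ 0) : b = true ∧ x ≠ 0 :=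
  (cnd_ne h).resolve_right fun h => h.2 rfl

theorem cnd_not {b : Bool} {x : ℕ} (h : cnd b (nat_lit 0) x ≠ 0) : b = false ∧ x ≠ 0 :=
  (cnd_ne h).resolve_left fun h => h.2 rfl

/-- the final test of a degree three certificate -/
noncomputable def rfin (D S K T r : ℕ) : ℕ :=
  cnd (Nat.beq (Nat.shiftRight T (nat_lit 124874)) (nat_lit 0))
    (cnd (Nat.beq (Nat.land (Nat.sub
      (Nat.add (Nat.add (Nat.mul (Nat.mul (Nat.mul S 21) D) eMu3) (Nat.mul K eSig3)) cH3)
      (Nat.add (Nat.add T (Nat.mul (Nat.mul 250 S) eDel)) (Nat.mul (Nat.mul 64 K) eMu3))) cM3) cM3)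
      r (nat_lit 0)) (nat_lit 0)

theorem rfin_sound (h0 : ∀ i, 0 ≤ val i) (h10 : val 10 = 0) {D S K T r : ℕ} (hD : D ≤ 11)
    (hS0 : 0 < S) (hS : S ≤ 2 ^ 60) (hK : K ≤ 2 ^ 60) (hT : N3 val T)
    (hs : val 0 + val 1 + val 2 + val 3 + val 4 + val 5 + val 6 + val 7 + val 8 + val 9
      ≤ 4 * val 9)
    (h : rfin D S K T r ≠ 0) : 250 * Del (fun i => val i.castSucc) ≤ 21 * D * val 9 ^ 3 := by
  unfold rfin at h
  obtain ⟨hb, h⟩ := cnd_and h
  obtain ⟨hm, -⟩ := cnd_and h
  obtain ⟨y, t, hT, hy⟩ := hT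
  have ht : t ≤ 2 ^ 75 := hT.top_le' 124720 _ rfl rfl (Nat.eq_of_beq_eq_true hb)
  have hm' := Nat.eq_of_beq_eq_true hm
  set σ := val 0 + val 1 + val 2 + val 3 + val 4 + val 5 + val 6 + val 7 + val 8 + val 9 with hσ
  have hmu : Tn3 val eMu3 (val 9 * (val 9 * val 9)) 1 0 := eMu3_tn
  have hsg : Tn3 val eSig3 (σ * (σ * σ)) 1000 0 :=
    (eSig_tn.mul2 (eSig_tn.mul1 eSig_tn)).congr eSig3_cast.symm rfl
      (by norm_num) (by norm_num)
  have hall := ((((hmu.smul (S * 21 * D)).add (hsg.smul K)).add (hT.smul (-1))).add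
    (eDel_tn.smul (-(250 * S)))).add (hmu.smul (-(64 * K)))
  have hS' : (S : ℤ) ≤ 2 ^ 60 := by exact_mod_cast hS
  have hK' : (K : ℤ) ≤ 2 ^ 60 := by exact_mod_cast hK
  have hD' : (D : ℤ) ≤ 11 := by exact_mod_cast hD
  have hS1 : (0 : ℤ) < S := by exact_mod_cast hS0
  have hfin := swar3 h0 h10 hall (by
      rw [abs_neg, abs_neg, abs_neg, abs_one, abs_of_nonneg (by positivity),
        abs_of_nonneg (by positivity), abs_of_nonneg (by positivity), abs_of_nonneg (by positivity)]
      have : (S : ℤ) * D ≤ 2 ^ 60 * 11 := mul_le_mul hS' hD' (by positivity) (by positivity)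
      linarith) (by
      generalize hA : Nat.add (Nat.add (Nat.mul (Nat.mul (Nat.mul S 21) D) eMu3) (Nat.mul K eSig3))
        cH3 = A at hm'
      generalize hB : Nat.add (Nat.add T (Nat.mul (Nat.mul 250 S) eDel))
        (Nat.mul (Nat.mul 64 K) eMu3) = B at hm'
      have hle : B ≤ A := by
        by_contra hc
        have : Nat.sub A B = 0 := Nat.sub_eq_zero_of_le (not_le.1 hc).le
        rw [this] at hm'
        exact cM3_ne (by rw [← hm']; exact Nat.zero_and _)
      rw [Nat.sub_eq, Nat.cast_sub hle, ← hA, ← hB]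
      simp only [Nat.add_eq, Nat.mul_eq]
      push_cast; ring) hm'
  have hσ0 : 0 ≤ σ := by
    have := h0 0; have := h0 1; have := h0 2; have := h0 3; have := h0 4; have := h0 5
    have := h0 6; have := h0 7; have := h0 8; have := h0 9
    rw [hσ]; linarith
  have hc : σ ^ 3 ≤ (4 * val 9) ^ 3 := pow_le_pow_left₀ hσ0 hs 3
  have hK0 : (0 : ℤ) ≤ K := by positivity
  have h5 := mul_le_mul_of_nonneg_left hc hK0
  have h6 : (S : ℤ) * (250 * Del (fun i => val i.castSucc)) ≤ S * (21 * D * val 9 ^ 3) := by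
    clear_value σ
    generalize Del (fun i => val i.castSucc) = Δ at hfin ⊢
    generalize val 9 = μ at hfin h5 ⊢
    linarith [hfin, h5, hy]
  exact le_of_mul_le_mul_left h6 hS1

end

/-- generator number `s / 512` of the table, in Kronecker form -/
def genS (T s : ℕ) : ℕ := conv (Nat.land (Nat.shiftRight T s) m512)

def tm3 (T m P : ℕ) : ℕ :=
  Nat.mul (Nat.land (Nat.shiftRight P (nat_lit 16)) m) (genS T (Nat.land P (nat_lit 65024)))

def gr1 (T m N : ℕ) : ℕ :=
  (tm3 T m (Nat.shiftRight N (nat_lit 1)))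

def gr2 (T m w N : ℕ) : ℕ :=
  (Nat.add (tm3 T m (Nat.shiftRight N (nat_lit 1)))
    (tm3 T m (Nat.shiftRight (Nat.shiftRight N (nat_lit 1)) w)))

def gr3 (T m w N : ℕ) : ℕ :=
  (Nat.add (tm3 T m (Nat.shiftRight N (nat_lit 1)))
    (Nat.add (tm3 T m (Nat.shiftRight (Nat.shiftRight N (nat_lit 1)) w))
    (tm3 T m (Nat.shiftRight (Nat.shiftRight (Nat.shiftRight N (nat_lit 1)) w) w))))

def gr4 (T m w N : ℕ) : ℕ :=
  (Nat.add (tm3 T m (Nat.shiftRight N (nat_lit 1)))
    (Nat.add (tm3 T m (Nat.shiftRight (Nat.shiftRight N (nat_lit 1)) w))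
    (Nat.add (tm3 T m (Nat.shiftRight (Nat.shiftRight (Nat.shiftRight N (nat_lit 1)) w) w))
    (tm3 T m (Nat.shiftRight (Nat.shiftRight (Nat.shiftRight (Nat.shiftRight N (nat_lit 1)) w) w) w)))))

def gr5 (T m w N : ℕ) : ℕ :=
  (Nat.add (tm3 T m (Nat.shiftRight N (nat_lit 1)))
    (Nat.add (tm3 T m (Nat.shiftRight (Nat.shiftRight N (nat_lit 1)) w))
    (Nat.add (tm3 T m (Nat.shiftRight (Nat.shiftRight (Nat.shiftRight N (nat_lit 1)) w) w))
    (Nat.add (tm3 T m (Nat.shiftRight (Nat.shiftRight (Nat.shiftRight (Nat.shiftRight N (nat_lit 1)) w) w) w))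
    (tm3 T m (Nat.shiftRight (Nat.shiftRight (Nat.shiftRight (Nat.shiftRight (Nat.shiftRight N (nat_lit 1)) w) w) w) w))))))

def gr6 (T m w N : ℕ) : ℕ :=
  (Nat.add (tm3 T m (Nat.shiftRight N (nat_lit 1)))
    (Nat.add (tm3 T m (Nat.shiftRight (Nat.shiftRight N (nat_lit 1)) w))
    (Nat.add (tm3 T m (Nat.shiftRight (Nat.shiftRight (Nat.shiftRight N (nat_lit 1)) w) w))
    (Nat.add (tm3 T m (Nat.shiftRight (Nat.shiftRight (Nat.shiftRight (Nat.shiftRight N (nat_lit 1)) w) w) w))
    (Nat.add (tm3 T m (Nat.shiftRight (Nat.shiftRight (Nat.shiftRight (Nat.shiftRight (Nat.shiftRight N (nat_lit 1)) w) w) w) w))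
    (tm3 T m (Nat.shiftRight (Nat.shiftRight (Nat.shiftRight (Nat.shiftRight (Nat.shiftRight (Nat.shiftRight N (nat_lit 1)) w) w) w) w) w)))))))

def gr7 (T m w N : ℕ) : ℕ :=
  (Nat.add (tm3 T m (Nat.shiftRight N (nat_lit 1)))
    (Nat.add (tm3 T m (Nat.shiftRight (Nat.shiftRight N (nat_lit 1)) w))
    (Nat.add (tm3 T m (Nat.shiftRight (Nat.shiftRight (Nat.shiftRight N (nat_lit 1)) w) w))
    (Nat.add (tm3 T m (Nat.shiftRight (Nat.shiftRight (Nat.shiftRight (Nat.shiftRight N (nat_lit 1)) w) w) w))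
    (Nat.add (tm3 T m (Nat.shiftRight (Nat.shiftRight (Nat.shiftRight (Nat.shiftRight (Nat.shiftRight N (nat_lit 1)) w) w) w) w))
    (Nat.add (tm3 T m (Nat.shiftRight (Nat.shiftRight (Nat.shiftRight (Nat.shiftRight (Nat.shiftRight (Nat.shiftRight N (nat_lit 1)) w) w) w) w) w))
    (tm3 T m (Nat.shiftRight (Nat.shiftRight (Nat.shiftRight (Nat.shiftRight (Nat.shiftRight (Nat.shiftRight (Nat.shiftRight N (nat_lit 1)) w) w) w) w) w) w))))))))

def gr8 (T m w N : ℕ) : ℕ :=
  (Nat.add (tm3 T m (Nat.shiftRight N (nat_lit 1)))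
    (Nat.add (tm3 T m (Nat.shiftRight (Nat.shiftRight N (nat_lit 1)) w))
    (Nat.add (tm3 T m (Nat.shiftRight (Nat.shiftRight (Nat.shiftRight N (nat_lit 1)) w) w))
    (Nat.add (tm3 T m (Nat.shiftRight (Nat.shiftRight (Nat.shiftRight (Nat.shiftRight N (nat_lit 1)) w) w) w))
    (Nat.add (tm3 T m (Nat.shiftRight (Nat.shiftRight (Nat.shiftRight (Nat.shiftRight (Nat.shiftRight N (nat_lit 1)) w) w) w) w))
    (Nat.add (tm3 T m (Nat.shiftRight (Nat.shiftRight (Nat.shiftRight (Nat.shiftRight (Nat.shiftRight (Nat.shiftRight N (nat_lit 1)) w) w) w) w) w))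
    (Nat.add (tm3 T m (Nat.shiftRight (Nat.shiftRight (Nat.shiftRight (Nat.shiftRight (Nat.shiftRight (Nat.shiftRight (Nat.shiftRight N (nat_lit 1)) w) w) w) w) w) w))
    (tm3 T m (Nat.shiftRight (Nat.shiftRight (Nat.shiftRight (Nat.shiftRight (Nat.shiftRight (Nat.shiftRight (Nat.shiftRight (Nat.shiftRight N (nat_lit 1)) w) w) w) w) w) w) w)))))))))

noncomputable def grK (T m w v N : ℕ) (k : ℕ → ℕ → ℕ) : ℕ :=
  cnd (Nat.ble (Nat.land N (nat_lit 7)) (nat_lit 1))
    (cnd (Nat.beq (Nat.land N (nat_lit 7)) (nat_lit 0)) (k (gr1 T m N) (Nat.shiftRight (Nat.shiftRight N (nat_lit 1)) v)) (k (gr2 T m w N) (Nat.shiftRight (Nat.shiftRight (Nat.shiftRight N (nat_lit 1)) w) v)))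
    (cnd (Nat.ble (Nat.land N (nat_lit 7)) (nat_lit 3))
      (cnd (Nat.beq (Nat.land N (nat_lit 7)) (nat_lit 2)) (k (gr3 T m w N) (Nat.shiftRight (Nat.shiftRight (Nat.shiftRight (Nat.shiftRight N (nat_lit 1)) w) w) v)) (k (gr4 T m w N) (Nat.shiftRight (Nat.shiftRight (Nat.shiftRight (Nat.shiftRight (Nat.shiftRight N (nat_lit 1)) w) w) w) v)))
      (cnd (Nat.ble (Nat.land N (nat_lit 7)) (nat_lit 5))
        (cnd (Nat.beq (Nat.land N (nat_lit 7)) (nat_lit 4)) (k (gr5 T m w N) (Nat.shiftRight (Nat.shiftRight (Nat.shiftRight (Nat.shiftRight (Nat.shiftRight (Nat.shiftRight N (nat_lit 1)) w) w) w) w) v)) (k (gr6 T m w N) (Nat.shiftRight (Nat.shiftRight (Nat.shiftRight (Nat.shiftRight (Nat.shiftRight (Nat.shiftRight (Nat.shiftRight N (nat_lit 1)) w) w) w) w) w) v)))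
        (cnd (Nat.beq (Nat.land N (nat_lit 7)) (nat_lit 6)) (k (gr7 T m w N) (Nat.shiftRight (Nat.shiftRight (Nat.shiftRight (Nat.shiftRight (Nat.shiftRight (Nat.shiftRight (Nat.shiftRight (Nat.shiftRight N (nat_lit 1)) w) w) w) w) w) w) v)) (k (gr8 T m w N) (Nat.shiftRight (Nat.shiftRight (Nat.shiftRight (Nat.shiftRight (Nat.shiftRight (Nat.shiftRight (Nat.shiftRight (Nat.shiftRight (Nat.shiftRight N (nat_lit 1)) w) w) w) w) w) w) w) v)))))

noncomputable def lv2 (T m w v cnt : ℕ) : ℕ → ℕ :=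
  Nat.rec (motive := fun _ => ℕ → ℕ) (fun _ => nat_lit 0)
    (fun _ ih N => grK T m w v N fun L r => Nat.add
      (Nat.mul (genS T (Nat.shiftLeft (Nat.land N (nat_lit 1016)) (nat_lit 6))) L) (ih r)) cnt

noncomputable def lv1 (T m w v cnt : ℕ) : ℕ → ℕ :=
  Nat.rec (motive := fun _ => ℕ → ℕ) (fun _ => nat_lit 0)
    (fun _ ih N => Nat.add
      (Nat.mul (genS T (Nat.land N (nat_lit 65024)))
        (lv2 T m w v (Nat.land N (nat_lit 511)) (Nat.shiftRight N (nat_lit 32))))
      (ih (Nat.shiftRight N (Nat.land (Nat.shiftRight N (nat_lit 16)) (nat_lit 65535))))) cnt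

/-- the table of the ten variables -/
def cUT : ℕ := ∑ i : Fin 10, (2 ^ 460 + 2 ^ (46 * i.val)) * 2 ^ (512 * i.val)

noncomputable def rlt1 (D T w N : ℕ) : ℕ :=
  rfin D (Nat.add (Nat.land (Nat.shiftRight N (nat_lit 32)) (nat_lit 281474976710655)) (nat_lit 1))
    (Nat.land (Nat.shiftRight N (nat_lit 80)) (nat_lit 1152921504606846975))
    (lv1 T (Nat.sub (Nat.pow (nat_lit 2) w) (nat_lit 1)) (Nat.add w (nat_lit 7))
      (Nat.add w (nat_lit 16)) (Nat.land (Nat.shiftRight N (nat_lit 25)) (nat_lit 127))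
      (Nat.shiftRight N (nat_lit 140)))
    (Nat.shiftRight N (Nat.land N (nat_lit 262143)))

/-- degree three leaf -/
noncomputable def rlt (D T N : ℕ) : ℕ :=
  rlt1 D (Nat.add (Nat.shiftLeft T (nat_lit 5120)) cUT)
    (Nat.land (Nat.shiftRight N (nat_lit 18)) (nat_lit 127)) N

theorem cnd_ind {Q : ℕ → Prop} {b : Bool} {x y : ℕ} (hx : Q x) (hy : Q y) : Q (cnd b x y) := by
  cases b
  · exact hy
  · exact hx

section
variable {G : Type} [AddCommGroup G] [LinearOrder G] [IsOrderedAddMonoid G] {X : Fin 10 → G}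
  {st : G →+ ℤ}

omit [IsOrderedAddMonoid G] in
theorem genS_n1 (hst : ∀ g, 0 ≤ g → 0 ≤ st g) {T : ℕ} (hT : Tab (Gd X) T) (s : ℕ)
    (hs : s % 512 = 0) : N1 (vl X st) (genS T s) := by
  obtain ⟨k, rfl⟩ : ∃ k, s = 512 * k := ⟨s / 512, by omega⟩
  obtain ⟨⟨x, h1, h2⟩, h3⟩ := hT k
  have e : Nat.land (Nat.shiftRight T (512 * k)) m512 = ent T k := by
    rw [land_m512, Nat.shiftRight_eq, Nat.shiftRight_eq_div_pow, ent]
  rw [genS, e]
  obtain ⟨t, ht⟩ := conv_sound st h1 h3
  refine ⟨_, t, ht, hst _ ?_⟩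
  rcases h2 with h2 | h2
  · exact h2.le
  · rw [h2] at h1; exact h1.eq_zero.ge

omit [IsOrderedAddMonoid G] in
theorem tm3_n1 (hst : ∀ g, 0 ≤ g → 0 ≤ st g) {T : ℕ} (hT : Tab (Gd X) T) (m P : ℕ) :
    N1 (vl X st) (tm3 T m P) :=
  (genS_n1 hst hT _ (land_65024 P)).smul _

omit [IsOrderedAddMonoid G] in
theorem grK_ind (hst : ∀ g, 0 ≤ g → 0 ≤ st g) {T : ℕ} (hT : Tab (Gd X) T) (m w v N : ℕ)
    {Q : ℕ → Prop} {k : ℕ → ℕ → ℕ} (hk : ∀ L r, N1 (vl X st) L → Q (k L r)) :
    Q (grK T m w v N k) := by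
  have h := tm3_n1 hst hT m
  unfold grK
  refine cnd_ind (cnd_ind (hk _ _ ?_) (hk _ _ ?_)) (cnd_ind (cnd_ind (hk _ _ ?_) (hk _ _ ?_))
    (cnd_ind (cnd_ind (hk _ _ ?_) (hk _ _ ?_)) (cnd_ind (hk _ _ ?_) (hk _ _ ?_))))
  · exact (h _)
  · exact ((h _).add (h _))
  · exact ((h _).add ((h _).add (h _)))
  · exact ((h _).add ((h _).add ((h _).add (h _))))
  · exact ((h _).add ((h _).add ((h _).add ((h _).add (h _)))))
  · exact ((h _).add ((h _).add ((h _).add ((h _).add ((h _).add (h _))))))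
  · exact ((h _).add ((h _).add ((h _).add ((h _).add ((h _).add ((h _).add (h _)))))))
  · exact ((h _).add ((h _).add ((h _).add ((h _).add ((h _).add ((h _).add ((h _).add (h _))))))))

omit [IsOrderedAddMonoid G] in
theorem lv2_n2 (hst : ∀ g, 0 ≤ g → 0 ≤ st g) {T : ℕ} (hT : Tab (Gd X) T) (m w v : ℕ) :
    ∀ cnt N, N2 (vl X st) (lv2 T m w v cnt N) := by
  intro cnt
  induction cnt with
  | zero => intro N; exact N2.zero
  | succ c ih =>
    intro N
    change N2 _ (grK T m w v N fun L r => Nat.add (Nat.mul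
      (genS T (Nat.shiftLeft (Nat.land N (nat_lit 1016)) (nat_lit 6))) L) (lv2 T m w v c r))
    refine grK_ind hst hT m w v N (Q := N2 (vl X st)) fun L r hL => ?_
    refine ((genS_n1 hst hT _ ?_).mul1 hL).add (ih r)
    rw [Nat.shiftLeft_eq', Nat.shiftLeft_eq]
    have h1 : (N &&& 1016) % 2 ^ 3 = 0 := by rw [Nat.and_mod_two_pow]; simp
    have h2 : Nat.land N (nat_lit 1016) = N &&& 1016 := rfl
    have h3 : 2 ^ (nat_lit 6) = 64 := rfl
    rw [h2, h3]; omega

omit [IsOrderedAddMonoid G] in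
theorem lv1_n3 (hst : ∀ g, 0 ≤ g → 0 ≤ st g) {T : ℕ} (hT : Tab (Gd X) T) (m w v : ℕ) :
    ∀ cnt N, N3 (vl X st) (lv1 T m w v cnt N) := by
  intro cnt
  induction cnt with
  | zero => intro N; exact N3.zero
  | succ c ih =>
    intro N
    exact ((genS_n1 hst hT _ (land_65024 N)).mul2 (lv2_n2 hst hT m w v _ _)).add (ih _)

theorem cUT_ent : ∀ i : Fin 10, ent cUT i = 2 ^ 460 + 2 ^ (46 * i.val) ∧ ent cUT i < 2 ^ 487 := by
  decide +kernel

theorem cUT_lt : cUT < 2 ^ (512 * 10) := by decide +kernel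

theorem shl_add (T a n m : ℕ) (h : m = 512 * n) :
    Nat.add (Nat.shiftLeft T m) a = T * 2 ^ (512 * n) + a := by
  rw [Nat.shiftLeft_eq', Nat.shiftLeft_eq, h]; rfl

end

theorem rlt_sound {G : Type} [AddCommGroup G] [LinearOrder G] [IsOrderedAddMonoid G] (M : PM G)
    {T N : ℕ} (hT : Tab (Gd M.X) T) (h : rlt M.D T N ≠ 0) : False := by
  have hT' : Tab (Gd M.X) (Nat.add (Nat.shiftLeft T (nat_lit 5120)) cUT) := by
    rw [shl_add T cUT 10 _ rfl]
    refine hT.shift 10 cUT_lt fun k hk => ?_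
    obtain ⟨h1, h2⟩ := cUT_ent ⟨k, hk⟩
    refine ⟨?_, h2⟩
    rw [h1]
    exact ⟨_, Rep.unitP ⟨k, hk⟩, Or.inl (M.Xpos _)⟩
  unfold rlt rlt1 at h
  have h0 : ∀ i, 0 ≤ vl M.X M.st i := by
    intro i
    unfold vl
    split_ifs
    · exact M.st_nonneg _ (M.Xpos _).le
    · exact le_rfl
  have a1 := M.st_nonneg _ (sub_nonneg.2 M.amu1.le)
  have a2 := M.st_nonneg _ (sub_nonneg.2 M.amu2.le)
  have a3 := M.st_nonneg _ (sub_nonneg.2 M.amu3.le)
  simp only [map_sub, map_add] at a1 a2 a3
  have key := rfin_sound h0 (vl_last _ _) M.hD2 (Nat.succ_pos _)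
    ((Nat.succ_le_succ (land_le _ _)).trans (by decide)) ((land_le _ _).trans (by decide))
    (lv1_n3 M.st_nonneg hT' _ _ _ _ _) (by
      change M.st (M.X 0) + M.st (M.X 1) + M.st (M.X 2) + M.st (M.X 3) + M.st (M.X 4)
        + M.st (M.X 5) + M.st (M.X 6) + M.st (M.X 7) + M.st (M.X 8) + M.st (M.X 9)
        ≤ 4 * M.st (M.X 9)
      linarith) h
  have hb := M.big
  simp only [vl_cast] at key
  have : vl M.X M.st 9 = M.st (M.X 9) := rfl
  rw [this] at key
  linarith

end Pool.Agent.P.MP_6b6f6e_co
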