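import Pool.Agent.P.MP_6b6f6e_co.Kd

/-! The main certificate interpreter. -/

set_option exponentiation.threshold 600

namespace Pool.Agent.P.MP_6b6f6e_co

open Finset

abbrev RT := ℕ → ℕ → ℕ → ℕ

def m460 : ℕ := 2 ^ 460 - 1
def m486 : ℕ := 2 ^ 486 - 1
def m2048 : ℕ := 2 ^ (512 * 4) - 1

/-- drop a form that is identically zero -/
noncomputable def gz (a : ℕ) : ℕ := cnd (Nat.beq (Nat.land a m460) (nat_lit 0)) (nat_lit 0) a

/-- push if the flag is set -/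
noncomputable def pf (b T a : ℕ) : ℕ := cnd (Nat.beq b (nat_lit 0)) T (push T a)

def pushF (F a : ℕ) : ℕ := Nat.add (Nat.shiftLeft F (nat_lit 2048)) a

noncomputable def fr3 (ih : RT) (A N T1 T2 F r : ℕ) : ℕ :=
  ih (ih (ih r (push T1 (gz (e4 A 1))) F) (push T2 (gz (e4 A 2))) F)
    (push (pf (Nat.land N (nat_lit 17179869184)) T2 (ng (e4 A 2))) (gz (e4 A 3))) F

noncomputable def fr2 (ih : RT) (A N T1 F r : ℕ) : ℕ :=
  fr3 ih A N T1 (pf (Nat.land N (nat_lit 8589934592)) T1 (ng (e4 A 1))) F r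

noncomputable def fr1 (ih : RT) (A N T F : ℕ) : ℕ :=
  fr2 ih A N (pf (Nat.land N (nat_lit 4294967296)) T (ng (e4 A 0))) F
    (ih (Nat.shiftRight N (nat_lit 35)) (push T (gz (e4 A 0))) F)

noncomputable def fre (L : Lat) (ih : RT) (x y z N T F : ℕ) : ℕ :=
  cnd (mem L x y z) (fr1 ih (Nat.add (Nat.land (Nat.shiftRight F
    (Nat.shiftLeft (Nat.land N (nat_lit 248)) (nat_lit 8))) m2048) (vP x y z)) N T F) (nat_lit 0)

noncomputable def spl (ih : RT) (a r T F : ℕ) : ℕ :=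
  cnd (Nat.ble a m486) (ih (ih r (push T (gz a)) F) (push T (ng a)) F) (nat_lit 0)

/-- the table of the variables and their negatives -/
def cU2 : ℕ := pk 20 fun k => if h : k < 10 then uP ⟨k, h⟩ else
  if h : k - 10 < 10 then uM ⟨k - 10, h⟩ else 0

noncomputable def en2 (ih : RT) (i : Fin 4) (D A B fl N T F : ℕ) : ℕ :=
  ih N (pf (Nat.land fl (nat_lit 16)) (pf (Nat.land fl (nat_lit 8)) (pf (Nat.land fl (nat_lit 4))
    (pf (Nat.land fl (nat_lit 2)) (pf (Nat.land fl (nat_lit 1)) T (e4 A 0)) (e4 A 1)) (e4 A 2))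
    (e4 A 3)) (Nat.add (Nat.mul D (uP 9)) (ng (Nat.add (Nat.add (e4 A (i.succAbove 0))
      (e4 A (i.succAbove 1))) (e4 A (i.succAbove 2))))))
    (cnd (Nat.beq (Nat.land fl (nat_lit 32)) (nat_lit 0)) F (pushF F B))

def sh4 (a : ℕ) (i : Fin 4) : ℕ := Nat.shiftLeft a (Nat.mul (nat_lit 512) i.val)

noncomputable def ent1 (ih : RT) (i : Fin 4) (D P Q fm T F N x y z : ℕ) : ℕ :=
  en2 ih i D (Nat.add P (vM x y z)) (Nat.add Q (sh4 (e4 (vM x y z) i) i)) (Nat.land N fm)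
    (Nat.shiftRight N (nat_lit 6)) T F

def ux (N : ℕ) (i : Fin 4) : ℕ := raw N (Nat.add (nat_lit 5) (Nat.mul (nat_lit 24) i.val))
def uy (N : ℕ) (i : Fin 4) : ℕ := raw N (Nat.add (nat_lit 13) (Nat.mul (nat_lit 24) i.val))
def uz (N : ℕ) (i : Fin 4) : ℕ := raw N (Nat.add (nat_lit 21) (Nat.mul (nat_lit 24) i.val))
def pp (N : ℕ) (i : Fin 4) : ℕ := sP i (ux N i) (uy N i) (uz N i)
def pm (N : ℕ) (i : Fin 4) : ℕ := sM i (ux N i) (uy N i) (uz N i)
def kP (p : Fin 4 → ℕ) : ℕ :=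
  Nat.add (Nat.add (sh4 (p 0) 0) (sh4 (p 1) 1)) (Nat.add (sh4 (p 2) 2) (sh4 (p 3) 3))
def kM (i : Fin 4) (p : Fin 4 → ℕ) : ℕ :=
  Nat.add (Nat.add (sh4 (p (i.succAbove 0)) (i.succAbove 0)) (sh4 (p (i.succAbove 1)) (i.succAbove 1)))
    (sh4 (p (i.succAbove 2)) (i.succAbove 2))
def fmk (i : Fin 4) : ℕ := 63 - 2 ^ i.val

noncomputable def kd0 (ch : List ℕ) (L : Lat) (K : ℕ) (en : ℕ → ℕ → ℕ → ℕ → ℕ) (N : ℕ) : ℕ :=
  kd ch L K en (nat_lit 99) N (nat_lit 0) (nat_lit 0) (nat_lit 0) (nat_lit 131071)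
    (nat_lit 131071) (nat_lit 131071)

noncomputable def coN (ch : List ℕ) (L : Lat) (ih : RT) (i : Fin 4) (N T F : ℕ) : ℕ :=
  kd0 ch L (tk T (kL i L.D (pp N) (pm N)) (kL i L.D (pp N) (pm N)))
    (ent1 ih i L.D (kP (pp N)) (kM i (pm N)) (fmk i) T F) (Nat.shiftRight N (nat_lit 101))

noncomputable def wf (i : Fin 4) (W T r : ℕ) : ℕ :=
  far (push T (gz (e4 W (i.succAbove 2)))) (far (push T (gz (e4 W (i.succAbove 1))))
    (far (push T (gz (e4 W (i.succAbove 0)))) r))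

noncomputable def coW (ch : List ℕ) (L : Lat) (ih : RT) (i : Fin 4) (N T F : ℕ) : ℕ :=
  cnd (mem L (ux N i) (uy N i) (uz N i))
    (kd0 ch L (tk T (kL i L.D (pp N) (pm N)) (kU (pp N)))
      (ent1 ih i L.D (kP (pp N)) (kM i (pm N)) (nat_lit 63) T F)
      (ent1 ih i L.D (kP (pp N)) (kM i (pm N)) (fmk i) T F
        (wf i (Nat.add (kM i (pm N)) (vP (ux N i) (uy N i) (uz N i))) T
          (Nat.shiftRight N (nat_lit 101))) (ux N i) (uy N i) (uz N i))) (nat_lit 0)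

noncomputable def by4 (c : ℕ) (f : Fin 4 → ℕ) : ℕ :=
  cnd (Nat.ble c (nat_lit 8)) (cnd (Nat.beq c (nat_lit 0)) (f 0) (f 1))
    (cnd (Nat.beq c (nat_lit 16)) (f 2) (f 3))

noncomputable def forN (n : ℕ) (f : ℕ → ℕ → ℕ) (N : ℕ) : ℕ :=
  Nat.rec (motive := fun _ => ℕ) N (fun i r => f i r) n

noncomputable def tie (a b t : ℕ) : ℕ := cnd (Nat.beq a b) t (nat_lit 0)

noncomputable def ck2 (ih : RT) (D k1 k2 k3 V r T F : ℕ) : ℕ :=
  ih r (push (push (push (push (push (push (push T (e4 V 1)) (e4 V 2)) (e4 V 3))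
    (Nat.add (Nat.mul D (uP 9)) (e4 V 0)))
    (tie k1 D (Nat.add (Nat.mul D (aP1 1)) (e4 V 0))))
    (tie k2 k1 (Nat.mul D (Nat.add (aP2 2) (aM1 1)))))
    (tie k3 k2 (Nat.mul D (Nat.add (aP3 3) (aM2 2))))) (pushF F (e4 V 0))

noncomputable def ck1 (L : Lat) (ih : RT) (k1 k2 k3 r T F : ℕ) : ℕ :=
  cnd (mem L (Nat.add k1 cO) (Nat.add k2 cO) (Nat.add k3 cO))
    (ck2 ih L.D k1 k2 k3 (vP (Nat.add k1 cO) (Nat.add k2 cO) (Nat.add k3 cO)) r T F) r

noncomputable def caseK (L : Lat) (ih : RT) (N T F : ℕ) : ℕ :=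
  forN L.D (fun i r => forN (Nat.succ i) (fun j r => forN (Nat.succ j) (fun k r =>
    ck1 L ih (Nat.succ i) (Nat.succ j) (Nat.succ k) r T F) r) r) N

structure St where
  L : Lat
  T : ℕ
  F : ℕ

def St.is (s : St) (L : Lat) (T F : ℕ) : Bool :=
  Nat.beq s.T T && Nat.beq s.F F && Nat.beq s.L.D L.D && Nat.beq s.L.d1 L.d1 &&
    Nat.beq s.L.d2 L.d2 && Nat.beq s.L.d3 L.d3 && Nat.beq s.L.a L.a && Nat.beq s.L.b L.b &&
    Nat.beq s.L.c L.c

noncomputable def runX (ch : List ℕ) (hs : List St) (L : Lat) (ih : RT) (N T F : ℕ) : ℕ :=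
  cnd (Nat.ble (Nat.land N (nat_lit 7)) (nat_lit 4))
    (cnd (Nat.beq (Nat.land N (nat_lit 7)) (nat_lit 2))
      (by4 (Nat.land N (nat_lit 24)) fun i => coW ch L ih i N T F)
      (cnd (Nat.beq (Nat.land N (nat_lit 7)) (nat_lit 3))
        (rlt L.D T (Nat.shiftRight N (nat_lit 3)))
        (linK cU2 (Nat.shiftRight N (nat_lit 3)) fun S r => spl ih (Nat.land S m512) r T F)))
    (cnd (Nat.beq (Nat.land N (nat_lit 7)) (nat_lit 5))
      (cnd (Nat.beq (ih (nth ch (Nat.land (Nat.shiftRight N (nat_lit 3)) (nat_lit 4095))) T F)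
        (nat_lit 0)) (nat_lit 0) (Nat.shiftRight N (nat_lit 15)))
      (cnd (Nat.beq (Nat.land N (nat_lit 7)) (nat_lit 6))
        (by4 (Nat.land N (nat_lit 24)) fun i => coN ch L ih i N T F)
        (cnd (Nat.beq (Nat.land N (nat_lit 8)) (nat_lit 0))
          (cnd (hs.any fun s => s.is L T F) (Nat.shiftRight N (nat_lit 4)) (nat_lit 0))
          (caseK L ih (Nat.shiftRight N (nat_lit 4)) T F))))

noncomputable def runS (ch : List ℕ) (hs : List St) (L : Lat) (ih : RT) (N T F : ℕ) : ℕ :=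
  cnd (Nat.beq (Nat.land N (nat_lit 7)) (nat_lit 0)) (far T (Nat.shiftRight N (nat_lit 3)))
    (cnd (Nat.beq (Nat.land N (nat_lit 7)) (nat_lit 1))
      (fre L ih (raw N (nat_lit 8)) (raw N (nat_lit 16)) (raw N (nat_lit 24)) N T F)
      (runX ch hs L ih N T F))

noncomputable def run (ch : List ℕ) (hs : List St) (L : Lat) (fuel : ℕ) : RT :=
  Nat.rec (motive := fun _ => RT) (fun _ _ _ => nat_lit 0) (fun _ ih => runS ch hs L ih) fuel

noncomputable def caseH (ch : List ℕ) (hs : List St) (D N T F : ℕ) : ℕ :=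
  forN D (fun i r => forN D (fun j r =>
    cnd (Nat.beq (Nat.mod D (Nat.mul (Nat.succ i) (Nat.succ j))) (nat_lit 0))
      (forN (Nat.succ j) (fun a r =>
        forN (Nat.div D (Nat.mul (Nat.succ i) (Nat.succ j))) (fun b r =>
          forN (Nat.div D (Nat.mul (Nat.succ i) (Nat.succ j))) (fun c r =>
            run ch hs ⟨D, Nat.succ i, Nat.succ j, Nat.div D (Nat.mul (Nat.succ i) (Nat.succ j)),
              a, b, c⟩ (nat_lit 199) r T F) r) r) r) r) r) N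

def cT0 : ℕ := push (push (push 0 (uP 9 + aM1 1)) (uP 9 + aM2 2)) (uP 9 + aM3 3)

def cF0 (D : ℕ) : ℕ :=
  pushF (pushF (pushF 0 (sh4 (D * aM1 1) 1)) (sh4 (D * aM2 2) 2)) (sh4 (D * aM3 3) 3)

noncomputable def cut (D : ℕ) (ih : ℕ → ℕ → ℕ) (a r T : ℕ) : ℕ :=
  cnd (Nat.ble a m486) (ih (rlt D (push T (ng a)) r) (push T (gz a))) (nat_lit 0)

noncomputable def topS (ch : List ℕ) (hs : List St) (D : ℕ) (ih : ℕ → ℕ → ℕ) (N T : ℕ) : ℕ :=
  cnd (Nat.beq (Nat.land N (nat_lit 1)) (nat_lit 0))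
    (caseH ch hs D (Nat.shiftRight N (nat_lit 1)) T (cF0 D))
    (linK cU2 (Nat.shiftRight N (nat_lit 1)) fun S r => cut D ih (Nat.land S m512) r T)

noncomputable def top (ch : List ℕ) (hs : List St) (D fuel : ℕ) : ℕ → ℕ → ℕ :=
  Nat.rec (motive := fun _ => ℕ → ℕ → ℕ) (fun _ _ => nat_lit 0) (fun _ ih => topS ch hs D ih) fuel

theorem forN_0 {f : ℕ → ℕ → ℕ} (h : ∀ i, f i 0 = 0) : ∀ n, forN n f 0 = 0 := by
  intro n
  induction n with
  | zero => rfl
  | succ n ih =>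
    change f n (forN n f 0) = 0
    rw [ih, h]

theorem forN_zero {f : ℕ → ℕ → ℕ} (h : ∀ i, f i 0 = 0) {i : ℕ} (hi : ∀ r, f i r = 0) (N : ℕ) :
    ∀ n, i < n → forN n f N = 0 := by
  intro n
  induction n with
  | zero => intro h; omega
  | succ n ih =>
    intro hn
    change f n (forN n f N) = 0
    rcases Nat.lt_succ_iff_lt_or_eq.1 hn with h1 | rfl
    · rw [ih h1, h]
    · exact hi _

theorem run_zero (ch : List ℕ) (hs : List St) (L : Lat) (fuel T F : ℕ) :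
    run ch hs L fuel 0 T F = 0 := by
  cases fuel
  · rfl
  · change runS ch hs L _ 0 T F = 0
    delta runS
    exact cnd_zero (fun _ => far_zero _) fun h => absurd h (by decide)

theorem caseH_zero (ch : List ℕ) (hs : List St) (D T F : ℕ) : caseH ch hs D 0 T F = 0 := by
  delta caseH
  refine forN_0 (fun i => ?_) _
  refine forN_0 (fun j => ?_) _
  refine cnd_zero (fun _ => ?_) fun _ => rfl
  refine forN_0 (fun a => ?_) _
  refine forN_0 (fun b => ?_) _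
  refine forN_0 (fun c => ?_) _
  exact run_zero _ _ _ _ _ _

theorem top_zero (ch : List ℕ) (hs : List St) (D fuel T : ℕ) : top ch hs D fuel 0 T = 0 := by
  cases fuel
  · rfl
  · change topS ch hs D _ 0 T = 0
    delta topS
    exact cnd_zero (fun _ => caseH_zero _ _ _ _ _) fun h => absurd h (by decide)

end Pool.Agent.P.MP_6b6f6e_co
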