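import Pool.Agent.P.MP_6b6f6e_co.Run

/-! Soundness of the interpreter. -/

set_option exponentiation.threshold 600

namespace Pool.Agent.P.MP_6b6f6e_co

open Finset

section
variable {G : Type} [AddCommGroup G] [LinearOrder G] [IsOrderedAddMonoid G]

def TabF (M : PM G) (F : ℕ) : Prop :=
  ∀ k, ∃ b : Fin 4 → G, FreeB M.X M.Lam b ∧
    ∀ i : Fin 4, RB M.X (ent F (4 * k + i.val)) (-b i) (2 ^ 21)

theorem gz_gd (M : PM G) {a : ℕ} {x : G} (h : Rep M.X a x) (hx : 0 ≤ x) :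
    Gd M.X (gz a) ∧ gz a ≤ a := by
  delta gz
  cases hb : Nat.beq (Nat.land a m460) (nat_lit 0)
  · refine ⟨⟨x, h, Or.inl (lt_of_le_of_ne hx (h.ne_zero M.indep ?_).symm)⟩, le_rfl⟩
    have := Nat.ne_of_beq_eq_false hb
    rwa [m460, show Nat.land a (2 ^ 460 - 1) = a % 2 ^ 460 from
      Nat.and_two_pow_sub_one_eq_mod a 460] at this
  · exact ⟨Gd.clo.zero, Nat.zero_le _⟩

theorem push_gz (M : PM G) {T a : ℕ} {x : G} (hT : Tab (Gd M.X) T) (h : Rep M.X a x)
    (ha : a < 2 ^ 487) (hx : 0 ≤ x) : Tab (Gd M.X) (push T (gz a)) :=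
  hT.push (gz_gd M h hx).1 ((gz_gd M h hx).2.trans_lt ha)

theorem push_ng (M : PM G) {T a : ℕ} {x : G} (hT : Tab (Gd M.X) T) (h : Rep M.X a x)
    (ha : a < 2 ^ 486) (hx : x < 0) : Tab (Gd M.X) (push T (ng a)) :=
  hT.push ⟨_, (h.neg ha).1, Or.inl (neg_pos.2 hx)⟩ (h.neg ha).2

theorem push_rb (M : PM G) {T a n : ℕ} {x : G} (hT : Tab (Gd M.X) T) (h : RB M.X a x n)
    (hn : n < 2 ^ 24) (hx : 0 < x) : Tab (Gd M.X) (push T a) :=
  hT.push ⟨_, h.1, Or.inl hx⟩ ((h.lt hn).trans (by norm_num))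

theorem pf_tab {Q : ℕ → Prop} {b T a : ℕ} (hT : Tab Q T) (h : b ≠ 0 → Tab Q (push T a)) :
    Tab Q (pf b T a) := by
  delta pf
  cases hb : Nat.beq b (nat_lit 0)
  · exact h (Nat.ne_of_beq_eq_false hb)
  · exact hT

theorem TabF.push {M : PM G} {F : ℕ} (hF : TabF M F) {f : Fin 4 → ℕ} {b : Fin 4 → G}
    (hb : FreeB M.X M.Lam b) (h : ∀ i, RB M.X (f i) (-b i) (2 ^ 21)) :
    TabF M (pushF F (pk4 f)) := by
  have hf : ∀ i, f i < 2 ^ 512 := fun i => ((h i).lt (by norm_num)).trans (by norm_num)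
  intro k
  delta pushF
  rw [shl_add F _ 4 _ (by decide)]
  cases k with
  | zero =>
    refine ⟨b, hb, fun i => ?_⟩
    rw [ent_shift _ _ _ (pk4_lt hf), if_pos (by have := i.2; omega), mul_zero, zero_add, ← e4_ent,
      e4_pk4 hf]
    exact h i
  | succ k =>
    obtain ⟨b', h1, h2⟩ := hF k
    refine ⟨b', h1, fun i => ?_⟩
    rw [ent_shift _ _ _ (pk4_lt hf), if_neg (by omega),
      show 4 * (k + 1) + i.val - 4 = 4 * k + i.val by omega]
    exact h2 i

theorem TabF.zero (M : PM G) : TabF M 0 := by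
  intro k
  refine ⟨fun _ => 0, fun x y z _ => ?_, fun i => ?_⟩
  · by_contra h
    push Not at h
    have := Finset.sum_lt_sum_of_nonempty (s := Finset.univ) ⟨0, Finset.mem_univ _⟩
      fun i _ => h i
    rw [Rw_sum'] at this
    simp at this
  · have : ent 0 (4 * k + i.val) = 0 := by simp [ent]
    rw [this, neg_zero]
    exact RB.zero.congr rfl (Nat.zero_le _)

theorem face_eq (F N : ℕ) : ∃ k, Nat.land (Nat.shiftRight F
    (Nat.shiftLeft (Nat.land N (nat_lit 248)) (nat_lit 8))) m2048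
    = pk4 fun i => ent F (4 * k + i.val) := by
  have h1 : (N &&& 248) % 2 ^ 3 = 0 := by rw [Nat.and_mod_two_pow]; simp
  obtain ⟨k, hk⟩ : ∃ k, N &&& 248 = 8 * k := ⟨(N &&& 248) / 8, by omega⟩
  refine ⟨k, ?_⟩
  have h2 : Nat.shiftLeft (Nat.land N (nat_lit 248)) (nat_lit 8) = 512 * (4 * k) := by
    rw [Nat.shiftLeft_eq', Nat.shiftLeft_eq]
    change (N &&& 248) * 256 = _
    omega
  rw [h2, Nat.shiftRight_eq, Nat.shiftRight_eq_div_pow]
  have h3 : ∀ n A, Nat.land A (2 ^ n - 1) = A % 2 ^ n :=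
    fun n A => Nat.and_two_pow_sub_one_eq_mod A n
  delta m2048
  rw [h3, mod_pk, pk4]
  refine pk_congr 4 fun i hi => ?_
  simp only [fn4, hi, dif_pos, ent]
  rw [Nat.div_div_eq_div_mul, ← pow_add, ← mul_add]

/-- what is known about the recursive call -/
structure IH (M : PM G) (ih : RT) : Prop where
  zero : ∀ T F, ih 0 T F = 0
  ok : ∀ N T F, Tab (Gd M.X) T → TabF M F → ih N T F = 0

theorem fre_sound {M : PM G} {L : Lat} (hL : OKL M L) {ih : RT} (H : IH M ih) {x y z T F : ℕ}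
    (hx : x < 2 ^ 17) (hy : y < 2 ^ 17) (hz : z < 2 ^ 17) (N : ℕ) (hT : Tab (Gd M.X) T)
    (hF : TabF M F) : fre L ih x y z N T F = 0 := by
  delta fre
  refine cnd_zero (fun hm => ?_) fun _ => rfl
  obtain ⟨k, hk⟩ := face_eq F N
  obtain ⟨b, hb, hr⟩ := hF k
  rw [hk, vP_eq, Nat.add_eq, pk4_add]
  have h1 := fun i => (hr i).add (sP_rb i hx hy hz)
  have h2 := fun i => (h1 i).lt (by norm_num)
  have h3 := e4_pk4 fun i => (h2 i).trans (by norm_num : 2 ^ 485 < 2 ^ 512)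
  generalize pk4 (fun i => ent F (4 * k + i.val) + sP i x y z) = A at h3
  simp only [← h3] at h1 h2
  have p := fun i T hT => push_gz M (T := T) hT (h1 i).1 ((h2 i).trans (by norm_num))
  have q := fun i T hT => push_ng M (T := T) hT (h1 i).1 ((h2 i).trans (by norm_num))
  obtain ⟨i, hi⟩ := hb _ _ _ ((hL.mem _ _ _).1 hm)
  delta fr1 fr2 fr3
  rcases le_or_gt 0 (-b 0 + Rw M.X 0 (cv x) (cv y) (cv z)) with c0 | c0
  · rw [H.ok _ _ F (p 0 T hT c0) hF, H.zero, H.zero, H.zero]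
  have t1 := pf_tab (b := Nat.land N (nat_lit 4294967296)) hT fun _ => q 0 T hT c0
  rcases le_or_gt 0 (-b 1 + Rw M.X 1 (cv x) (cv y) (cv z)) with c1 | c1
  · rw [H.ok _ _ F (p 1 _ t1 c1) hF, H.zero, H.zero]
  have t2 := pf_tab (b := Nat.land N (nat_lit 8589934592)) t1 fun _ => q 1 _ t1 c1
  rcases le_or_gt 0 (-b 2 + Rw M.X 2 (cv x) (cv y) (cv z)) with c2 | c2
  · rw [H.ok _ _ F (p 2 _ t2 c2) hF, H.zero]
  have t3 := pf_tab (b := Nat.land N (nat_lit 17179869184)) t2 fun _ => q 2 _ t2 c2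
  refine H.ok _ _ F (p 3 _ t3 ?_) hF
  rw [neg_add_lt_iff_lt_add, add_zero] at c0 c1 c2
  rw [le_neg_add_iff_le]
  fin_cases i
  · exact absurd hi (not_le.2 c0)
  · exact absurd hi (not_le.2 c1)
  · exact absurd hi (not_le.2 c2)
  · exact hi

theorem Tab.pk0 {Q : ℕ → Prop} (hQ : Clo Q) {n : ℕ} {f : ℕ → ℕ}
    (h : ∀ k, k < n → Q (f k) ∧ f k < 2 ^ 487) : Tab Q (MP_6b6f6e_co.pk n f) := by
  have := (Tab.zero hQ).pk h
  rwa [zero_mul, zero_add] at this

omit [LinearOrder G] [IsOrderedAddMonoid G] in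
theorem cU2_tab (X : Fin 10 → G) : Tab (fun a => ∃ x, Rep X a x) cU2 := by
  refine Tab.pk0 Rep.clo fun k hk => ?_
  split_ifs with h1 h2
  · exact ⟨⟨_, (uP_rb _).1⟩, ((uP_rb (X := X) _).lt (by norm_num)).trans (by norm_num)⟩
  · exact ⟨⟨_, (uM_rb _).1⟩, ((uM_rb (X := X) _).lt (by norm_num)).trans (by norm_num)⟩
  · omega

omit [LinearOrder G] [IsOrderedAddMonoid G] in
theorem linK_zero (X : Fin 10 → G) (N : ℕ) {k : ℕ → ℕ → ℕ}
    (h : ∀ S r x, Rep X (Nat.land S m512) x → k S r = 0) : linK cU2 N k = 0 := by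
  by_contra hc
  obtain ⟨S, r, h1, h2⟩ := linK_sound Rep.clo (cU2_tab X) N k hc
  obtain ⟨x, hx⟩ := h1.out
  exact h2 (h S r x hx)

theorem lt_of_ble {a : ℕ} (h : Nat.ble a m486 = true) : a < 2 ^ 486 := by
  have := Nat.le_of_ble_eq_true h
  unfold m486 at this
  omega

theorem spl_sound {M : PM G} {ih : RT} (H : IH M ih) {a T F : ℕ} {x : G} (h : Rep M.X a x) (r : ℕ)
    (hT : Tab (Gd M.X) T) (hF : TabF M F) : spl ih a r T F = 0 := by
  delta spl
  refine cnd_zero (fun hb => ?_) fun _ => rfl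
  have ha := lt_of_ble hb
  rcases le_or_gt 0 x with c | c
  · rw [H.ok _ _ F (push_gz M hT h (ha.trans (by norm_num)) c) hF, H.zero]
  · exact H.ok _ _ F (push_ng M hT h ha c) hF

theorem sh4_eq (a : ℕ) (i : Fin 4) : sh4 a i = pk4 fun j => if j = i then a else 0 :=
  pk4_single i a

theorem kP_eq (p : Fin 4 → ℕ) : kP p = pk4 p := by
  simp only [kP, sh4_eq, Nat.add_eq, pk4_add]
  congr 1
  funext j
  fin_cases j <;> simp

theorem kM_eq (i : Fin 4) (p : Fin 4 → ℕ) : kM i p = pk4 fun j => if j = i then 0 else p j := by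
  simp only [kM, sh4_eq, Nat.add_eq, pk4_add]
  congr 1
  funext j
  fin_cases i <;> fin_cases j <;> simp [Fin.succAbove]

theorem ent1_zero {M : PM G} {ih : RT} (H : IH M ih) (i : Fin 4) (D P Q fm T F x y z : ℕ) :
    ent1 ih i D P Q fm T F 0 x y z = 0 := H.zero _ _

theorem ent1_sound {M : PM G} {ih : RT} (H : IH M ih) (i : Fin 4) {p m : Fin 4 → ℕ}
    {U : Fin 4 → G} (hp : ∀ j, RB M.X (p j) (U j) (2 ^ 21))
    (hm : ∀ j, RB M.X (m j) (-U j) (2 ^ 21)) {fm T F x y z : ℕ}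
    (hx : x < 2 ^ 17) (hy : y < 2 ^ 17) (hz : z < 2 ^ 17)
    (h : ∀ j, j ≠ i → Rw M.X j (cv x) (cv y) (cv z) < U j)
    (hW : Rw M.X i (cv x) (cv y) (cv z) < U i ∨ fm = fmk i)
    (hM : ∑ k : Fin 3, (U (i.succAbove k) - Rw M.X (i.succAbove k) (cv x) (cv y) (cv z))
      < (M.D : ℤ) • M.X 9)
    (hfree : FreeB M.X M.Lam fun j => if j = i then Rw M.X i (cv x) (cv y) (cv z) else U j)
    (hT : Tab (Gd M.X) T) (hF : TabF M F) (N : ℕ) :
    ent1 ih i M.D (kP p) (kM i m) fm T F N x y z = 0 := by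
  delta ent1
  have v1 := fun j => sM_rb (X := M.X) j hx hy hz
  have v2 := e4_pk4 fun j => ((v1 j).lt (by norm_num)).trans (by norm_num : 2 ^ 485 < 2 ^ 512)
  rw [kP_eq, kM_eq, vM_eq, v2, sh4_eq, Nat.add_eq, Nat.add_eq, pk4_add, pk4_add]
  have h1 := fun j => (hp j).add (v1 j)
  have h3 := e4_pk4 fun j => ((h1 j).lt (by norm_num)).trans (by norm_num : 2 ^ 485 < 2 ^ 512)
  generalize pk4 (fun j => p j + sM j x y z) = A at h3
  simp only [← h3] at h1
  have q : ∀ (j : Fin 4) T, Tab (Gd M.X) T →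
      Tab (Gd M.X) (pf (Nat.land (Nat.land N fm) (2 ^ j.val)) T (e4 A j)) := by
    intro j T hT
    refine pf_tab hT fun hb => push_rb M hT (h1 j) (by norm_num) ?_
    rw [← sub_eq_add_neg, sub_pos]
    by_cases hj : j = i
    · subst hj
      refine hW.resolve_right fun e => hb ?_
      have e2 : fmk j &&& 2 ^ j.val = 0 := (by decide : ∀ j : Fin 4, fmk j &&& 2 ^ j.val = 0) j
      change N &&& fm &&& 2 ^ j.val = 0
      rw [e, Nat.and_assoc, e2, Nat.and_zero]
    · exact h j hj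
  delta en2
  refine H.ok _ _ _ (pf_tab (q 3 _ (q 2 _ (q 1 _ (q 0 _ hT)))) fun _ => ?_) ?_
  · have s1 := ((h1 (i.succAbove 0)).add (h1 (i.succAbove 1))).add (h1 (i.succAbove 2))
    have s2 := s1.1.neg ((s1.lt (by norm_num)).trans (by norm_num))
    have s3 := ((uP_rb (X := M.X) 9).mul M.D)
    refine (q 3 _ (q 2 _ (q 1 _ (q 0 _ hT)))).push ⟨_, s3.1.add s2.1, Or.inl ?_⟩ ?_
    · rw [Fin.sum_univ_three, ← sub_pos] at hM
      refine hM.trans_eq ?_
      abel
    · have b1 := s1.2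
      have b2 := s3.2
      have b3 := M.hD2
      have b4 : ∀ a, ng a ≤ 2 * a + 2 ^ 460 := by
        intro a
        unfold ng
        rw [Nat.shiftLeft_eq', Nat.shiftRight_eq, Nat.shiftLeft_eq, Nat.shiftRight_eq_div_pow]
        simp only [Nat.add_eq, Nat.sub_eq, Nat.pow_eq]
        change (a + 2 ^ 459) / 2 ^ 460 * 2 ^ 461 - a ≤ _
        omega
      have b5 := b4 (e4 A (i.succAbove 0) + e4 A (i.succAbove 1) + e4 A (i.succAbove 2))
      simp only [Nat.add_eq, Nat.mul_eq]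
      omega
  · refine cnd_ind (Q := TabF M) hF (hF.push hfree fun j => ?_)
    by_cases hj : j = i
    · subst hj; simpa using v1 j
    · simpa [hj] using hm j

theorem Rw_ne (M : PM G) (i : Fin 4) {a b c : ℤ} (h : Rw M.X i a b c = 0) :
    a = 0 ∧ b = 0 ∧ c = 0 := by
  fin_cases i
  · have := M.indep ![-a, 0, 0, -b, 0, 0, -c, 0, 0, 0] (by
      rw [← h]; simp [Fin.sum_univ_succ, Rw]; abel)
    exact ⟨by simpa using this 0, by simpa using this 3, by simpa using this 6⟩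
  · have := M.indep ![a, a, a, 0, -b, 0, 0, -c, 0, 0] (by
      rw [← h]; simp [Fin.sum_univ_succ, Rw]; abel)
    exact ⟨by simpa using this 0, by simpa using this 4, by simpa using this 7⟩
  · have := M.indep ![0, -a, 0, b, b, b, 0, 0, -c, 0] (by
      rw [← h]; simp [Fin.sum_univ_succ, Rw]; abel)
    exact ⟨by simpa using this 1, by simpa using this 3, by simpa using this 8⟩
  · have := M.indep ![0, 0, -a, 0, 0, -b, c, c, c, 0] (by
      rw [← h]; simp [Fin.sum_univ_succ, Rw]; abel)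
    exact ⟨by simpa using this 2, by simpa using this 5, by simpa using this 6⟩

/-- the minimal point of a corner -/
theorem corner_pt (M : PM G) (i : Fin 4) (u : Fin 4 → ℤ × ℤ × ℤ) {U : Fin 4 → G}
    (hU : ∀ j, U j = Rw M.X j (u j).1 (u j).2.1 (u j).2.2) :
    ∃ x y z, M.Lam x y z ∧ (∀ j, j ≠ i → Rw M.X j x y z < U j) ∧
      (∀ x' y' z', M.Lam x' y' z' → (∀ j, j ≠ i → Rw M.X j x' y' z' < U j) →
        Rw M.X i x y z ≤ Rw M.X i x' y' z') ∧
      (FreeB M.X M.Lam fun j => if j = i then Rw M.X i x y z else U j) ∧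
      ∑ k : Fin 3, (U (i.succAbove k) - Rw M.X (i.succAbove k) x y z) < (M.D : ℤ) • M.X 9 := by
  obtain ⟨x, y, z, h1, h2, h3⟩ := M.exmin i U
  have hf : FreeB M.X M.Lam fun j => if j = i then Rw M.X i x y z else U j := by
    intro x' y' z' hl
    by_cases hc : ∀ j, j ≠ i → Rw M.X j x' y' z' < U j
    · exact ⟨i, by simpa using h3 x' y' z' hl hc⟩
    · push Not at hc
      obtain ⟨j, hj, hj'⟩ := hc
      exact ⟨j, by simpa [hj] using hj'⟩
  refine ⟨x, y, z, h1, h2, h3, hf, ?_⟩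
  have hc := M.cover (fun j => if j = i then (x, y, z) else u j) (by
    convert hf using 2 with j
    split_ifs with hj
    · rw [hj]
    · exact (hU j).symm)
  have hs := Rw_sum' M.X x y z
  rw [Fin.sum_univ_succAbove _ i] at hc hs
  simp only [if_true, Fin.succAbove_ne, if_false, ← hU] at hc
  rw [Finset.sum_sub_distrib, eq_neg_of_add_eq_zero_right hs, sub_neg_eq_add, add_comm]
  exact hc

def uu (N : ℕ) (j : Fin 4) : ℤ × ℤ × ℤ := (cv (ux N j), cv (uy N j), cv (uz N j))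

def UU (M : PM G) (N : ℕ) (j : Fin 4) : G := Rw M.X j (cv (ux N j)) (cv (uy N j)) (cv (uz N j))

theorem pp_rb (M : PM G) (N : ℕ) (j : Fin 4) : RB M.X (pp N j) (UU M N j) (2 ^ 21) :=
  sP_rb j (raw_lt _ _) (raw_lt _ _) (raw_lt _ _)

theorem pm_rb (M : PM G) (N : ℕ) (j : Fin 4) : RB M.X (pm N j) (-UU M N j) (2 ^ 21) :=
  sM_rb j (raw_lt _ _) (raw_lt _ _) (raw_lt _ _)

theorem UU_abs (M : PM G) (N : ℕ) (j : Fin 4) : |M.st (UU M N j)| ≤ 384 * M.st (M.X 9) :=
  M.st_abs j (raw_abs _ _) (raw_abs _ _) (raw_abs _ _)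

theorem coN_sound {M : PM G} {L : Lat} (hL : OKL M L) (ch : List ℕ) {ih : RT} (H : IH M ih)
    (i : Fin 4) {T F : ℕ} (N : ℕ) (hT : Tab (Gd M.X) T) (hF : TabF M F) :
    coN ch L ih i N T F = 0 := by
  obtain ⟨x, y, z, h1, h2, -, h4, h5⟩ := corner_pt M i (uu N) (U := UU M N) fun _ => rfl
  obtain ⟨f, e, hf⟩ := kL_base i M.hD2 (pp_rb M N) (pm_rb M N) (Rw_sum' M.X x y z) h2 h5
  delta coN kd0
  rw [hL.1, e]
  refine kd_sound hL h1 ch (fun _ _ _ _ _ _ hB => bf_tab M.Xpos hT hf hf hB) ?_ _ _ _ _ _ _ _ _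
    (M.crude' i (UU_abs M N) h2 h5)
  rintro N' a b c rfl rfl rfl ha hb hc
  exact ent1_sound H i (pp_rb M N) (pm_rb M N) ha hb hc h2 (Or.inr rfl) h5 h4 hT hF N'

theorem coW_sound {M : PM G} {L : Lat} (hL : OKL M L) (ch : List ℕ) {ih : RT} (H : IH M ih)
    (i : Fin 4) {T F : ℕ} (N : ℕ) (hT : Tab (Gd M.X) T) (hF : TabF M F) :
    coW ch L ih i N T F = 0 := by
  delta coW kd0
  refine cnd_zero (fun hm => ?_) fun _ => rfl
  have hw := (hL.mem _ _ _).1 hm
  have hx : ux N i < 2 ^ 17 := raw_lt _ _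
  have hy : uy N i < 2 ^ 17 := raw_lt _ _
  have hz : uz N i < 2 ^ 17 := raw_lt _ _
  by_cases hV : ∀ k : Fin 3, Rw M.X (i.succAbove k) (cv (ux N i)) (cv (uy N i)) (cv (uz N i))
      < UU M N (i.succAbove k)
  swap
  · push Not at hV
    obtain ⟨k, hk⟩ := hV
    have hwf : ∀ r, wf i (Nat.add (kM i (pm N)) (vP (ux N i) (uy N i) (uz N i))) T r = 0 := by
      intro r
      rw [kM_eq, vP_eq, Nat.add_eq, pk4_add]
      have v1 := fun j => sP_rb (X := M.X) j hx hy hz
      have h3 := e4_pk4 (f := fun j => (if j = i then 0 else pm N j)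
          + sP j (ux N i) (uy N i) (uz N i)) fun j => by
        have a1 := (v1 j).2
        have a2 := (pm_rb M N j).2
        split_ifs <;> omega
      have h1 := (pm_rb M N (i.succAbove k)).add (v1 (i.succAbove k))
      have h4 := h3 (i.succAbove k)
      rw [if_neg (Fin.succAbove_ne i k)] at h4
      rw [← h4] at h1
      have h5 := far_eq M.Xpos (push_gz M hT h1.1 ((h1.lt (by norm_num)).trans (by norm_num))
        (le_neg_add_iff_le.2 hk))
      delta wf
      obtain rfl | rfl | rfl : k = 0 ∨ k = 1 ∨ k = 2 := by fin_cases k <;> simp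
      · rw [h5, far_zero, far_zero]
      · rw [h5, far_zero]
      · rw [h5]
    rw [hwf, ent1_zero H, kd_zero]
  have hV' : ∀ j, j ≠ i → Rw M.X j (cv (ux N i)) (cv (uy N i)) (cv (uz N i)) < UU M N j := by
    intro j hj
    obtain ⟨k, rfl⟩ := Fin.exists_succAbove_eq hj
    exact hV k
  obtain ⟨x, y, z, h1, h2, h3, h4, h5⟩ := corner_pt M i (uu N) (U := UU M N) fun _ => rfl
  rw [hL.1]
  rcases (h3 _ _ _ hw hV').eq_or_lt with h6 | h6
  · obtain ⟨e1, e2, e3⟩ := Rw_ne M i (a := x - cv (ux N i)) (b := y - cv (uy N i))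
      (c := z - cv (uz N i)) (by rw [Rw_sub, h6, sub_self])
    obtain rfl := sub_eq_zero.1 e1
    obtain rfl := sub_eq_zero.1 e2
    obtain rfl := sub_eq_zero.1 e3
    rw [ent1_sound H i (pp_rb M N) (pm_rb M N) hx hy hz h2 (Or.inr rfl) h5 h4 hT hF, kd_zero]
  obtain ⟨f, e, hf⟩ := kL_base i M.hD2 (pp_rb M N) (pm_rb M N) (Rw_sum' M.X x y z) h2 h5
  obtain ⟨g, e', hg⟩ := kU_base (pp_rb M N) (r := fun j => Rw M.X j x y z) fun j => by
    by_cases hj : j = i
    · rw [hj]; exact h6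
    · exact h2 j hj
  rw [e, e']
  refine kd_sound hL h1 ch (fun _ _ _ _ _ _ hB => bf_tab M.Xpos hT hf hg hB) ?_ _ _ _ _ _ _ _ _
    (M.crude' i (UU_abs M N) h2 h5)
  rintro N' a b c rfl rfl rfl ha hb hc
  exact ent1_sound H i (pp_rb M N) (pm_rb M N) ha hb hc h2 (Or.inl h6) h5 h4 hT hF N'

theorem by4_zero {f : Fin 4 → ℕ} (h : ∀ i, f i = 0) (c : ℕ) : by4 c f = 0 :=
  cnd_zero (fun _ => cnd_zero (fun _ => h 0) fun _ => h 1)
    fun _ => cnd_zero (fun _ => h 2) fun _ => h 3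

theorem push_tie (M : PM G) {T a b t n : ℕ} {x : G} (hT : Tab (Gd M.X) T) (h : RB M.X t x n)
    (hn : n < 2 ^ 24) (hx : a = b → 0 < x) : Tab (Gd M.X) (push T (tie a b t)) := by
  delta tie
  cases hb : Nat.beq a b
  · exact hT.push Gd.clo.zero (Nat.two_pow_pos _)
  · exact push_rb M hT h hn (hx (Nat.eq_of_beq_eq_true hb))

theorem cv_off (k : ℕ) : cv (Nat.add k cO) = k := by
  rw [Nat.add_eq]; unfold cv cO; push_cast; ring

theorem caseK_sound {M : PM G} {L : Lat} (hL : OKL M L) {ih : RT} (H : IH M ih) {T F : ℕ} (N : ℕ)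
    (hT : Tab (Gd M.X) T) (hF : TabF M F) : caseK L ih N T F = 0 := by
  obtain ⟨k1, k2, k3, a1, a2, a3, a4, a5, b1, b2, b3, b4, c1, c2, c3⟩ := M.kfact
  have hD := M.hD2
  have z0 : ∀ k1 k2 k3, ck1 L ih k1 k2 k3 0 T F = 0 := fun _ _ _ =>
    cnd_zero (fun _ => H.zero _ _) fun _ => rfl
  have key : ∀ r, ck1 L ih k1 k2 k3 r T F = 0 := by
    intro r
    delta ck1
    refine cnd_zero (fun _ => ?_) fun h => ?_
    swap
    · rw [(hL.mem _ _ _).2 (by simpa only [cv_off] using a5)] at h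
      exact absurd h (by decide)
    have l1 : Nat.add k1 cO < 2 ^ 17 := by rw [Nat.add_eq]; unfold cO; omega
    have l2 : Nat.add k2 cO < 2 ^ 17 := by rw [Nat.add_eq]; unfold cO; omega
    have l3 : Nat.add k3 cO < 2 ^ 17 := by rw [Nat.add_eq]; unfold cO; omega
    have v1 := fun j => sP_rb (X := M.X) j l1 l2 l3
    have v2 := e4_pk4 fun j => ((v1 j).lt (by norm_num)).trans (by norm_num : 2 ^ 485 < 2 ^ 512)
    rw [← vP_eq] at v2
    simp only [← v2, cv_off] at v1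
    generalize vP (Nat.add k1 cO) (Nat.add k2 cO) (Nat.add k3 cO) = V at v1
    have hc := M.cover ![(-k1, -k2, -k3), (0, 0, 0), (0, 0, 0), (0, 0, 0)] (by
      convert b4 using 1
      funext j
      fin_cases j <;> simp [Rw]
      abel)
    rw [Fin.sum_univ_four] at hc
    have e0 : Rw M.X 0 (-k1) (-k2) (-k3) = -Rw M.X 0 k1 k2 k3 := by simp [Rw]; abel
    simp only [Matrix.cons_val_zero, Matrix.cons_val_one, Matrix.cons_val, Rw_zero, add_zero,
      e0] at hc
    delta ck2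
    rw [hL.1]
    refine H.ok _ _ _ (push_tie M (push_tie M (push_tie M (push_rb M (push_rb M (push_rb M
      (push_rb M hT (v1 1) (by norm_num) b1) (v1 2) (by norm_num) b2) (v1 3) (by norm_num) b3)
      (((uP_rb 9).mul M.D).add (v1 0)) (by omega) ?_)
      (((aP1_rb 1).mul M.D).add (v1 0)) (by omega) fun h => ?_)
      (((aP2_rb 2).add (aM1_rb 1)).mul M.D) (by omega) fun h => ?_)
      (((aP3_rb 3).add (aM2_rb 2)).mul M.D) (by omega) fun h => ?_) ?_
    · exact neg_lt_iff_pos_add.1 hc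
    · refine (sub_pos.2 (c1 h)).trans_eq ?_
      rw [Rw_lin M.X 1 M.D]; module
    · refine (sub_pos.2 (c2 h)).trans_eq ?_
      rw [Rw_lin M.X 1 M.D, Rw_lin M.X 2 0 M.D]; module
    · refine (sub_pos.2 (c3 h)).trans_eq ?_
      rw [Rw_lin M.X 3 0 0 M.D, Rw_lin M.X 2 0 M.D]; module
    · have e : e4 V 0 = pk4 fun j => if j = 0 then e4 V 0 else 0 := by
        rw [← sh4_eq]; rfl
      rw [e]
      refine hF.push b4 fun j => ?_
      fin_cases j
      · simpa using v1 0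
      all_goals simpa using RB.zero.congr rfl (Nat.zero_le _)
  obtain ⟨k1, rfl⟩ : ∃ k, k1 = k + 1 := ⟨k1 - 1, by omega⟩
  obtain ⟨k2, rfl⟩ : ∃ k, k2 = k + 1 := ⟨k2 - 1, by omega⟩
  obtain ⟨k3, rfl⟩ : ∃ k, k3 = k + 1 := ⟨k3 - 1, by omega⟩
  delta caseK
  refine forN_zero (fun i => ?_) (i := k1) (fun r => ?_) _ _ (hL.1 ▸ a4)
  · refine forN_0 (fun j => ?_) _
    refine forN_0 (fun k => ?_) _
    exact z0 _ _ _
  refine forN_zero (fun j => ?_) (i := k2) (fun r => ?_) _ _ a3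
  · refine forN_0 (fun k => ?_) _
    exact z0 _ _ _
  refine forN_zero (fun k => ?_) (i := k3) (fun r => ?_) _ _ a2
  · exact z0 _ _ _
  · exact key r

end

/-- no model is compatible with the state -/
def Unsat (s : St) : Prop :=
  ∀ (G : Type) [AddCommGroup G] [LinearOrder G] [IsOrderedAddMonoid G] (M : PM G),
    OKL M s.L → Tab (Gd M.X) s.T → TabF M s.F → False

theorem St.is_eq {s : St} {L : Lat} {T F : ℕ} (h : s.is L T F = true) : s = ⟨L, T, F⟩ := by
  obtain ⟨⟨D, d1, d2, d3, a, b, c⟩, T', F'⟩ := s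
  obtain ⟨D', d1', d2', d3', a', b', c'⟩ := L
  simp only [St.is, Bool.and_eq_true, Nat.beq_eq] at h
  simp only [St.mk.injEq, Lat.mk.injEq]
  tauto

section
variable {G : Type} [AddCommGroup G] [LinearOrder G] [IsOrderedAddMonoid G]

theorem rlt_eq (M : PM G) {T : ℕ} (hT : Tab (Gd M.X) T) (N : ℕ) : rlt M.D T N = 0 := by
  by_contra h
  exact rlt_sound M hT h

theorem run_sound {M : PM G} {L : Lat} (hL : OKL M L) (ch : List ℕ) {hs : List St}
    (hh : ∀ s ∈ hs, Unsat s) : ∀ fuel, IH M (run ch hs L fuel) := by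
  intro fuel
  refine ⟨run_zero ch hs L fuel, ?_⟩
  induction fuel with
  | zero => intros; rfl
  | succ n ih =>
    intro N T F hT hF
    have H : IH M (run ch hs L n) := ⟨run_zero ch hs L n, ih⟩
    change runS ch hs L (run ch hs L n) N T F = 0
    delta runS
    refine cnd_zero (fun _ => far_eq M.Xpos hT _) fun _ => cnd_zero
      (fun _ => fre_sound hL H (raw_lt _ _) (raw_lt _ _) (raw_lt _ _) N hT hF) fun _ => ?_
    delta runX
    refine cnd_zero (fun _ => cnd_zero (fun _ => by4_zero (fun i => coW_sound hL ch H i N hT hF) _)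
      fun _ => cnd_zero (fun _ => ?_) fun _ => ?_) fun _ => cnd_zero (fun _ => ?_)
      fun _ => cnd_zero (fun _ => by4_zero (fun i => coN_sound hL ch H i N hT hF) _)
      fun _ => cnd_zero (fun _ => ?_) fun _ => caseK_sound hL H _ hT hF
    · rw [hL.1]; exact rlt_eq M hT _
    · exact linK_zero M.X _ fun S r x hx => spl_sound H hx r hT hF
    · refine cnd_zero (fun _ => rfl) fun h => ?_
      rw [ih _ _ _ hT hF] at h
      exact absurd h (by decide)
    · refine cnd_zero (fun h => ?_) fun _ => rfl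
      obtain ⟨s, h1, h2⟩ := List.any_eq_true.1 h
      have := hh s h1
      rw [St.is_eq h2] at this
      exact (this G M hL hT hF).elim

theorem cF0_tab (M : PM G) : TabF M (cF0 M.D) := by
  have hD := M.hD2
  delta cF0
  rw [sh4_eq, sh4_eq, sh4_eq]
  refine (((TabF.zero M).push M.free1 fun j => ?_).push M.free2 fun j => ?_).push M.free3 fun j => ?_
  · fin_cases j
    swap
    · exact ((aM1_rb 1).mul M.D).congr (by simp [Rw]) (by omega)
    all_goals simpa using RB.zero.congr rfl (Nat.zero_le _)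
  · fin_cases j
    pick_goal 3
    · exact ((aM2_rb 2).mul M.D).congr (by simp [Rw]) (by omega)
    all_goals simpa using RB.zero.congr rfl (Nat.zero_le _)
  · fin_cases j
    pick_goal 4
    · exact ((aM3_rb 3).mul M.D).congr (by simp [Rw]) (by omega)
    all_goals simpa using RB.zero.congr rfl (Nat.zero_le _)

theorem cT0_tab (M : PM G) : Tab (Gd M.X) cT0 := by
  refine push_rb M (push_rb M (push_rb M (Tab.zero Gd.clo) ((uP_rb 9).add (aM1_rb 1)) (by norm_num)
    ?_) ((uP_rb 9).add (aM2_rb 2)) (by norm_num) ?_) ((uP_rb 9).add (aM3_rb 3)) (by norm_num) ?_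
  · exact (sub_pos.2 M.amu1).trans_eq (by simp only [Rw]; module)
  · exact (sub_pos.2 M.amu2).trans_eq (by simp only [Rw]; module)
  · exact (sub_pos.2 M.amu3).trans_eq (by simp only [Rw]; module)

theorem caseH_sound (M : PM G) (ch : List ℕ) {hs : List St} (hh : ∀ s ∈ hs, Unsat s) {T : ℕ}
    (hT : Tab (Gd M.X) T) (N : ℕ) : caseH ch hs M.D N T (cF0 M.D) = 0 := by
  obtain ⟨d1, d2, d3, a, b, c, h1, h2, h3, h4, h5⟩ := M.hnf
  have hD := M.hD1
  have p1 : 1 ≤ d1 := Nat.pos_of_ne_zero fun h => by rw [h] at h1; omega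
  have p2 : 1 ≤ d2 := Nat.pos_of_ne_zero fun h => by rw [h] at h1; omega
  have q1 : d1 ≤ M.D := Nat.le_of_dvd hD ⟨d2 * d3, by rw [← h1]; ring⟩
  have q2 : d2 ≤ M.D := Nat.le_of_dvd hD ⟨d1 * d3, by rw [← h1]; ring⟩
  obtain ⟨d1, rfl⟩ : ∃ k, d1 = k + 1 := ⟨d1 - 1, by omega⟩
  obtain ⟨d2, rfl⟩ : ∃ k, d2 = k + 1 := ⟨d2 - 1, by omega⟩
  have e3 : Nat.div M.D (Nat.mul (Nat.succ d1) (Nat.succ d2)) = d3 := by
    change M.D / ((d1 + 1) * (d2 + 1)) = d3
    rw [← h1, Nat.mul_div_cancel_left _ (by positivity)]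
  have e4 : Nat.mod M.D (Nat.mul (Nat.succ d1) (Nat.succ d2)) = 0 := by
    change M.D % ((d1 + 1) * (d2 + 1)) = 0
    rw [← h1, Nat.mul_mod_right]
  delta caseH
  refine forN_zero (fun i => ?_) (i := d1) (fun r => ?_) _ _ (by omega)
  · refine forN_0 (fun j => ?_) _
    refine cnd_zero (fun _ => ?_) fun _ => rfl
    refine forN_0 (fun a => ?_) _
    refine forN_0 (fun b => ?_) _
    refine forN_0 (fun c => ?_) _
    exact run_zero _ _ _ _ _ _
  refine forN_zero (fun j => ?_) (i := d2) (fun r => ?_) _ _ (by omega)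
  · refine cnd_zero (fun _ => ?_) fun _ => rfl
    refine forN_0 (fun a => ?_) _
    refine forN_0 (fun b => ?_) _
    refine forN_0 (fun c => ?_) _
    exact run_zero _ _ _ _ _ _
  refine cnd_zero (fun _ => ?_) fun h => ?_
  swap
  · rw [e4] at h; exact absurd h (by decide)
  rw [e3]
  refine forN_zero (fun a => ?_) (i := a) (fun r => ?_) _ _ h2
  · refine forN_0 (fun b => ?_) _
    refine forN_0 (fun c => ?_) _
    exact run_zero _ _ _ _ _ _
  refine forN_zero (fun b => ?_) (i := b) (fun r => ?_) _ _ h3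
  · refine forN_0 (fun c => ?_) _
    exact run_zero _ _ _ _ _ _
  refine forN_zero (fun c => ?_) (i := c) (fun r => ?_) _ _ h4
  · exact run_zero _ _ _ _ _ _
  exact (run_sound (L := ⟨M.D, d1 + 1, d2 + 1, d3, a, b, c⟩) ⟨rfl, h1, h5⟩ ch hh _).ok _ _ _ hT
    (cF0_tab M)

theorem top_sound (M : PM G) (ch : List ℕ) {hs : List St} (hh : ∀ s ∈ hs, Unsat s) :
    ∀ fuel N T, Tab (Gd M.X) T → top ch hs M.D fuel N T = 0 := by
  intro fuel
  induction fuel with
  | zero => intros; rfl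
  | succ n ih =>
    intro N T hT
    change topS ch hs M.D (top ch hs M.D n) N T = 0
    delta topS
    refine cnd_zero (fun _ => caseH_sound M ch hh hT _) fun _ => ?_
    refine linK_zero M.X _ fun S r x hx => ?_
    delta cut
    refine cnd_zero (fun hb => ?_) fun _ => rfl
    have ha := lt_of_ble hb
    rcases le_or_gt 0 x with c | c
    · exact ih _ _ (push_gz M hT hx (ha.trans (by norm_num)) c)
    · rw [rlt_eq M (push_ng M hT hx ha c), top_zero]

end

noncomputable def okb (ch : List ℕ) (hs : List St) (s : St) : Bool :=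
  Nat.beq (run ch hs s.L (nat_lit 199) (nth ch (nat_lit 0)) s.T s.F) (nat_lit 0)

noncomputable def okt (ch : List ℕ) (hs : List St) (D : ℕ) : Bool :=
  Nat.beq (top ch hs D (nat_lit 99) (nth ch (nat_lit 0)) cT0) (nat_lit 0)

theorem okb_sound {ch : List ℕ} {hs : List St} {s : St} (h : okb ch hs s = false)
    (hh : hs.Forall Unsat) : Unsat s := by
  intro G _ _ _ M hL hT hF
  delta okb at h
  rw [(run_sound hL ch (List.forall_iff_forall_mem.1 hh) _).ok _ _ _ hT hF] at h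
  exact absurd h (by decide)

/-- no model has the given index -/
def UnsatD (D : ℕ) : Prop :=
  ∀ (G : Type) [AddCommGroup G] [LinearOrder G] [IsOrderedAddMonoid G] (M : PM G), M.D ≠ D

theorem okt_sound {ch : List ℕ} {hs : List St} {D : ℕ} (h : okt ch hs D = false)
    (hh : hs.Forall Unsat) : UnsatD D := by
  rintro G _ _ _ M rfl
  delta okt at h
  rw [top_sound M ch (List.forall_iff_forall_mem.1 hh) _ _ _ (cT0_tab M)] at h
  exact absurd h (by decide)

end Pool.Agent.P.MP_6b6f6e_co
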