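import Mathlib

/-!
Sum covers of finite abelian groups that asymptotically meet the counting bound.
-/

namespace Pool.Agent.P.MP_6b6f6e_co.Two

/-- pairs with the twisted addition `(x,y) + (x',y') = (x+x', y+y'+x x')` -/
@[ext] structure W (F : Type) where
  x : F
  y : F

variable {F : Type} [CommRing F]

instance : Zero (W F) := ⟨⟨0, 0⟩⟩
instance : Add (W F) := ⟨fun a b => ⟨a.x + b.x, a.y + b.y + a.x * b.x⟩⟩
instance : Neg (W F) := ⟨fun a => ⟨-a.x, -a.y + a.x * a.x⟩⟩

theorem add_def (a b : W F) : a + b = ⟨a.x + b.x, a.y + b.y + a.x * b.x⟩ := rfl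
theorem neg_def (a : W F) : -a = ⟨-a.x, -a.y + a.x * a.x⟩ := rfl
theorem zero_def : (0 : W F) = ⟨0, 0⟩ := rfl

instance : AddCommGroup (W F) :=
  { AddGroup.ofLeftAxioms (G := W F)
      (fun a b c => by ext <;> simp only [add_def] <;> ring)
      (fun a => by ext <;> simp only [add_def, zero_def] <;> ring)
      (fun a => by ext <;> simp only [add_def, zero_def, neg_def] <;> ring) with
    add_comm := fun a b => by ext <;> simp only [add_def] <;> ring }

/-- the underlying set -/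
def eqv (F : Type) : W F ≃ F × F :=
  ⟨fun a => (a.x, a.y), fun p => ⟨p.1, p.2⟩, fun _ => rfl, fun _ => rfl⟩

theorem artin {F : Type} [Field F] [Finite F] [CharP F 2] {t : ℕ} (hq : Nat.card F = 3 * t + 2)
    (z : F) : ∃ x : F, x * (x + 1) = z ∨ x * (x + 1) = z + 1 := by
  have h2 : (2 : F) = 0 := CharP.ofNat_eq_zero F 2
  let φ : F →+ F :=
    { toFun := fun x => x * (x + 1)
      map_zero' := by simp
      map_add' := fun a b => by linear_combination (a * b) * h2 }
  have hk : Nat.card φ.ker = 2 := by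
    rw [Nat.card_eq_two_iff]
    refine ⟨⟨0, φ.ker.zero_mem⟩, ⟨1, ?_⟩, fun h => zero_ne_one (congrArg Subtype.val h), ?_⟩
    · change (1 : F) * (1 + 1) = 0
      linear_combination h2
    · ext ⟨x, hx⟩
      have hx' : x * (x + 1) = 0 := hx
      simp only [Set.mem_insert_iff, Subtype.mk.injEq, Set.mem_singleton_iff, Set.mem_univ,
        iff_true]
      rcases mul_eq_zero.1 hx' with h | h
      · exact Or.inl h
      · exact Or.inr (by linear_combination h - h2)
  have hi : φ.range.index = 2 := by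
    have e1 := φ.ker.card_mul_index
    have e2 := φ.range.card_mul_index
    rw [AddSubgroup.index_ker, hk] at e1
    have hp : 0 < Nat.card φ.range := Nat.card_pos
    have : Nat.card φ.range * φ.range.index = Nat.card φ.range * 2 := by omega
    exact Nat.eq_of_mul_eq_mul_left hp this
  have h1 : (1 : F) ∉ φ.range := by
    rintro ⟨x, hx⟩
    have hx' : x * (x + 1) = 1 := hx
    have := Fintype.ofFinite F
    have h3 : x ^ 3 = 1 := by linear_combination (x - 1) * hx' + (x - 1) * h2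
    have h4 := FiniteField.pow_card x
    rw [Fintype.card_eq_nat_card, hq, pow_add, pow_mul, h3] at h4
    have : (1 : F) = 0 := by linear_combination h4 - hx' + x * h2
    exact one_ne_zero this
  by_cases hz : z ∈ φ.range
  · obtain ⟨x, hx⟩ := hz
    exact ⟨x, Or.inl hx⟩
  · obtain ⟨x, hx⟩ := (AddSubgroup.add_mem_iff_of_index_two hi (a := z) (b := 1)).2 (by tauto)
    exact ⟨x, Or.inr hx⟩

theorem z2 : (∀ ε : ZMod 2, ε = 0 ∨ ε = 1) ∧ (1 + 1 : ZMod 2) = 0 := by decide

/-- a family covering a group of order `8 p^4` by sums of two members with distinct indices -/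
theorem strict (j : ℕ) : ∃ (K : Type) (_ : AddCommGroup K) (_ : Finite K)
    (k : Fin (4 * (2 ^ j) ^ 2 + 5 * 2 ^ j) → K), Nat.card K = 8 * (2 ^ j) ^ 4 ∧
      ∀ g, ∃ a b, a ≠ b ∧ k a + k b = g := by
  have : Fact (Nat.Prime 2) := ⟨Nat.prime_two⟩
  let F := GaloisField 2 (2 * j + 1)
  have hc : Nat.card F = 2 ^ (2 * j + 1) := GaloisField.card 2 _ (by omega)
  have hr : Module.finrank (ZMod 2) F = 2 * j + 1 := GaloisField.finrank 2 (by omega)
  have h2 : (2 : F) = 0 := CharP.ofNat_eq_zero F 2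
  obtain ⟨t, ht⟩ : ∃ t, 2 ^ (2 * j + 1) = 3 * t + 2 := by
    refine ⟨2 ^ (2 * j + 1) / 3, ?_⟩
    have : 2 ^ (2 * j + 1) % 3 = 2 := by
      rw [pow_succ, pow_mul, Nat.mul_mod, Nat.pow_mod]; norm_num
    omega
  let V1 := Fin j → ZMod 2
  let V2 := Fin (j + 1) → ZMod 2
  let φ : F ≃ₗ[ZMod 2] V1 × V2 := LinearEquiv.ofFinrankEq _ _ (by simp [hr, V1, V2]; ring)
  have : Finite (W F) := Finite.of_equiv _ (eqv F).symm
  let ι := (F ⊕ F) ⊕ V1 ⊕ V2 ⊕ V2
  let k : ι → ZMod 2 × W F := fun i => match i with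
    | .inl (.inl x) => (0, ⟨x, 0⟩)
    | .inl (.inr x) => (1, ⟨x, x * x⟩)
    | .inr (.inl u) => (0, ⟨0, φ.symm (u, 0)⟩)
    | .inr (.inr (.inl w)) => (0, ⟨0, φ.symm (0, w)⟩)
    | .inr (.inr (.inr w)) => (1, ⟨0, φ.symm (0, w)⟩)
  have hι : Nat.card ι = 4 * (2 ^ j) ^ 2 + 5 * 2 ^ j := by
    simp only [ι, V1, V2, Nat.card_sum, hc, Nat.card_fun, Nat.card_zmod, Nat.card_fin]
    ring
  let e : ι ≃ Fin (4 * (2 ^ j) ^ 2 + 5 * 2 ^ j) := Finite.equivFinOfCardEq hι
  refine ⟨ZMod 2 × W F, inferInstance, inferInstance, fun a => k (e.symm a), ?_, ?_⟩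
  · rw [Nat.card_prod, Nat.card_congr (eqv F), Nat.card_prod, hc, Nat.card_zmod]; ring
  suffices h : ∀ g, ∃ a b, a ≠ b ∧ k a + k b = g by
    intro g
    obtain ⟨a, b, h1, h2⟩ := h g
    exact ⟨e a, e b, e.injective.ne h1, by simpa using h2⟩
  rintro ⟨ε, a, y⟩
  have hε : ε = 0 ∨ ε = 1 := z2.1 ε
  have hy : φ.symm ((φ y).1, 0) + φ.symm (0, (φ y).2) = y := by
    rw [← map_add]; simp
  by_cases ha : a = 0
  · subst ha
    rcases hε with rfl | rfl
    · refine ⟨.inr (.inl (φ y).1), .inr (.inr (.inl (φ y).2)), by simp [ι], ?_⟩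
      simp [k, add_def, hy]
    · refine ⟨.inr (.inl (φ y).1), .inr (.inr (.inr (φ y).2)), by simp [ι], ?_⟩
      simp [k, add_def, hy]
  rcases hε with rfl | rfl
  · obtain ⟨x, hx⟩ := artin (hc.trans ht) (y / a ^ 2)
    have hy2 : y = a ^ 2 * (y / a ^ 2) := (mul_div_cancel₀ y (pow_ne_zero 2 ha)).symm
    rcases hx with hx | hx
    · refine ⟨.inl (.inl (a * x)), .inl (.inl (a * x + a)), by simpa [ι] using ha, ?_⟩
      simp only [k, Prod.mk_add_mk, add_def, add_zero, Prod.mk.injEq, W.mk.injEq, true_and]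
      exact ⟨by linear_combination (a * x) * h2, by linear_combination a ^ 2 * hx - hy2⟩
    · refine ⟨.inl (.inr (a * x)), .inl (.inr (a * x + a)), by simpa [ι] using ha, ?_⟩
      simp only [k, Prod.mk_add_mk, add_def, Prod.mk.injEq, W.mk.injEq]
      exact ⟨z2.2, by linear_combination (a * x) * h2,
        by linear_combination a ^ 2 * hx - hy2 + (a ^ 2 * (x ^ 2 + x + 1)) * h2⟩
  · have hy2 : y = a * (y / a) := (mul_div_cancel₀ y ha).symm
    refine ⟨.inl (.inl (a + y / a)), .inl (.inr (y / a)), by simp [ι], ?_⟩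
    simp only [k, Prod.mk_add_mk, add_def, zero_add, Prod.mk.injEq, W.mk.injEq, true_and]
    exact ⟨by linear_combination (y / a) * h2,
      by linear_combination -hy2 + (y / a) ^ 2 * h2⟩

/-- blowing up each member to a line of the plane over `ZMod Q` -/
theorem blow {K : Type} [AddCommGroup K] {n : ℕ} (k : Fin n → K)
    (hk : ∀ g, ∃ a b, a ≠ b ∧ k a + k b = g) (t : ℕ) :
    ∃ A : Finset (K × ZMod (t * n.factorial + 1) × ZMod (t * n.factorial + 1)),
      A.card ≤ n * (t * n.factorial + 1) ∧ ∀ g, ∃ a ∈ A, ∃ b ∈ A, a + b = g := by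
  classical
  let f : Fin n × ZMod (t * n.factorial + 1) →
      K × ZMod (t * n.factorial + 1) × ZMod (t * n.factorial + 1) :=
    fun p => (k p.1, p.2, (p.1 : ℕ) * p.2)
  refine ⟨Finset.univ.image f, Finset.card_image_le.trans (by simp), ?_⟩
  rintro ⟨g, u, v⟩
  obtain ⟨a, b, hab, rfl⟩ := hk g
  wlog h : a < b generalizing a b
  · rw [add_comm (k a)]
    exact this b a hab.symm (lt_of_le_of_ne (not_lt.1 h) hab.symm)
  obtain ⟨d, hd⟩ : ∃ d : ℕ, (b : ℕ) = a + d := ⟨b - a, by have := Fin.lt_def.1 h; omega⟩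
  have hd0 : 0 < d := by have := Fin.lt_def.1 h; omega
  have hdn : d ∣ n.factorial := Nat.dvd_factorial hd0 (by have := b.2; omega)
  have hco : d.Coprime (t * n.factorial + 1) := by
    obtain ⟨c, hc⟩ := hdn
    rw [hc, show t * (d * c) + 1 = 1 + (t * c) * d by ring]
    simp
  obtain ⟨w, hw⟩ := ((ZMod.isUnit_iff_coprime d _).2 hco).exists_right_inv
  refine ⟨f (a, u - w * (v - (a : ℕ) * u)), Finset.mem_image_of_mem _ (Finset.mem_univ _),
    f (b, w * (v - (a : ℕ) * u)), Finset.mem_image_of_mem _ (Finset.mem_univ _), ?_⟩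
  simp only [f, Prod.mk_add_mk, Prod.mk.injEq, true_and, hd]
  push_cast
  exact ⟨by ring, by linear_combination (v - (a : ℕ) * u) * hw⟩

theorem coef {G : Type} [AddCommGroup G] {A : Finset G} {a b : G} (ha : a ∈ A) (hb : b ∈ A) :
    ∃ l : G → ℕ, ∑ c ∈ A, l c ≤ 2 ∧ ∑ c ∈ A, l c • c = a + b := by
  classical
  refine ⟨fun c => (if c = a then 1 else 0) + (if c = b then 1 else 0), ?_, ?_⟩
  · simp [Finset.sum_add_distrib, ha, hb]
  · simp [Finset.sum_add_distrib, add_smul, ha, hb]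

open Pointwise in
theorem count {G : Type} [AddCommGroup G] [Finite G] (A : Finset G)
    (h : ∀ g : G, ∃ l : G → ℕ, ∑ a ∈ A, l a ≤ 2 ∧ ∑ a ∈ A, l a • a = g) :
    Nat.card G ≤ (A.card + 2).choose 2 := by
  classical
  have := Fintype.ofFinite G
  let B : Finset G := insert 0 A
  have h0 : (0 : G) ∈ (B : Set G) := by simp [B]
  have key : ∀ (l : G → ℕ) (S : Finset G), S ⊆ B →
      ∑ a ∈ S, l a • a ∈ (∑ a ∈ S, l a) • (B : Set G) := by
    intro l S
    induction S using Finset.induction_on with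
    | empty => intro _; simp
    | insert a S ha ih =>
      intro hS
      rw [Finset.sum_insert ha, Finset.sum_insert ha, add_nsmul]
      exact Set.add_mem_add (Set.nsmul_mem_nsmul (hS (Finset.mem_insert_self _ _)))
        (ih ((Finset.subset_insert _ _).trans hS))
  have hs : Finset.univ ⊆ B.sym2.image (Sym2.lift ⟨fun a b => a + b, add_comm⟩) := by
    intro g _
    obtain ⟨l, h1, rfl⟩ := h g
    have := Set.nsmul_subset_nsmul_right h0 h1 (key l A (Finset.subset_insert _ _))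
    rw [two_nsmul] at this
    obtain ⟨a, ha, b, hb, e⟩ := this
    exact Finset.mem_image.2 ⟨s(a, b), Finset.mk_mem_sym2_iff.2 ⟨ha, hb⟩, e⟩
  have h1 := (Finset.card_le_card hs).trans Finset.card_image_le
  rw [Finset.card_sym2, Finset.card_univ, Fintype.card_eq_nat_card] at h1
  exact h1.trans (Nat.choose_le_choose 2 (Nat.succ_le_succ (Finset.card_insert_le 0 A)))

end Pool.Agent.P.MP_6b6f6e_co.Two
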